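import Mathlib

/-! Basic tools: ultrafilter limits of connected sets, irreducible continua, a Whitney-type
function on nonempty sets. -/

set_option autoImplicit false
set_option linter.unusedSectionVars false
set_option linter.deprecated false

open Set Topology Filter Metric

namespace Run7.h149.Fan

section Lim

variable {X : Type*} [MetricSpace X] [CompactSpace X] {ι : Type*}

/-- the limit of a family of sets along an ultrafilter -/
def LimS (F : Ultrafilter ι) (C : ι → Set X) : Set X :=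
  {z | ∀ N ∈ 𝓝 z, ∀ᶠ i in (F : Filter ι), (C i ∩ N).Nonempty}

lemma isClosed_LimS (F : Ultrafilter ι) (C : ι → Set X) : IsClosed (LimS F C) := by
  rw [← closure_subset_iff_isClosed]
  intro z hz N hN
  obtain ⟨U, hUN, hU, hzU⟩ := _root_.mem_nhds_iff.1 hN
  obtain ⟨w, hwU, hw⟩ := mem_closure_iff.1 hz U hU hzU
  filter_upwards [hw U (hU.mem_nhds hwU)] with i hi
  exact hi.mono (inter_subset_inter_right _ hUN)

lemma mem_LimS_of_tendsto {F : Ultrafilter ι} {C : ι → Set X} {s : ι → X} {z : X}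
    (hs : ∀ᶠ i in (F : Filter ι), s i ∈ C i) (hz : Tendsto s F (𝓝 z)) : z ∈ LimS F C := by
  intro N hN
  filter_upwards [hs, hz hN] with i h1 h2
  exact ⟨s i, h1, h2⟩

/-- every sequence has a limit along an ultrafilter -/
lemma exists_lim (F : Ultrafilter ι) (s : ι → X) : ∃ z, Tendsto s F (𝓝 z) := by
  obtain ⟨z, -, hz⟩ := isCompact_univ.ultrafilter_le_nhds (F.map s) (by simp)
  exact ⟨z, hz⟩

lemma exists_seq_of_mem_LimS {F : Ultrafilter ι} {C : ι → Set X} {z : X}
    (hC : ∀ᶠ i in (F : Filter ι), IsClosed (C i)) (hz : z ∈ LimS F C) :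
    ∃ s : ι → X, (∀ᶠ i in (F : Filter ι), s i ∈ C i) ∧ Tendsto s F (𝓝 z) := by
  classical
  have key : ∀ i, ∃ w, (IsClosed (C i) → (C i).Nonempty → w ∈ C i ∧
      Metric.infDist z (C i) = dist z w) := by
    intro i
    by_cases h : IsClosed (C i) ∧ (C i).Nonempty
    · obtain ⟨w, hw, hw'⟩ := h.1.isCompact.exists_infDist_eq_dist h.2 z
      exact ⟨w, fun _ _ => ⟨hw, hw'⟩⟩
    · exact ⟨z, fun h1 h2 => absurd ⟨h1, h2⟩ h⟩
  choose s hs using key
  have hne : ∀ᶠ i in (F : Filter ι), (C i).Nonempty := by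
    filter_upwards [hz univ univ_mem] with i hi
    exact hi.mono inter_subset_left
  refine ⟨s, ?_, ?_⟩
  · filter_upwards [hC, hne] with i h1 h2
    exact (hs i h1 h2).1
  · rw [Metric.tendsto_nhds]
    intro ε hε
    filter_upwards [hC, hz (ball z ε) (ball_mem_nhds z hε)] with i h1 h2
    obtain ⟨w, hw, hwz⟩ := h2
    have := hs i h1 ⟨w, hw⟩
    rw [dist_comm, ← this.2]
    refine lt_of_le_of_lt (Metric.infDist_le_dist_of_mem hw) ?_
    rw [dist_comm]
    exact hwz

lemma isPreconnected_LimS {F : Ultrafilter ι} {C : ι → Set X}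
    (hC : ∀ᶠ i in (F : Filter ι), IsPreconnected (C i)) : IsPreconnected (LimS F C) := by
  classical
  rw [isPreconnected_closed_iff]
  intro K₁ K₂ h1 h2 hsub ⟨a, haL, ha1⟩ ⟨b, hbL, hb2⟩
  by_contra hne
  have hdis : Disjoint (LimS F C ∩ K₁) (LimS F C ∩ K₂) := by
    rw [Set.disjoint_left]
    intro x hx1 hx2
    exact hne ⟨x, hx1.1, hx1.2, hx2.2⟩
  have c1 : IsClosed (LimS F C ∩ K₁) := (isClosed_LimS F C).inter h1
  have c2 : IsClosed (LimS F C ∩ K₂) := (isClosed_LimS F C).inter h2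
  obtain ⟨O₁, O₂, o1, o2, s1, s2, hO⟩ := normal_separation c1 c2 hdis
  have hev : ∀ᶠ i in (F : Filter ι), C i ⊆ O₁ ∪ O₂ := by
    by_contra hcon
    have h3 : ∀ᶠ i in (F : Filter ι), ¬ C i ⊆ O₁ ∪ O₂ := by
      have := (Ultrafilter.eventually_not (f := F) (p := fun i => C i ⊆ O₁ ∪ O₂)).2 hcon
      exact this
    have key : ∀ i, ∃ w, (¬ C i ⊆ O₁ ∪ O₂ → w ∈ C i ∧ w ∉ O₁ ∪ O₂) := by
      intro i
      by_cases h : C i ⊆ O₁ ∪ O₂
      · exact ⟨a, fun h' => absurd h h'⟩
      · obtain ⟨w, hw, hw'⟩ := not_subset.1 h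
        exact ⟨w, fun _ => ⟨hw, hw'⟩⟩
    choose s hs using key
    obtain ⟨z, hz⟩ := exists_lim F s
    have hzL : z ∈ LimS F C := mem_LimS_of_tendsto (h3.mono fun i hi => (hs i hi).1) hz
    have hzO : z ∈ (O₁ ∪ O₂)ᶜ := by
      refine (o1.union o2).isClosed_compl.mem_of_tendsto hz ?_
      exact h3.mono fun i hi => (hs i hi).2
    rcases hsub hzL with h | h
    · exact hzO (Or.inl (s1 ⟨hzL, h⟩))
    · exact hzO (Or.inr (s2 ⟨hzL, h⟩))
  have ha' : ∀ᶠ i in (F : Filter ι), (C i ∩ O₁).Nonempty :=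
    haL O₁ (o1.mem_nhds (s1 ⟨haL, ha1⟩))
  have hb' : ∀ᶠ i in (F : Filter ι), (C i ∩ O₂).Nonempty :=
    hbL O₂ (o2.mem_nhds (s2 ⟨hbL, hb2⟩))
  obtain ⟨i, hi⟩ := (hC.and (hev.and (ha'.and hb'))).exists
  obtain ⟨x, -, hx1, hx2⟩ := hi.1 O₁ O₂ o1 o2 hi.2.1 hi.2.2.1 hi.2.2.2
  exact Set.disjoint_left.1 hO hx1 hx2

/-- the intersection of all continua containing `x` and `y` -/
def Icon (x y : X) : Set X := {z | ∀ C : Set X, IsClosed C → IsConnected C → x ∈ C → y ∈ C → z ∈ C}

lemma Icon_comm (x y : X) : Icon x y = Icon y x := by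
  ext z
  constructor
  · intro h C h1 h2 h3 h4; exact h C h1 h2 h4 h3
  · intro h C h1 h2 h3 h4; exact h C h1 h2 h4 h3

lemma left_mem_Icon (x y : X) : x ∈ Icon x y := fun _ _ _ h _ => h
lemma right_mem_Icon (x y : X) : y ∈ Icon x y := fun _ _ _ _ h => h

lemma isClosed_Icon (x y : X) : IsClosed (Icon x y) := by
  have : Icon x y = ⋂ (C : Set X) (_ : IsClosed C) (_ : IsConnected C) (_ : x ∈ C) (_ : y ∈ C), C := by
    ext z
    simp only [Icon, mem_setOf_eq, mem_iInter]
  rw [this]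
  refine isClosed_iInter fun C => isClosed_iInter fun h => isClosed_iInter fun _ =>
    isClosed_iInter fun _ => isClosed_iInter fun _ => h

/-- lower semicontinuity -/
lemma lsc {p q z : X} (hz : z ∈ Icon p q) {ε : ℝ} (hε : 0 < ε) :
    ∃ δ > 0, ∀ C : Set X, IsPreconnected C → ∀ p' ∈ C, ∀ q' ∈ C, dist p' p < δ → dist q' q < δ →
      ∃ z' ∈ C, dist z' z < ε := by
  by_contra hcon
  push Not at hcon
  choose C hC p' hp' q' hq' hpd hqd hz' using
    fun n : ℕ => hcon (1 / ((n : ℝ) + 1)) Nat.one_div_pos_of_nat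
  set F : Ultrafilter ℕ := hyperfilter ℕ
  have hF : (F : Filter ℕ) ≤ atTop := by
    rw [← Nat.cofinite_eq_atTop]; exact hyperfilter_le_cofinite
  have hp : Tendsto p' F (𝓝 p) := by
    refine Tendsto.mono_left ?_ hF
    rw [tendsto_iff_dist_tendsto_zero]
    exact squeeze_zero (fun _ => dist_nonneg) (fun n => (hpd n).le)
      tendsto_one_div_add_atTop_nhds_zero_nat
  have hq : Tendsto q' F (𝓝 q) := by
    refine Tendsto.mono_left ?_ hF
    rw [tendsto_iff_dist_tendsto_zero]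
    exact squeeze_zero (fun _ => dist_nonneg) (fun n => (hqd n).le)
      tendsto_one_div_add_atTop_nhds_zero_nat
  have hpL : p ∈ LimS F C := mem_LimS_of_tendsto (Eventually.of_forall hp') hp
  have hqL : q ∈ LimS F C := mem_LimS_of_tendsto (Eventually.of_forall hq') hq
  have := hz (LimS F C) (isClosed_LimS F C)
    ⟨⟨p, hpL⟩, isPreconnected_LimS (Eventually.of_forall hC)⟩ hpL hqL
  obtain ⟨n, w, hw, hwz⟩ := (this (ball z ε) (ball_mem_nhds z hε)).exists
  exact absurd hwz (not_lt.2 (hz' n w hw))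

end Lim

section Whitney

variable {X : Type*} [MetricSpace X] [CompactSpace X] [Nonempty X]

/-- bump functions -/
noncomputable def gb (n : ℕ) (z : X) : ℝ := 1 / (1 + dist z (TopologicalSpace.denseSeq X n))

lemma gb_pos (n : ℕ) (z : X) : 0 < gb n z := by unfold gb; positivity

lemma gb_le_one (n : ℕ) (z : X) : gb n z ≤ 1 := by
  unfold gb
  rw [div_le_one (by positivity)]
  linarith [dist_nonneg (x := z) (y := TopologicalSpace.denseSeq X n)]

lemma gb_lip (n : ℕ) (z w : X) : gb n z ≤ gb n w + dist z w := by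
  unfold gb
  set c := TopologicalSpace.denseSeq X n
  have h1 : dist w c ≤ dist w z + dist z c := dist_triangle _ _ _
  have h2 : 0 ≤ dist z c := dist_nonneg
  have h3 : 0 ≤ dist w c := dist_nonneg
  have h4 : 0 ≤ dist z w := dist_nonneg
  rw [dist_comm w z] at h1
  have : 1 / (1 + dist z c) - 1 / (1 + dist w c) ≤ dist z w := by
    rw [div_sub_div _ _ (by positivity) (by positivity), div_le_iff₀ (by positivity)]
    nlinarith [mul_nonneg h2 h3, mul_nonneg h4 (mul_nonneg h2 h3), mul_nonneg h4 h2, mul_nonneg h4 h3]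
  linarith

/-- Whitney-type function -/
noncomputable def Wf (K : Set X) : ℝ := ∑' n : ℕ, (1 / 2 : ℝ) ^ n * sSup (gb n '' K)

lemma bdd_gb (n : ℕ) (K : Set X) : BddAbove (gb n '' K) := by
  refine ⟨1, ?_⟩
  rintro _ ⟨z, -, rfl⟩
  exact gb_le_one n z

lemma sup_mem (n : ℕ) (K : Set X) (hK : K.Nonempty) : sSup (gb n '' K) ∈ Icc (0:ℝ) 1 := by
  constructor
  · obtain ⟨z, hz⟩ := hK
    exact (gb_pos n z).le.trans (le_csSup (bdd_gb n K) ⟨z, hz, rfl⟩)
  · refine csSup_le (hK.image _) ?_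
    rintro _ ⟨z, -, rfl⟩
    exact gb_le_one n z

lemma summable_W (K : Set X) (hK : K.Nonempty) :
    Summable fun n : ℕ => (1 / 2 : ℝ) ^ n * sSup (gb n '' K) := by
  refine Summable.of_nonneg_of_le (fun n => mul_nonneg (by positivity) (sup_mem n K hK).1)
    (fun n => ?_) summable_geometric_two
  exact mul_le_of_le_one_right (by positivity) (sup_mem n K hK).2

lemma Wf_near {K K' : Set X} (hK : K.Nonempty) (hK' : K'.Nonempty) {ε : ℝ}
    (h : ∀ x ∈ K', ∃ y ∈ K, dist x y ≤ ε) : Wf K' ≤ Wf K + 2 * ε := by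
  have h1 : ∀ n, (1 / 2 : ℝ) ^ n * sSup (gb n '' K') ≤
      (1 / 2 : ℝ) ^ n * sSup (gb n '' K) + (1 / 2 : ℝ) ^ n * ε := by
    intro n
    rw [← mul_add]
    refine mul_le_mul_of_nonneg_left ?_ (by positivity)
    refine csSup_le (hK'.image _) ?_
    rintro _ ⟨x, hx, rfl⟩
    obtain ⟨y, hy, hxy⟩ := h x hx
    have := le_csSup (bdd_gb n K) ⟨y, hy, rfl⟩
    linarith [gb_lip n x y]
  have hs : Summable fun n : ℕ => (1 / 2 : ℝ) ^ n * ε := summable_geometric_two.mul_right ε
  have h2 := (summable_W K' hK').tsum_le_tsum h1 ((summable_W K hK).add hs)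
  rw [(summable_W K hK).tsum_add hs, tsum_mul_right, tsum_geometric_two] at h2
  exact h2

lemma Wf_mono {K K' : Set X} (hK : K.Nonempty) (h : K ⊆ K') : Wf K ≤ Wf K' := by
  have := Wf_near (K := K') (K' := K) (hK.mono h) hK (ε := 0)
    (fun x hx => ⟨x, h hx, by simp⟩)
  linarith

lemma Wf_strict {K K' : Set X} (hK : K.Nonempty) (hc : IsClosed K) (h : K ⊆ K') {x : X}
    (hx : x ∈ K') (hxK : x ∉ K) : Wf K < Wf K' := by
  have hpos : 0 < infDist x K := (hc.notMem_iff_infDist_pos hK).1 hxK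
  obtain ⟨n, hn⟩ : ∃ n, dist x (TopologicalSpace.denseSeq X n) < infDist x K / 2 := by
    obtain ⟨_, ⟨n, rfl⟩, hy⟩ := Metric.mem_closure_iff.1
      ((TopologicalSpace.denseRange_denseSeq X).closure_eq ▸ mem_univ x) _ (half_pos hpos)
    exact ⟨n, hy⟩
  refine (summable_W K hK).tsum_lt_tsum (i := n) (fun m => ?_) ?_ (summable_W K' (hK.mono h))
  · exact mul_le_mul_of_nonneg_left
      (csSup_le_csSup (bdd_gb m K') (hK.image _) (image_mono h)) (by positivity)
  · refine mul_lt_mul_of_pos_left ?_ (by positivity)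
    have h1 : sSup (gb n '' K) ≤ 1 / (1 + infDist x K / 2) := by
      refine csSup_le (hK.image _) ?_
      rintro _ ⟨z, hz, rfl⟩
      unfold gb
      have h2 : infDist x K ≤ dist x z := infDist_le_dist_of_mem hz
      have h3 := dist_triangle x (TopologicalSpace.denseSeq X n) z
      rw [dist_comm (TopologicalSpace.denseSeq X n) z] at h3
      refine one_div_le_one_div_of_le (by positivity) ?_
      linarith
    have h2 : 1 / (1 + infDist x K / 2) < gb n x := by
      unfold gb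
      refine one_div_lt_one_div_of_lt (by positivity) ?_
      linarith
    exact (h1.trans_lt h2).trans_le (le_csSup (bdd_gb n K') ⟨x, hx, rfl⟩)

end Whitney

end Run7.h149.Fan
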