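import Mathlib
import Pool.Agent.Run7.h149.Fan.Basic

/-! Loop erasure: a path between two distinct points contains an arc. -/

set_option autoImplicit false
set_option linter.unusedSectionVars false
set_option linter.deprecated false

open Set Topology Filter Metric

namespace Run7.h149.Fan

variable {X : Type*} [MetricSpace X] [CompactSpace X]

/-- sets of parameters obtained by cutting loops -/
def Cut (γ : ℝ → X) (F : Set ℝ) : Prop :=
  IsClosed F ∧ F ⊆ Icc 0 1 ∧ (0:ℝ) ∈ F ∧ (1:ℝ) ∈ F ∧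
    ∀ a ∈ F, ∀ b ∈ F, a < b → Ioo a b ∩ F = ∅ → γ a = γ b

lemma exists_min_cut (γ : ℝ → X) (hγ : Continuous γ) :
    ∃ F, Cut γ F ∧ ∀ F', Cut γ F' → F' ⊆ F → F' = F := by
  have h0 : Cut γ (Icc (0:ℝ) 1) := by
    refine ⟨isClosed_Icc, subset_rfl, by simp, by simp, ?_⟩
    intro a ha b hb hab he
    exfalso
    have : (a + b) / 2 ∈ Ioo a b ∩ Icc (0:ℝ) 1 :=
      ⟨⟨by linarith, by linarith⟩, ⟨by linarith [ha.1, hb.1], by linarith [ha.2, hb.2]⟩⟩
    rw [he] at this
    exact this
  obtain ⟨m, -, hm⟩ := zorn_superset_nonempty {F | Cut γ F} (by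
    intro c hc hchain hne
    refine ⟨⋂₀ c, ?_, fun s hs => sInter_subset_of_mem hs⟩
    obtain ⟨F₀, hF₀⟩ := hne
    refine ⟨isClosed_sInter fun F hF => (hc hF).1, (sInter_subset_of_mem hF₀).trans (hc hF₀).2.1,
      fun F hF => (hc hF).2.2.1, fun F hF => (hc hF).2.2.2.1, ?_⟩
    intro a ha b hb hab he
    by_contra hne
    -- open neighbourhoods
    obtain ⟨U, V, hU, hV, haU, hbV, hUV⟩ := t2_separation hne
    have hU' : IsOpen (γ ⁻¹' U) := hU.preimage hγ
    have hV' : IsOpen (γ ⁻¹' V) := hV.preimage hγ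
    obtain ⟨ε, hε, hεU⟩ := Metric.isOpen_iff.1 hU' a haU
    obtain ⟨δ, hδ, hδV⟩ := Metric.isOpen_iff.1 hV' b hbV
    set η := min (min ε δ) (b - a) / 3 with hη
    have hηpos : 0 < η := by
      have : 0 < min (min ε δ) (b - a) := lt_min (lt_min hε hδ) (by linarith)
      linarith
    have hη1 : 3 * η ≤ ε := by
      have : min (min ε δ) (b - a) ≤ ε := (min_le_left _ _).trans (min_le_left _ _)
      linarith
    have hη2 : 3 * η ≤ δ := by
      have : min (min ε δ) (b - a) ≤ δ := (min_le_left _ _).trans (min_le_right _ _)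
      linarith
    have hη3 : 3 * η ≤ b - a := by
      have : min (min ε δ) (b - a) ≤ b - a := min_le_right _ _
      linarith
    obtain ⟨F, hF, hFe⟩ : ∃ F ∈ c, Icc (a + η) (b - η) ∩ F = ∅ := by
      by_contra hcon
      push Not at hcon
      have := IsCompact.nonempty_sInter_of_directed_nonempty_isCompact_isClosed
        (S := (fun F => Icc (a + η) (b - η) ∩ F) '' c) (hS := ⟨⟨_, F₀, hF₀, rfl⟩⟩) ?_ ?_ ?_ ?_
      · obtain ⟨z, hz⟩ := this
        have h1 : z ∈ Icc (a + η) (b - η) := (hz _ ⟨F₀, hF₀, rfl⟩).1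
        have h2 : z ∈ Ioo a b ∩ ⋂₀ c :=
          ⟨⟨by linarith [h1.1], by linarith [h1.2]⟩, fun F hF => (hz _ ⟨F, hF, rfl⟩).2⟩
        rw [he] at h2
        exact h2
      · rintro _ ⟨F, hF, rfl⟩ _ ⟨F', hF', rfl⟩
        rcases eq_or_ne F F' with rfl | hFF
        · exact ⟨_, ⟨F, hF, rfl⟩, subset_rfl, subset_rfl⟩
        rcases hchain hF hF' hFF with h | h
        · exact ⟨_, ⟨F, hF, rfl⟩, subset_rfl, inter_subset_inter_right _ h⟩
        · exact ⟨_, ⟨F', hF', rfl⟩, inter_subset_inter_right _ h, subset_rfl⟩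
      · rintro _ ⟨F, hF, rfl⟩
        exact hcon F hF
      · rintro _ ⟨F, hF, rfl⟩
        exact isCompact_Icc.inter_right (hc hF).1
      · rintro _ ⟨F, hF, rfl⟩
        exact isClosed_Icc.inter (hc hF).1
    -- endpoints of the gap of F
    have haF : a ∈ F := ha F hF
    have hbF : b ∈ F := hb F hF
    have hFc := (hc hF).1
    set A := F ∩ Icc a (a + η)
    set B := F ∩ Icc (b - η) b
    have hAc : IsCompact A := (isCompact_Icc.inter_left hFc)
    have hBc : IsCompact B := (isCompact_Icc.inter_left hFc)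
    have hAne : A.Nonempty := ⟨a, haF, by simp [hηpos.le]⟩
    have hBne : B.Nonempty := ⟨b, hbF, by simp [hηpos.le]⟩
    obtain ⟨a', ha'A, ha'⟩ := hAc.exists_isGreatest hAne
    obtain ⟨b', hb'B, hb'⟩ := hBc.exists_isLeast hBne
    have hab' : a' < b' := by
      have h1 := ha'A.2.2
      have h2 := hb'B.2.1
      linarith
    have hgap : Ioo a' b' ∩ F = ∅ := by
      rw [eq_empty_iff_forall_notMem]
      rintro z ⟨⟨hz1, hz2⟩, hzF⟩
      rcases le_or_gt z (a + η) with h | h
      · have := ha' ⟨hzF, by linarith [ha'A.2.1], h⟩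
        linarith
      rcases le_or_gt (b - η) z with h' | h'
      · have := hb' ⟨hzF, h', by linarith [hb'B.2.2]⟩
        linarith
      · have : z ∈ Icc (a + η) (b - η) ∩ F := ⟨⟨h.le, h'.le⟩, hzF⟩
        rw [hFe] at this
        exact this
    have hEq := (hc hF).2.2.2.2 a' ha'A.1 b' hb'B.1 hab' hgap
    have h1 : γ a' ∈ U := hεU (by
      rw [mem_ball, Real.dist_eq, abs_lt]
      constructor <;> linarith [ha'A.2.1, ha'A.2.2])
    have h2 : γ b' ∈ V := hδV (by
      rw [mem_ball, Real.dist_eq, abs_lt]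
      constructor <;> linarith [hb'B.2.1, hb'B.2.2])
    rw [hEq] at h1
    exact Set.disjoint_left.1 hUV h1 h2) (Icc (0:ℝ) 1) h0
  exact ⟨m, hm.1, fun F' hF' hsub => subset_antisymm hsub (hm.2 hF' hsub)⟩

variable [Nonempty X]

/-- **Loop erasure.** -/
theorem exists_arc_of_path (γ : ℝ → X) (hγ : Continuous γ) (hne : γ 0 ≠ γ 1) :
    ∃ η : ℝ → X, Continuous η ∧ InjOn η (Icc 0 1) ∧ η 0 = γ 0 ∧ η 1 = γ 1 := by
  classical
  obtain ⟨F, ⟨hFc, hF01, h0F, h1F, hgap⟩, hmin⟩ := exists_min_cut γ hγ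
  -- minimality
  have hinj : ∀ a ∈ F, ∀ b ∈ F, a < b → γ a = γ b → Ioo a b ∩ F = ∅ := by
    intro a ha b hb hab he
    have hcut : Cut γ (F \ Ioo a b) := by
      refine ⟨hFc.sdiff isOpen_Ioo, diff_subset.trans hF01, ⟨h0F, ?_⟩, ⟨h1F, ?_⟩, ?_⟩
      · intro h; linarith [h.1, (hF01 ha).1]
      · intro h; linarith [h.2, (hF01 hb).2]
      · intro c hc d hd hcd hg
        by_cases hcase : Ioo c d ∩ F = ∅
        · exact hgap c hc.1 d hd.1 hcd hcase
        · obtain ⟨z, hz, hzF⟩ := nonempty_iff_ne_empty.2 hcase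
          have hzab : z ∈ Ioo a b := by
            by_contra hzn
            have : z ∈ Ioo c d ∩ (F \ Ioo a b) := ⟨hz, hzF, hzn⟩
            rw [hg] at this
            exact this
          have hca : c = a := by
            rcases lt_trichotomy c a with h | h | h
            · exfalso
              have : a ∈ Ioo c d ∩ (F \ Ioo a b) :=
                ⟨⟨h, lt_trans hzab.1 hz.2⟩, ha, fun h' => lt_irrefl _ h'.1⟩
              rw [hg] at this
              exact this
            · exact h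
            · exfalso
              exact hc.2 ⟨h, lt_trans hz.1 hzab.2⟩
          have hdb : d = b := by
            rcases lt_trichotomy d b with h | h | h
            · exfalso
              exact hd.2 ⟨lt_trans hzab.1 hz.2, h⟩
            · exact h
            · exfalso
              have : b ∈ Ioo c d ∩ (F \ Ioo a b) :=
                ⟨⟨lt_trans hz.1 hzab.2, h⟩, hb, fun h' => lt_irrefl _ h'.2⟩
              rw [hg] at this
              exact this
          rw [hca, hdb, he]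
    have := hmin _ hcut diff_subset
    rw [eq_empty_iff_forall_notMem]
    rintro z ⟨hz, hzF⟩
    rw [← this] at hzF
    exact hzF.2 hz
  -- the parameter
  set T : ℝ → Set X := fun s => γ '' (F ∩ Iic s) with hT
  have hTne : ∀ s, 0 ≤ s → (T s).Nonempty := fun s hs => ⟨γ 0, 0, ⟨h0F, hs⟩, rfl⟩
  have hTcpt : ∀ s, IsCompact (T s) := by
    intro s
    refine IsCompact.image ?_ hγ
    have : F ∩ Iic s = F ∩ Icc 0 1 ∩ Iic s := by
      rw [inter_eq_self_of_subset_left hF01]
    rw [this]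
    exact (isCompact_Icc.inter_left hFc).inter_right isClosed_Iic
  have hTmono : ∀ s s', s ≤ s' → T s ⊆ T s' := fun s s' h =>
    image_mono (inter_subset_inter_right _ (Iic_subset_Iic.2 h))
  set μ : ℝ → ℝ := fun s => Wf (T s) with hμ
  have hμmono : ∀ s s', 0 ≤ s → s ≤ s' → μ s ≤ μ s' := fun s s' h0 h =>
    Wf_mono (hTne s h0) (hTmono s s' h)
  have hμeq : ∀ s ∈ F, ∀ s' ∈ F, s ≤ s' → μ s = μ s' → γ s = γ s' := by
    intro s hs s' hs' hss he
    rcases hss.eq_or_lt with rfl | hlt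
    · rfl
    by_contra hcon
    have hmem : γ s' ∈ T s := by
      by_contra hn
      exact absurd he (Wf_strict (hTne s (hF01 hs).1) (hTcpt s).isClosed (hTmono s s' hss)
        (x := γ s') ⟨s', ⟨hs', mem_Iic.2 le_rfl⟩, rfl⟩ hn).ne
    obtain ⟨r, ⟨hrF, hrs⟩, hr⟩ := hmem
    have hrs' : r ≤ s := hrs
    have := hinj r hrF s' hs' (lt_of_le_of_lt hrs' hlt) hr
    rcases hrs'.eq_or_lt with rfl | h
    · exact hcon hr
    · have h' : s ∈ Ioo r s' ∩ F := ⟨⟨h, hlt⟩, hs⟩
      rw [this] at h'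
      exact h'
  have hμcont : ContinuousOn μ F := by
    rw [Metric.continuousOn_iff]
    intro s hs ε hε
    have hu := isCompact_Icc.uniformContinuousOn_of_continuous (hγ.continuousOn (s := Icc (0:ℝ) 1))
    rw [Metric.uniformContinuousOn_iff] at hu
    obtain ⟨δ, hδ, hd⟩ := hu (ε / 4) (by linarith)
    refine ⟨δ, hδ, ?_⟩
    have key : ∀ s₁ ∈ F, ∀ s₂ ∈ F, s₁ ≤ s₂ → dist s₁ s₂ < δ → |μ s₁ - μ s₂| < ε := by
      intro s₁ h1 s₂ h2 h12 hdist
      have ha := hμmono s₁ s₂ (hF01 h1).1 h12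
      have hb : μ s₂ ≤ μ s₁ + 2 * (ε / 4) := by
        refine Wf_near (hTne _ (hF01 h1).1) (hTne _ (hF01 h2).1) ?_
        rintro _ ⟨r, ⟨hrF, hr⟩, rfl⟩
        have hr' : r ≤ s₂ := hr
        rcases le_or_gt r s₁ with h | h
        · exact ⟨γ r, ⟨r, ⟨hrF, h⟩, rfl⟩, by simp; linarith⟩
        · refine ⟨γ s₁, ⟨s₁, ⟨h1, mem_Iic.2 le_rfl⟩, rfl⟩, (hd r (hF01 hrF) s₁ (hF01 h1) ?_).le⟩
          rw [Real.dist_eq, abs_lt] at *
          constructor <;> linarith [hdist.1, hdist.2]
      rw [abs_lt]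
      constructor <;> linarith
    intro s' hs' hdist
    rw [Real.dist_eq]
    rcases le_total s' s with h | h
    · exact key s' hs' s hs h hdist
    · rw [abs_sub_comm]
      exact key s hs s' hs' h (by rw [dist_comm]; exact hdist)
  have hFcpt : IsCompact F := by
    have : F = F ∩ Icc 0 1 := (inter_eq_self_of_subset_left hF01).symm
    rw [this]
    exact isCompact_Icc.inter_left hFc
  have h01 : μ 0 < μ 1 := by
    rcases (hμmono 0 1 le_rfl zero_le_one).eq_or_lt with h | h
    · exact absurd (hμeq 0 h0F 1 h1F zero_le_one h) hne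
    · exact h
  -- surjectivity onto the interval
  have hsurj : ∀ v ∈ Icc (μ 0) (μ 1), ∃ s ∈ F, μ s = v := by
    intro v hv
    by_contra hcon
    push Not at hcon
    have hA : IsCompact (F ∩ {s | s ∈ F ∧ μ s ≤ v}) := by
      have h1 : IsClosed {s | s ∈ F ∧ μ s ≤ v} := by
        have := hμcont.preimage_isClosed_of_isClosed hFc (isClosed_Iic (a := v))
        exact this
      exact hFcpt.inter_right h1
    have hB : IsCompact (F ∩ {s | s ∈ F ∧ v ≤ μ s}) := by
      have h1 : IsClosed {s | s ∈ F ∧ v ≤ μ s} := by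
        have := hμcont.preimage_isClosed_of_isClosed hFc (isClosed_Ici (a := v))
        exact this
      exact hFcpt.inter_right h1
    obtain ⟨a, haA, ha⟩ := hA.exists_isGreatest ⟨0, h0F, h0F, hv.1⟩
    obtain ⟨b, hbB, hb⟩ := hB.exists_isLeast ⟨1, h1F, h1F, hv.2⟩
    have haF := haA.1
    have hbF := hbB.1
    have ha1 : μ a < v := lt_of_le_of_ne haA.2.2 (hcon a haF)
    have hb1 : v < μ b := lt_of_le_of_ne hbB.2.2 (Ne.symm (hcon b hbF))
    have hab : a < b := by
      by_contra h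
      push Not at h
      have := hμmono b a (hF01 hbF).1 h
      linarith
    have hg : Ioo a b ∩ F = ∅ := by
      rw [eq_empty_iff_forall_notMem]
      rintro z ⟨⟨hz1, hz2⟩, hzF⟩
      rcases le_total (μ z) v with h | h
      · have := ha ⟨hzF, hzF, h⟩
        linarith
      · have := hb ⟨hzF, hzF, h⟩
        linarith
    have he := hgap a haF b hbF hab hg
    have : T b = T a := by
      apply subset_antisymm
      · rintro _ ⟨r, ⟨hrF, hr⟩, rfl⟩
        have hr' : r ≤ b := hr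
        rcases hr'.eq_or_lt with rfl | h
        · exact ⟨a, ⟨haF, mem_Iic.2 le_rfl⟩, he⟩
        · rcases le_or_gt r a with h' | h'
          · exact ⟨r, ⟨hrF, h'⟩, rfl⟩
          · exfalso
            have : r ∈ Ioo a b ∩ F := ⟨⟨h', h⟩, hrF⟩
            rw [hg] at this
            exact this
      · exact hTmono a b hab.le
    have : μ b = μ a := by simp only [hμ, this]
    linarith
  choose! σ hσF hσ using hsurj
  -- the arc on `[μ 0, μ 1]`
  have hσcont : ContinuousOn (fun v => γ (σ v)) (Icc (μ 0) (μ 1)) := by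
    rw [continuousOn_iff_isClosed]
    intro C hC
    have hK : IsCompact (F ∩ γ ⁻¹' C) := hFcpt.inter_right (hC.preimage hγ)
    have hK' : IsCompact (μ '' (F ∩ γ ⁻¹' C)) := hK.image_of_continuousOn
      (hμcont.mono inter_subset_left)
    refine ⟨_, hK'.isClosed, ?_⟩
    ext v
    constructor
    · rintro ⟨h1, h2⟩
      exact ⟨⟨σ v, ⟨hσF v h2, h1⟩, hσ v h2⟩, h2⟩
    · rintro ⟨⟨s, ⟨hsF, hsC⟩, hs⟩, h2⟩
      refine ⟨?_, h2⟩
      have e1 : μ (σ v) = μ s := by rw [hσ v h2, hs]
      have : γ (σ v) = γ s := by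
        rcases le_total (σ v) s with h | h
        · exact hμeq _ (hσF v h2) _ hsF h e1
        · exact (hμeq _ hsF _ (hσF v h2) h e1.symm).symm
      show γ (σ v) ∈ C
      rw [this]
      exact hsC
  have hσinj : ∀ v ∈ Icc (μ 0) (μ 1), ∀ w ∈ Icc (μ 0) (μ 1), γ (σ v) = γ (σ w) → v = w := by
    intro v hv w hw he
    have key : ∀ s ∈ F, ∀ s' ∈ F, s ≤ s' → γ s = γ s' → μ s = μ s' := by
      intro s hs s' hs' hss hg
      rcases hss.eq_or_lt with rfl | hlt
      · rfl
      have hg' := hinj s hs s' hs' hlt hg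
      have : T s' = T s := by
        apply subset_antisymm
        · rintro _ ⟨r, ⟨hrF, hr⟩, rfl⟩
          have hr' : r ≤ s' := hr
          rcases hr'.eq_or_lt with rfl | h
          · exact ⟨s, ⟨hs, mem_Iic.2 le_rfl⟩, hg⟩
          · rcases le_or_gt r s with h' | h'
            · exact ⟨r, ⟨hrF, h'⟩, rfl⟩
            · exfalso
              have : r ∈ Ioo s s' ∩ F := ⟨⟨h', h⟩, hrF⟩
              rw [hg'] at this
              exact this
        · exact hTmono s s' hlt.le
      simp only [hμ, this]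
    rw [← hσ v hv, ← hσ w hw]
    rcases le_total (σ v) (σ w) with h | h
    · exact key _ (hσF v hv) _ (hσF w hw) h he
    · exact (key _ (hσF w hw) _ (hσF v hv) h he.symm).symm
  have hpos : 0 < μ 1 - μ 0 := by linarith
  refine ⟨fun s => γ (σ (μ 0 + (μ 1 - μ 0) * (projIcc (0:ℝ) 1 zero_le_one s : ℝ))), ?_, ?_, ?_, ?_⟩
  · refine hσcont.comp_continuous ?_ ?_
    · exact continuous_const.add (continuous_const.mul
        (continuous_subtype_val.comp continuous_projIcc))
    · intro s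
      have := (projIcc (0:ℝ) 1 zero_le_one s).2
      constructor
      · nlinarith [this.1]
      · nlinarith [this.2]
  · intro s hs s' hs' he
    simp only [projIcc_of_mem zero_le_one hs, projIcc_of_mem zero_le_one hs'] at he
    have h1 := hσinj (μ 0 + (μ 1 - μ 0) * s) ⟨by nlinarith [hs.1], by nlinarith [hs.2]⟩
      (μ 0 + (μ 1 - μ 0) * s') ⟨by nlinarith [hs'.1], by nlinarith [hs'.2]⟩ he
    have h2 : (μ 1 - μ 0) * s = (μ 1 - μ 0) * s' := by linarith
    exact mul_left_cancel₀ hpos.ne' h2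
  · have h0 : (projIcc (0:ℝ) 1 zero_le_one 0 : ℝ) = 0 := by simp
    simp only [h0, mul_zero, add_zero]
    have hm : μ 0 ∈ Icc (μ 0) (μ 1) := ⟨le_rfl, h01.le⟩
    exact (hμeq 0 h0F _ (hσF _ hm) (hF01 (hσF _ hm)).1 (hσ _ hm).symm).symm
  · have h0 : (projIcc (0:ℝ) 1 zero_le_one 1 : ℝ) = 1 := by simp
    simp only [h0, mul_one]
    have e : μ 0 + (μ 1 - μ 0) = μ 1 := by ring
    rw [e]
    have hm : μ 1 ∈ Icc (μ 0) (μ 1) := ⟨h01.le, le_rfl⟩
    exact hμeq _ (hσF _ hm) 1 h1F (hF01 (hσF _ hm)).2 (hσ _ hm)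

end Run7.h149.Fan
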