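import Mathlib
import Pool.Agent.Run7.h149.Fan.Arc

/-! Order structure of a fan: arcs, comparability, Borsuk's theorem on ends. -/

set_option autoImplicit false
set_option linter.unusedSectionVars false
set_option linter.deprecated false

open Set Topology Filter Metric

namespace Run7.h149.Fan

variable {X : Type*} [MetricSpace X] [CompactSpace X] [Nonempty X]

/-- vertex of a simple triod -/
def IsVert (t : X) : Prop :=
  ∃ γ : Fin 3 → ℝ → X, (∀ i, Continuous (γ i) ∧ InjOn (γ i) (Icc 0 1) ∧ γ i 0 = t) ∧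
    ∀ i j, i ≠ j → γ i '' Icc 0 1 ∩ γ j '' Icc 0 1 = {t}

/-- a fan with vertex `t` -/
structure IsFan (X : Type*) [MetricSpace X] [CompactSpace X] (t : X) : Prop where
  path : ∀ x y : X, ∃ γ : ℝ → X, Continuous γ ∧ γ 0 = x ∧ γ 1 = y
  uni : ∀ A B : Set X, IsClosed A → IsConnected A → IsClosed B → IsConnected B →
    IsPreconnected (A ∩ B)
  vert : IsVert t
  uniq : ∀ t' : X, IsVert t' → t' = t

/-! ### Baire category in closed subsets -/

lemma baire_union {ι : Type*} [Countable ι] {Y : Set X} (hY : IsClosed Y) (hne : Y.Nonempty)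
    (C : ι → Set X)
    (hC : ∀ n, IsClosed (C n)) (hcov : Y ⊆ ⋃ n, C n) :
    ∃ n, ∃ O : Set X, IsOpen O ∧ (O ∩ Y).Nonempty ∧ O ∩ Y ⊆ C n := by
  haveI : CompactSpace Y := isCompact_iff_compactSpace.1 hY.isCompact
  haveI : Nonempty Y := hne.to_subtype
  obtain ⟨n, x, hx⟩ := nonempty_interior_of_iUnion_of_closed
    (f := fun n => ((↑) : Y → X) ⁻¹' (C n))
    (fun n => (hC n).preimage continuous_subtype_val)
    (by
      ext y
      simp only [mem_iUnion, mem_preimage, mem_univ, iff_true]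
      simpa using hcov y.2)
  rw [mem_interior] at hx
  obtain ⟨W, hW, hWo, hxW⟩ := hx
  obtain ⟨O, hO, rfl⟩ := isOpen_induced_iff.1 hWo
  refine ⟨n, O, hO, ⟨x, hxW, x.2⟩, ?_⟩
  rintro z ⟨hz, hzY⟩
  exact hW (show (⟨z, hzY⟩ : Y) ∈ _ from hz)

lemma baire_inter {Y : Set X} (hY : IsClosed Y) (U : ℕ → Set X) (hU : ∀ n, IsOpen (U n))
    {O : Set X} (hO : IsOpen O) (hne : (O ∩ Y).Nonempty)
    (hd : ∀ n, ∀ O' : Set X, IsOpen O' → O' ⊆ O → (O' ∩ Y).Nonempty → (O' ∩ Y ∩ U n).Nonempty) :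
    ∃ x ∈ O ∩ Y, ∀ n, x ∈ U n := by
  by_contra hcon
  push Not at hcon
  obtain ⟨x₀, hx₀, hx₀Y⟩ := hne
  obtain ⟨ε, hε, hεO⟩ := Metric.isOpen_iff.1 hO x₀ hx₀
  have hcb : closedBall x₀ (ε / 2) ⊆ O := (closedBall_subset_ball (by linarith)).trans hεO
  -- work inside the closed set `closure (ball ∩ Y)`
  set Y' := closure (ball x₀ (ε / 2) ∩ Y) with hY'
  have hY'Y : Y' ⊆ Y := closure_minimal inter_subset_right hY
  have hY'O : Y' ⊆ O := by
    refine (closure_mono inter_subset_left).trans ?_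
    exact (closure_ball_subset_closedBall).trans hcb
  obtain ⟨n, O', hO', ⟨z, hzO', hz⟩, hsub⟩ := baire_union (Y := Y') isClosed_closure
    ⟨x₀, subset_closure ⟨mem_ball_self (by linarith), hx₀Y⟩⟩ (fun n => (U n)ᶜ)
    (fun n => (hU n).isClosed_compl) (by
      intro y hy
      obtain ⟨n, hn⟩ := hcon y ⟨hY'O hy, hY'Y hy⟩
      exact mem_iUnion.2 ⟨n, hn⟩)
  obtain ⟨w, hwO', hwb, hwY⟩ := mem_closure_iff.1 hz O' hO' hzO'
  obtain ⟨v, ⟨⟨hvO', hvb⟩, hvY⟩, hvU⟩ := hd n (O' ∩ ball x₀ (ε / 2)) (hO'.inter isOpen_ball)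
    (inter_subset_right.trans ((ball_subset_closedBall).trans hcb)) ⟨w, ⟨hwO', hwb⟩, hwY⟩
  exact hsub ⟨hvO', subset_closure ⟨hvb, hvY⟩⟩ hvU

namespace IsFan

variable {t : X} (F : IsFan X t)
include F

lemma exists_arc {x y : X} (h : x ≠ y) :
    ∃ η : ℝ → X, Continuous η ∧ InjOn η (Icc 0 1) ∧ η 0 = x ∧ η 1 = y := by
  obtain ⟨γ, hγ, h0, h1⟩ := F.path x y
  obtain ⟨η, hc, hi, e0, e1⟩ := exists_arc_of_path γ hγ (by rw [h0, h1]; exact h)
  exact ⟨η, hc, hi, e0.trans h0, e1.trans h1⟩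

lemma img_Icon {η : ℝ → X} (hc : Continuous η) (hi : InjOn η (Icc 0 1)) {a b : ℝ}
    (ha : 0 ≤ a) (hab : a ≤ b) (hb : b ≤ 1) : Icon (η a) (η b) = η '' Icc a b := by
  apply Subset.antisymm
  · intro z hz
    refine hz _ (isCompact_Icc.image hc).isClosed
      ((isConnected_Icc hab).image _ hc.continuousOn) ⟨a, left_mem_Icc.2 hab, rfl⟩
      ⟨b, right_mem_Icc.2 hab, rfl⟩
  · rintro _ ⟨s, hs, rfl⟩ C hC hCc haC hbC
    have hs01 : s ∈ Icc (0:ℝ) 1 := ⟨ha.trans hs.1, hs.2.trans hb⟩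
    have hpre := F.uni C (η '' Icc 0 1) hC hCc (isCompact_Icc.image hc).isClosed
      ((isConnected_Icc zero_le_one).image _ hc.continuousOn)
    rw [isPreconnected_closed_iff] at hpre
    obtain ⟨w, ⟨hwC, -⟩, ⟨u, hu, rfl⟩, ⟨v, hv, hve⟩⟩ := hpre (η '' Icc 0 s) (η '' Icc s 1)
      (isCompact_Icc.image hc).isClosed (isCompact_Icc.image hc).isClosed (by
        rintro _ ⟨-, r, hr, rfl⟩
        rcases le_total r s with h | h
        · exact Or.inl ⟨r, ⟨hr.1, h⟩, rfl⟩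
        · exact Or.inr ⟨r, ⟨h, hr.2⟩, rfl⟩)
      ⟨η a, ⟨haC, a, ⟨ha, hab.trans hb⟩, rfl⟩, a, ⟨ha, hs.1⟩, rfl⟩
      ⟨η b, ⟨hbC, b, ⟨ha.trans hab, hb⟩, rfl⟩, b, ⟨hs.2, hb⟩, rfl⟩
    have : v = u := hi ⟨hs01.1.trans hv.1, hv.2⟩ ⟨hu.1, hu.2.trans hs01.2⟩ hve
    have h2 : u = s := le_antisymm hu.2 (this ▸ hv.1)
    rwa [h2] at hwC

lemma Icon_self (x : X) : Icon x x = {x} := by
  apply Subset.antisymm
  · intro z hz
    exact hz {x} isClosed_singleton isConnected_singleton rfl rfl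
  · rintro _ rfl
    exact left_mem_Icon _ _

lemma conn_Icon (x y : X) : IsConnected (Icon x y) := by
  rcases eq_or_ne x y with rfl | h
  · rw [F.Icon_self]; exact isConnected_singleton
  · obtain ⟨η, hc, hi, rfl, rfl⟩ := F.exists_arc h
    rw [F.img_Icon hc hi le_rfl zero_le_one le_rfl]
    exact (isConnected_Icc zero_le_one).image _ hc.continuousOn

omit F in
lemma Icon_subset {C : Set X} (hC : IsClosed C) (hCc : IsConnected C) {x y : X} (hx : x ∈ C)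
    (hy : y ∈ C) : Icon x y ⊆ C := fun _ hz => hz C hC hCc hx hy

lemma mono {x y : X} (h : x ∈ Icon t y) : Icon t x ⊆ Icon t y :=
  Icon_subset (isClosed_Icon _ _) (F.conn_Icon _ _) (left_mem_Icon _ _) h

lemma trans {x y z : X} (h : x ∈ Icon t y) (h' : y ∈ Icon t z) : x ∈ Icon t z := F.mono h' h

/-- parametrisation of `[t,y]` -/
lemma param {y : X} (h : y ≠ t) : ∃ η : ℝ → X, Continuous η ∧ InjOn η (Icc 0 1) ∧ η 0 = t ∧
    η 1 = y ∧ Icon t y = η '' Icc 0 1 ∧ ∀ s ∈ Icc (0:ℝ) 1, Icon t (η s) = η '' Icc 0 s := by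
  obtain ⟨η, hc, hi, h0, h1⟩ := F.exists_arc (Ne.symm h)
  refine ⟨η, hc, hi, h0, h1, ?_, ?_⟩
  · rw [← F.img_Icon hc hi le_rfl zero_le_one le_rfl, h0, h1]
  · intro s hs
    rw [← F.img_Icon hc hi le_rfl hs.1 hs.2, h0]

omit F in
lemma le_iff_param {η : ℝ → X} (hi : InjOn η (Icc 0 1)) (hI : ∀ s ∈ Icc (0:ℝ) 1, Icon t (η s) = η '' Icc 0 s)
    {a b : ℝ} (ha : a ∈ Icc (0:ℝ) 1) (hb : b ∈ Icc (0:ℝ) 1) : η a ∈ Icon t (η b) ↔ a ≤ b := by
  rw [hI b hb]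
  constructor
  · rintro ⟨c, hc, he⟩
    have := hi ⟨hc.1, hc.2.trans hb.2⟩ ha he
    rw [← this]; exact hc.2
  · intro h
    exact ⟨a, ⟨ha.1, h⟩, rfl⟩

lemma le_t {x : X} (h : x ∈ Icon t t) : x = t := by
  rw [F.Icon_self] at h; exact h

lemma total {x y z : X} (hx : x ∈ Icon t z) (hy : y ∈ Icon t z) : x ∈ Icon t y ∨ y ∈ Icon t x := by
  rcases eq_or_ne z t with rfl | h
  · rw [F.le_t hx, F.le_t hy]; exact Or.inl (left_mem_Icon _ _)
  · obtain ⟨η, hc, hi, h0, h1, hI, hI'⟩ := F.param h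
    rw [hI] at hx hy
    obtain ⟨a, ha, rfl⟩ := hx
    obtain ⟨b, hb, rfl⟩ := hy
    rw [le_iff_param hi hI' ha hb, le_iff_param hi hI' hb ha]
    exact le_total a b

lemma antisymm {x y : X} (hx : x ∈ Icon t y) (hy : y ∈ Icon t x) : x = y := by
  rcases eq_or_ne y t with rfl | h
  · exact F.le_t hx
  · obtain ⟨η, hc, hi, h0, h1, hI, hI'⟩ := F.param h
    rw [hI] at hx
    obtain ⟨a, ha, rfl⟩ := hx
    have h11 : (1:ℝ) ∈ Icc (0:ℝ) 1 := ⟨zero_le_one, le_rfl⟩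
    rw [← h1, le_iff_param hi hI' h11 ha] at hy
    rw [← h1, le_antisymm ha.2 hy]

lemma seg_eq {x y : X} (h : x ∈ Icon t y) : Icon x y = {z | z ∈ Icon t y ∧ x ∈ Icon t z} := by
  rcases eq_or_ne y t with rfl | hy
  · have := F.le_t h
    subst this
    rw [F.Icon_self]
    ext z
    simp only [mem_singleton_iff, mem_setOf_eq]
    constructor
    · rintro rfl; exact ⟨rfl, left_mem_Icon _ _⟩
    · exact fun h => h.1
  · obtain ⟨η, hc, hi, h0, h1, hI, hI'⟩ := F.param hy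
    rw [hI] at h
    obtain ⟨a, ha, rfl⟩ := h
    have h11 : (1:ℝ) ∈ Icc (0:ℝ) 1 := ⟨zero_le_one, le_rfl⟩
    rw [← h1, F.img_Icon hc hi ha.1 ha.2 le_rfl, h1, hI]
    ext z
    constructor
    · rintro ⟨s, hs, rfl⟩
      have hs' : s ∈ Icc (0:ℝ) 1 := ⟨ha.1.trans hs.1, hs.2⟩
      exact ⟨⟨s, hs', rfl⟩, (le_iff_param hi hI' ha hs').2 hs.1⟩
    · rintro ⟨⟨s, hs, rfl⟩, h2⟩
      exact ⟨s, ⟨(le_iff_param hi hI' ha hs).1 h2, hs.2⟩, rfl⟩

/-- a closed connected set containing `t` and contained in `[t,y]` is some `[t,z]` -/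
lemma exists_max_of_subset {C : Set X} {y : X} (hC : IsClosed C) (hCc : IsConnected C) (ht : t ∈ C)
    (hsub : C ⊆ Icon t y) : ∃ z ∈ C, C = Icon t z := by
  rcases eq_or_ne y t with rfl | hy
  · refine ⟨_, ht, Subset.antisymm hsub ?_⟩
    intro z hz
    rw [F.le_t hz]; exact ht
  · obtain ⟨η, hc, hi, h0, h1, hI, hI'⟩ := F.param hy
    set S := Icc (0:ℝ) 1 ∩ η ⁻¹' C with hS
    have hScl : IsCompact S := isCompact_Icc.inter_right (hC.preimage hc)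
    have hSne : S.Nonempty := ⟨0, ⟨le_rfl, zero_le_one⟩, by simpa [h0] using ht⟩
    obtain ⟨s, hs, hmax⟩ := hScl.exists_isGreatest hSne
    refine ⟨η s, hs.2, Subset.antisymm ?_ (Icon_subset hC hCc ht hs.2)⟩
    intro z hz
    obtain ⟨r, hr, rfl⟩ := (hI ▸ hsub) hz
    exact (le_iff_param hi hI' hr hs.1).2 (hmax ⟨hr, hz⟩)

/-- two points other than `t` are comparable or lie on different legs -/
lemma branch {x y : X} (hx : ¬ x ∈ Icon t y) (hy : ¬ y ∈ Icon t x) : Icon t x ∩ Icon t y = {t} := by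
  have hxt : x ≠ t := fun h => hx (h ▸ left_mem_Icon _ _)
  have hyt : y ≠ t := fun h => hy (h ▸ left_mem_Icon _ _)
  set C := Icon t x ∩ Icon t y with hCdef
  have hCc : IsConnected C := ⟨⟨t, left_mem_Icon _ _, left_mem_Icon _ _⟩,
    F.uni _ _ (isClosed_Icon _ _) (F.conn_Icon _ _) (isClosed_Icon _ _) (F.conn_Icon _ _)⟩
  have hC : IsClosed C := (isClosed_Icon _ _).inter (isClosed_Icon _ _)
  obtain ⟨z, hz, hCz⟩ := F.exists_max_of_subset hC hCc ⟨left_mem_Icon _ _, left_mem_Icon _ _⟩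
    (inter_subset_left : C ⊆ Icon t x)
  by_cases hzt : z = t
  · rw [hCz, hzt, F.Icon_self]
  exfalso
  have hzx : z ≠ x := fun h => hx (h ▸ hz.2)
  have hzy : z ≠ y := fun h => hy (h ▸ hz.1)
  obtain ⟨α, hαc, hαi, hα0, hα1⟩ := F.exists_arc hzt
  obtain ⟨β, hβc, hβi, hβ0, hβ1⟩ := F.exists_arc hzx
  obtain ⟨δ, hδc, hδi, hδ0, hδ1⟩ := F.exists_arc hzy
  have eα : α '' Icc 0 1 = Icon t z := by
    rw [← F.img_Icon hαc hαi le_rfl zero_le_one le_rfl, hα0, hα1, Icon_comm]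
  have eβ : β '' Icc 0 1 = {w | w ∈ Icon t x ∧ z ∈ Icon t w} := by
    rw [← F.img_Icon hβc hβi le_rfl zero_le_one le_rfl, hβ0, hβ1, F.seg_eq hz.1]
  have eδ : δ '' Icc 0 1 = {w | w ∈ Icon t y ∧ z ∈ Icon t w} := by
    rw [← F.img_Icon hδc hδi le_rfl zero_le_one le_rfl, hδ0, hδ1, F.seg_eq hz.2]
  have hzz : z ∈ Icon t z := right_mem_Icon _ _
  have hαβ : α '' Icc 0 1 ∩ β '' Icc 0 1 = {z} := by
    rw [eα, eβ]
    ext w
    simp only [mem_inter_iff, mem_setOf_eq, mem_singleton_iff]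
    constructor
    · rintro ⟨h1, h2, h3⟩; exact F.antisymm h1 h3
    · rintro rfl; exact ⟨hzz, hz.1, hzz⟩
  have hαδ : α '' Icc 0 1 ∩ δ '' Icc 0 1 = {z} := by
    rw [eα, eδ]
    ext w
    simp only [mem_inter_iff, mem_setOf_eq, mem_singleton_iff]
    constructor
    · rintro ⟨h1, h2, h3⟩; exact F.antisymm h1 h3
    · rintro rfl; exact ⟨hzz, hz.2, hzz⟩
  have hβδ : β '' Icc 0 1 ∩ δ '' Icc 0 1 = {z} := by
    rw [eβ, eδ]
    ext w
    simp only [mem_inter_iff, mem_setOf_eq, mem_singleton_iff]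
    constructor
    · rintro ⟨⟨h1, h2⟩, h3, h4⟩
      have : w ∈ C := ⟨h1, h3⟩
      rw [hCz] at this
      exact F.antisymm this h2
    · rintro rfl; exact ⟨⟨hz.1, hzz⟩, hz.2, hzz⟩
  refine hzt (F.uniq z ⟨![α, β, δ], ?_, ?_⟩)
  · intro i
    fin_cases i
    · exact ⟨hαc, hαi, hα0⟩
    · exact ⟨hβc, hβi, hβ0⟩
    · exact ⟨hδc, hδi, hδ0⟩
  · intro i j hij
    fin_cases i <;> fin_cases j <;> simp_all [inter_comm]

lemma Icon_incomp {x y : X} (hx : ¬ x ∈ Icon t y) (hy : ¬ y ∈ Icon t x) :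
    Icon x y = Icon t x ∪ Icon t y := by
  have hcc : IsConnected (Icon t x ∪ Icon t y) :=
    (F.conn_Icon t x).union ⟨t, left_mem_Icon _ _, left_mem_Icon _ _⟩ (F.conn_Icon t y)
  have hcl : IsClosed (Icon t x ∪ Icon t y) := (isClosed_Icon _ _).union (isClosed_Icon _ _)
  apply Subset.antisymm
  · exact Icon_subset hcl hcc (Or.inl (right_mem_Icon _ _)) (Or.inr (right_mem_Icon _ _))
  · intro z hz C hC hCc hxC hyC
    have hpre := F.uni C _ hC hCc hcl hcc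
    rw [isPreconnected_closed_iff] at hpre
    obtain ⟨w, ⟨hwC, -⟩, hw⟩ := hpre (Icon t x) (Icon t y) (isClosed_Icon _ _) (isClosed_Icon _ _)
      inter_subset_right ⟨x, ⟨hxC, Or.inl (right_mem_Icon _ _)⟩, right_mem_Icon _ _⟩
      ⟨y, ⟨hyC, Or.inr (right_mem_Icon _ _)⟩, right_mem_Icon _ _⟩
    rw [F.branch hx hy] at hw
    have htC : t ∈ C := by rw [← show w = t from hw]; exact hwC
    rcases hz with h | h
    · exact h C hC hCc htC hxC
    · exact h C hC hCc htC hyC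

lemma conn_lt {x y : X} (h : x ∈ Icon t y) {C : Set X} (hC : IsClosed C) (hCc : IsConnected C)
    (hx : x ∈ C) (hy : y ∈ C) {z : X} (h1 : x ∈ Icon t z) (h2 : z ∈ Icon t y) : z ∈ C := by
  have : z ∈ Icon x y := by rw [F.seg_eq h]; exact ⟨h2, h1⟩
  exact this C hC hCc hx hy

lemma Wf_lt {x y : X} (h : x ∈ Icon t y) (hne : x ≠ y) : Wf (Icon t x) < Wf (Icon t y) :=
  Wf_strict ⟨t, left_mem_Icon _ _⟩ (isClosed_Icon _ _) (F.mono h) (right_mem_Icon t y)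
    (fun h' => hne (F.antisymm h h'))

lemma Wf_le {x y : X} (h : x ∈ Icon t y) : Wf (Icon t x) ≤ Wf (Icon t y) :=
  Wf_mono ⟨t, left_mem_Icon _ _⟩ (F.mono h)

end IsFan

end Run7.h149.Fan
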