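import Mathlib
import Pool.Agent.Run7.h149.Fan.Order

/-! Borsuk's theorem: every point lies below an end; parametrisation of legs. -/

set_option autoImplicit false
set_option linter.unusedSectionVars false
set_option linter.deprecated false

open Set Topology Filter Metric

namespace Run7.h149.Fan

variable {X : Type*} [MetricSpace X] [CompactSpace X] [Nonempty X]

/-- maximal points -/
def IsEnd (t e : X) : Prop := e ≠ t ∧ ∀ y, e ∈ Icon t y → y = e

namespace IsFan

variable {t : X} (F : IsFan X t)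
include F

lemma cmp {x y y' : X} (hx : x ≠ t) (h : x ∈ Icon t y) (h' : x ∈ Icon t y') :
    y ∈ Icon t y' ∨ y' ∈ Icon t y := by
  by_contra hcon
  push Not at hcon
  have := F.branch hcon.1 hcon.2
  have hx' : x ∈ Icon t y ∩ Icon t y' := ⟨h, h'⟩
  rw [this] at hx'
  exact hx hx'

lemma exists_end {x : X} (hx : x ≠ t) : ∃ e, IsEnd t e ∧ x ∈ Icon t e := by
  by_contra hcon
  push Not at hcon
  have hnt : ∀ y, x ∈ Icon t y → y ≠ t := fun y hy h => hx (F.le_t (h ▸ hy))
  have hno : ∀ y, x ∈ Icon t y → ∃ y', y ∈ Icon t y' ∧ y' ≠ y := by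
    intro y hy
    by_contra h
    push Not at h
    exact hcon y ⟨hnt y hy, h⟩ hy
  have hcmp : ∀ {y y'}, x ∈ Icon t y → x ∈ Icon t y' → (y ∈ Icon t y' ∨ y' ∈ Icon t y) :=
    fun h h' => F.cmp hx h h'
  -- countable cofinal family
  obtain ⟨y0, hy0, hcof⟩ : ∃ y0 : ℕ → X, (∀ n, x ∈ Icon t (y0 n)) ∧
      ∀ z, x ∈ Icon t z → ∃ n, z ∈ Icon t (y0 n) := by
    set S := (fun y => Wf (Icon t y)) '' {y | x ∈ Icon t y} with hS
    have hSb : BddAbove S := ⟨Wf univ, by
      rintro _ ⟨y, -, rfl⟩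
      exact Wf_mono ⟨t, left_mem_Icon _ _⟩ (subset_univ _)⟩
    have hSne : S.Nonempty := ⟨_, x, right_mem_Icon _ _, rfl⟩
    have h1 : ∀ n : ℕ, ∃ y, x ∈ Icon t y ∧ sSup S - 1 / ((n : ℝ) + 1) < Wf (Icon t y) := by
      intro n
      have : sSup S - 1 / ((n : ℝ) + 1) < sSup S := by
        have : 0 < 1 / ((n : ℝ) + 1) := by positivity
        linarith
      obtain ⟨_, ⟨y, hy, rfl⟩, h⟩ := exists_lt_of_lt_csSup hSne this
      exact ⟨y, hy, h⟩
    choose y0 hy0 hy0' using h1
    refine ⟨y0, hy0, fun z hz => ?_⟩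
    obtain ⟨z', hz', hne⟩ := hno z hz
    have h2 : Wf (Icon t z) < sSup S := (F.Wf_lt hz' (Ne.symm hne)).trans_le
      (le_csSup hSb ⟨z', F.trans hz hz', rfl⟩)
    obtain ⟨n, hn⟩ := exists_nat_one_div_lt (sub_pos.2 h2)
    refine ⟨n, ?_⟩
    rcases hcmp hz (hy0 n) with h | h
    · exact h
    · have := F.Wf_le h
      have := hy0' n
      linarith
  -- tails
  set T : X → Set X := fun z => {y | z ∈ Icon t y} with hT
  have hTmem : ∀ z, z ∈ T z := fun z => right_mem_Icon _ _
  have hTc : ∀ z, IsConnected (closure (T z)) := by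
    intro z
    refine IsConnected.closure ⟨⟨z, hTmem z⟩, ?_⟩
    refine isPreconnected_of_forall z fun y hy => ⟨Icon z y, ?_, left_mem_Icon _ _,
      right_mem_Icon _ _, (F.conn_Icon _ _).isPreconnected⟩
    rw [F.seg_eq hy]
    exact fun w hw => hw.2
  obtain ⟨k, hk⟩ : (⋂ z : {z // x ∈ Icon t z}, closure (T z)).Nonempty := by
    haveI : Nonempty {z // x ∈ Icon t z} := ⟨⟨x, right_mem_Icon _ _⟩⟩
    refine IsCompact.nonempty_iInter_of_directed_nonempty_isCompact_isClosed _ ?_ ?_ ?_ ?_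
    · intro z z'
      rcases hcmp z.2 z'.2 with h | h
      · exact ⟨z', closure_mono fun w hw => F.trans h hw, subset_rfl⟩
      · exact ⟨z, subset_rfl, closure_mono fun w hw => F.trans h hw⟩
    · exact fun z => ⟨z, subset_closure (hTmem z)⟩
    · exact fun z => isClosed_closure.isCompact
    · exact fun z => isClosed_closure
  rw [mem_iInter] at hk
  obtain ⟨m, hxm, hm⟩ : ∃ m, x ∈ Icon t m ∧ ∀ z, x ∈ Icon t z → T m ⊆ closure (T z) := by
    by_cases hxk : x ∈ Icon t k
    · refine ⟨k, hxk, fun z hz y hy => ?_⟩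
      rcases hcmp hz (F.trans hxk hy) with h | h
      · exact subset_closure h
      · have h2 : y ∈ Icon k z := by
          rw [F.seg_eq (F.trans hy h)]; exact ⟨h, hy⟩
        exact h2 _ isClosed_closure (hTc z) (hk ⟨z, hz⟩) (subset_closure (hTmem z))
    · refine ⟨x, right_mem_Icon _ _, fun z hz y hy => ?_⟩
      rcases hcmp hz hy with h | h
      · exact subset_closure h
      · have h2 : y ∈ Icon k z := by
          by_cases hkz : k ∈ Icon t z
          · rw [F.seg_eq hkz]
            refine ⟨h, ?_⟩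
            rcases F.total hkz hz with h3 | h3
            · exact F.trans h3 hy
            · exact absurd h3 hxk
          · rw [F.Icon_incomp hkz (fun h3 => hxk (F.trans hz h3))]
            exact Or.inr h
        exact h2 _ isClosed_closure (hTc z) (hk ⟨z, hz⟩) (subset_closure (hTmem z))
  set Y := closure (T m) with hY
  have hYd : ∀ z, x ∈ Icon t z → Y ⊆ closure (T z) := fun z hz =>
    closure_minimal (hm z hz) isClosed_closure
  obtain ⟨v, hmv, hvm⟩ := hno m hxm
  -- the cover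
  set D : ℕ → Set X := fun j => {w | ∀ z ∈ Icon m w, 1 / ((j:ℝ) + 1) ≤ dist z v} with hD
  have hDc : ∀ j, IsClosed (D j) := by
    intro j
    rw [← isOpen_compl_iff, Metric.isOpen_iff]
    intro w hw
    simp only [hD, mem_compl_iff, mem_setOf_eq, not_forall, not_le] at hw
    obtain ⟨z, hz, hzv⟩ := hw
    obtain ⟨δ, hδ, hh⟩ := lsc hz (ε := 1 / ((j:ℝ) + 1) - dist z v) (by linarith)
    refine ⟨δ, hδ, fun w' hw' => ?_⟩
    obtain ⟨z', hz', hd⟩ := hh _ (F.conn_Icon m w').isPreconnected m (left_mem_Icon _ _) w'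
      (right_mem_Icon _ _) (by simpa using hδ) hw'
    simp only [hD, mem_compl_iff, mem_setOf_eq, not_forall, not_le]
    refine ⟨z', hz', ?_⟩
    have := dist_triangle z' z v
    linarith
  obtain ⟨i, O, hO, ⟨p, hpO, hpY⟩, hsub⟩ := baire_union (ι := ℕ ⊕ ℕ) (Y := Y) isClosed_closure
    ⟨m, subset_closure (hTmem m)⟩ (Sum.elim (fun n => Icon t (y0 n)) D)
    (by rintro (n | n); exacts [isClosed_Icon _ _, hDc n]) (by
      intro w hw
      rw [mem_iUnion]
      by_cases hmw : m ∈ Icon t w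
      · obtain ⟨n, hn⟩ := hcof w (F.trans hxm hmw)
        exact ⟨Sum.inl n, hn⟩
      · have hvI : v ∉ Icon m w := by
          intro hv
          by_cases hwm : w ∈ Icon t m
          · rw [Icon_comm, F.seg_eq hwm] at hv
            exact hvm (F.antisymm hv.1 hmv)
          · rw [F.Icon_incomp hmw hwm] at hv
            rcases hv with hv | hv
            · exact hvm (F.antisymm hv hmv)
            · exact hmw (F.trans hmv hv)
        have hpos : 0 < infDist v (Icon m w) :=
          ((isClosed_Icon m w).notMem_iff_infDist_pos ⟨m, left_mem_Icon _ _⟩).1 hvI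
        obtain ⟨j, hj⟩ := exists_nat_one_div_lt hpos
        refine ⟨Sum.inr j, fun z hz => ?_⟩
        have := infDist_le_dist_of_mem (x := v) hz
        rw [dist_comm] at this
        linarith)
  rcases i with n | j
  · -- above both `y0 n` and `m`
    obtain ⟨z, hz1, hz2, hz3⟩ : ∃ z, y0 n ∈ Icon t z ∧ z ≠ y0 n ∧ m ∈ Icon t z := by
      rcases hcmp (hy0 n) hxm with h | h
      · exact ⟨v, F.trans h hmv, fun h' => hvm (F.antisymm (h' ▸ h) hmv), hmv⟩
      · obtain ⟨z, h1, h2⟩ := hno _ (hy0 n)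
        exact ⟨z, h1, h2, F.trans h h1⟩
    obtain ⟨q, hqO, hqT⟩ := mem_closure_iff.1 (hYd z (F.trans hxm hz3) hpY) O hO hpO
    have hqY : q ∈ Y := subset_closure (F.trans hz3 hqT)
    have := hsub ⟨hqO, hqY⟩
    exact hz2 (F.antisymm (F.trans hqT this) hz1)
  · obtain ⟨q, hqO, hqT⟩ := mem_closure_iff.1 (hYd v (F.trans hxm hmv) hpY) O hO hpO
    have hqY : q ∈ Y := subset_closure (F.trans hmv hqT)
    have := hsub ⟨hqO, hqY⟩
    have h3 : v ∈ Icon m q := by rw [F.seg_eq (F.trans hmv hqT)]; exact ⟨hqT, hmv⟩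
    have h4 := this v h3
    rw [dist_self] at h4
    have : 0 < 1 / ((j:ℝ) + 1) := by positivity
    linarith

lemma end_unique {x e e' : X} (hx : x ≠ t) (he : IsEnd t e) (he' : IsEnd t e')
    (h : x ∈ Icon t e) (h' : x ∈ Icon t e') : e = e' := by
  rcases F.cmp hx h h' with h1 | h1
  · exact (he.2 _ h1).symm
  · exact he'.2 _ h1

end IsFan

/-- the end above `x` (and `t` for `x = t`) -/
noncomputable def top (t x : X) : X := by
  classical exact if h : ∃ e, IsEnd t e ∧ x ∈ Icon t e ∧ x ≠ t then h.choose else t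

namespace IsFan

variable {t : X} (F : IsFan X t)
include F

lemma top_spec {x : X} (hx : x ≠ t) : IsEnd t (top t x) ∧ x ∈ Icon t (top t x) := by
  obtain ⟨e, he⟩ := F.exists_end hx
  have h : ∃ e, IsEnd t e ∧ x ∈ Icon t e ∧ x ≠ t := ⟨e, he.1, he.2, hx⟩
  have : top t x = h.choose := by unfold top; rw [dif_pos h]
  rw [this]
  exact ⟨h.choose_spec.1, h.choose_spec.2.1⟩

lemma isEnd_top {x : X} (hx : x ≠ t) : IsEnd t (top t x) := (F.top_spec hx).1
lemma le_top {x : X} (hx : x ≠ t) : x ∈ Icon t (top t x) := (F.top_spec hx).2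

lemma top_unique {x e : X} (hx : x ≠ t) (he : IsEnd t e) (h : x ∈ Icon t e) : top t x = e :=
  F.end_unique hx (F.isEnd_top hx) he (F.le_top hx) h

lemma top_end {e : X} (he : IsEnd t e) : top t e = e :=
  F.top_unique he.1 he (right_mem_Icon _ _)

lemma top_of_le {x y : X} (hx : x ≠ t) (h : x ∈ Icon t y) : top t x = top t y := by
  have hy : y ≠ t := fun h' => hx (F.le_t (h' ▸ h))
  exact F.top_unique hx (F.isEnd_top hy) (F.trans h (F.le_top hy))

/-- comparability on a leg -/
lemma cmp_top {x y : X} (hx : x ≠ t) (hy : y ≠ t) (h : top t x = top t y) :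
    x ∈ Icon t y ∨ y ∈ Icon t x := F.total (F.le_top hx) (h ▸ F.le_top hy)

end IsFan

end Run7.h149.Fan
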