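import Mathlib
import Pool.Agent.Run7.h149.Fan.Ends

/-! Tools: closed order on legs, the closure `K` of the order, homeomorphisms, alternation. -/

set_option autoImplicit false
set_option linter.unusedSectionVars false
set_option linter.deprecated false

open Set Topology Filter Metric

namespace Run7.h149.Fan

variable {X : Type*} [MetricSpace X] [CompactSpace X] [Nonempty X]

/-- closure of the order: `K t x` is the section over `x` -/
def K (t x : X) : Set X := {y | ∀ ε > 0, ∃ x', dist x' x < ε ∧ ∃ y' ∈ Icon t x', dist y' y < ε}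

/-- interior points of legs -/
def Inn (t x : X) : Prop := x ≠ t ∧ ¬ IsEnd t x

lemma subset_K (t x : X) : Icon t x ⊆ K t x := fun y hy ε hε =>
  ⟨x, by simpa using hε, y, hy, by simpa using hε⟩

lemma mem_K_of_tendsto {ι : Type*} {l : Filter ι} [l.NeBot] {t x y : X} {u w : ι → X}
    (hu : Tendsto u l (𝓝 x)) (hw : Tendsto w l (𝓝 y)) (h : ∀ᶠ n in l, w n ∈ Icon t (u n)) :
    y ∈ K t x := by
  intro ε hε
  obtain ⟨n, h1, h2, h3⟩ := (((Metric.tendsto_nhds.1 hu ε hε)).and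
    ((Metric.tendsto_nhds.1 hw ε hε).and h)).exists
  exact ⟨u n, h1, w n, h3, h2⟩

lemma exists_seq_of_mem_K {t x y : X} (h : y ∈ K t x) : ∃ u w : ℕ → X,
    Tendsto u atTop (𝓝 x) ∧ Tendsto w atTop (𝓝 y) ∧ ∀ n, w n ∈ Icon t (u n) := by
  choose u hu w hw hd using fun n : ℕ => h (1 / ((n : ℝ) + 1)) Nat.one_div_pos_of_nat
  refine ⟨u, w, ?_, ?_, hw⟩
  · rw [tendsto_iff_dist_tendsto_zero]
    exact squeeze_zero (fun _ => dist_nonneg) (fun n => (hu n).le)
      tendsto_one_div_add_atTop_nhds_zero_nat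
  · rw [tendsto_iff_dist_tendsto_zero]
    exact squeeze_zero (fun _ => dist_nonneg) (fun n => (hd n).le)
      tendsto_one_div_add_atTop_nhds_zero_nat

/-- a sequence of counterexamples gives convergent ultrafilter limits -/
lemma hyp_le : (hyperfilter ℕ : Filter ℕ) ≤ atTop := by
  rw [← Nat.cofinite_eq_atTop]; exact hyperfilter_le_cofinite

lemma tendsto_hyp {u : ℕ → X} {x : X} (h : ∀ n : ℕ, dist (u n) x < 1 / ((n : ℝ) + 1)) :
    Tendsto u (hyperfilter ℕ : Filter ℕ) (𝓝 x) := by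
  refine Tendsto.mono_left ?_ hyp_le
  rw [tendsto_iff_dist_tendsto_zero]
  exact squeeze_zero (fun _ => dist_nonneg) (fun n => (h n).le)
    tendsto_one_div_add_atTop_nhds_zero_nat

lemma hyp_small {ε : ℝ} (hε : 0 < ε) :
    ∀ᶠ n : ℕ in (hyperfilter ℕ : Filter ℕ), 1 / ((n : ℝ) + 1) < ε :=
  hyp_le ((tendsto_order.1 tendsto_one_div_add_atTop_nhds_zero_nat).2 ε hε)

lemma isClosed_K (t x : X) : IsClosed (K t x) := by
  rw [← isOpen_compl_iff, Metric.isOpen_iff]
  intro y hy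
  simp only [K, mem_compl_iff, mem_setOf_eq, not_forall] at hy
  obtain ⟨ε, hε, h⟩ := hy
  refine ⟨ε / 2, half_pos hε, fun y' hy' hK => h ?_⟩
  obtain ⟨x', hx', y'', hy'', hd⟩ := hK (ε / 2) (half_pos hε)
  refine ⟨x', by linarith, y'', hy'', ?_⟩
  have := dist_triangle y'' y' y
  have := mem_ball.1 hy'
  linarith

/-- `K` is a closed relation -/
lemma K_closed {ι : Type*} {l : Filter ι} [l.NeBot] {t x y : X} {u w : ι → X}
    (hu : Tendsto u l (𝓝 x)) (hw : Tendsto w l (𝓝 y)) (h : ∀ᶠ n in l, w n ∈ K t (u n)) :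
    y ∈ K t x := by
  intro ε hε
  obtain ⟨n, h1, h2, h3⟩ := (((Metric.tendsto_nhds.1 hu _ (half_pos hε))).and
    ((Metric.tendsto_nhds.1 hw _ (half_pos hε)).and h)).exists
  obtain ⟨x', hx', y', hy', hd⟩ := h3 (ε / 2) (half_pos hε)
  exact ⟨x', by linarith [dist_triangle x' (u n) x], y', hy', by
    linarith [dist_triangle y' (w n) y]⟩

/-- upper semicontinuity of `K` -/
lemma K_usc (t x : X) {ε : ℝ} (hε : 0 < ε) :
    ∃ δ > 0, ∀ x', dist x' x < δ → K t x' ⊆ thickening ε (K t x) := by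
  by_contra hcon
  push Not at hcon
  choose u hu hw using fun n : ℕ => hcon (1 / ((n : ℝ) + 1)) Nat.one_div_pos_of_nat
  simp only [not_subset] at hw
  choose w hw hw' using hw
  obtain ⟨y, hy⟩ := exists_lim (hyperfilter ℕ) w
  have hyK := K_closed (tendsto_hyp hu) hy (Eventually.of_forall hw)
  obtain ⟨n, hn⟩ := (Metric.tendsto_nhds.1 hy ε hε).exists
  exact hw' n (mem_thickening_iff.2 ⟨y, hyK, hn⟩)

lemma thickening_trans {A B C : Set X} {a b : ℝ} (h : A ⊆ thickening a B)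
    (h' : B ⊆ thickening b C) : A ⊆ thickening (a + b) C := by
  intro x hx
  obtain ⟨y, hy, hxy⟩ := mem_thickening_iff.1 (h hx)
  obtain ⟨z, hz, hyz⟩ := mem_thickening_iff.1 (h' hy)
  exact mem_thickening_iff.2 ⟨z, hz, by linarith [dist_triangle x y z]⟩

lemma thickening_trans' {A B C : Set X} {a : ℝ} (h : A ⊆ thickening a B)
    (h' : B ⊆ C) : A ⊆ thickening a C := h.trans (thickening_subset_of_subset _ h')

lemma thick_mono {A B : Set X} {a b : ℝ} (h : A ⊆ thickening a B) (hab : a ≤ b) :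
    A ⊆ thickening b B := h.trans (thickening_mono hab _)

lemma subset_thick {A B : Set X} {a : ℝ} (ha : 0 < a) (h : A ⊆ B) : A ⊆ thickening a B :=
  h.trans (self_subset_thickening ha _)

namespace IsFan

variable {t : X} (F : IsFan X t)
include F

/-- points of `[t,e]` ordered: closedness -/
lemma closed_le {ι : Type*} {l : Filter ι} [l.NeBot] {e x y : X} {u w : ι → X}
    (hu : Tendsto u l (𝓝 x)) (hw : Tendsto w l (𝓝 y)) (h : ∀ᶠ n in l, u n ∈ Icon t (w n))
    (he : ∀ᶠ n in l, w n ∈ Icon t e) : x ∈ Icon t y := by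
  rcases eq_or_ne e t with rfl | het
  · have h1 : ∀ᶠ n in l, w n = e := he.mono fun n hn => F.le_t hn
    have h2 : ∀ᶠ n in l, u n = e := (h.and h1).mono fun n hn => F.le_t (hn.2 ▸ hn.1)
    have h3 : y = e := tendsto_nhds_unique (hw.congr' h1) tendsto_const_nhds
    have h4 : x = e := tendsto_nhds_unique (hu.congr' h2) tendsto_const_nhds
    rw [h3, h4]; exact left_mem_Icon _ _
  · obtain ⟨η, hc, hi, h0, h1, hI, hI'⟩ := F.param het
    set R : Set (X × X) := (fun p : ℝ × ℝ => (η p.1, η p.2)) ''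
      {p | p ∈ Icc (0:ℝ) 1 ×ˢ Icc (0:ℝ) 1 ∧ p.1 ≤ p.2} with hR
    have hRc : IsClosed R := by
      refine IsCompact.isClosed (IsCompact.image ?_ (by fun_prop))
      exact (isCompact_Icc.prod isCompact_Icc).inter_right (isClosed_le continuous_fst continuous_snd)
    have hmem : ∀ᶠ n in l, (u n, w n) ∈ R := (h.and he).mono fun n hn => by
      have h2 := hn.2
      rw [hI] at h2
      obtain ⟨b, hb, hbe⟩ := h2
      have h1 := hn.1
      rw [← hbe, hI' b hb] at h1
      obtain ⟨a, ha, hae⟩ := h1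
      exact ⟨(a, b), ⟨⟨⟨ha.1, ha.2.trans hb.2⟩, hb⟩, ha.2⟩, by simp [hae, hbe]⟩
    obtain ⟨⟨a, b⟩, ⟨⟨ha, hb⟩, hab⟩, he'⟩ := hRc.mem_of_tendsto (hu.prodMk_nhds hw) hmem
    simp only [Prod.mk.injEq] at he'
    rw [← he'.1, ← he'.2]
    exact (le_iff_param hi hI' ha hb).2 hab

/-- on a leg, lower sets depend upper semicontinuously on the point -/
lemma legcont {e x : X} (hx : x ∈ Icon t e) {ε : ℝ} (hε : 0 < ε) :
    ∃ δ > 0, ∀ y ∈ Icon t e, dist y x < δ → Icon t y ⊆ thickening ε (Icon t x) := by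
  by_contra hcon
  push Not at hcon
  choose u hu hu' hw using fun n : ℕ => hcon (1 / ((n : ℝ) + 1)) Nat.one_div_pos_of_nat
  simp only [not_subset] at hw
  choose w hw hw' using hw
  obtain ⟨y, hy⟩ := exists_lim (hyperfilter ℕ) w
  have hyK := F.closed_le (e := e) hy (tendsto_hyp hu') (Eventually.of_forall hw)
    (Eventually.of_forall hu)
  obtain ⟨n, hn⟩ := (Metric.tendsto_nhds.1 hy ε hε).exists
  exact hw' n (mem_thickening_iff.2 ⟨y, hyK, hn⟩)

/-- lower semicontinuity of `[t,x]` -/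
lemma lsc1 {x z : X} (hz : z ∈ Icon t x) {ε : ℝ} (hε : 0 < ε) :
    ∃ δ > 0, ∀ x', dist x' x < δ → ∃ z' ∈ Icon t x', dist z' z < ε := by
  obtain ⟨δ, hδ, h⟩ := lsc hz hε
  exact ⟨δ, hδ, fun x' hx' => h _ (F.conn_Icon t x').isPreconnected t (left_mem_Icon _ _) x'
    (right_mem_Icon _ _) (by simpa using hδ) hx'⟩

/-- lower semicontinuity, whole arc -/
lemma lsc_set (x : X) {ε : ℝ} (hε : 0 < ε) :
    ∃ δ > 0, ∀ x', dist x' x < δ → Icon t x ⊆ thickening ε (Icon t x') := by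
  by_contra hcon
  push Not at hcon
  choose u hu hw using fun n : ℕ => hcon (1 / ((n : ℝ) + 1)) Nat.one_div_pos_of_nat
  simp only [not_subset] at hw
  choose w hw hw' using hw
  obtain ⟨y, hy⟩ := exists_lim (hyperfilter ℕ) w
  have hyx : y ∈ Icon t x := (isClosed_Icon t x).mem_of_tendsto hy (Eventually.of_forall hw)
  obtain ⟨δ, hδ, h⟩ := F.lsc1 hyx (half_pos hε)
  obtain ⟨n, h1, h2⟩ := ((Metric.tendsto_nhds.1 hy _ (half_pos hε)).and (hyp_small hδ)).exists
  obtain ⟨z', hz', hd⟩ := h (u n) ((hu n).trans h2)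
  refine hw' n (mem_thickening_iff.2 ⟨z', hz', ?_⟩)
  rw [dist_comm] at hd
  linarith [dist_triangle (w n) y z']

lemma K1 {x y z : X} (h : y ∈ K t x) (hz : z ∈ Icon x y) : y ∈ K t z := by
  intro ε hε
  obtain ⟨δ, hδ, hl⟩ := lsc hz hε
  obtain ⟨x', hx', y', hy', hd⟩ := h (min δ ε) (lt_min hδ hε)
  obtain ⟨z', hz', hzd⟩ := hl (Icon y' x') (F.conn_Icon _ _).isPreconnected x' (right_mem_Icon _ _)
    y' (left_mem_Icon _ _) (hx'.trans_le (min_le_left _ _)) (hd.trans_le (min_le_left _ _))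
  rw [F.seg_eq hy'] at hz'
  exact ⟨z', hzd, y', hz'.2, hd.trans_le (min_le_right _ _)⟩

lemma K2 {x y z : X} (h : y ∈ K t x) (hz : z ∈ Icon t y) : z ∈ K t x := by
  intro ε hε
  obtain ⟨δ, hδ, hl⟩ := F.lsc1 hz hε
  obtain ⟨x', hx', y', hy', hd⟩ := h (min δ ε) (lt_min hδ hε)
  obtain ⟨z', hz', hzd⟩ := hl y' (hd.trans_le (min_le_left _ _))
  exact ⟨x', hx'.trans_le (min_le_right _ _), z', F.trans hz' hy', hzd⟩

/-! ### homeomorphisms -/

omit F [CompactSpace X] [Nonempty X] in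
lemma image_Icon (h : X ≃ₜ X) (x y : X) : h '' Icon x y = Icon (h x) (h y) := by
  apply Subset.antisymm
  · rintro _ ⟨z, hz, rfl⟩ C hC hCc hx hy
    exact hz (h ⁻¹' C) (hC.preimage h.continuous) (by
      rw [← h.image_symm]
      exact hCc.image _ h.symm.continuous.continuousOn) hx hy
  · intro w hw
    refine ⟨h.symm w, ?_, by simp⟩
    intro C hC hCc hx hy
    have := hw (h '' C) (h.isClosedMap _ hC) (hCc.image _ h.continuous.continuousOn)
      ⟨x, hx, rfl⟩ ⟨y, hy, rfl⟩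
    obtain ⟨c, hc, rfl⟩ := this
    simpa using hc

lemma map_t (h : X ≃ₜ X) : h t = t := by
  apply F.uniq
  obtain ⟨γ, hγ, hd⟩ := F.vert
  refine ⟨fun i s => h (γ i s), fun i => ⟨h.continuous.comp (hγ i).1, ?_, by simp [(hγ i).2.2]⟩, ?_⟩
  · intro a ha b hb hab
    exact (hγ i).2.1 ha hb (h.injective hab)
  · intro i j hij
    have e : ∀ k, (fun s => h (γ k s)) '' Icc 0 1 = h '' (γ k '' Icc 0 1) := fun k => by
      rw [image_image]
    rw [e, e, ← image_inter h.injective, hd i j hij, image_singleton]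

lemma map_le (h : X ≃ₜ X) {x y : X} : h x ∈ Icon t (h y) ↔ x ∈ Icon t y := by
  have := image_Icon h t y
  rw [F.map_t] at this
  rw [← this, h.injective.mem_set_image]

lemma image_le (h : X ≃ₜ X) (y : X) : h '' Icon t y = Icon t (h y) := by
  have := image_Icon h t y
  rwa [F.map_t] at this

lemma map_ne (h : X ≃ₜ X) {x : X} : h x ≠ t ↔ x ≠ t := by
  constructor
  · intro h1 h2; exact h1 (by rw [h2, F.map_t])
  · intro h1 h2; exact h1 (h.injective (by rw [h2, F.map_t]))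

lemma map_end (h : X ≃ₜ X) {e : X} : IsEnd t (h e) ↔ IsEnd t e := by
  unfold IsEnd
  rw [F.map_ne]
  refine and_congr_right fun _ => ?_
  constructor
  · intro H y hy
    exact h.injective (H (h y) ((F.map_le h).2 hy))
  · intro H y hy
    have := H (h.symm y) (by rw [← F.map_le h]; simpa using hy)
    rw [← this]; simp

lemma map_inn (h : X ≃ₜ X) {x : X} : Inn t (h x) ↔ Inn t x := by
  unfold Inn
  rw [F.map_ne, F.map_end]

lemma map_top (h : X ≃ₜ X) (x : X) : top t (h x) = h (top t x) := by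
  by_cases hx : x = t
  · have : top t t = t := by
      unfold top
      rw [dif_neg]
      rintro ⟨e, he⟩
      exact he.2.2 rfl
    rw [hx, F.map_t, this, F.map_t]
  · exact F.top_unique ((F.map_ne h).2 hx) ((F.map_end h).2 (F.isEnd_top hx))
      ((F.map_le h).2 (F.le_top hx))

lemma map_K (h : X ≃ₜ X) {x y : X} (hy : y ∈ K t x) : h y ∈ K t (h x) := by
  obtain ⟨u, w, hu, hw, huw⟩ := exists_seq_of_mem_K hy
  exact mem_K_of_tendsto ((h.continuous.tendsto _).comp hu) ((h.continuous.tendsto _).comp hw)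
    (Eventually.of_forall fun n => (F.map_le h).2 (huw n))

end IsFan

/-! ### alternation -/

/-- `Alt n x`: there are `n` consecutive alternations `V1, V0` below `x` -/
def Alt (t : X) (V0 V1 : Set X) : ℕ → X → Prop
  | 0, _ => True
  | n + 1, x => ∃ b a, b ∈ V1 ∧ a ∈ V0 ∧ Alt t V0 V1 n b ∧ b ∈ Icon t a ∧ a ∈ Icon t x

namespace IsFan

variable {t : X} (F : IsFan X t)
include F

lemma alt_mono {V0 V1 : Set X} {n : ℕ} {x y : X} (h : Alt t V0 V1 n x) (hxy : x ∈ Icon t y) :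
    Alt t V0 V1 n y := by
  cases n with
  | zero => trivial
  | succ n =>
    obtain ⟨b, a, hb, ha, hn, hba, hax⟩ := h
    exact ⟨b, a, hb, ha, hn, hba, F.trans hax hxy⟩

lemma alt_open {V0 V1 : Set X} (h0 : IsOpen V0) (h1 : IsOpen V1) (n : ℕ) :
    IsOpen {x | Alt t V0 V1 n x} := by
  induction n with
  | zero => simp [Alt]
  | succ n ih =>
    rw [Metric.isOpen_iff]
    rintro x ⟨b, a, hb, ha, hn, hba, hax⟩
    obtain ⟨ε, hε, hεb⟩ := Metric.isOpen_iff.1 (h1.inter ih) b ⟨hb, hn⟩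
    obtain ⟨δ, hδ, hδ'⟩ := F.lsc1 hba hε
    obtain ⟨ε', hε', hεa⟩ := Metric.isOpen_iff.1 h0 a ha
    obtain ⟨δ', hδ'0, hδ''⟩ := F.lsc1 hax (lt_min hδ hε')
    refine ⟨δ', hδ'0, fun x' hx' => ?_⟩
    obtain ⟨a', ha', hda⟩ := hδ'' x' hx'
    obtain ⟨b', hb', hdb⟩ := hδ' a' (hda.trans_le (min_le_left _ _))
    have h2 := hεb (mem_ball.2 hdb)
    exact ⟨b', a', h2.1, hεa (mem_ball.2 (hda.trans_le (min_le_right _ _))), h2.2, hb', ha'⟩

lemma alt_bdd {V0 V1 : Set X} {c : ℝ} (hc : 0 < c) (hd : ∀ a ∈ V0, ∀ b ∈ V1, c ≤ dist a b) (x : X) :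
    ∃ n, ¬ Alt t V0 V1 n x := by
  rcases eq_or_ne x t with rfl | hx
  · refine ⟨1, ?_⟩
    rintro ⟨b, a, hb, ha, -, hba, hax⟩
    have h1 := F.le_t hax
    subst h1
    have h2 := F.le_t hba
    subst h2
    have := hd _ ha _ hb
    rw [dist_self] at this
    linarith
  · obtain ⟨η, hη, hi, h0, h1, hI, hI'⟩ := F.param hx
    have huc : UniformContinuousOn η (Icc 0 1) :=
      isCompact_Icc.uniformContinuousOn_of_continuous hη.continuousOn
    obtain ⟨δ, hδ, hu⟩ := Metric.uniformContinuousOn_iff.1 huc c hc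
    have key : ∀ n : ℕ, ∀ s ∈ Icc (0:ℝ) 1, Alt t V0 V1 n (η s) → (n : ℝ) * δ ≤ s := by
      intro n
      induction n with
      | zero => intro s hs _; simpa using hs.1
      | succ n ih =>
        rintro s hs ⟨b, a, hb, ha, hn, hba, has⟩
        rw [hI' s hs] at has
        obtain ⟨r, hr, rfl⟩ := has
        have hr1 : r ∈ Icc (0:ℝ) 1 := ⟨hr.1, hr.2.trans hs.2⟩
        rw [hI' r hr1] at hba
        obtain ⟨q, hq, rfl⟩ := hba
        have hq1 : q ∈ Icc (0:ℝ) 1 := ⟨hq.1, hq.2.trans hr1.2⟩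
        have h3 := ih q hq1 hn
        have h4 : δ ≤ dist r q := by
          by_contra h5
          push Not at h5
          have := hu r hr1 q hq1 h5
          have := hd _ ha _ hb
          linarith
        rw [Real.dist_eq, abs_of_nonneg (by linarith [hq.2])] at h4
        push_cast
        linarith [hr.2]
    obtain ⟨n, hn⟩ := exists_nat_gt (1 / δ)
    refine ⟨n, fun hA => ?_⟩
    have := key n 1 ⟨zero_le_one, le_rfl⟩ (by rw [h1]; exact hA)
    rw [div_lt_iff₀ hδ] at hn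
    linarith

end IsFan

end Run7.h149.Fan
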