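import Mathlib
import Pool.Agent.Run7.h149.Fan.Tools

/-! Parametrised legs and the orbit hypotheses. -/

set_option autoImplicit false
set_option linter.unusedSectionVars false
set_option linter.deprecated false

open Set Topology Filter Metric

namespace Run7.h149.Fan

variable {X : Type*} [MetricSpace X] [CompactSpace X] [Nonempty X]

/-- a parametrisation of the open leg below the end `e` -/
structure LegParam (t e : X) (γ : ℝ → X) : Prop where
  cont : Continuous γ
  inn : ∀ s, Inn t (γ s)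
  top_eq : ∀ s, top t (γ s) = e
  surj : ∀ x, Inn t x → top t x = e → ∃ s, γ s = x
  le_iff : ∀ s s', γ s ∈ Icon t (γ s') ↔ s ≤ s'
  bot : Tendsto γ atBot (𝓝 t)
  topl : Tendsto γ atTop (𝓝 e)

namespace IsFan

variable {t : X} (F : IsFan X t)
include F

lemma exists_legParam {e : X} (he : IsEnd t e) : ∃ γ, LegParam t e γ := by
  obtain ⟨η, hc, hi, h0, h1, hI, hI'⟩ := F.param he.1
  set ψ : ℝ → ℝ := fun s => 1 / 2 + Real.arctan s / Real.pi with hψ
  have hpi := Real.pi_pos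
  have hψc : Continuous ψ := by
    have := Real.continuous_arctan
    fun_prop
  have hψm : StrictMono ψ := by
    intro a b hab
    have := Real.arctan_strictMono hab
    have : Real.arctan a / Real.pi < Real.arctan b / Real.pi := by gcongr
    simp only [hψ]; linarith
  have hψ01 : ∀ s, ψ s ∈ Ioo (0:ℝ) 1 := by
    intro s
    have h1 := Real.neg_pi_div_two_lt_arctan s
    have h2 := Real.arctan_lt_pi_div_two s
    constructor
    · have : -(1/2) < Real.arctan s / Real.pi := by rw [lt_div_iff₀ hpi]; linarith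
      simp only [hψ]; linarith
    · have : Real.arctan s / Real.pi < 1/2 := by rw [div_lt_iff₀ hpi]; linarith
      simp only [hψ]; linarith
  have hIcc : ∀ s, ψ s ∈ Icc (0:ℝ) 1 := fun s => Ioo_subset_Icc_self (hψ01 s)
  have hψs : ∀ r ∈ Ioo (0:ℝ) 1, ∃ s, ψ s = r := by
    intro r hr
    refine ⟨Real.tan (Real.pi * (r - 1/2)), ?_⟩
    simp only [hψ]
    rw [Real.arctan_tan (by nlinarith [hr.1]) (by nlinarith [hr.2])]
    field_simp
    ring
  have hne : ∀ s, η (ψ s) ≠ t := by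
    intro s h
    rw [← h0] at h
    have := hi (hIcc s) ⟨le_rfl, zero_le_one⟩ h
    exact (hψ01 s).1.ne' this
  have hle : ∀ s, η (ψ s) ∈ Icon t e := fun s => by rw [hI]; exact ⟨_, hIcc s, rfl⟩
  have hnee : ∀ s, η (ψ s) ≠ e := by
    intro s h
    rw [← h1] at h
    have := hi (hIcc s) ⟨zero_le_one, le_rfl⟩ h
    exact (hψ01 s).2.ne this
  refine ⟨fun s => η (ψ s), hc.comp hψc, fun s => ⟨hne s, fun hE => ?_⟩, fun s => ?_, ?_, ?_, ?_, ?_⟩
  · exact hnee s (hE.2 _ (hle s)).symm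
  · exact F.top_unique (hne s) he (hle s)
  · intro x hx hxe
    have h2 := F.le_top hx.1
    rw [hxe, hI] at h2
    obtain ⟨r, hr, rfl⟩ := h2
    have hr0 : r ≠ 0 := fun h => hx.1 (by rw [h, h0])
    have hr1 : r ≠ 1 := fun h => hx.2 (by rw [h, h1]; exact he)
    obtain ⟨s, hs⟩ := hψs r ⟨lt_of_le_of_ne hr.1 (Ne.symm hr0), lt_of_le_of_ne hr.2 hr1⟩
    exact ⟨s, by simp only [hs]⟩
  · intro s s'
    rw [le_iff_param hi hI' (hIcc s) (hIcc s')]
    exact hψm.le_iff_le
  · have : Tendsto ψ atBot (𝓝 (1 / 2 + (-(Real.pi / 2)) / Real.pi)) :=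
      tendsto_const_nhds.add ((tendsto_nhds_of_tendsto_nhdsWithin Real.tendsto_arctan_atBot).div_const _)
    have e0 : (1:ℝ) / 2 + (-(Real.pi / 2)) / Real.pi = 0 := by field_simp; ring
    rw [e0] at this
    have h2 := (hc.tendsto 0).comp this
    rwa [h0] at h2
  · have : Tendsto ψ atTop (𝓝 (1 / 2 + (Real.pi / 2) / Real.pi)) :=
      tendsto_const_nhds.add ((tendsto_nhds_of_tendsto_nhdsWithin Real.tendsto_arctan_atTop).div_const _)
    have e0 : (1:ℝ) / 2 + (Real.pi / 2) / Real.pi = 1 := by field_simp; ring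
    rw [e0] at this
    have h2 := (hc.tendsto 1).comp this
    rwa [h1] at h2

end IsFan

namespace LegParam

variable {t e : X} {γ : ℝ → X} (L : LegParam t e γ) (F : IsFan X t)
include L F

lemma inj : Function.Injective γ := fun a b hab =>
  le_antisymm ((L.le_iff a b).1 (hab ▸ right_mem_Icon _ _)) ((L.le_iff b a).1 (hab ▸ right_mem_Icon _ _))

lemma le_e (s : ℝ) : γ s ∈ Icon t e := by
  have := F.le_top (L.inn s).1
  rwa [L.top_eq] at this

lemma isEnd : IsEnd t e := by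
  have := F.isEnd_top (L.inn 0).1
  rwa [L.top_eq] at this

/-- inverse continuity -/
lemma inv_cont {ι : Type*} {l : Filter ι} [l.NeBot] {s : ι → ℝ} {s₀ : ℝ}
    (h : Tendsto (fun i => γ (s i)) l (𝓝 (γ s₀))) : Tendsto s l (𝓝 s₀) := by
  rw [tendsto_order]
  constructor
  · intro a ha
    by_contra hcon
    rw [not_eventually] at hcon
    set l' := l ⊓ 𝓟 {i | ¬ a < s i}
    haveI : l'.NeBot := by
      exact (frequently_mem_iff_neBot (l := l) (s := {i | ¬ a < s i})).1 hcon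
    have h1 : ∀ᶠ i in l', γ (s i) ∈ Icon t (γ a) :=
      Filter.mem_inf_of_right (mem_principal.2 fun i hi => (L.le_iff _ _).2 (not_lt.1 hi))
    have h2 := F.closed_le (e := e) (h.mono_left (inf_le_left : l' ≤ l))
      (tendsto_const_nhds (x := γ a)) h1 (Eventually.of_forall fun _ => L.le_e F a)
    exact absurd ((L.le_iff _ _).1 h2) (not_le.2 ha)
  · intro a ha
    by_contra hcon
    rw [not_eventually] at hcon
    set l' := l ⊓ 𝓟 {i | ¬ s i < a}
    haveI : l'.NeBot := by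
      exact (frequently_mem_iff_neBot (l := l) (s := {i | ¬ s i < a})).1 hcon
    have h1 : ∀ᶠ i in l', γ a ∈ Icon t (γ (s i)) :=
      Filter.mem_inf_of_right (mem_principal.2 fun i hi => (L.le_iff _ _).2 (not_lt.1 hi))
    have h2 := F.closed_le (e := e) (tendsto_const_nhds (x := γ a))
      (h.mono_left (inf_le_left : l' ≤ l)) h1 (Eventually.of_forall fun i => L.le_e F _)
    exact absurd ((L.le_iff _ _).1 h2) (not_le.2 ha)

lemma to_top {ι : Type*} {l : Filter ι} [l.NeBot] {s : ι → ℝ}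
    (h : Tendsto (fun i => γ (s i)) l (𝓝 e)) : Tendsto s l atTop := by
  rw [Filter.tendsto_atTop]
  intro a
  by_contra hcon
  rw [not_eventually] at hcon
  set l' := l ⊓ 𝓟 {i | ¬ a ≤ s i}
  haveI : l'.NeBot := (frequently_mem_iff_neBot (l := l) (s := {i | ¬ a ≤ s i})).1 hcon
  have h1 : ∀ᶠ i in l', γ (s i) ∈ Icon t (γ a) :=
    Filter.mem_inf_of_right (mem_principal.2 fun i hi => (L.le_iff _ _).2 (not_le.1 hi).le)
  have h2 := F.closed_le (e := e) (h.mono_left (inf_le_left : l' ≤ l))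
    (tendsto_const_nhds (x := γ a)) h1 (Eventually.of_forall fun _ => L.le_e F a)
  exact (L.inn a).2 (by
    have := F.antisymm h2 (L.le_e F a)
    rw [← this]; exact L.isEnd F)

/-- points of the closed leg -/
lemma cases {x : X} (hx : x ∈ Icon t e) : x = t ∨ x = e ∨ ∃ s, γ s = x := by
  by_cases h : x = t
  · exact Or.inl h
  by_cases h' : x = e
  · exact Or.inr (Or.inl h')
  · refine Or.inr (Or.inr (L.surj x ⟨h, fun hE => h' (hE.2 _ hx).symm⟩
      (F.top_unique h (L.isEnd F) hx)))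

end LegParam

/-- the orbit hypotheses: the ends form one orbit, the interior points the two orbits `A`, `B` -/
structure Two (t : X) (A B : Set X) : Prop where
  ends : ∀ e e', IsEnd t e → IsEnd t e' → ∃ h : X ≃ₜ X, h e = e'
  exA : A.Nonempty
  exB : B.Nonempty
  cover : ∀ x, Inn t x ↔ x ∈ A ∨ x ∈ B
  disj : ∀ x ∈ A, x ∉ B
  orbA : ∀ x ∈ A, ∀ y, y ∈ A ↔ ∃ h : X ≃ₜ X, h x = y
  orbB : ∀ x ∈ B, ∀ y, y ∈ B ↔ ∃ h : X ≃ₜ X, h x = y

namespace Two

variable {t : X} {A B : Set X}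

lemma symm (T : Two t A B) : Two t B A :=
  ⟨T.ends, T.exB, T.exA, fun x => by rw [T.cover]; exact or_comm, fun x hx hA => T.disj x hA hx,
    T.orbB, T.orbA⟩

variable (T : Two t A B) (F : IsFan X t)
include T F

lemma innA {x : X} (hx : x ∈ A) : Inn t x := (T.cover x).2 (Or.inl hx)
lemma innB {x : X} (hx : x ∈ B) : Inn t x := (T.cover x).2 (Or.inr hx)

lemma mapA (h : X ≃ₜ X) {x : X} (hx : x ∈ A) : h x ∈ A := (T.orbA x hx _).2 ⟨h, rfl⟩
lemma mapB (h : X ≃ₜ X) {x : X} (hx : x ∈ B) : h x ∈ B := (T.orbB x hx _).2 ⟨h, rfl⟩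

lemma legA {e : X} (he : IsEnd t e) : ∃ x ∈ A, top t x = e := by
  obtain ⟨a, ha⟩ := T.exA
  obtain ⟨h, hh⟩ := T.ends _ e (F.isEnd_top (T.innA F ha).1) he
  exact ⟨h a, T.mapA F h ha, by rw [F.map_top, hh]⟩

lemma legB {e : X} (he : IsEnd t e) : ∃ x ∈ B, top t x = e := T.symm.legA F he

lemma moveA {x y : X} (hx : x ∈ A) (hy : y ∈ A) : ∃ h : X ≃ₜ X, h x = y ∧ h (top t x) = top t y := by
  obtain ⟨h, hh⟩ := (T.orbA x hx y).1 hy
  exact ⟨h, hh, by rw [← F.map_top, hh]⟩

lemma moveB {x y : X} (hx : x ∈ B) (hy : y ∈ B) : ∃ h : X ≃ₜ X, h x = y ∧ h (top t x) = top t y :=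
  T.symm.moveA F hx hy

lemma no_fixed_aux {p : X} (hp : p ∈ A) : ∃ h : X ≃ₜ X, h (top t p) = top t p ∧ h p ≠ p := by
  by_contra hcon
  push Not at hcon
  obtain ⟨e, he⟩ : ∃ e, e = top t p := ⟨_, rfl⟩
  rw [← he] at hcon
  obtain ⟨γ, L⟩ := F.exists_legParam (F.isEnd_top (T.innA F hp).1)
  rw [← he] at L
  obtain ⟨s, rfl⟩ := L.surj p (T.innA F hp) he.symm
  have h1 : ∀ r, r ≠ s → γ r ∈ B := by
    intro r hr
    rcases (T.cover (γ r)).1 (L.inn r) with h | h
    · obtain ⟨g, hg, hge⟩ := T.moveA F hp h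
      rw [L.top_eq, L.top_eq] at hge
      have := hcon g hge
      rw [hg] at this
      exact absurd (L.inj F this) hr
    · exact h
  obtain ⟨g, hg, hge⟩ := T.moveB F (h1 (s - 1) (by linarith)) (h1 (s + 1) (by linarith))
  rw [L.top_eq, L.top_eq] at hge
  have h2 := hcon g hge
  have h3 : g (γ (s - 1)) ∈ Icon t (g (γ s)) := (F.map_le g).2 ((L.le_iff _ _).2 (by linarith))
  rw [hg, h2, L.le_iff] at h3
  linarith

lemma no_fixed {p : X} (hp : Inn t p) : ∃ h : X ≃ₜ X, h (top t p) = top t p ∧ h p ≠ p := by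
  rcases (T.cover p).1 hp with h | h
  · exact T.no_fixed_aux F h
  · exact T.symm.no_fixed_aux F h

lemma exists_end' : ∃ e, IsEnd t e := by
  obtain ⟨a, ha⟩ := T.exA
  exact ⟨_, F.isEnd_top (T.innA F ha).1⟩

/-- an invariant closed down-set of a leg is `{t}`-ish or everything -/
lemma closed_inv {e : X} (he : IsEnd t e) {S : Set X} (hS : IsClosed S) (hSe : S ⊆ Icon t e)
    (hinv : ∀ h : X ≃ₜ X, h e = e → ∀ x ∈ S, h x ∈ S)
    (hdown : ∀ x ∈ S, Icon t x ⊆ S) {y : X} (hy : y ∈ S) (hyt : y ≠ t) : e ∈ S := by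
  have htS : t ∈ S := hdown y hy (left_mem_Icon _ _)
  have hconn : IsConnected S := by
    refine ⟨⟨t, htS⟩, isPreconnected_of_forall t fun x hx => ⟨Icon t x, hdown x hx,
      left_mem_Icon _ _, right_mem_Icon _ _, (F.conn_Icon _ _).isPreconnected⟩⟩
  obtain ⟨m, hm, hSm⟩ := F.exists_max_of_subset hS hconn htS hSe
  have hmt : m ≠ t := by
    rintro rfl
    rw [hSm] at hy
    exact hyt (F.le_t hy)
  by_cases hme : m = e
  · rwa [← hme]
  exfalso
  have hme' : m ∈ Icon t e := hSe hm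
  have hmi : Inn t m := ⟨hmt, fun h => hme (h.2 _ hme').symm⟩
  have htop : top t m = e := F.top_unique hmt he hme'
  obtain ⟨h, hh, hne⟩ := T.no_fixed F hmi
  rw [htop] at hh
  apply hne
  have h1 : h m ∈ Icon t m := by rw [← hSm]; exact hinv h hh m hm
  have h2 : h.symm m ∈ Icon t m := by
    rw [← hSm]
    exact hinv h.symm (by rw [Homeomorph.symm_apply_eq, hh]) m hm
  have h3 : m ∈ Icon t (h m) := by rw [← F.map_le h] at h2; simpa using h2
  exact F.antisymm h1 h3

end Two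

end Run7.h149.Fan
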