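import Mathlib
import Pool.Agent.Run7.h149.Fan.Orb

/-! `K_t = {t}` and its consequences. -/

set_option autoImplicit false
set_option linter.unusedSectionVars false
set_option linter.deprecated false

open Set Topology Filter Metric

namespace Run7.h149.Fan

variable {X : Type*} [MetricSpace X] [CompactSpace X] [Nonempty X]

lemma IsFan.dense_smooth {t : X} (F : IsFan X t) : Dense {x | K t x ⊆ Icon t x} := by
  obtain ⟨b, hbc, -, hb⟩ := TopologicalSpace.exists_countable_basis X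
  haveI : Countable b := hbc.to_subtype
  set O : b → Set X := fun V => {x | (Icon t x ∩ (V : Set X)).Nonempty} with hO
  have hOo : ∀ V, IsOpen (O V) := by
    intro V
    rw [Metric.isOpen_iff]
    rintro x ⟨z, hz, hzV⟩
    obtain ⟨ε, hε, hεV⟩ := Metric.isOpen_iff.1 (hb.isOpen V.2) z hzV
    obtain ⟨δ, hδ, h⟩ := F.lsc1 hz hε
    refine ⟨δ, hδ, fun x' hx' => ?_⟩
    obtain ⟨z', hz', hd⟩ := h x' hx'
    exact ⟨z', hz', hεV hd⟩
  have hd : Dense (⋂ V, (frontier (O V))ᶜ) := by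
    refine dense_iInter_of_isOpen (fun V => isClosed_frontier.isOpen_compl) fun V => ?_
    rw [← interior_eq_empty_iff_dense_compl, ← frontier_compl]
    exact interior_frontier (hOo V).isClosed_compl
  refine hd.mono fun x hx y hy => ?_
  by_contra hyn
  obtain ⟨ε, hε, hεb⟩ := Metric.isOpen_iff.1 (isClosed_Icon t x).isOpen_compl y hyn
  obtain ⟨V, hV, hyV, hVb⟩ := hb.exists_subset_of_mem_open (mem_ball_self hε) isOpen_ball
  rw [mem_iInter] at hx
  apply hx ⟨V, hV⟩
  rw [(hOo _).frontier_eq]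
  refine ⟨?_, ?_⟩
  · rw [Metric.mem_closure_iff]
    intro δ hδ
    obtain ⟨ε', hε', hV'⟩ := Metric.isOpen_iff.1 (hb.isOpen hV) y hyV
    obtain ⟨x', hx', y', hy', hd⟩ := hy (min δ ε') (lt_min hδ hε')
    refine ⟨x', ⟨y', hy', hV' (mem_ball.2 (hd.trans_le (min_le_right _ _)))⟩, ?_⟩
    rw [dist_comm]
    exact hx'.trans_le (min_le_left _ _)
  · rintro ⟨z, hz, hzV⟩
    exact hεb (hVb hzV) hz

namespace Two

variable {t : X} {A B : Set X} (T : Two t A B) (F : IsFan X t)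
include T F

lemma Kt_univ {y : X} (hy : y ∈ K t t) (hyt : y ≠ t) (x : X) : x ∈ K t t := by
  have he := F.isEnd_top hyt
  have h1 := T.closed_inv F he (S := K t t ∩ Icon t (top t y)) ((isClosed_K t t).inter (isClosed_Icon _ _))
    inter_subset_right (by
      rintro h hh z ⟨hz, hz'⟩
      refine ⟨?_, ?_⟩
      · have := F.map_K h hz
        rwa [F.map_t] at this
      · rw [← hh, F.map_le]; exact hz') (by
      rintro z ⟨hz, hz'⟩ w hw
      exact ⟨F.K2 hz hw, F.trans hw hz'⟩) ⟨hy, F.le_top hyt⟩ hyt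
  by_cases hx : x = t
  · rw [hx]; exact subset_K t t (left_mem_Icon _ _)
  obtain ⟨h, hh⟩ := T.ends _ _ he (F.isEnd_top hx)
  have := F.map_K h h1.1
  rw [F.map_t, hh] at this
  exact F.K2 this (F.le_top hx)

theorem Kt : K t t = {t} := by
  by_contra hcon
  obtain ⟨y, hy, hyt⟩ : ∃ y ∈ K t t, y ≠ t := by
    by_contra h
    push Not at h
    exact hcon (Subset.antisymm h (by rintro _ rfl; exact subset_K _ _ (left_mem_Icon _ _)))
  have hall := T.Kt_univ F hy hyt
  obtain ⟨e0, he0⟩ := T.exists_end' F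
  -- smooth points are ends
  have hsm : ∀ x, K t x ⊆ Icon t x → IsEnd t x := by
    intro x hx
    have hxt : x ≠ t := by
      rintro rfl
      exact he0.1 (F.le_t (hx (hall e0)))
    have h1 : top t x ∈ K t x := F.K1 (hall (top t x)) (F.le_top hxt)
    have h2 := F.antisymm (hx h1) (F.le_top hxt)
    rw [← h2]; exact F.isEnd_top hxt
  have hEd : ∀ W : Set X, IsOpen W → W.Nonempty → ∃ e ∈ W, IsEnd t e := by
    intro W hW hne
    obtain ⟨x, hx, hxs⟩ := F.dense_smooth.inter_open_nonempty W hW hne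
    exact ⟨x, hx, hsm x hxs⟩
  set r := dist t e0 with hr
  have hr0 : 0 < r := dist_pos.2 (Ne.symm he0.1)
  set V0 := ball t (r / 3)
  set V1 := ball e0 (r / 3)
  have hsep : ∀ a ∈ V0, ∀ b ∈ V1, r / 3 ≤ dist a b := by
    intro a ha b hb
    have h1 := mem_ball.1 ha
    have h2 := mem_ball.1 hb
    have h3 := dist_triangle t a e0
    have h4 := dist_triangle a b e0
    rw [dist_comm t a] at h3
    linarith
  have key : ∀ n, ∀ W : Set X, IsOpen W → W ⊆ V1 → W.Nonempty → ∃ x ∈ W, Alt t V0 V1 n x := by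
    intro n
    induction n with
    | zero => rintro W - - ⟨x, hx⟩; exact ⟨x, hx, trivial⟩
    | succ n ih =>
      intro W hW hWV hne
      obtain ⟨x1, hx1, hA1⟩ := ih W hW hWV hne
      have hW1 : IsOpen (W ∩ {x | Alt t V0 V1 n x}) := hW.inter (F.alt_open isOpen_ball isOpen_ball n)
      obtain ⟨e', he'W, he'⟩ := hEd _ hW1 ⟨x1, hx1, hA1⟩
      obtain ⟨ε, hε, hεW⟩ := Metric.isOpen_iff.1 hW1 e' he'W
      obtain ⟨x', hx', y', hy', hyd⟩ := hall e' (min ε (r / 3)) (lt_min hε (by linarith))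
      have hy'W := hεW (mem_ball.2 (hyd.trans_le (min_le_left _ _)))
      have hx'V : x' ∈ V0 := mem_ball.2 (hx'.trans_le (min_le_right _ _))
      have hx't : x' ≠ t := by
        rintro rfl
        have h1 := F.le_t hy'
        have h2 := hsep _ hx'V _ (hWV hy'W.1)
        rw [h1, dist_self] at h2
        linarith
      have hAe : Alt t V0 V1 (n + 1) (top t x') :=
        ⟨y', x', hWV hy'W.1, hx'V, hy'W.2, hy', F.le_top hx't⟩
      have hK : top t x' ∈ K t y' := F.K1 (hall _) (F.trans hy' (F.le_top hx't))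
      obtain ⟨ε1, hε1, hεW1⟩ := Metric.isOpen_iff.1 hW1 y' hy'W
      obtain ⟨ε2, hε2, hεA⟩ := Metric.isOpen_iff.1
        (F.alt_open isOpen_ball isOpen_ball (n + 1) (V0 := V0) (V1 := V1)) _ hAe
      obtain ⟨u, hu, w, hw, hwd⟩ := hK (min ε1 ε2) (lt_min hε1 hε2)
      refine ⟨u, (hεW1 (mem_ball.2 (hu.trans_le (min_le_left _ _)))).1, ?_⟩
      exact F.alt_mono (hεA (mem_ball.2 (hwd.trans_le (min_le_right _ _)))) hw
  obtain ⟨x, -, hx⟩ := baire_inter (Y := univ) isClosed_univ (fun n => {x | Alt t V0 V1 n x})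
    (fun n => F.alt_open isOpen_ball isOpen_ball n) (O := V1) isOpen_ball
    ⟨e0, mem_ball_self (by linarith), mem_univ _⟩ (by
      rintro n O' hO' hsub ⟨x, hx, -⟩
      obtain ⟨y, hy, hA⟩ := key n O' hO' hsub ⟨x, hx⟩
      exact ⟨y, ⟨hy, mem_univ _⟩, hA⟩)
  obtain ⟨n, hn⟩ := F.alt_bdd (by linarith) hsep x
  exact hn (hx n)

lemma ne_t_of_mem_K {x y : X} (h : x ∈ K t y) (hx : x ≠ t) : y ≠ t := by
  rintro rfl
  rw [T.Kt F] at h
  exact hx h

lemma K_sub {x : X} (hx : x ≠ t) : K t x ⊆ Icon t (top t x) := by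
  intro y hy
  by_cases hyt : y = t
  · rw [hyt]; exact left_mem_Icon _ _
  by_contra hcon
  have h1 : ¬ x ∈ Icon t y := fun h => hcon (by
    rw [F.top_of_le hx h]; exact F.le_top hyt)
  have h2 : ¬ y ∈ Icon t x := fun h => hcon (F.trans h (F.le_top hx))
  have h3 : t ∈ Icon x y := by rw [F.Icon_incomp h1 h2]; exact Or.inl (left_mem_Icon _ _)
  have h4 := F.K1 hy h3
  rw [T.Kt F] at h4
  exact hyt h4

lemma K_end {e : X} (he : IsEnd t e) : K t e = Icon t e := by
  refine Subset.antisymm ?_ (subset_K t e)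
  have := T.K_sub F he.1
  rwa [F.top_end he] at this

/-- limit of points on legs -/
lemma leg_lim {ι : Type*} {l : Filter ι} [l.NeBot] {u w e : ι → X} {x y z : X}
    (hu : Tendsto u l (𝓝 x)) (hx : x ≠ t) (hw : Tendsto w l (𝓝 y)) (he : Tendsto e l (𝓝 z))
    (h1 : ∀ᶠ n in l, u n ∈ Icon t (e n)) (h2 : ∀ᶠ n in l, w n ∈ Icon t (e n)) :
    y ∈ Icon t (top t x) ∧ z ∈ Icon t (top t x) ∧ z ≠ t ∧ x ∈ K t z ∧ y ∈ K t z := by
  have hxz : x ∈ K t z := mem_K_of_tendsto he hu h1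
  have hyz : y ∈ K t z := mem_K_of_tendsto he hw h2
  have hzt := T.ne_t_of_mem_K F hxz hx
  have h3 := T.K_sub F hzt hxz
  have h4 : top t x = top t z := F.top_unique hx (F.isEnd_top hzt) h3
  exact ⟨h4 ▸ T.K_sub F hzt hyz, h4 ▸ F.le_top hzt, hzt, hxz, hyz⟩

/-- upper semicontinuity of legs -/
lemma leg_usc {x : X} (hx : x ≠ t) {ε : ℝ} (hε : 0 < ε) :
    ∃ δ > 0, ∀ x', dist x' x < δ → Icon t (top t x') ⊆ thickening ε (Icon t (top t x)) := by
  by_contra hcon
  push Not at hcon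
  choose u hu hw using fun n : ℕ => hcon (1 / ((n : ℝ) + 1)) Nat.one_div_pos_of_nat
  simp only [not_subset] at hw
  choose w hw hw' using hw
  obtain ⟨y, hy⟩ := exists_lim (hyperfilter ℕ) w
  obtain ⟨z, hz⟩ := exists_lim (hyperfilter ℕ) (fun n => top t (u n))
  have hut : ∀ᶠ n in (hyperfilter ℕ : Filter ℕ), u n ≠ t :=
    (tendsto_hyp hu).eventually (isOpen_ne.mem_nhds hx)
  have h1 := T.leg_lim F (tendsto_hyp hu) hx hy hz (hut.mono fun n hn => F.le_top hn)
    (Eventually.of_forall hw)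
  obtain ⟨n, hn⟩ := (Metric.tendsto_nhds.1 hy ε hε).exists
  exact hw' n (mem_thickening_iff.2 ⟨y, h1.1, hn⟩)

lemma end_notMem_K {x : X} (hx : Inn t x) : top t x ∉ K t x := by
  intro hcon
  set e := top t x with he'
  have he : IsEnd t e := F.isEnd_top hx.1
  obtain ⟨γ, L⟩ := F.exists_legParam he
  set D : Set ℝ := {s | e ∈ K t (γ s)} with hD
  obtain ⟨s0, hs0⟩ := L.surj x hx rfl
  have hs0D : s0 ∈ D := by simp only [hD, mem_setOf_eq, hs0]; exact hcon
  have hDc : IsClosed D := by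
    rw [← isSeqClosed_iff_isClosed]
    intro s a hs ha
    exact K_closed ((L.cont.tendsto a).comp ha) (tendsto_const_nhds (x := e)) (Eventually.of_forall hs)
  have hup : ∀ s ∈ D, ∀ r, s ≤ r → r ∈ D := by
    intro s hs r hsr
    refine F.K1 hs ?_
    rw [F.seg_eq (L.le_e F s)]
    exact ⟨L.le_e F r, (L.le_iff _ _).2 hsr⟩
  by_cases hbdd : BddBelow D
  · have hm : sInf D ∈ D := hDc.csInf_mem ⟨s0, hs0D⟩ hbdd
    obtain ⟨h, hh, hne⟩ := T.no_fixed F (L.inn (sInf D))
    rw [L.top_eq] at hh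
    have hmem : ∀ g : X ≃ₜ X, g e = e → ∀ s ∈ D, ∃ s' ∈ D, γ s' = g (γ s) := by
      intro g hg s hs
      obtain ⟨s', hs'⟩ := L.surj (g (γ s)) ((F.map_inn g).2 (L.inn s)) (by
        rw [F.map_top, L.top_eq, hg])
      refine ⟨s', ?_, hs'⟩
      have := F.map_K g hs
      rw [hg] at this
      simp only [hD, mem_setOf_eq, hs']; exact this
    obtain ⟨s1, hs1, he1⟩ := hmem h hh _ hm
    obtain ⟨s2, hs2, he2⟩ := hmem h.symm (by rw [Homeomorph.symm_apply_eq, hh]) _ hm
    have h1 := csInf_le hbdd hs1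
    have h2 := csInf_le hbdd hs2
    have h3 : γ (sInf D) ∈ Icon t (h.symm (γ (sInf D))) := by rw [← he2]; exact (L.le_iff _ _).2 h2
    rw [← F.map_le h] at h3
    simp only [Homeomorph.apply_symm_apply] at h3
    rw [← he1] at h3 hne
    have h4 := (L.le_iff _ _).1 h3
    exact hne (by rw [le_antisymm h4 h1])
  · have hall : ∀ s, s ∈ D := by
      intro s
      by_contra hs
      exact hbdd ⟨s, fun r hr => not_lt.1 fun hlt => hs (hup r hr s hlt.le)⟩
    have h1 : e ∈ K t t := K_closed (l := atBot) L.bot (tendsto_const_nhds (x := e))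
      (Eventually.of_forall hall)
    rw [T.Kt F] at h1
    exact he.1 h1

/-- tops of points converging to an end converge to it -/
lemma top_tendsto {ι : Type*} {l : Filter ι} {u : ι → X} {e : X} (he : IsEnd t e)
    (hu : Tendsto u l (𝓝 e)) : Tendsto (fun n => top t (u n)) l (𝓝 e) := by
  rw [tendsto_iff_ultrafilter]
  intro g hg
  obtain ⟨z, hz⟩ := exists_lim g (fun n => top t (u n))
  have hu' : Tendsto u g (𝓝 e) := hu.mono_left hg
  have hut : ∀ᶠ n in (g : Filter ι), u n ≠ t := hu'.eventually (isOpen_ne.mem_nhds he.1)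
  have h1 := T.leg_lim F hu' he.1 hu' hz (hut.mono fun n hn => F.le_top hn)
    (hut.mono fun n hn => F.le_top hn)
  rw [F.top_end he] at h1
  have h2 : z = e := by
    by_contra hne
    have hzi : Inn t z := ⟨h1.2.2.1, fun hE => hne (hE.2 _ h1.2.1).symm⟩
    have h3 : top t z = e := F.top_unique h1.2.2.1 he h1.2.1
    exact T.end_notMem_K F hzi (by rw [h3]; exact h1.2.2.2.1)
  rwa [h2] at hz

/-- the open sets whose intersection is the set of ends -/
def U (_ : Two t A B) (c : ℝ) : Set X := {x | x ≠ t ∧ Icon t (top t x) ⊆ thickening c (Icon t x)}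

lemma isOpen_U (c : ℝ) : IsOpen (T.U c) := by
  rw [Metric.isOpen_iff]
  intro x hx
  by_contra hcon
  push Not at hcon
  obtain ⟨ε0, hε0, hb0⟩ := Metric.isOpen_iff.1 (isOpen_ne (x := t)) x hx.1
  have hcon' : ∀ n : ℕ, ∃ u, dist u x < 1 / ((n : ℝ) + 1) ∧ (u = t ∨ ∃ w ∈ Icon t (top t u),
      w ∉ thickening c (Icon t u)) := by
    intro n
    have := hcon (1 / ((n : ℝ) + 1)) Nat.one_div_pos_of_nat
    rw [not_subset] at this
    obtain ⟨u, hu, hnu⟩ := this
    refine ⟨u, hu, ?_⟩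
    by_cases hut : u = t
    · exact Or.inl hut
    · right
      simp only [U, mem_setOf_eq, not_and, not_subset] at hnu
      exact hnu hut
  choose u hu hw using hcon'
  have hut : ∀ᶠ n in (hyperfilter ℕ : Filter ℕ), u n ≠ t :=
    (tendsto_hyp hu).eventually (isOpen_ne.mem_nhds hx.1)
  have hw2 : ∀ n, ∃ w, u n = t ∨ (w ∈ Icon t (top t (u n)) ∧ w ∉ thickening c (Icon t (u n))) := by
    intro n
    rcases hw n with h | ⟨w, h1, h2⟩
    · exact ⟨t, Or.inl h⟩
    · exact ⟨w, Or.inr ⟨h1, h2⟩⟩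
  choose w hw2 using hw2
  have hw3 : ∀ᶠ n in (hyperfilter ℕ : Filter ℕ), w n ∈ Icon t (top t (u n)) ∧
      w n ∉ thickening c (Icon t (u n)) := hut.mono fun n hn => (hw2 n).resolve_left hn
  obtain ⟨y, hy⟩ := exists_lim (hyperfilter ℕ) w
  obtain ⟨z, hz⟩ := exists_lim (hyperfilter ℕ) (fun n => top t (u n))
  have h1 := T.leg_lim F (tendsto_hyp hu) hx.1 hy hz (hut.mono fun n hn => F.le_top hn)
    (hw3.mono fun n hn => hn.1)
  obtain ⟨v, hv, hyv⟩ := mem_thickening_iff.1 (hx.2 h1.1)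
  set ρ := c - dist y v with hρ
  have hρ0 : 0 < ρ := by linarith
  obtain ⟨δ, hδ, hl⟩ := F.lsc1 hv (half_pos hρ0)
  obtain ⟨n, hn1, hn2, hn3⟩ := ((Metric.tendsto_nhds.1 hy _ (half_pos hρ0)).and
    ((hyp_small hδ).and hw3)).exists
  obtain ⟨v', hv', hvd⟩ := hl (u n) ((hu n).trans hn2)
  refine hn3.2 (mem_thickening_iff.2 ⟨v', hv', ?_⟩)
  have h5 := dist_triangle (w n) y v'
  have h6 := dist_triangle y v v'
  rw [dist_comm v v'] at h6
  linarith

lemma end_mem_U {e : X} (he : IsEnd t e) {c : ℝ} (hc : 0 < c) : e ∈ T.U c := by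
  refine ⟨he.1, ?_⟩
  rw [F.top_end he]
  exact self_subset_thickening hc _

lemma end_of_mem_U {x : X} (h : ∀ n : ℕ, x ∈ T.U (1 / ((n : ℝ) + 1))) : IsEnd t x := by
  have hxt := (h 0).1
  have : top t x ∈ Icon t x := by
    rw [← (isClosed_Icon t x).closure_eq, Metric.mem_closure_iff]
    intro ε hε
    obtain ⟨n, hn⟩ := exists_nat_one_div_lt hε
    obtain ⟨z, hz, hd⟩ := mem_thickening_iff.1 ((h n).2 (right_mem_Icon t (top t x)))
    exact ⟨z, hz, hd.trans hn⟩
  rw [F.antisymm (F.le_top hxt) this]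
  exact F.isEnd_top hxt

end Two

end Run7.h149.Fan
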