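import Mathlib
import Pool.Agent.Run7.h149.Fan.Kt

/-! Effros' theorem for the action of the homeomorphism group on the orbit of ends. -/

set_option autoImplicit false
set_option linter.unusedSectionVars false
set_option linter.deprecated false

open Set Topology Filter Metric

namespace Run7.h149.Fan

variable {X : Type*} [MetricSpace X] [CompactSpace X] [Nonempty X]

/-- homeomorphisms close to the identity -/
def Wn (X : Type*) [MetricSpace X] (ε : ℝ) : Set (X ≃ₜ X) := {h | ∀ x, dist (h x) x < ε}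

lemma Wn_symm {ε : ℝ} {h : X ≃ₜ X} (hh : h ∈ Wn X ε) : h.symm ∈ Wn X ε := fun x => by
  have := hh (h.symm x)
  rw [dist_comm] at this
  simpa using this

lemma Wn_mul {a b : ℝ} {g h : X ≃ₜ X} (hg : g ∈ Wn X a) (hh : h ∈ Wn X b) :
    g.trans h ∈ Wn X (a + b) := fun x => by
  have h1 := hh (g x)
  have h2 := hg x
  have := dist_triangle (h (g x)) (g x) x
  simp only [Homeomorph.trans_apply]
  linarith

lemma exists_countable_homeo : ∃ k : ℕ → (X ≃ₜ X), ∀ (g : X ≃ₜ X) (ε : ℝ), 0 < ε →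
    ∃ n, g.trans (k n).symm ∈ Wn X ε := by
  let Φ : (X ≃ₜ X) → C(X, X) := fun g => ⟨g.symm, g.symm.continuous⟩
  haveI : Nonempty (range Φ) := ⟨⟨Φ (Homeomorph.refl X), ⟨_, rfl⟩⟩⟩
  have hsep : TopologicalSpace.SeparableSpace (range Φ) := inferInstance
  have hd := TopologicalSpace.denseRange_denseSeq (range Φ)
  choose k hk using fun n => (TopologicalSpace.denseSeq (range Φ) n).2
  refine ⟨k, fun g ε hε => ?_⟩
  obtain ⟨n, hn⟩ := hd.exists_dist_lt (⟨Φ g, ⟨g, rfl⟩⟩ : range Φ) hε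
  refine ⟨n, fun x => ?_⟩
  have h1 : dist (Φ g) (Φ (k n)) < ε := by
    rw [hk n]; exact hn
  have h2 := (ContinuousMap.dist_apply_le_dist (f := Φ g) (g := Φ (k n)) (g x)).trans_lt h1
  simp only [Φ, ContinuousMap.coe_mk, Homeomorph.symm_apply_apply] at h2
  rw [dist_comm] at h2
  simpa using h2

/-- limit of homeomorphisms -/
lemma exists_limit_homeo (f : ℕ → (X ≃ₜ X)) (C : ℝ)
    (h1 : ∀ n x, dist (f n x) (f (n + 1) x) ≤ C / 2 / 2 ^ n)
    (h2 : ∀ n x, dist ((f n).symm x) ((f (n + 1)).symm x) ≤ C / 2 / 2 ^ n) :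
    ∃ H : X ≃ₜ X, (∀ x, Tendsto (fun n => f n x) atTop (𝓝 (H x))) ∧ ∀ x, dist (f 0 x) (H x) ≤ C := by
  have hC : 0 ≤ C := by
    have := (dist_nonneg).trans (h1 0 (Classical.arbitrary X))
    simp at this
    linarith
  let a : ℕ → C(X, X) := fun n => ⟨f n, (f n).continuous⟩
  let b : ℕ → C(X, X) := fun n => ⟨(f n).symm, (f n).symm.continuous⟩
  have ha : ∀ n, dist (a n) (a (n + 1)) ≤ C / 2 / 2 ^ n := fun n =>
    (ContinuousMap.dist_le (by positivity)).2 (h1 n)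
  have hb : ∀ n, dist (b n) (b (n + 1)) ≤ C / 2 / 2 ^ n := fun n =>
    (ContinuousMap.dist_le (by positivity)).2 (h2 n)
  obtain ⟨α, hα⟩ := cauchySeq_tendsto_of_complete (cauchySeq_of_le_geometric_two ha)
  obtain ⟨β, hβ⟩ := cauchySeq_tendsto_of_complete (cauchySeq_of_le_geometric_two hb)
  have pt : ∀ (c : ℕ → C(X, X)) (γ : C(X, X)), Tendsto c atTop (𝓝 γ) → ∀ x,
      Tendsto (fun n => c n x) atTop (𝓝 (γ x)) := by
    intro c γ hc x
    rw [tendsto_iff_dist_tendsto_zero] at hc ⊢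
    exact squeeze_zero (fun _ => dist_nonneg) (fun n => ContinuousMap.dist_apply_le_dist x) hc
  have comp : ∀ (c d : ℕ → C(X, X)) (γ δ : C(X, X)), Tendsto c atTop (𝓝 γ) → Tendsto d atTop (𝓝 δ) →
      (∀ n x, c n (d n x) = x) → ∀ x, γ (δ x) = x := by
    intro c d γ δ hc hd h x
    have h3 : Tendsto (fun n => c n (d n x)) atTop (𝓝 (γ (δ x))) := by
      have h4 : Tendsto (fun n => γ (d n x)) atTop (𝓝 (γ (δ x))) :=
        (γ.continuous.tendsto _).comp (pt d δ hd x)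
      rw [tendsto_iff_dist_tendsto_zero] at hc
      refine h4.congr_dist ?_
      refine squeeze_zero (fun _ => dist_nonneg) (fun n => ?_) hc
      rw [dist_comm (c n) γ]
      exact ContinuousMap.dist_apply_le_dist (f := γ) (g := c n) (d n x)
    have h5 : Tendsto (fun n => c n (d n x)) atTop (𝓝 x) := by simp only [h]; exact tendsto_const_nhds
    exact tendsto_nhds_unique h3 h5
  refine ⟨⟨⟨α, β, fun x => comp b a β α hβ hα (fun n x => by simp [a, b]) x,
    fun x => comp a b α β hα hβ (fun n x => by simp [a, b]) x⟩, α.continuous, β.continuous⟩,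
    fun x => pt a α hα x, fun x => ?_⟩
  have h6 := dist_le_of_le_geometric_two_of_tendsto₀ ha hα
  exact (ContinuousMap.dist_apply_le_dist (f := a 0) (g := α) x).trans h6

namespace Two

variable {t : X} {A B : Set X} (T : Two t A B) (F : IsFan X t)
include T F

/-- orbits of small sets are somewhere dense -/
lemma effros_dense {e : X} (he : IsEnd t e) {ε : ℝ} (hε : 0 < ε) :
    ∃ δ > 0, ∀ e', IsEnd t e' → dist e' e < δ → ∀ η > 0, ∃ h ∈ Wn X ε, dist (h e) e' < η := by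
  obtain ⟨k, hk⟩ := exists_countable_homeo (X := X)
  set E : Set X := {x | IsEnd t x} with hE
  set Y := closure E with hY
  set Z : ℕ → Set X := fun n => closure {y | ∃ h ∈ Wn X (ε / 2), y = k n (h e)} with hZ
  have hex : ∃ n, ∃ O : Set X, IsOpen O ∧ (O ∩ Y).Nonempty ∧ O ∩ Y ⊆ Z n := by
    by_contra hno
    push Not at hno
    obtain ⟨x, -, hx⟩ := baire_inter (Y := Y) isClosed_closure
      (fun n => T.U (1 / ((n : ℝ) + 1)) ∩ (Z n)ᶜ)
      (fun n => (T.isOpen_U F _).inter isClosed_closure.isOpen_compl) (O := univ) isOpen_univ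
      ⟨e, mem_univ _, subset_closure he⟩ (by
        intro n O' hO' _ hne
        obtain ⟨y, ⟨hyO, hyY⟩, hyZ⟩ := not_subset.1 (hno n O' hO' hne)
        obtain ⟨e1, ⟨h1, h2⟩, h3⟩ := mem_closure_iff.1 hyY (O' ∩ (Z n)ᶜ)
          (hO'.inter isClosed_closure.isOpen_compl) ⟨hyO, hyZ⟩
        exact ⟨e1, ⟨h1, subset_closure h3⟩, T.end_mem_U F h3 Nat.one_div_pos_of_nat, h2⟩)
    have hxE := T.end_of_mem_U F (fun n => (hx n).1)
    obtain ⟨g, rfl⟩ := T.ends e x he hxE
    obtain ⟨n, hn⟩ := hk g (ε / 2) (half_pos hε)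
    exact (hx n).2 (subset_closure ⟨_, hn, by simp⟩)
  obtain ⟨n, O, hO, ⟨y, hyO, hyY⟩, hsub⟩ := hex
  obtain ⟨s, hsO, h0, hh0, rfl⟩ := mem_closure_iff.1 (hsub ⟨hyO, hyY⟩) O hO hyO
  set f : X ≃ₜ X := h0.trans (k n) with hf
  have hfe : f e = k n (h0 e) := rfl
  obtain ⟨δ, hδ, hδO⟩ := Metric.isOpen_iff.1 (hO.preimage f.continuous) e hsO
  refine ⟨δ, hδ, fun e' he' hd η hη => ?_⟩
  have h1 : f e' ∈ Z n := hsub ⟨hδO hd, subset_closure ((F.map_end f).2 he')⟩
  obtain ⟨ρ, hρ, hρ'⟩ := Metric.continuousAt_iff.1 (f.symm.continuous.continuousAt (x := f e')) η hη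
  obtain ⟨_, ⟨h, hh, rfl⟩, hd2⟩ := Metric.mem_closure_iff.1 h1 ρ hρ
  rw [dist_comm] at hd2
  have h3 := hρ' hd2
  rw [Homeomorph.symm_apply_apply] at h3
  refine ⟨h.trans h0.symm, ?_, ?_⟩
  · have := Wn_mul hh (Wn_symm hh0)
    rwa [add_halves] at this
  · simpa [hf] using h3

theorem effros {e : X} (he : IsEnd t e) {ε : ℝ} (hε : 0 < ε) :
    ∃ δ > 0, ∀ e', IsEnd t e' → dist e' e < δ → ∃ h ∈ Wn X ε, h e = e' := by
  -- modulus
  have hmod : ∀ (n : ℕ) (g : X ≃ₜ X), ∃ η > 0, η ≤ ε / 8 / 2 ^ n ∧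
      ∀ x y, dist x y < η → dist (g.symm x) (g.symm y) ≤ ε / 8 / 2 ^ n := by
    intro n g
    have huc := CompactSpace.uniformContinuous_of_continuous g.symm.continuous
    have hp : 0 < ε / 8 / 2 ^ n := by positivity
    obtain ⟨η, hη, h⟩ := Metric.uniformContinuous_iff.1 huc _ hp
    exact ⟨min η (ε / 8 / 2 ^ n), lt_min hη hp, min_le_right _ _, fun x y hxy =>
      (h (hxy.trans_le (min_le_left _ _))).le⟩
  choose η hη0 hη1 hη2 using hmod
  obtain ⟨δ, hδ, hδ'⟩ := T.effros_dense F he (hη0 0 (Homeomorph.refl X))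
  refine ⟨δ, hδ, fun e' he' hd => ?_⟩
  set p : ℕ → X := fun n => if Even n then e else e' with hp
  have hpE : ∀ n, IsEnd t (p n) := by
    intro n
    by_cases h : Even n
    · simp only [hp, if_pos h]; exact he
    · simp only [hp, if_neg h]; exact he'
  have hp2 : ∀ n, p (n + 2) = p n := by
    intro n
    simp only [hp]
    congr 1
    rw [Nat.even_add_one, Nat.even_add_one, not_not]
  let Inv : ℕ → (X ≃ₜ X) × (X ≃ₜ X) → Prop := fun n s =>
    ∀ η' > 0, ∃ k ∈ Wn X (η n s.1), dist (k (s.1 (p n))) (s.2 (p (n + 1))) < η'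
  have hstep : ∀ (n : ℕ) (s : (X ≃ₜ X) × (X ≃ₜ X)), Inv n s → ∃ s' : (X ≃ₜ X) × (X ≃ₜ X),
      Inv (n + 1) s' ∧ s'.1 = s.2 ∧ (∃ k ∈ Wn X (η n s.1), s'.2 = s.1.trans k) ∧
      dist (s'.2 (p n)) (s.2 (p (n + 1))) < (1 / 2) ^ n := by
    intro n s hs
    obtain ⟨δ1, hδ1, h1⟩ := T.effros_dense F ((F.map_end s.2).2 (hpE (n + 1))) (hη0 (n + 1) s.2)
    obtain ⟨k, hk, hkd⟩ := hs (min δ1 ((1 / 2) ^ n)) (lt_min hδ1 (by positivity))
    refine ⟨(s.2, s.1.trans k), ?_, rfl, ⟨k, hk, rfl⟩, hkd.trans_le (min_le_right _ _)⟩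
    intro η' hη'
    obtain ⟨k', hk', hd'⟩ := h1 (k (s.1 (p n))) ((F.map_end k).2 ((F.map_end s.1).2 (hpE n)))
      (hkd.trans_le (min_le_left _ _)) η' hη'
    refine ⟨k', hk', ?_⟩
    rw [show n + 1 + 1 = n + 2 from rfl, hp2]
    exact hd'
  choose! step hs1 hs2 hs3 hs4 using hstep
  let seq : ℕ → (X ≃ₜ X) × (X ≃ₜ X) := fun n => Nat.rec (Homeomorph.refl X, Homeomorph.refl X)
    (fun n s => step n s) n
  have hseq : ∀ n, seq (n + 1) = step n (seq n) := fun n => rfl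
  have hInv : ∀ n, Inv n (seq n) := by
    intro n
    induction n with
    | zero =>
      intro η' hη'
      have h0 : p 0 = e := by simp [hp]
      have h1 : p (0 + 1) = e' := by simp [hp]
      rw [h0, h1]
      exact hδ' e' he' hd η' hη'
    | succ n ih => rw [hseq]; exact hs1 n _ ih
  set g : ℕ → (X ≃ₜ X) := fun n => (seq n).1 with hg
  have hg1 : ∀ n, (seq n).2 = g (n + 1) := fun n => (hs2 n _ (hInv n)).symm
  have hg2 : ∀ n, ∃ k ∈ Wn X (η n (g n)), g (n + 2) = (g n).trans k := by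
    intro n
    obtain ⟨k, hk, h⟩ := hs3 n _ (hInv n)
    refine ⟨k, hk, ?_⟩
    rw [← hg1 (n + 1), hseq, h]
  have hg3 : ∀ n, dist (g (n + 2) (p n)) (g (n + 1) (p (n + 1))) < (1 / 2) ^ n := by
    intro n
    have := hs4 n _ (hInv n)
    rw [← hseq, hg1 n] at this
    rw [← hg1 (n + 1)]
    exact this
  have hA : ∀ n x, dist (g n x) (g (n + 2) x) ≤ ε / 8 / 2 ^ n := by
    intro n x
    obtain ⟨k, hk, h⟩ := hg2 n
    rw [h, dist_comm]
    exact (hk (g n x)).le.trans (hη1 n _)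
  have hB : ∀ n x, dist ((g n).symm x) ((g (n + 2)).symm x) ≤ ε / 8 / 2 ^ n := by
    intro n x
    obtain ⟨k, hk, h⟩ := hg2 n
    rw [h]
    have := Wn_symm hk x
    rw [dist_comm] at this
    exact hη2 n (g n) x (k.symm x) this
  have hpow : ∀ n m : ℕ, n ≤ m → ε / 8 / 2 ^ m ≤ ε / 4 / 2 / 2 ^ n := by
    intro n m hnm
    have h1 : (2:ℝ) ^ n ≤ 2 ^ m := pow_le_pow_right₀ (by norm_num) hnm
    rw [show ε / 4 / 2 = ε / 8 by ring]
    gcongr
  obtain ⟨H0, hH0, hH0'⟩ := exists_limit_homeo (fun n => g (2 * n)) (ε / 4)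
    (fun n x => (hA (2 * n) x).trans (hpow n (2 * n) (by omega)))
    (fun n x => (hB (2 * n) x).trans (hpow n (2 * n) (by omega)))
  obtain ⟨H1, hH1, hH1'⟩ := exists_limit_homeo (fun n => g (2 * n + 1)) (ε / 4)
    (fun n x => (hA (2 * n + 1) x).trans (hpow n (2 * n + 1) (by omega)))
    (fun n x => (hB (2 * n + 1) x).trans (hpow n (2 * n + 1) (by omega)))
  have hg0 : g 0 = Homeomorph.refl X := rfl
  have hg1' : g 1 = Homeomorph.refl X := (hg1 0).symm
  have heq : H0 e = H1 e' := by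
    have h1 : Tendsto (fun n => g (2 * (n + 1)) e) atTop (𝓝 (H0 e)) := (tendsto_add_atTop_iff_nat 1).2 (hH0 e)
    have h2 := hH1 e'
    refine tendsto_nhds_unique h1 ?_
    refine h2.congr_dist ?_
    refine squeeze_zero (g := fun n : ℕ => (1 / 2 : ℝ) ^ n) (fun _ => dist_nonneg) (fun n => ?_)
      (tendsto_pow_atTop_nhds_zero_of_lt_one (by norm_num) (by norm_num))
    have h3 := (hg3 (2 * n)).le
    have hpe : p (2 * n) = e := by simp [hp]
    have hpo : p (2 * n + 1) = e' := by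
      simp only [hp]; rw [if_neg (by simp)]
    rw [hpe, hpo] at h3
    rw [dist_comm]
    refine h3.trans ?_
    exact pow_le_pow_of_le_one (by norm_num) (by norm_num) (by omega)
  refine ⟨H0.trans H1.symm, fun x => ?_, by simp [heq]⟩
  have h1 := hH0' x
  have h2 := hH1' (H1.symm (H0 x))
  simp only [Nat.mul_zero, zero_add, hg0, hg1', Homeomorph.refl_apply, id_eq,
    Homeomorph.apply_symm_apply] at h1 h2
  simp only [Homeomorph.trans_apply]
  have h3 := dist_triangle (H1.symm (H0 x)) (H0 x) x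
  rw [dist_comm (H0 x) x] at h3
  linarith

/-- legs near an end are small images of its leg -/
theorem reg {e : X} (he : IsEnd t e) {δ : ℝ} (hδ : 0 < δ) :
    ∃ ρ > 0, ∀ z, dist z e < ρ → z ≠ t ∧ ∃ h ∈ Wn X δ, h e = top t z := by
  obtain ⟨δ', hδ', h⟩ := T.effros F he hδ
  by_contra hcon
  push Not at hcon
  choose u hu hw using fun n : ℕ => hcon (1 / ((n : ℝ) + 1)) Nat.one_div_pos_of_nat
  have h1 := T.top_tendsto F he (tendsto_hyp hu)
  have hut : ∀ᶠ n in (hyperfilter ℕ : Filter ℕ), u n ≠ t :=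
    (tendsto_hyp hu).eventually (isOpen_ne.mem_nhds he.1)
  obtain ⟨n, hn1, hn2⟩ := ((Metric.tendsto_nhds.1 h1 δ' hδ').and hut).exists
  obtain ⟨g, hg, hge⟩ := h _ (F.isEnd_top hn2) hn1
  exact hw n hn2 g hg hge

end Two

end Run7.h149.Fan
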