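import Mathlib
import Pool.Agent.Run7.h149.Fan.Effros

/-! Smooth fans: the continuous leg coordinate `mu`. The case of a closed set of ends. -/

set_option autoImplicit false
set_option linter.unusedSectionVars false
set_option linter.deprecated false

open Set Topology Filter Metric

namespace Run7.h149.Fan

variable {X : Type*} [MetricSpace X] [CompactSpace X] [Nonempty X]

/-- leg coordinate -/
noncomputable def mu (t x : X) : ℝ := Wf (Icon t x) - Wf (Icon t t)

namespace IsFan

variable {t : X} (F : IsFan X t)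
include F

lemma mu_t : mu t t = 0 := by simp [mu]

lemma mu_lt {x y : X} (h : x ∈ Icon t y) (hne : x ≠ y) : mu t x < mu t y := by
  have := F.Wf_lt h hne
  simp only [mu]; linarith

lemma mu_le {x y : X} (h : x ∈ Icon t y) : mu t x ≤ mu t y := by
  have := F.Wf_le h
  simp only [mu]; linarith

lemma mu_pos {x : X} (hx : x ≠ t) : 0 < mu t x := by
  rw [← F.mu_t]
  exact F.mu_lt (left_mem_Icon _ _) (Ne.symm hx)

lemma mu_nonneg (x : X) : 0 ≤ mu t x := by
  rw [← F.mu_t]
  exact F.mu_le (left_mem_Icon _ _)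

lemma eq_t_of_mu {x : X} (h : mu t x = 0) : x = t := by
  by_contra hne
  exact (F.mu_pos hne).ne' h

lemma top_t : top t t = t := by
  unfold top
  rw [dif_neg]
  rintro ⟨e, he⟩
  exact he.2.2 rfl

lemma le_top' (x : X) : x ∈ Icon t (top t x) := by
  by_cases h : x = t
  · rw [h]; exact left_mem_Icon _ _
  · exact F.le_top h

/-- injectivity of `mu` on a leg -/
lemma mu_inj {e x y : X} (hx : x ∈ Icon t e) (hy : y ∈ Icon t e) (h : mu t x = mu t y) : x = y := by
  by_contra hne
  rcases F.total hx hy with h1 | h1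
  · exact (F.mu_lt h1 hne).ne h
  · exact (F.mu_lt h1 (Ne.symm hne)).ne' h

lemma mu_le_iff {e x y : X} (hx : x ∈ Icon t e) (hy : y ∈ Icon t e) :
    x ∈ Icon t y ↔ mu t x ≤ mu t y := by
  refine ⟨F.mu_le, fun h => ?_⟩
  rcases F.total hx hy with h1 | h1
  · exact h1
  · rcases eq_or_ne y x with rfl | hne
    · exact right_mem_Icon _ _
    · exact absurd (F.mu_lt h1 hne) (not_lt.2 h)

variable (hs : ∀ x, K t x ⊆ Icon t x)
include hs

lemma mu_cont : Continuous (mu t : X → ℝ) := by
  unfold mu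
  refine Continuous.sub ?_ continuous_const
  rw [Metric.continuous_iff]
  intro x ε hε
  have hε4 : 0 < ε / 4 := by linarith
  obtain ⟨δ, hδ, h1⟩ := F.lsc_set x hε4
  obtain ⟨δ', hδ', h2⟩ := K_usc t x hε4
  refine ⟨min δ δ', lt_min hδ hδ', fun x' hx' => ?_⟩
  have a1 := h1 x' (hx'.trans_le (min_le_left _ _))
  have a2 := (subset_K t x').trans (h2 x' (hx'.trans_le (min_le_right _ _)))
  have b1 := Wf_near (K := Icon t x') (K' := Icon t x) ⟨t, left_mem_Icon _ _⟩
    ⟨t, left_mem_Icon _ _⟩ (ε := ε / 4) (fun z hz => by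
      obtain ⟨w, hw, hd⟩ := mem_thickening_iff.1 (a1 hz)
      exact ⟨w, hw, hd.le⟩)
  have b2 := Wf_near (K := Icon t x) (K' := Icon t x') ⟨t, left_mem_Icon _ _⟩
    ⟨t, left_mem_Icon _ _⟩ (ε := ε / 4) (fun z hz => by
      obtain ⟨w, hw, hd⟩ := mem_thickening_iff.1 (a2 hz)
      exact ⟨w, hs x hw, hd.le⟩)
  rw [Real.dist_eq, abs_lt]
  constructor <;> linarith

lemma exists_mu {e : X} {r : ℝ} (h0 : 0 ≤ r) (h1 : r ≤ mu t e) : ∃ w ∈ Icon t e, mu t w = r := by
  have := (F.conn_Icon t e).isPreconnected.intermediate_value (left_mem_Icon t e) (right_mem_Icon t e)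
    (F.mu_cont hs).continuousOn
  obtain ⟨w, hw, hwr⟩ := this (show r ∈ Icc (mu t t) (mu t e) from ⟨by rw [F.mu_t]; exact h0, h1⟩)
  exact ⟨w, hw, hwr⟩

end IsFan

/-- Moebius map of `[0,e]` -/
noncomputable def mob (c m e : ℝ) : ℝ := c * m * e / (e + (c - 1) * m)

lemma mob_den {c m e : ℝ} (hc : 0 < c) (hm : 0 ≤ m) (hme : m ≤ e) (he : 0 < e) :
    0 < e + (c - 1) * m := by
  rcases eq_or_lt_of_le hm with h | h
  · rw [← h]; linarith
  · nlinarith [mul_pos hc h]

lemma mob_nonneg {c m e : ℝ} (hc : 0 < c) (hm : 0 ≤ m) (hme : m ≤ e) : 0 ≤ mob c m e := by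
  rcases (hm.trans hme).eq_or_lt with h | h
  · simp [mob, ← h]
  · exact div_nonneg (by positivity) (mob_den hc hm hme h).le

lemma mob_le {c m e : ℝ} (hc : 0 < c) (hm : 0 ≤ m) (hme : m ≤ e) : mob c m e ≤ e := by
  rcases (hm.trans hme).eq_or_lt with h | h
  · simp [mob, ← h]
  · unfold mob
    rw [div_le_iff₀ (mob_den hc hm hme h)]
    nlinarith [mul_nonneg h.le (sub_nonneg.2 hme)]

lemma mob_le' {c m e : ℝ} (hc : 0 < c) (hm : 0 ≤ m) (hme : m ≤ e) : mob c m e ≤ max c 1 * m := by
  rcases (hm.trans hme).eq_or_lt with h | h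
  · simp only [mob, ← h, mul_zero, zero_div]
    have : m = 0 := le_antisymm (h ▸ hme) hm
    simp [this]
  · unfold mob
    rw [div_le_iff₀ (mob_den hc hm hme h)]
    rcases le_total c 1 with h1 | h1
    · rw [max_eq_right h1]
      nlinarith [mul_nonneg hm (mul_nonneg (sub_nonneg.2 h1) (sub_nonneg.2 hme))]
    · rw [max_eq_left h1]
      nlinarith [mul_nonneg (mul_nonneg hc.le hm) (mul_nonneg (sub_nonneg.2 h1) hm)]

lemma mob_pos {c m e : ℝ} (hc : 0 < c) (hm : 0 < m) (hme : m ≤ e) : 0 < mob c m e :=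
  div_pos (by have := hm.trans_le hme; positivity) (mob_den hc hm.le hme (hm.trans_le hme))

lemma mob_inv {c m e : ℝ} (hc : 0 < c) (hm : 0 ≤ m) (hme : m ≤ e) :
    mob c⁻¹ (mob c m e) e = m := by
  rcases (hm.trans hme).eq_or_lt with h | h
  · simp only [mob, ← h, mul_zero, zero_div]
    exact (le_antisymm (h ▸ hme) hm).symm
  · have hD := mob_den hc hm hme h
    unfold mob
    obtain ⟨D, hDd⟩ : ∃ D, D = e + (c - 1) * m := ⟨_, rfl⟩
    rw [← hDd] at hD ⊢
    have h1 : e + (c⁻¹ - 1) * (c * m * e / D) = e * e / D := by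
      have h2 : D ≠ 0 := hD.ne'
      have h3 : c ≠ 0 := hc.ne'
      field_simp
      rw [hDd]; ring
    rw [h1]
    have h2 : D ≠ 0 := hD.ne'
    have h3 : c ≠ 0 := hc.ne'
    field_simp

lemma mob_hit {m n e : ℝ} (hm : 0 < m) (hme : m < e) (hne : n < e) :
    mob (n * (e - m) / (m * (e - n))) m e = n := by
  have h1 : 0 < e - m := by linarith
  have h2 : 0 < e - n := by linarith
  have he : 0 < e := by linarith
  have h3 : e + (n * (e - m) / (m * (e - n)) - 1) * m = (e - m) * e / (e - n) := by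
    field_simp; ring
  unfold mob
  rw [h3]
  field_simp

namespace Two

variable {t : X} {A B : Set X} (T : Two t A B) (F : IsFan X t)
include T F

lemma top_tendsto_closed (hcl : ∀ x, Inn t x → x ∉ closure {e | IsEnd t e})
    {ι : Type*} {l : Filter ι} {u : ι → X} {x : X} (hx : x ≠ t) (hu : Tendsto u l (𝓝 x)) :
    Tendsto (fun n => top t (u n)) l (𝓝 (top t x)) := by
  rw [tendsto_iff_ultrafilter]
  intro g hg
  obtain ⟨z, hz⟩ := exists_lim g (fun n => top t (u n))
  have hu' : Tendsto u g (𝓝 x) := hu.mono_left hg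
  have hut : ∀ᶠ n in (g : Filter ι), u n ≠ t := hu'.eventually (isOpen_ne.mem_nhds hx)
  have h1 := T.leg_lim F hu' hx hu' hz (hut.mono fun n hn => F.le_top hn)
    (hut.mono fun n hn => F.le_top hn)
  have h2 : z ∈ closure {e | IsEnd t e} := mem_closure_of_tendsto hz
    (hut.mono fun n hn => F.isEnd_top hn)
  have h3 : IsEnd t z := by
    by_contra h
    exact hcl z ⟨h1.2.2.1, h⟩ h2
  have h4 : top t x = z := h3.2 _ h1.2.1
  rwa [← h4] at hz

/-- The case where no interior point is a limit of ends. -/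
theorem not_closed (hcl : ∀ x, Inn t x → x ∉ closure {e | IsEnd t e}) : False := by
  -- smoothness
  have hs : ∀ x, K t x ⊆ Icon t x := by
    intro x y hy
    by_cases hx : x = t
    · subst hx; rw [T.Kt F] at hy; rw [F.Icon_self]; exact hy
    obtain ⟨u, w, hu, hw, huw⟩ := exists_seq_of_mem_K hy
    have hut : ∀ᶠ n in atTop, u n ≠ t := hu.eventually (isOpen_ne.mem_nhds hx)
    have h1 := T.top_tendsto_closed F hcl hx hu
    have h2 : ∀ k : ℕ, ∃ a b, dist a x < 2 / ((k : ℝ) + 1) ∧ dist b y < 2 / ((k : ℝ) + 1) ∧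
        b ∈ Icon t a ∧ a ∈ Icon t (top t x) := by
      intro k
      have hk : 0 < 1 / ((k : ℝ) + 1) := by positivity
      obtain ⟨δ, hδ, heff⟩ := T.effros F (F.isEnd_top hx) hk
      obtain ⟨n, hn1, hn2, hn3, hn4⟩ := (((Metric.tendsto_nhds.1 h1 δ hδ)).and (hut.and
        ((Metric.tendsto_nhds.1 hu _ hk).and (Metric.tendsto_nhds.1 hw _ hk)))).exists
      obtain ⟨h, hh, he⟩ := heff _ (F.isEnd_top hn2) hn1
      have e2 : 2 / ((k : ℝ) + 1) = 1 / ((k : ℝ) + 1) + 1 / ((k : ℝ) + 1) := by ring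
      refine ⟨h.symm (u n), h.symm (w n), ?_, ?_, (F.map_le h.symm).2 (huw n), ?_⟩
      · have := Wn_symm hh (u n)
        have := dist_triangle (h.symm (u n)) (u n) x
        linarith
      · have := Wn_symm hh (w n)
        have := dist_triangle (h.symm (w n)) (w n) y
        linarith
      · rw [← F.map_le h, he, Homeomorph.apply_symm_apply]
        exact F.le_top hn2
    choose a b ha hb hab hae using h2
    have hlim : Tendsto (fun k : ℕ => 2 / ((k : ℝ) + 1)) atTop (𝓝 0) := by
      have := (tendsto_one_div_add_atTop_nhds_zero_nat (𝕜 := ℝ)).const_mul 2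
      simp only [mul_zero, mul_one_div] at this
      exact this
    exact F.closed_le (l := atTop) (e := top t x)
      (tendsto_iff_dist_tendsto_zero.2 (squeeze_zero (fun _ => dist_nonneg) (fun k => (hb k).le) hlim))
      (tendsto_iff_dist_tendsto_zero.2 (squeeze_zero (fun _ => dist_nonneg) (fun k => (ha k).le) hlim))
      (Eventually.of_forall hab) (Eventually.of_forall hae)
  have hmc := F.mu_cont hs
  -- the maps
  have hH : ∀ c : ℝ, 0 < c → ∃ H : X → X, Continuous H ∧ ∀ z, H z ∈ Icon t (top t z) ∧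
      mu t (H z) = mob c (mu t z) (mu t (top t z)) := by
    intro c hc
    have hex : ∀ z, ∃ w ∈ Icon t (top t z), mu t w = mob c (mu t z) (mu t (top t z)) := fun z =>
      F.exists_mu hs (mob_nonneg hc (F.mu_nonneg z) (F.mu_le (F.le_top' z)))
        (mob_le hc (F.mu_nonneg z) (F.mu_le (F.le_top' z)))
    choose H hH1 hH2 using hex
    refine ⟨H, ?_, fun z => ⟨hH1 z, hH2 z⟩⟩
    rw [continuous_iff_continuousAt]
    intro z
    unfold ContinuousAt
    rw [tendsto_iff_ultrafilter]
    intro g hg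
    obtain ⟨w, hw⟩ := exists_lim g H
    have hgz : Tendsto (fun x : X => x) g (𝓝 z) := hg
    have hmw : Tendsto (fun x => mu t (H x)) g (𝓝 (mu t w)) := (hmc.tendsto w).comp hw
    have hmz : Tendsto (fun x => mu t x) g (𝓝 (mu t z)) := (hmc.tendsto z).comp hgz
    by_cases hz : z = t
    · have h0 : Tendsto (fun x => mu t (H x)) g (𝓝 0) := by
        have hb : Tendsto (fun x => max c 1 * mu t x) g (𝓝 0) := by
          have := hmz.const_mul (max c 1)
          rwa [hz, F.mu_t, mul_zero] at this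
        exact squeeze_zero (fun x => F.mu_nonneg _) (fun x => by
          rw [hH2]; exact mob_le' hc (F.mu_nonneg x) (F.mu_le (F.le_top' x))) hb
      have h1 : w = t := F.eq_t_of_mu (tendsto_nhds_unique hmw h0)
      have h2 : H z = t := by
        apply F.eq_t_of_mu
        rw [hH2, hz, F.top_t, F.mu_t]
        simp [mob]
      rw [h2, ← h1]; exact hw
    · have hlt : Tendsto (fun x : X => top t x) g (𝓝 (top t z)) :=
        T.top_tendsto_closed F hcl hz hgz
      · have hmt : Tendsto (fun x => mu t (top t x)) g (𝓝 (mu t (top t z))) := (hmc.tendsto _).comp hlt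
        have hden := mob_den hc (F.mu_nonneg z) (F.mu_le (F.le_top' z)) (F.mu_pos (F.isEnd_top hz).1)
        have h2 : Tendsto (fun x => mu t (H x)) g (𝓝 (mob c (mu t z) (mu t (top t z)))) := by
          simp only [hH2, mob]
          exact ((hmz.const_mul c).mul hmt).div (hmt.add (hmz.const_mul (c - 1))) hden.ne'
        have h3 : w ∈ Icon t (top t z) := hs _ (mem_K_of_tendsto hlt hw
          (Eventually.of_forall fun x => hH1 x))
        have h4 : w = H z := F.mu_inj h3 (hH1 z) (by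
          rw [hH2]; exact tendsto_nhds_unique hmw h2)
        rwa [h4] at hw
  obtain ⟨e, he⟩ := T.exists_end' F
  obtain ⟨x, hxA, hxe⟩ := T.legA F he
  obtain ⟨y, hyB, hye⟩ := T.legB F he
  have hxi := T.innA F hxA
  have hyi := T.innB F hyB
  have hx1 : x ∈ Icon t e := hxe ▸ F.le_top hxi.1
  have hy1 : y ∈ Icon t e := hye ▸ F.le_top hyi.1
  have hm := F.mu_pos hxi.1
  have hn := F.mu_pos hyi.1
  have hme : mu t x < mu t e := F.mu_lt hx1 (fun h => hxi.2 (h ▸ he))
  have hne : mu t y < mu t e := F.mu_lt hy1 (fun h => hyi.2 (h ▸ he))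
  set c := mu t y * (mu t e - mu t x) / (mu t x * (mu t e - mu t y)) with hc
  have hc0 : 0 < c := by
    have h1 : 0 < mu t e - mu t x := by linarith
    have h2 : 0 < mu t e - mu t y := by linarith
    positivity
  obtain ⟨H, hHc, hH1⟩ := hH c hc0
  obtain ⟨H', hHc', hH1'⟩ := hH c⁻¹ (inv_pos.2 hc0)
  have inv : ∀ (c : ℝ) (_ : 0 < c) (H H' : X → X), (∀ z, H z ∈ Icon t (top t z) ∧
      mu t (H z) = mob c (mu t z) (mu t (top t z))) → (∀ z, H' z ∈ Icon t (top t z) ∧
      mu t (H' z) = mob c⁻¹ (mu t z) (mu t (top t z))) → ∀ z, H' (H z) = z := by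
    intro c hc H H' h1 h2 z
    by_cases hz : z = t
    · subst hz
      have e1 : H z = z := by
        apply F.eq_t_of_mu; rw [(h1 z).2, F.mu_t]; simp [mob]
      have e2 : H' z = z := by
        apply F.eq_t_of_mu; rw [(h2 z).2, F.mu_t]; simp [mob]
      rw [e1, e2]
    · have hpos : 0 < mu t (H z) := by
        rw [(h1 z).2]; exact mob_pos hc (F.mu_pos hz) (F.mu_le (F.le_top' z))
      have hne : H z ≠ t := fun h => by rw [h, F.mu_t] at hpos; exact hpos.false
      have htt : top t (H z) = top t z := F.top_unique hne (F.isEnd_top hz) (h1 z).1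
      have h3 := h2 (H z)
      rw [htt] at h3
      refine F.mu_inj h3.1 (F.le_top' z) ?_
      rw [h3.2, (h1 z).2, mob_inv hc (F.mu_nonneg z) (F.mu_le (F.le_top' z))]
  let G : X ≃ₜ X := ⟨⟨H, H', inv c hc0 H H' hH1 hH1', inv c⁻¹ (inv_pos.2 hc0) H' H hH1' (by
    rw [inv_inv]; exact hH1)⟩, hHc, hHc'⟩
  have hGx : G x = y := by
    refine F.mu_inj (e := e) ?_ hy1 ?_
    · have := (hH1 x).1; rwa [hxe] at this
    · have := (hH1 x).2
      rw [hxe, hc, mob_hit hm hme hne] at this
      exact this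
  exact T.disj y (hGx ▸ T.mapA F G hxA) hyB

end Two

end Run7.h149.Fan
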