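import Mathlib
import Pool.Agent.Run7.h149.Fan.Smooth

/-! Clopen saturated sets in a smooth fan. -/

set_option autoImplicit false
set_option linter.unusedSectionVars false
set_option linter.deprecated false

open Set Topology Filter Metric

namespace Run7.h149.Fan

variable {X : Type*} [MetricSpace X] [CompactSpace X] [Nonempty X]

/-- separation of closed sets of a compact space no component of which meets both -/
lemma sep_clopen {Y : Type*} [TopologicalSpace Y] [CompactSpace Y] [T2Space Y] {D1 D2 : Set Y}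
    (h1 : IsClosed D1) (h2 : IsClosed D2) (h : ∀ a ∈ D1, ∀ b ∈ D2, b ∉ connectedComponent a) :
    ∃ P : Set Y, IsClopen P ∧ D1 ⊆ P ∧ Disjoint D2 P := by
  have key1 : ∀ b ∈ D2, ∃ P : Set Y, IsClopen P ∧ D1 ⊆ P ∧ b ∉ P := by
    intro b hb
    refine h1.isCompact.induction_on (p := fun s => ∃ P : Set Y, IsClopen P ∧ s ⊆ P ∧ b ∉ P)
      ⟨∅, isClopen_empty, subset_rfl, notMem_empty _⟩ ?_ ?_ ?_
    · rintro s s' hss ⟨P, hP, hsP, hbP⟩
      exact ⟨P, hP, hss.trans hsP, hbP⟩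
    · rintro s s' ⟨P, hP, hsP, hbP⟩ ⟨P', hP', hsP', hbP'⟩
      exact ⟨P ∪ P', hP.union hP', union_subset_union hsP hsP', by
        rintro (h | h); exacts [hbP h, hbP' h]⟩
    · intro a ha
      have h3 := h a ha b hb
      rw [connectedComponent_eq_iInter_isClopen, mem_iInter] at h3
      push Not at h3
      obtain ⟨⟨s, hs, has⟩, hbs⟩ := h3
      exact ⟨s, mem_nhdsWithin_of_mem_nhds (hs.2.mem_nhds has), s, hs, subset_rfl, hbs⟩
  refine h2.isCompact.induction_on (p := fun s => ∃ P : Set Y, IsClopen P ∧ D1 ⊆ P ∧ Disjoint s P)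
    ⟨univ, isClopen_univ, subset_univ _, empty_disjoint _⟩ ?_ ?_ ?_
  · rintro s s' hss ⟨P, hP, hsP, hbP⟩
    exact ⟨P, hP, hsP, hbP.mono_left hss⟩
  · rintro s s' ⟨P, hP, hsP, hbP⟩ ⟨P', hP', hsP', hbP'⟩
    refine ⟨P ∩ P', hP.inter hP', subset_inter hsP hsP', ?_⟩
    rw [disjoint_union_left]
    exact ⟨hbP.mono_right inter_subset_left, hbP'.mono_right inter_subset_right⟩
  · intro b hb
    obtain ⟨P, hP, hDP, hbP⟩ := key1 b hb
    exact ⟨Pᶜ, mem_nhdsWithin_of_mem_nhds (hP.compl.2.mem_nhds hbP), P, hP, hDP,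
      disjoint_compl_left⟩

/-- clopen saturated subsets of the complement of the vertex -/
structure Bc (t : X) (U : Set X) : Prop where
  op : IsOpen U
  cl : IsClosed (U ∪ {t})
  nt : t ∉ U
  sat : ∀ x ∈ U, ∀ y, y ≠ t → top t y = top t x → y ∈ U

lemma Bc.empty (t : X) : Bc t (∅ : Set X) :=
  ⟨isOpen_empty, by simp, notMem_empty _, fun x hx => absurd hx (notMem_empty _)⟩

lemma Bc.univ (t : X) : Bc t ({x | x ≠ t} : Set X) := by
  refine ⟨isOpen_ne, ?_, fun h => h rfl, fun x _ y hy _ => hy⟩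
  have : ({x | x ≠ t} : Set X) ∪ {t} = Set.univ := by
    ext x; simp only [mem_union, mem_setOf_eq, mem_singleton_iff, mem_univ, iff_true]
    exact (em (x = t)).symm
  rw [this]; exact isClosed_univ

lemma Bc.inter {t : X} {U W : Set X} (hU : Bc t U) (hW : Bc t W) : Bc t (U ∩ W) := by
  refine ⟨hU.op.inter hW.op, ?_, fun h => hU.nt h.1, fun x hx y hy he =>
    ⟨hU.sat x hx.1 y hy he, hW.sat x hx.2 y hy he⟩⟩
  have : U ∩ W ∪ {t} = (U ∪ {t}) ∩ (W ∪ {t}) := by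
    rw [inter_union_distrib_right]
  rw [this]; exact hU.cl.inter hW.cl

lemma Bc.diff {t : X} {U W : Set X} (hU : Bc t U) (hW : Bc t W) : Bc t (U \ W) := by
  have e1 : U \ W = U ∩ (W ∪ {t})ᶜ := by
    ext x
    simp only [mem_diff, mem_inter_iff, mem_compl_iff, mem_union, mem_singleton_iff, not_or]
    constructor
    · rintro ⟨h1, h2⟩
      exact ⟨h1, h2, fun h => hU.nt (h ▸ h1)⟩
    · rintro ⟨h1, h2, -⟩; exact ⟨h1, h2⟩
  refine ⟨?_, ?_, fun h => hU.nt h.1, fun x hx y hy he =>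
    ⟨hU.sat x hx.1 y hy he, fun hyW => hx.2 (hW.sat y hyW x (fun h => hU.nt (h ▸ hx.1)) he.symm)⟩⟩
  · rw [e1]; exact hU.op.inter hW.cl.isOpen_compl
  · have : U \ W ∪ {t} = (U ∪ {t}) ∩ Wᶜ := by
      ext x
      simp only [mem_diff, mem_inter_iff, mem_compl_iff, mem_union, mem_singleton_iff]
      constructor
      · rintro (⟨h1, h2⟩ | rfl)
        · exact ⟨Or.inl h1, h2⟩
        · exact ⟨Or.inr rfl, hW.nt⟩
      · rintro ⟨h1 | h1, h2⟩
        · exact Or.inl ⟨h1, h2⟩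
        · exact Or.inr h1
    rw [this]; exact hU.cl.inter hW.op.isClosed_compl

namespace IsFan

variable {t : X} (F : IsFan X t) (hs : ∀ x, K t x ⊆ Icon t x)
include F hs

/-- the compact levels -/
def Lv (t : X) (n : ℕ) : Set X := {x | 1 / ((n : ℝ) + 1) ≤ mu t x}

lemma isClosed_Lv (n : ℕ) : IsClosed (Lv t n) := isClosed_le continuous_const (F.mu_cont hs)

lemma t_notMem_Lv (n : ℕ) : t ∉ Lv t n := by
  intro h
  simp only [Lv, mem_setOf_eq, F.mu_t] at h
  have : 0 < 1 / ((n : ℝ) + 1) := by positivity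
  linarith

omit F hs in
lemma Lv_mono {m n : ℕ} (h : m ≤ n) : Lv t m ⊆ Lv t n := by
  intro x hx
  refine le_trans ?_ (show 1 / ((m : ℝ) + 1) ≤ mu t x from hx)
  have : (m : ℝ) ≤ n := by exact_mod_cast h
  gcongr

lemma exists_clopen_Lv (n : ℕ) {D1 D2 : Set X} (h1 : IsClosed D1) (h2 : IsClosed D2)
    (hD1 : D1 ⊆ Lv t n) (hd : ∀ a ∈ D1, ∀ b ∈ D2, top t a ≠ top t b) :
    ∃ P ⊆ Lv t n, IsClosed P ∧ IsClosed (Lv t n \ P) ∧ D1 ⊆ P ∧ Disjoint D2 P := by
  haveI : CompactSpace (Lv t n) := isCompact_iff_compactSpace.1 (F.isClosed_Lv hs n).isCompact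
  obtain ⟨P, hP, hD1P, hD2P⟩ := sep_clopen (Y := Lv t n) (D1 := Subtype.val ⁻¹' D1)
    (D2 := Subtype.val ⁻¹' D2) (h1.preimage continuous_subtype_val)
    (h2.preimage continuous_subtype_val) (by
      rintro ⟨a, haL⟩ ha ⟨b, hbL⟩ hb hcon
      set C : Set X := closure (Subtype.val '' connectedComponent (⟨a, haL⟩ : Lv t n)) with hC
      have hCL : C ⊆ Lv t n := closure_minimal (by rintro _ ⟨z, -, rfl⟩; exact z.2) (F.isClosed_Lv hs n)
      have hCc : IsConnected C := IsConnected.closure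
        (isConnected_connectedComponent.image _ continuous_subtype_val.continuousOn)
      have haC : a ∈ C := subset_closure ⟨_, mem_connectedComponent, rfl⟩
      have hbC : b ∈ C := subset_closure ⟨_, hcon, rfl⟩
      have hat : a ≠ t := fun h => F.t_notMem_Lv hs n (h ▸ haL)
      have hbt : b ≠ t := fun h => F.t_notMem_Lv hs n (h ▸ hbL)
      have hne := hd a ha b hb
      have h3 : ¬ a ∈ Icon t b := fun h => hne (F.top_of_le hat h)
      have h4 : ¬ b ∈ Icon t a := fun h => hne (F.top_of_le hbt h).symm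
      have h5 : t ∈ Icon a b := by rw [F.Icon_incomp h3 h4]; exact Or.inl (left_mem_Icon _ _)
      exact F.t_notMem_Lv hs n (hCL (h5 C isClosed_closure hCc haC hbC)))
  refine ⟨Subtype.val '' P, by rintro _ ⟨z, -, rfl⟩; exact z.2, ?_, ?_, ?_, ?_⟩
  · exact (hP.1.isCompact.image continuous_subtype_val).isClosed
  · have : Lv t n \ Subtype.val '' P = Subtype.val '' Pᶜ := by
      ext x
      constructor
      · rintro ⟨hx, hxP⟩
        exact ⟨⟨x, hx⟩, fun h => hxP ⟨_, h, rfl⟩, rfl⟩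
      · rintro ⟨z, hz, rfl⟩
        refine ⟨z.2, ?_⟩
        rintro ⟨z', hz', he⟩
        exact hz (Subtype.val_injective he ▸ hz')
    rw [this]
    exact (hP.compl.1.isCompact.image continuous_subtype_val).isClosed
  · intro x hx
    exact ⟨⟨x, hD1 hx⟩, hD1P hx, rfl⟩
  · rw [Set.disjoint_left]
    rintro x hx ⟨z, hz, rfl⟩
    exact Set.disjoint_left.1 hD2P (show z ∈ Subtype.val ⁻¹' D2 from hx) hz

lemma clopen_sat {n : ℕ} {P : Set X} (hP : P ⊆ Lv t n) (h1 : IsClosed P) (h2 : IsClosed (Lv t n \ P))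
    {x y : X} (hx : x ∈ P) (hy : y ∈ Lv t n) (he : top t y = top t x) : y ∈ P := by
  by_contra hyP
  have hxt : x ≠ t := fun h => F.t_notMem_Lv hs n (h ▸ hP hx)
  have hyt : y ≠ t := fun h => F.t_notMem_Lv hs n (h ▸ hy)
  have hsub : Icon x y ⊆ Lv t n := by
    have aux : ∀ a b, a ∈ Lv t n → a ∈ Icon t b → Icon a b ⊆ Lv t n := by
      intro a b ha hab z hz
      rw [F.seg_eq hab] at hz
      exact le_trans (show 1 / ((n : ℝ) + 1) ≤ mu t a from ha) (F.mu_le hz.2)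
    rcases F.cmp_top hxt hyt he.symm with h | h
    · exact aux x y (hP hx) h
    · rw [Icon_comm]; exact aux y x hy h
  have := (isPreconnected_closed_iff.1 (F.conn_Icon x y).isPreconnected) P (Lv t n \ P) h1 h2
    (fun z hz => by
      by_cases h : z ∈ P
      · exact Or.inl h
      · exact Or.inr ⟨hsub hz, h⟩) ⟨x, left_mem_Icon _ _, hx⟩ ⟨y, right_mem_Icon _ _, hy, hyP⟩
  obtain ⟨z, -, hz1, hz2⟩ := this
  exact hz2.2 hz1

/-- clopen saturated sets separating closed sets -/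
theorem exists_Bc {D1 D2 : Set X} (h1 : IsClosed D1) (h2 : IsClosed D2) (ht1 : t ∉ D1) (ht2 : t ∉ D2)
    (hd : ∀ a ∈ D1, ∀ b ∈ D2, top t a ≠ top t b) : ∃ W, Bc t W ∧ D1 ⊆ W ∧ Disjoint D2 W := by
  -- a level containing both
  obtain ⟨n0, hn0⟩ : ∃ n0, D1 ∪ D2 ⊆ Lv t n0 := by
    rcases (D1 ∪ D2).eq_empty_or_nonempty with he | hne
    · exact ⟨0, by rw [he]; exact empty_subset _⟩
    · obtain ⟨x, hx, hmin⟩ := (h1.union h2).isCompact.exists_isMinOn hne (F.mu_cont hs).continuousOn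
      have hpos : 0 < mu t x := F.mu_pos (fun h => by
        rw [h] at hx
        rcases hx with h | h
        · exact ht1 h
        · exact ht2 h)
      obtain ⟨n, hn⟩ := exists_nat_one_div_lt hpos
      exact ⟨n, fun y hy => hn.le.trans (hmin hy)⟩
  let Ok : ℕ → Set X → Prop := fun n P => P ⊆ Lv t n ∧ IsClosed P ∧ IsClosed (Lv t n \ P)
  obtain ⟨P0, hP0a, hP0b, hP0c, hP0d, hP0e⟩ := F.exists_clopen_Lv hs n0 h1 h2
    (subset_union_left.trans hn0) hd
  have hstep : ∀ (n : ℕ) (P : Set X), Ok n P → ∃ P', Ok (n + 1) P' ∧ P ⊆ P' ∧ P' ∩ Lv t n ⊆ P := by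
    rintro n P ⟨a1, a2, a3⟩
    obtain ⟨P', b1, b2, b3, b4, b5⟩ := F.exists_clopen_Lv hs (n + 1) a2 a3
      (a1.trans (Lv_mono (Nat.le_succ n))) (by
        intro a ha b hb he
        exact hb.2 (F.clopen_sat hs a1 a2 a3 ha hb.1 he.symm))
    refine ⟨P', ⟨b1, b2, b3⟩, b4, fun x hx => ?_⟩
    by_contra hxP
    exact Set.disjoint_left.1 b5 ⟨hx.2, hxP⟩ hx.1
  choose! stp hs1 hs2 hs3 using hstep
  let P : ℕ → Set X := fun k => Nat.rec P0 (fun k Q => stp (n0 + k) Q) k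
  have hPs : ∀ k, P (k + 1) = stp (n0 + k) (P k) := fun k => rfl
  have hOk : ∀ k, Ok (n0 + k) (P k) := by
    intro k
    induction k with
    | zero => exact ⟨hP0a, hP0b, hP0c⟩
    | succ k ih => rw [hPs]; exact hs1 _ _ ih
  have hmono : ∀ j k, j ≤ k → P j ⊆ P k := by
    intro j k hjk
    induction k, hjk using Nat.le_induction with
    | base => exact subset_rfl
    | succ k _ ih => exact ih.trans (by rw [hPs]; exact hs2 _ _ (hOk k))
  have hback : ∀ j k, k ≤ j → P j ∩ Lv t (n0 + k) ⊆ P k := by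
    intro j k hkj
    induction j, hkj using Nat.le_induction with
    | base => exact inter_subset_left
    | succ j hkj ih =>
      rintro x ⟨hx1, hx2⟩
      refine ih ⟨?_, hx2⟩
      rw [hPs] at hx1
      exact hs3 _ _ (hOk j) ⟨hx1, Lv_mono (by omega) hx2⟩
  set W := ⋃ k, P k with hW
  have hWL : ∀ k x, x ∈ W → x ∈ Lv t (n0 + k) → x ∈ P k := by
    intro k x hx hxL
    obtain ⟨j, hj⟩ := mem_iUnion.1 hx
    rcases le_total j k with h | h
    · exact hmono _ _ h hj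
    · exact hback _ _ h ⟨hj, hxL⟩
  have hPW : ∀ k, P k ⊆ W := fun k => subset_iUnion _ _
  have hlev : ∀ x, x ≠ t → ∃ k : ℕ, 1 / (((n0 + k : ℕ) : ℝ) + 1) < mu t x := by
    intro x hx
    obtain ⟨n, hn⟩ := exists_nat_one_div_lt (F.mu_pos hx)
    refine ⟨n, lt_of_le_of_lt ?_ hn⟩
    have : (n : ℝ) ≤ ((n0 + n : ℕ) : ℝ) := by push_cast; linarith [Nat.cast_nonneg (α := ℝ) n0]
    gcongr
  have hWt : t ∉ W := by
    intro h
    obtain ⟨j, hj⟩ := mem_iUnion.1 h
    exact F.t_notMem_Lv hs _ ((hOk j).1 hj)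
  refine ⟨W, ⟨?_, ?_, hWt, ?_⟩, hP0d.trans (hPW 0), ?_⟩
  · rw [isOpen_iff_mem_nhds]
    intro x hx
    obtain ⟨k, hk⟩ := hlev x (fun h => hWt (h ▸ hx))
    have hxP := hWL k x hx hk.le
    have ho : IsOpen ({z | 1 / (((n0 + k : ℕ) : ℝ) + 1) < mu t z} ∩ (Lv t (n0 + k) \ P k)ᶜ) :=
      (isOpen_lt continuous_const (F.mu_cont hs)).inter (hOk k).2.2.isOpen_compl
    filter_upwards [ho.mem_nhds ⟨hk, fun h => h.2 hxP⟩] with z hz
    by_contra hzW
    exact hz.2 ⟨(show 1 / (((n0 + k : ℕ) : ℝ) + 1) < mu t z from hz.1).le, fun h => hzW (hPW k h)⟩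
  · rw [← isOpen_compl_iff, isOpen_iff_mem_nhds]
    intro x hx
    simp only [mem_compl_iff, mem_union, mem_singleton_iff, not_or] at hx
    obtain ⟨k, hk⟩ := hlev x hx.2
    have ho : IsOpen ({z | 1 / (((n0 + k : ℕ) : ℝ) + 1) < mu t z} ∩ (P k)ᶜ) :=
      (isOpen_lt continuous_const (F.mu_cont hs)).inter (hOk k).2.1.isOpen_compl
    filter_upwards [ho.mem_nhds ⟨hk, fun h => hx.1 (hPW k h)⟩] with z hz
    simp only [mem_compl_iff, mem_union, mem_singleton_iff, not_or]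
    refine ⟨fun h => hz.2 (hWL k z h (show 1 / (((n0 + k : ℕ) : ℝ) + 1) < mu t z from hz.1).le), ?_⟩
    rintro rfl
    have h1 := hz.1
    simp only [mem_setOf_eq, F.mu_t] at h1
    have : 0 < 1 / (((n0 + k : ℕ) : ℝ) + 1) := by positivity
    linarith
  · intro x hx y hy he
    obtain ⟨k1, hk1⟩ := hlev x (fun h => hWt (h ▸ hx))
    obtain ⟨k2, hk2⟩ := hlev y hy
    have hxL : x ∈ Lv t (n0 + max k1 k2) := Lv_mono (by omega) (show x ∈ Lv t (n0 + k1) from hk1.le)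
    have hyL : y ∈ Lv t (n0 + max k1 k2) := Lv_mono (by omega) (show y ∈ Lv t (n0 + k2) from hk2.le)
    exact hPW _ (F.clopen_sat hs (hOk _).1 (hOk _).2.1 (hOk _).2.2 (hWL _ x hx hxL) hyL he)
  · rw [Set.disjoint_left]
    intro x hx hxW
    exact Set.disjoint_left.1 hP0e hx (hWL 0 x hxW (hn0 (Or.inr hx)))

/-- a countable separating family -/
theorem exists_family : ∃ 𝒲 : ℕ → Set X, (∀ n, Bc t (𝒲 n)) ∧
    ∀ x y, x ≠ t → y ≠ t → top t x ≠ top t y → ∃ n, x ∈ 𝒲 n ∧ y ∉ 𝒲 n := by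
  classical
  obtain ⟨b, hbc, -, hb⟩ := TopologicalSpace.exists_countable_basis X
  haveI : Countable b := hbc.to_subtype
  haveI : Nonempty b := by
    obtain ⟨x⟩ := (inferInstance : Nonempty X)
    obtain ⟨V, hV, -⟩ := hb.exists_subset_of_mem_open (mem_univ x) isOpen_univ
    exact ⟨⟨V, hV⟩⟩
  obtain ⟨f, hf⟩ := exists_surjective_nat (b × b)
  have hW : ∀ q : b × b, ∃ W, Bc t W ∧ ((∃ W', Bc t W' ∧ (q.1 : Set X) ⊆ W' ∧ Disjoint (q.2 : Set X) W') →
      (q.1 : Set X) ⊆ W ∧ Disjoint (q.2 : Set X) W) := by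
    intro q
    by_cases h : ∃ W', Bc t W' ∧ (q.1 : Set X) ⊆ W' ∧ Disjoint (q.2 : Set X) W'
    · obtain ⟨W', h1, h2, h3⟩ := h
      exact ⟨W', h1, fun _ => ⟨h2, h3⟩⟩
    · exact ⟨∅, Bc.empty t, fun h' => absurd h' h⟩
  choose W hW1 hW2 using hW
  refine ⟨fun n => W (f n), fun n => hW1 _, fun x y hx hy hxy => ?_⟩
  obtain ⟨W', h1, h2, h3⟩ := F.exists_Bc hs (D1 := {x}) (D2 := {y}) isClosed_singleton
    isClosed_singleton (by simpa using hx.symm) (by simpa using hy.symm) (by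
      rintro a rfl b rfl; exact hxy)
  have hxW : x ∈ W' := h2 rfl
  have hyW : y ∈ (W' ∪ {t})ᶜ := by
    rintro (h | h)
    · exact Set.disjoint_left.1 h3 rfl h
    · exact hy h
  obtain ⟨V, hV, hxV, hVW⟩ := hb.exists_subset_of_mem_open hxW h1.op
  obtain ⟨V', hV', hyV', hVW'⟩ := hb.exists_subset_of_mem_open hyW h1.cl.isOpen_compl
  obtain ⟨n, hn⟩ := hf (⟨V, hV⟩, ⟨V', hV'⟩)
  have := hW2 (⟨V, hV⟩, ⟨V', hV'⟩) ⟨W', h1, hVW, Set.disjoint_left.2 fun z hz hzW =>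
    hVW' hz (Or.inl hzW)⟩
  refine ⟨n, ?_, ?_⟩
  · show x ∈ W (f n)
    rw [hn]; exact this.1 hxV
  · show y ∉ W (f n)
    rw [hn]; exact fun h => Set.disjoint_left.1 this.2 hyV' h

end IsFan

end Run7.h149.Fan
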