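import Mathlib

/-! Groups of order isomorphisms of the line with exactly two orbits. -/

set_option autoImplicit false
set_option linter.unusedSectionVars false
set_option linter.deprecated false

open Set Topology Filter

namespace Run7.h149.Fan

/-- exactly two orbits -/
structure TwoOrb (Γ : Subgroup (ℝ ≃o ℝ)) (A B : Set ℝ) : Prop where
  cover : ∀ s, s ∈ A ∨ s ∈ B
  disj : ∀ s ∈ A, s ∉ B
  exA : A.Nonempty
  exB : B.Nonempty
  orbA : ∀ x ∈ A, ∀ y, y ∈ A ↔ ∃ g ∈ Γ, g x = y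
  orbB : ∀ x ∈ B, ∀ y, y ∈ B ↔ ∃ g ∈ Γ, g x = y

/-- the dynamical data used in the lattice argument -/
structure Lat (Γ : Subgroup (ℝ ≃o ℝ)) (O : Set ℝ) (v p : ℝ → ℝ) : Prop where
  inv : ∀ g ∈ Γ, ∀ q ∈ O, g q ∈ O
  ne : O.Nonempty
  vcomm : ∀ g ∈ Γ, ∀ s, v (g s) = g (v s)
  pcomm : ∀ g ∈ Γ, ∀ s, p (g s) = g (p s)
  vmono : Monotone v
  lt_v : ∀ s, s < v s
  v_mem : ∀ s, v s ∈ O
  p_mem : ∀ s, p s ∈ O
  p_lt : ∀ s, p s < s
  vp : ∀ q ∈ O, v (p q) = q
  pv : ∀ q ∈ O, p (v q) = q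
  pv_le : ∀ s, p (v s) ≤ s
  push : ∀ q ∈ O, ∀ w, p q < w → w ≤ q → ∀ m : ℕ, ∀ ε > 0, ∃ g ∈ Γ, |g w - q| < ε ∧
    (∀ i ≤ m, |g (p^[i] q) - p^[i] q| < ε) ∧ ∀ i ≤ m, |g (v^[i] q) - v^[i] q| < ε
  le_vp : ∀ s, s ≤ v (p s)
  transfer : ∀ q ∈ O, ∀ Q ∈ O, ∀ m : ℕ, ∀ ε > 0, ∃ g ∈ Γ, ∀ i ≤ m, |g (p^[i] q) - p^[i] Q| < ε
  lb : ∀ s, ∃ δ > 0, ∃ s' > s, ∀ r, |r - s| < δ → s' ≤ v (v r)
  tend : ∀ s, Tendsto (fun n => v^[n] s) atTop atTop
  ptend : ∀ R, ∃ S, ∀ s, S < s → R ≤ p s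
  gap : (∀ s, s ∈ O) ∨ ∀ q ∈ O, ∀ s, p q < s → s < q → s ∉ O

lemma exists_end_of_bdd {O : Set ℝ} (hO : IsClosed O) {s : ℝ} (h : (O ∩ Ici s).Nonempty) :
    ∃ b ∈ O, s ≤ b ∧ ∀ c ∈ O, s ≤ c → b ≤ c := by
  have h1 : IsClosed (O ∩ Ici s) := hO.inter isClosed_Ici
  have h2 : BddBelow (O ∩ Ici s) := ⟨s, fun x hx => hx.2⟩
  have h3 := h1.csInf_mem h h2
  exact ⟨_, h3.1, h3.2, fun c hc hsc => csInf_le h2 ⟨hc, hsc⟩⟩

lemma exists_end_of_bdd' {O : Set ℝ} (hO : IsClosed O) {s : ℝ} (h : (O ∩ Iic s).Nonempty) :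
    ∃ b ∈ O, b ≤ s ∧ ∀ c ∈ O, c ≤ s → c ≤ b := by
  have h1 : IsClosed (O ∩ Iic s) := hO.inter isClosed_Iic
  have h2 : BddAbove (O ∩ Iic s) := ⟨s, fun x hx => hx.2⟩
  have h3 := h1.csSup_mem h h2
  exact ⟨_, h3.1, h3.2, fun c hc hsc => le_csSup h2 ⟨hc, hsc⟩⟩

namespace TwoOrb

variable {Γ : Subgroup (ℝ ≃o ℝ)} {A B : Set ℝ} (T : TwoOrb Γ A B)
include T

lemma symm : TwoOrb Γ B A :=
  ⟨fun s => (T.cover s).symm, fun s hs hA => T.disj s hA hs, T.exB, T.exA, T.orbB, T.orbA⟩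

lemma no_fixed_aux {p : ℝ} (hp : p ∈ A) : ∃ g ∈ Γ, g p ≠ p := by
  by_contra hcon
  push Not at hcon
  have h1 : ∀ r, r ≠ p → r ∈ B := by
    intro r hr
    rcases T.cover r with h | h
    · obtain ⟨g, hg, hge⟩ := (T.orbA p hp r).1 h
      exact absurd (hge.symm.trans (hcon g hg)) hr
    · exact h
  obtain ⟨g, hg, hge⟩ := (T.orbB (p - 1) (h1 _ (by linarith)) (p + 1)).1 (h1 _ (by linarith))
  have h2 := hcon g hg
  have h3 : g (p - 1) < g p := g.strictMono (by linarith)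
  rw [hge, h2] at h3
  linarith

lemma no_fixed (p : ℝ) : ∃ g ∈ Γ, g p ≠ p := by
  rcases T.cover p with h | h
  · exact T.no_fixed_aux h
  · exact T.symm.no_fixed_aux h

/-- the discrete case -/
theorem disc (hnd : ¬ Dense A) : ∃ O v p, Lat Γ O v p := by
  -- `A` is closed
  have hcl : IsClosed A := by
    rw [← closure_subset_iff_isClosed]
    intro x hx
    by_contra hxA
    have hxB : x ∈ B := (T.cover x).resolve_left hxA
    apply hnd
    intro y
    rcases T.cover y with h | h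
    · exact subset_closure h
    · obtain ⟨g, hg, rfl⟩ := (T.orbB x hxB y).1 h
      have := g.continuous
      have h2 : g x ∈ closure (g '' A) := image_closure_subset_closure_image this ⟨x, hx, rfl⟩
      refine closure_mono ?_ h2
      rintro _ ⟨a, ha, rfl⟩
      exact (T.orbA a ha _).2 ⟨g, hg, rfl⟩
  have hinv : ∀ g ∈ Γ, ∀ q ∈ A, g q ∈ A := fun g hg q hq => (T.orbA q hq _).2 ⟨g, hg, rfl⟩
  have hinv' : ∀ g ∈ Γ, ∀ q, g q ∈ A ↔ q ∈ A := by
    intro g hg q
    refine ⟨fun h => ?_, hinv g hg q⟩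
    have := hinv g⁻¹ (Γ.inv_mem hg) _ h
    rwa [show g⁻¹ (g q) = q from g.symm_apply_apply q] at this
  -- unbounded in both directions
  have hup : ∀ s, (A ∩ Ici s).Nonempty := by
    intro s
    by_contra hne
    rw [not_nonempty_iff_eq_empty] at hne
    have hbd : BddAbove A := ⟨s, fun a ha => le_of_not_gt fun h => by
      have : a ∈ A ∩ Ici s := ⟨ha, h.le⟩
      rw [hne] at this; exact this⟩
    obtain ⟨g, hg, hgne⟩ := T.no_fixed (sSup A)
    have hm := hcl.csSup_mem T.exA hbd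
    have h1 := le_csSup hbd (hinv g hg _ hm)
    have h2 := le_csSup hbd (hinv g⁻¹ (Γ.inv_mem hg) _ hm)
    have h3 : sSup A ≤ g (sSup A) := by
      have := g.monotone h2
      rwa [show g (g⁻¹ (sSup A)) = sSup A from g.apply_symm_apply _] at this
    exact hgne (le_antisymm h1 h3)
  have hdn : ∀ s, (A ∩ Iic s).Nonempty := by
    intro s
    by_contra hne
    rw [not_nonempty_iff_eq_empty] at hne
    have hbd : BddBelow A := ⟨s, fun a ha => le_of_not_gt fun h => by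
      have : a ∈ A ∩ Iic s := ⟨ha, h.le⟩
      rw [hne] at this; exact this⟩
    obtain ⟨g, hg, hgne⟩ := T.no_fixed (sInf A)
    have hm := hcl.csInf_mem T.exA hbd
    have h1 := csInf_le hbd (hinv g hg _ hm)
    have h2 := csInf_le hbd (hinv g⁻¹ (Γ.inv_mem hg) _ hm)
    have h3 : g (sInf A) ≤ sInf A := by
      have := g.monotone h2
      rwa [show g (g⁻¹ (sInf A)) = sInf A from g.apply_symm_apply _] at this
    exact hgne (le_antisymm h3 h1)
  -- a gap
  obtain ⟨b0, hb0⟩ := T.exB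
  have hb0A : b0 ∉ A := fun h => T.disj _ h hb0
  obtain ⟨a1, ha1, ha1b, ha1m⟩ := exists_end_of_bdd' hcl (hdn b0)
  obtain ⟨a2, ha2, ha2b, ha2m⟩ := exists_end_of_bdd hcl (hup b0)
  have ha1b' : a1 < b0 := lt_of_le_of_ne ha1b (fun h => hb0A (h ▸ ha1))
  have ha2b' : b0 < a2 := lt_of_le_of_ne ha2b (fun h => hb0A (h ▸ ha2))
  -- right isolation of every point of `A`
  have hright : ∀ s, ∃ r > s, ∀ c ∈ A, s < c → r ≤ c := by
    intro s
    by_cases hs : s ∈ A
    · obtain ⟨g, hg, rfl⟩ := (T.orbA a1 ha1 s).1 hs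
      refine ⟨g b0, g.strictMono ha1b', fun c hc hsc => ?_⟩
      by_contra hlt
      push Not at hlt
      have h1 : g⁻¹ c ∈ A := hinv _ (Γ.inv_mem hg) _ hc
      have h2 : a1 < g⁻¹ c := by
        have := g.symm.strictMono hsc
        rwa [OrderIso.symm_apply_apply] at this
      have h3 : g⁻¹ c < b0 := by
        have := g.symm.strictMono hlt
        rwa [OrderIso.symm_apply_apply] at this
      exact absurd (ha1m _ h1 h3.le) (not_le.2 h2)
    · obtain ⟨b, hb, hsb, hbm⟩ := exists_end_of_bdd hcl (hup s)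
      exact ⟨b, lt_of_le_of_ne hsb (fun h => hs (h ▸ hb)), fun c hc hsc => hbm c hc hsc.le⟩
  have hleft : ∀ s, ∃ r < s, ∀ c ∈ A, c < s → c ≤ r := by
    intro s
    by_cases hs : s ∈ A
    · obtain ⟨g, hg, rfl⟩ := (T.orbA a2 ha2 s).1 hs
      refine ⟨g b0, g.strictMono ha2b', fun c hc hsc => ?_⟩
      by_contra hlt
      push Not at hlt
      have h1 : g⁻¹ c ∈ A := hinv _ (Γ.inv_mem hg) _ hc
      have h2 : g⁻¹ c < a2 := by
        have := g.symm.strictMono hsc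
        rwa [OrderIso.symm_apply_apply] at this
      have h3 : b0 < g⁻¹ c := by
        have := g.symm.strictMono hlt
        rwa [OrderIso.symm_apply_apply] at this
      exact absurd (ha2m _ h1 h3.le) (not_le.2 h2)
    · obtain ⟨b, hb, hsb, hbm⟩ := exists_end_of_bdd' hcl (hdn s)
      exact ⟨b, lt_of_le_of_ne hsb (fun h => hs (h ▸ hb)), fun c hc hsc => hbm c hc hsc.le⟩
  -- next and previous
  have hv : ∀ s, ∃ q ∈ A, s < q ∧ ∀ c ∈ A, s < c → q ≤ c := by
    intro s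
    obtain ⟨r, hr, hrm⟩ := hright s
    obtain ⟨b, hb, hsb, hbm⟩ := exists_end_of_bdd hcl (hup r)
    exact ⟨b, hb, hr.trans_le hsb, fun c hc hsc => hbm c hc (hrm c hc hsc)⟩
  have hp : ∀ s, ∃ q ∈ A, q < s ∧ ∀ c ∈ A, c < s → c ≤ q := by
    intro s
    obtain ⟨r, hr, hrm⟩ := hleft s
    obtain ⟨b, hb, hsb, hbm⟩ := exists_end_of_bdd' hcl (hdn r)
    exact ⟨b, hb, hsb.trans_lt hr, fun c hc hsc => hbm c hc (hrm c hc hsc)⟩
  choose v hvA hvlt hvm using hv
  choose p hpA hplt hpm using hp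
  have hveq : ∀ s q, q ∈ A → s < q → (∀ c ∈ A, s < c → q ≤ c) → v s = q := fun s q h1 h2 h3 =>
    le_antisymm (hvm s q h1 h2) (h3 _ (hvA s) (hvlt s))
  have hpeq : ∀ s q, q ∈ A → q < s → (∀ c ∈ A, c < s → c ≤ q) → p s = q := fun s q h1 h2 h3 =>
    le_antisymm (h3 _ (hpA s) (hplt s)) (hpm s q h1 h2)
  have hvc : ∀ g ∈ Γ, ∀ s, v (g s) = g (v s) := by
    intro g hg s
    refine hveq _ _ (hinv g hg _ (hvA s)) (g.strictMono (hvlt s)) fun c hc hsc => ?_
    have h1 := hvm s (g⁻¹ c) (hinv _ (Γ.inv_mem hg) _ hc) (by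
      have := g.symm.strictMono hsc
      rwa [OrderIso.symm_apply_apply] at this)
    have := g.monotone h1
    rwa [show g (g⁻¹ c) = c from g.apply_symm_apply _] at this
  have hpc : ∀ g ∈ Γ, ∀ s, p (g s) = g (p s) := by
    intro g hg s
    refine hpeq _ _ (hinv g hg _ (hpA s)) (g.strictMono (hplt s)) fun c hc hsc => ?_
    have h1 := hpm s (g⁻¹ c) (hinv _ (Γ.inv_mem hg) _ hc) (by
      have := g.symm.strictMono hsc
      rwa [OrderIso.symm_apply_apply] at this)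
    have := g.monotone h1
    rwa [show g (g⁻¹ c) = c from g.apply_symm_apply _] at this
  have hvp : ∀ q ∈ A, v (p q) = q := fun q hq =>
    hveq _ _ hq (hplt q) fun c hc hpc' => le_of_not_gt fun h => absurd (hpm q c hc h) (not_le.2 hpc')
  have hpv : ∀ q ∈ A, p (v q) = q := fun q hq =>
    hpeq _ _ hq (hvlt q) fun c hc hpc' => le_of_not_gt fun h => absurd (hvm q c hc h) (not_le.2 hpc')
  have hpcn : ∀ g ∈ Γ, ∀ (i : ℕ) s, p^[i] (g s) = g (p^[i] s) := by
    intro g hg i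
    induction i with
    | zero => intro s; rfl
    | succ i ih => intro s; rw [Function.iterate_succ_apply', Function.iterate_succ_apply', ih, hpc g hg]
  have hvcn : ∀ g ∈ Γ, ∀ (i : ℕ) s, v^[i] (g s) = g (v^[i] s) := by
    intro g hg i
    induction i with
    | zero => intro s; rfl
    | succ i ih => intro s; rw [Function.iterate_succ_apply', Function.iterate_succ_apply', ih, hvc g hg]
  refine ⟨A, v, p, ⟨hinv, T.exA, hvc, hpc, ?_, hvlt, hvA, hpA, hplt, hvp, hpv, ?_, ?_, ?_, ?_, ?_,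
    ?_, ?_, ?_⟩⟩
  · intro a b hab
    exact hvm a _ (hvA b) (hab.trans_lt (hvlt b))
  · intro s
    exact le_of_not_gt fun h => absurd (hvm s _ (hpA _) h) (not_le.2 (hplt _))
  · -- push
    intro q hq w hw1 hw2 m ε hε
    rcases hw2.eq_or_lt with rfl | hw2
    · refine ⟨1, Γ.one_mem, by simpa using hε, fun i _ => ?_, fun i _ => ?_⟩
      · simpa using hε
      · simpa using hε
    have hgapB : ∀ s, p q < s → s < q → s ∈ B := fun s h1 h2 =>
      (T.cover s).resolve_left fun h => absurd (hpm q s h h2) (not_le.2 h1)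
    set w' := max (q - ε / 2) ((p q + q) / 2) with hw'
    have h1 : w' < q := max_lt (by linarith) (by linarith [hplt q])
    have h2 : p q < w' := lt_of_lt_of_le (by linarith [hplt q]) (le_max_right _ _)
    have h3 : q - ε / 2 ≤ w' := le_max_left _ _
    obtain ⟨g, hg, hgw⟩ := (T.orbB w (hgapB w hw1 hw2) w').1 (hgapB w' h2 h1)
    have hvw : v w = q := hveq w q hq hw2 fun c hc hwc => le_of_not_gt fun h =>
      T.disj c hc (hgapB c (hw1.trans hwc) h)
    have hvw' : v w' = q := hveq w' q hq h1 fun c hc hwc => le_of_not_gt fun h =>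
      T.disj c hc (hgapB c (h2.trans hwc) h)
    have hgq : g q = q := by rw [← hvw, ← hvc g hg, hgw, hvw', hvw]
    refine ⟨g, hg, ?_, fun i _ => ?_, fun i _ => ?_⟩
    · rw [hgw, abs_lt]; constructor <;> linarith
    · rw [← hpcn g hg, hgq]; simpa using hε
    · rw [← hvcn g hg, hgq]; simpa using hε
  · intro s
    by_contra h
    push Not at h
    exact absurd (hpm s _ (hvA _) h) (not_le.2 (hvlt _))
  · intro q hq Q hQ m ε hε
    obtain ⟨g, hg, hgq⟩ := (T.orbA q hq Q).1 hQ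
    exact ⟨g, hg, fun i _ => by rw [← hpcn g hg, hgq]; simpa using hε⟩
  · intro s
    refine ⟨s - p s, by linarith [hplt s], v s, hvlt s, fun r hr => ?_⟩
    rw [abs_lt] at hr
    have h1 : s ≤ v r := by
      by_contra h
      push Not at h
      have h2 := hpm s _ (hvA r) h
      have h3 := hvlt r
      linarith
    exact hvm s _ (hvA _) (h1.trans_lt (hvlt _))
  · intro s
    have hmono : Monotone (fun n => v^[n] s) := monotone_nat_of_le_succ fun n => by
      rw [Function.iterate_succ_apply']; exact (hvlt _).le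
    rcases tendsto_of_monotone hmono with h | ⟨l, hl⟩
    · exact h
    · exfalso
      have hmem : ∀ n, v^[n + 1] s ∈ A := fun n => by
        rw [Function.iterate_succ_apply']; exact hvA _
      obtain ⟨r, hr, hrm⟩ := hleft l
      have hlt : ∀ n, v^[n] s < l := fun n => by
        have h1 : v^[n + 1] s ≤ l := hmono.ge_of_tendsto hl (n + 1)
        rw [Function.iterate_succ_apply'] at h1
        exact (hvlt _).trans_le h1
      have hle : ∀ n, v^[n + 1] s ≤ r := fun n => hrm _ (hmem n) (hlt _)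
      have h2 := le_of_tendsto ((tendsto_add_atTop_iff_nat 1).2 hl) (Eventually.of_forall hle)
      linarith
  · intro R
    obtain ⟨a, haA, haR⟩ := hup R
    exact ⟨a, fun s hs => le_trans haR (hpm s a haA hs)⟩
  · right
    intro q hq s h1 h2 hs
    exact absurd (hpm q s hs h2) (not_le.2 h1)

end TwoOrb

end Run7.h149.Fan
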