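import Mathlib
import Pool.Agent.Run7.h149.Fan.Line

/-! The minimal case of the line dynamics. -/

set_option autoImplicit false
set_option linter.unusedSectionVars false
set_option linter.deprecated false

open Set Topology Filter

namespace Run7.h149.Fan

/-- every orbit is dense -/
def Minl (Γ : Subgroup (ℝ ≃o ℝ)) : Prop := ∀ s a b : ℝ, a < b → ∃ g ∈ Γ, a < g s ∧ g s < b

lemma TwoOrb.minl {Γ : Subgroup (ℝ ≃o ℝ)} {A B : Set ℝ} (T : TwoOrb Γ A B) (hA : Dense A)
    (hB : Dense B) : Minl Γ := by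
  intro s a b hab
  rcases T.cover s with h | h
  · obtain ⟨y, hy, hyA⟩ := hA.exists_between hab
    obtain ⟨g, hg, rfl⟩ := (T.orbA s h y).1 hy
    exact ⟨g, hg, hyA⟩
  · obtain ⟨y, hy, hyB⟩ := hB.exists_between hab
    obtain ⟨g, hg, rfl⟩ := (T.orbB s h y).1 hy
    exact ⟨g, hg, hyB⟩

lemma ginv {g : ℝ ≃o ℝ} (x : ℝ) : g (g⁻¹ x) = x := g.apply_symm_apply x
lemma ginv' {g : ℝ ≃o ℝ} (x : ℝ) : g⁻¹ (g x) = x := g.symm_apply_apply x

section

variable {Γ : Subgroup (ℝ ≃o ℝ)} (M : Minl Γ)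
include M

/-- monotone maps commuting with a minimal action are homeomorphisms -/
lemma comm_homeo {φ : ℝ → ℝ} (hm : Monotone φ) (hc : ∀ g ∈ Γ, ∀ s, φ (g s) = g (φ s)) :
    StrictMono φ ∧ Continuous φ ∧ Function.Surjective φ := by
  have hsm : StrictMono φ := by
    refine hm.strictMono_of_injective ?_
    by_contra hinj
    have hab : ∃ a b, a < b ∧ φ a = φ b := by
      by_contra hcon
      push Not at hcon
      apply hinj
      intro a b h
      rcases lt_trichotomy a b with h1 | h1 | h1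
      · exact absurd h (hcon a b h1)
      · exact h1
      · exact absurd h.symm (hcon b a h1)
    obtain ⟨a, b, hab, he⟩ := hab
    have hconst : ∀ s ∈ Icc a b, φ s = φ a := fun s hs =>
      le_antisymm (he ▸ hm hs.2) (hm hs.1)
    have hlc : IsLocallyConstant φ := by
      rw [IsLocallyConstant.iff_eventually_eq]
      intro s
      obtain ⟨g, hg, h1, h2⟩ := M s a b hab
      have ho : IsOpen (g ⁻¹' Ioo a b) := isOpen_Ioo.preimage g.continuous
      filter_upwards [ho.mem_nhds (show s ∈ g ⁻¹' Ioo a b from ⟨h1, h2⟩)] with r hr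
      have e1 : φ (g r) = φ (g s) := by
        rw [hconst _ ⟨hr.1.le, hr.2.le⟩, hconst _ ⟨h1.le, h2.le⟩]
      rw [hc g hg, hc g hg] at e1
      exact g.injective e1
    have hcc : ∀ s, φ s = φ 0 := fun s => hlc.apply_eq_of_preconnectedSpace s 0
    obtain ⟨g, hg, h1, h2⟩ := M (φ 0) (φ 0) (φ 0 + 1) (by linarith)
    rw [← hc g hg, hcc (g 0)] at h1
    exact h1.false
  have hdr : DenseRange φ := by
    rw [DenseRange, dense_iff_exists_between]
    intro a b hab
    obtain ⟨g, hg, h1, h2⟩ := M (φ 0) a b hab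
    exact ⟨g (φ 0), ⟨g 0, hc g hg 0⟩, h1, h2⟩
  have hcont := hm.continuous_of_denseRange hdr
  refine ⟨hsm, hcont, fun y => ?_⟩
  obtain ⟨_, ⟨a, rfl⟩, ha⟩ := hdr.exists_between (show y - 1 < y by linarith)
  obtain ⟨_, ⟨b, rfl⟩, hb⟩ := hdr.exists_between (show y < y + 1 by linarith)
  exact mem_range_of_exists_le_of_exists_ge hcont ⟨a, ha.2.le⟩ ⟨b, hb.1.le⟩

/-- contractible pairs -/
def Con (Γ : Subgroup (ℝ ≃o ℝ)) (x y : ℝ) : Prop :=
  ∀ z, ∀ ε > 0, ∃ g ∈ Γ, |g x - z| < ε ∧ |g y - z| < ε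

lemma con_of {x y q : ℝ} (h : ∀ ε > 0, ∃ g ∈ Γ, |g x - q| < ε ∧ |g y - q| < ε) : Con Γ x y := by
  intro z ε hε
  obtain ⟨g1, hg1, h1, h2⟩ := M q (z - ε / 2) (z + ε / 2) (by linarith)
  obtain ⟨δ, hδ, hδ'⟩ := Metric.continuousAt_iff.1 (g1.continuous.continuousAt (x := q)) (ε / 2) (by linarith)
  obtain ⟨g, hg, h3, h4⟩ := h δ hδ
  have key : ∀ r, |r - q| < δ → |g1 r - z| < ε := by
    intro r hr
    have := hδ' (show dist r q < δ by rwa [Real.dist_eq])
    rw [Real.dist_eq, abs_lt] at this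
    rw [abs_lt]
    constructor <;> linarith
  exact ⟨g1 * g, Γ.mul_mem hg1 hg, key _ h3, key _ h4⟩

omit M in
lemma con_mono {x y x' y' : ℝ} (h : Con Γ x y) (hx : x ≤ x') (hxy : x' ≤ y') (hy : y' ≤ y) :
    Con Γ x' y' := by
  intro z ε hε
  obtain ⟨g, hg, h1, h2⟩ := h z ε hε
  rw [abs_lt] at h1 h2
  have a1 := g.monotone hx
  have a2 := g.monotone hxy
  have a3 := g.monotone hy
  exact ⟨g, hg, by rw [abs_lt]; constructor <;> linarith, by rw [abs_lt]; constructor <;> linarith⟩

omit M in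
lemma con_g {x y : ℝ} (h : Con Γ x y) {k : ℝ ≃o ℝ} (hk : k ∈ Γ) : Con Γ (k x) (k y) := by
  intro z ε hε
  obtain ⟨g, hg, h1, h2⟩ := h z ε hε
  refine ⟨g * k⁻¹, Γ.mul_mem hg (Γ.inv_mem hk), ?_, ?_⟩
  · show |g (k⁻¹ (k x)) - z| < ε
    rw [ginv']; exact h1
  · show |g (k⁻¹ (k y)) - z| < ε
    rw [ginv']; exact h2

/-- an element with a fixed point and a non-fixed point gives a contractible pair -/
lemma con_of_fix {g : ℝ ≃o ℝ} (hg : g ∈ Γ) {q x0 : ℝ} (hq : g q = q) (hx : g x0 ≠ x0) :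
    ∃ x y, x < y ∧ Con Γ x y := by
  -- wlog via inverse: `g x0` moves towards the fixed point
  have hFc : IsClosed {y | g y = y} := isClosed_eq g.continuous continuous_id
  have main : ∀ k : ℝ ≃o ℝ, k ∈ Γ → (∀ y, k y = y ↔ g y = y) →
      ((q < x0 ∧ k x0 < x0) ∨ (x0 < q ∧ x0 < k x0)) → ∃ x y, x < y ∧ Con Γ x y := by
    rintro k hk hfix (⟨h1, h2⟩ | ⟨h1, h2⟩)
    · obtain ⟨q', hq'F, hq'x, hq'm⟩ := exists_end_of_bdd' hFc (s := x0) ⟨q, hq, h1.le⟩
      have hq'k : k q' = q' := (hfix q').2 hq'F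
      have hne : q' < x0 := lt_of_le_of_ne hq'x (fun h => hx (h ▸ hq'F))
      have hbelow : ∀ n : ℕ, ∀ y, q' ≤ y → q' ≤ (k ^ n) y := by
        intro n
        induction n with
        | zero => intro y hy; exact hy
        | succ n ih =>
          intro y hy
          rw [pow_succ]
          exact ih _ (by rw [← hq'k]; exact k.monotone hy)
      have hanti : Antitone (fun n : ℕ => (k ^ n) x0) := antitone_nat_of_succ_le fun n => by
        rw [pow_succ]
        exact (k ^ n).monotone h2.le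
      have hlim : Tendsto (fun n : ℕ => (k ^ n) x0) atTop (𝓝 q') := by
        rcases tendsto_of_antitone hanti with h | ⟨l, hl⟩
        · exfalso
          obtain ⟨n, hn⟩ := (h.eventually (eventually_lt_atBot q')).exists
          exact absurd (hbelow n x0 hne.le) (not_le.2 hn)
        · have h3 : k l = l := by
            have h4 : Tendsto (fun n : ℕ => (k ^ (n + 1)) x0) atTop (𝓝 (k l)) := by
              have := (k.continuous.tendsto l).comp hl
              refine this.congr fun n => ?_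
              rw [pow_succ']; rfl
            exact tendsto_nhds_unique h4 ((tendsto_add_atTop_iff_nat 1).2 hl)
          have h5 : l ≤ x0 := hanti.le_of_tendsto hl 0
          have h6 : q' ≤ l := ge_of_tendsto hl (Eventually.of_forall fun n => hbelow n x0 hne.le)
          have h7 := hq'm l ((hfix l).1 h3) h5
          rw [le_antisymm h7 h6] at hl
          exact hl
      refine ⟨(q' + x0) / 2, x0, by linarith, con_of M (q := q') fun ε hε => ?_⟩
      obtain ⟨n, hn⟩ := ((Metric.tendsto_nhds.1 hlim ε hε)).exists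
      rw [Real.dist_eq] at hn
      refine ⟨k ^ n, Γ.pow_mem hk n, ?_, hn⟩
      have a1 := hbelow n ((q' + x0) / 2) (by linarith)
      have a2 := (k ^ n).monotone (show (q' + x0) / 2 ≤ x0 by linarith)
      rw [abs_lt] at hn ⊢
      constructor <;> linarith
    · obtain ⟨q', hq'F, hq'x, hq'm⟩ := exists_end_of_bdd hFc (s := x0) ⟨q, hq, h1.le⟩
      have hq'k : k q' = q' := (hfix q').2 hq'F
      have hne : x0 < q' := lt_of_le_of_ne hq'x (fun h => hx (h ▸ hq'F))
      have habove : ∀ n : ℕ, ∀ y, y ≤ q' → (k ^ n) y ≤ q' := by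
        intro n
        induction n with
        | zero => intro y hy; exact hy
        | succ n ih =>
          intro y hy
          rw [pow_succ]
          exact ih _ (by rw [← hq'k]; exact k.monotone hy)
      have hanti : Monotone (fun n : ℕ => (k ^ n) x0) := monotone_nat_of_le_succ fun n => by
        rw [pow_succ]
        exact (k ^ n).monotone h2.le
      have hlim : Tendsto (fun n : ℕ => (k ^ n) x0) atTop (𝓝 q') := by
        rcases tendsto_of_monotone hanti with h | ⟨l, hl⟩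
        · exfalso
          obtain ⟨n, hn⟩ := (h.eventually (eventually_gt_atTop q')).exists
          exact absurd (habove n x0 hne.le) (not_le.2 hn)
        · have h3 : k l = l := by
            have h4 : Tendsto (fun n : ℕ => (k ^ (n + 1)) x0) atTop (𝓝 (k l)) := by
              have := (k.continuous.tendsto l).comp hl
              refine this.congr fun n => ?_
              rw [pow_succ']; rfl
            exact tendsto_nhds_unique h4 ((tendsto_add_atTop_iff_nat 1).2 hl)
          have h5 : x0 ≤ l := hanti.ge_of_tendsto hl 0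
          have h6 : l ≤ q' := le_of_tendsto hl (Eventually.of_forall fun n => habove n x0 hne.le)
          have h7 := hq'm l ((hfix l).1 h3) h5
          rw [le_antisymm h6 h7] at hl
          exact hl
      refine ⟨x0, (q' + x0) / 2, by linarith, con_of M (q := q') fun ε hε => ?_⟩
      obtain ⟨n, hn⟩ := ((Metric.tendsto_nhds.1 hlim ε hε)).exists
      rw [Real.dist_eq] at hn
      refine ⟨k ^ n, Γ.pow_mem hk n, hn, ?_⟩
      have a1 := habove n ((q' + x0) / 2) (by linarith)
      have a2 := (k ^ n).monotone (show x0 ≤ (q' + x0) / 2 by linarith)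
      rw [abs_lt] at hn ⊢
      constructor <;> linarith
  have hfi : ∀ y, g⁻¹ y = y ↔ g y = y := fun y => by
    constructor
    · intro h; rw [← h, ginv]; exact h.symm
    · intro h; nth_rewrite 1 [← h]; exact ginv' y
  have hinv : ∀ y, g y < y → y < g⁻¹ y := fun y h => by
    have := g⁻¹.strictMono h
    rwa [ginv'] at this
  have hinv' : ∀ y, y < g y → g⁻¹ y < y := fun y h => by
    have := g⁻¹.strictMono h
    rwa [ginv'] at this
  have hqx : q ≠ x0 := fun h => hx (h ▸ hq)
  rcases lt_or_gt_of_ne hqx with h1 | h1 <;> rcases lt_or_gt_of_ne hx with h2 | h2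
  · exact main g hg (fun _ => Iff.rfl) (Or.inl ⟨h1, h2⟩)
  · exact main g⁻¹ (Γ.inv_mem hg) hfi (Or.inl ⟨h1, hinv' _ h2⟩)
  · exact main g⁻¹ (Γ.inv_mem hg) hfi (Or.inr ⟨h1, hinv _ h2⟩)
  · exact main g hg (fun _ => Iff.rfl) (Or.inr ⟨h1, h2⟩)

end

/-- the free case is impossible -/
lemma TwoOrb.free_false {Γ : Subgroup (ℝ ≃o ℝ)} {A B : Set ℝ} (T : TwoOrb Γ A B) (M : Minl Γ)
    (hfree : ∀ g ∈ Γ, ∀ q, g q = q → ∀ x, g x = x) : False := by
  -- comparison of two elements is uniform
  have hcmp : ∀ g ∈ Γ, ∀ h ∈ Γ, ∀ x y, g x < h x → g y < h y := by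
    intro g hg h hh x y hlt
    by_contra hcon
    push Not at hcon
    -- `h⁻¹ g` has a fixed point
    have hk : h⁻¹ * g ∈ Γ := Γ.mul_mem (Γ.inv_mem hh) hg
    have h1 : (h⁻¹ * g) x < x := by
      have := h⁻¹.strictMono hlt
      rwa [ginv'] at this
    have h2 : y ≤ (h⁻¹ * g) y := by
      have := h⁻¹.monotone hcon
      rwa [ginv'] at this
    have hc : Continuous fun z => (h⁻¹ * g) z - z := ((h⁻¹ * g).continuous).sub continuous_id
    obtain ⟨z, hz⟩ := mem_range_of_exists_le_of_exists_ge hc (c := 0) ⟨x, by linarith⟩ ⟨y, by linarith⟩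
    have := hfree _ hk z (by linarith) x
    linarith
  have hcmpe : ∀ g ∈ Γ, ∀ h ∈ Γ, ∀ x y, g x = h x → g y = h y := by
    intro g hg h hh x y he
    rcases lt_trichotomy (g y) (h y) with h1 | h1 | h1
    · exact absurd (hcmp g hg h hh y x h1) (by rw [he]; exact lt_irrefl _)
    · exact h1
    · exact absurd (hcmp h hh g hg y x h1) (by rw [he]; exact lt_irrefl _)
  obtain ⟨a, ha⟩ := T.exA
  obtain ⟨b, hb, hab⟩ : ∃ b ∈ B, a < b := by
    obtain ⟨b, hb⟩ := T.exB
    obtain ⟨g, hg, h1, h2⟩ := M b a (a + 1) (by linarith)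
    exact ⟨g b, (T.orbB b hb _).2 ⟨g, hg, rfl⟩, h1⟩
  set Fm : ℝ → ℝ := fun m => sSup {y | ∃ g ∈ Γ, g a < m ∧ y = g m} with hF
  have hbd : ∀ m, ∀ h ∈ Γ, m < h a → h m ∈ upperBounds {y | ∃ g ∈ Γ, g a < m ∧ y = g m} := by
    rintro m h hh hm _ ⟨g, hg, hga, rfl⟩
    exact (hcmp g hg h hh a m (hga.trans hm)).le
  have hne : ∀ m, {y | ∃ g ∈ Γ, g a < m ∧ y = g m}.Nonempty := by
    intro m
    obtain ⟨g, hg, -, h2⟩ := M a (m - 1) m (by linarith)
    exact ⟨_, g, hg, h2, rfl⟩
  have hba : ∀ m, BddAbove {y | ∃ g ∈ Γ, g a < m ∧ y = g m} := by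
    intro m
    obtain ⟨g, hg, h1, -⟩ := M a m (m + 1) (by linarith)
    exact ⟨_, hbd m g hg h1⟩
  -- no gap
  have hnogap : ∀ m τ, Fm m < τ → ∃ h ∈ Γ, m < h a ∧ h m < τ := by
    intro m τ hτ
    by_contra hcon
    push Not at hcon
    have key : ∀ k ∈ Γ, Fm m < k m → k m < τ → k a = m := by
      intro k hk h1 h2
      rcases lt_trichotomy (k a) m with h3 | h3 | h3
      · exact absurd (le_csSup (hba m) ⟨k, hk, h3, rfl⟩) (not_le.2 h1)
      · exact h3
      · exact absurd (hcon k hk h3) (not_le.2 h2)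
    obtain ⟨k1, hk1, h1, h2⟩ := M m (Fm m) τ hτ
    obtain ⟨k2, hk2, h3, h4⟩ := M m (k1 m) τ h2
    have e1 := key k1 hk1 h1 h2
    have e2 := key k2 hk2 (h1.trans h3) h4
    have := hcmpe k1 hk1 k2 hk2 a m (e1.trans e2.symm)
    linarith
  have hlow : ∀ m α, α < Fm m → ∃ g ∈ Γ, g a < m ∧ α < g m := by
    intro m α hα
    obtain ⟨_, ⟨g, hg, h1, rfl⟩, h2⟩ := exists_lt_of_lt_csSup (hne m) hα
    exact ⟨g, hg, h1, h2⟩
  have hFc : Continuous Fm := by
    rw [continuous_iff_continuousAt]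
    intro m
    unfold ContinuousAt
    rw [tendsto_order]
    constructor
    · intro α hα
      obtain ⟨g, hg, h1, h2⟩ := hlow m α hα
      filter_upwards [(isOpen_Ioi (a := g a)).mem_nhds h1,
        (isOpen_Ioi.preimage g.continuous).mem_nhds (show m ∈ g ⁻¹' Ioi α from h2)] with m' h3 h4
      exact lt_of_lt_of_le h4 (le_csSup (hba m') ⟨g, hg, h3, rfl⟩)
    · intro β hβ
      obtain ⟨h, hh, h1, h2⟩ := hnogap m β hβ
      filter_upwards [(isOpen_Iio (a := h a)).mem_nhds h1,
        (isOpen_Iio.preimage h.continuous).mem_nhds (show m ∈ h ⁻¹' Iio β from h2)] with m' h3 h4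
      exact lt_of_le_of_lt (csSup_le (hne m') (hbd m' h hh h3)) h4
  have hFa : Fm a ≤ a := csSup_le (hne a) (by
    rintro _ ⟨g, hg, h1, rfl⟩; exact h1.le)
  have hFb : b ≤ Fm b := by
    obtain ⟨g, hg, h1, h2⟩ := M a a b hab
    have h3 : b < g b := hcmp 1 Γ.one_mem g hg a b h1
    exact h3.le.trans (le_csSup (hba b) ⟨g, hg, h2, rfl⟩)
  obtain ⟨m, hm⟩ := mem_range_of_exists_le_of_exists_ge hFc (c := b) ⟨a, by linarith⟩ ⟨b, hFb⟩
  rcases T.cover m with hmA | hmB
  · obtain ⟨k, hk, rfl⟩ := (T.orbA a ha m).1 hmA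
    have h1 : Fm (k a) = k (k a) := by
      refine le_antisymm (csSup_le (hne _) ?_) ?_
      · rintro _ ⟨g, hg, h1, rfl⟩
        exact (hcmp g hg k hk a _ h1).le
      · by_contra hcon
        push Not at hcon
        obtain ⟨h, hh, h2, h3⟩ := hnogap _ _ hcon
        exact absurd (hcmp k hk h hh a (k a) h2) (not_lt.2 h3.le)
    rw [hm] at h1
    refine T.disj b ?_ hb
    rw [h1]
    exact (T.orbA a ha _).2 ⟨k * k, Γ.mul_mem hk hk, rfl⟩
  · obtain ⟨k, hk, rfl⟩ := (T.orbB b hb m).1 hmB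
    have h1 : a = k (k b) := by
      have hk' : k⁻¹ ∈ Γ := Γ.inv_mem hk
      rcases lt_trichotomy a (k (k b)) with h | h | h
      · exfalso
        have h2 : k⁻¹ a < k b := by
          have := k⁻¹.strictMono h
          rwa [ginv'] at this
        obtain ⟨g, hg, h3, h4⟩ := M a _ _ h2
        have h5 := hcmp k⁻¹ hk' g hg a (k b) h3
        rw [ginv'] at h5
        have h6 := le_csSup (hba (k b)) ⟨g, hg, h4, rfl⟩
        have h7 : g (k b) ≤ b := h6.trans hm.le
        linarith
      · exact h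
      · exfalso
        have h2 : k b < k⁻¹ a := by
          have := k⁻¹.strictMono h
          rwa [ginv'] at this
        obtain ⟨g, hg, h3, h4⟩ := M a _ _ h2
        have h5 := hcmp g hg k⁻¹ hk' a (k b) h4
        rw [ginv'] at h5
        have h6 := csSup_le (hne (k b)) (hbd (k b) g hg h3)
        have h7 : b ≤ g (k b) := hm.ge.trans h6
        linarith
    refine T.disj a ha ?_
    rw [h1]
    exact (T.orbB b hb _).2 ⟨k * k, Γ.mul_mem hk hk, rfl⟩

/-- the minimal case, in presence of a commuting displacement -/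
theorem TwoOrb.dense {Γ : Subgroup (ℝ ≃o ℝ)} {A B : Set ℝ} (T : TwoOrb Γ A B) (M : Minl Γ)
    {u : ℝ → ℝ} (hum : Monotone u) (huc : ∀ g ∈ Γ, ∀ s, u (g s) = g (u s)) (hu : ∀ s, s < u s) :
    ∃ O v p, Lat Γ O v p := by
  obtain ⟨x0, y0, hxy0, hcon0⟩ : ∃ x y, x < y ∧ Con Γ x y := by
    by_contra hno
    push Not at hno
    refine T.free_false M fun g hg q hq x => ?_
    by_contra hx
    obtain ⟨x, y, h1, h2⟩ := con_of_fix M hg hq hx
    exact hno x y h1 h2
  obtain ⟨-, hucont, -⟩ := comm_homeo M hum huc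
  have hnu : ∀ s, ¬ Con Γ s (u s) := by
    intro s h
    -- contract to `0`
    have h0 : 0 < u 0 := hu 0
    obtain ⟨δ, hδ, hδ'⟩ := Metric.continuousAt_iff.1 (hucont.continuousAt (x := 0)) (u 0 / 2) (by linarith)
    obtain ⟨g, hg, h1, h2⟩ := h 0 (min δ (u 0 / 2)) (lt_min hδ (by linarith))
    have h3 := hδ' (show dist (g s) 0 < δ by
      rw [Real.dist_eq]; exact h1.trans_le (min_le_left _ _))
    rw [huc g hg, Real.dist_eq, abs_lt] at h3
    have h4 := h2.trans_le (min_le_right _ _)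
    rw [abs_lt] at h4
    linarith
  set S : ℝ → Set ℝ := fun s => {y | s < y ∧ Con Γ s y} with hS
  have hSne : ∀ s, (S s).Nonempty := by
    intro s
    obtain ⟨g, hg, h1, h2⟩ := M s x0 y0 hxy0
    refine ⟨g⁻¹ y0, ?_, ?_⟩
    · have := g⁻¹.strictMono h2
      rwa [ginv'] at this
    · have h3 := con_g hcon0 (Γ.inv_mem hg)
      have h4 : g⁻¹ x0 ≤ s := by
        have := g⁻¹.monotone h1.le
        rwa [ginv'] at this
      have h5 : s ≤ g⁻¹ y0 := by
        have := g⁻¹.monotone h2.le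
        rwa [ginv'] at this
      exact con_mono h3 h4 h5 le_rfl
  have hSb : ∀ s, BddAbove (S s) := fun s => ⟨u s, fun y hy => by
    by_contra h
    push Not at h
    exact hnu s (con_mono hy.2 le_rfl (hu s).le h.le)⟩
  set v : ℝ → ℝ := fun s => sSup (S s) with hv
  have hlt : ∀ s, s < v s := by
    intro s
    obtain ⟨y, hy⟩ := hSne s
    exact hy.1.trans_le (le_csSup (hSb s) hy)
  have hvm : Monotone v := by
    intro s s' hss
    refine csSup_le (hSne s) fun y hy => ?_
    rcases le_or_gt y s' with h | h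
    · exact h.trans (hlt s').le
    · exact le_csSup (hSb s') ⟨h, con_mono hy.2 hss h.le le_rfl⟩
  have hvc' : ∀ g ∈ Γ, ∀ s, v (g s) ≤ g (v s) := by
    intro g hg s
    refine csSup_le (hSne _) fun y hy => ?_
    have h1 : g⁻¹ y ∈ S s := by
      refine ⟨?_, ?_⟩
      · have := g⁻¹.strictMono hy.1
        rwa [ginv'] at this
      · have := con_g hy.2 (Γ.inv_mem hg)
        rwa [ginv'] at this
    have h2 := g.monotone (le_csSup (hSb s) h1)
    rwa [ginv] at h2
  have hvc : ∀ g ∈ Γ, ∀ s, v (g s) = g (v s) := by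
    intro g hg s
    refine le_antisymm (hvc' g hg s) ?_
    have := hvc' g⁻¹ (Γ.inv_mem hg) (g s)
    rw [ginv'] at this
    have := g.monotone this
    rwa [ginv] at this
  obtain ⟨hvs, hvcont, hvsurj⟩ := comm_homeo M hvm hvc
  choose p hp using hvsurj
  have hpv : ∀ s, p (v s) = s := fun s => hvs.injective (hp _)
  have hpm : StrictMono p := fun a b hab => by
    rw [← hvs.lt_iff_lt, hp, hp]; exact hab
  have hpc : ∀ g ∈ Γ, ∀ s, p (g s) = g (p s) := fun g hg s => hvs.injective (by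
    rw [hp, hvc g hg, hp])
  obtain ⟨-, hpcont, -⟩ := comm_homeo M hpm.monotone hpc
  have hplt : ∀ s, p s < s := fun s => by rw [← hvs.lt_iff_lt, hp]; exact hlt s
  have hpic : ∀ i : ℕ, Continuous (p^[i]) := fun i => hpcont.iterate i
  have hpcn : ∀ g ∈ Γ, ∀ (i : ℕ) s, p^[i] (g s) = g (p^[i] s) := by
    intro g hg i
    induction i with
    | zero => intro s; rfl
    | succ i ih => intro s; rw [Function.iterate_succ_apply', Function.iterate_succ_apply', ih, hpc g hg]
  have hvic : ∀ i : ℕ, Continuous (v^[i]) := fun i => hvcont.iterate i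
  have hvcn : ∀ g ∈ Γ, ∀ (i : ℕ) s, v^[i] (g s) = g (v^[i] s) := by
    intro g hg i
    induction i with
    | zero => intro s; rfl
    | succ i ih => intro s; rw [Function.iterate_succ_apply', Function.iterate_succ_apply', ih, hvc g hg]
  -- closeness of iterates
  have hclose : ∀ (p : ℝ → ℝ), (∀ i : ℕ, Continuous (p^[i])) → ∀ (q : ℝ) (m : ℕ) (ε : ℝ), 0 < ε →
      ∃ δ > 0, ∀ r, |r - q| < δ → ∀ i ≤ m, |p^[i] r - p^[i] q| < ε := by
    intro p hpic q m ε hε
    have : ∀ᶠ r in 𝓝 q, ∀ i ∈ Finset.range (m + 1), |p^[i] r - p^[i] q| < ε := by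
      rw [Filter.eventually_all_finset]
      intro i _
      have := Metric.tendsto_nhds.1 ((hpic i).tendsto q) ε hε
      filter_upwards [this] with r hr
      rwa [Real.dist_eq] at hr
    obtain ⟨δ, hδ, h⟩ := Metric.eventually_nhds_iff.1 this
    exact ⟨δ, hδ, fun r hr i hi => h (by rwa [Real.dist_eq]) i (Finset.mem_range.2 (by omega))⟩
  refine ⟨univ, v, p, ⟨fun _ _ _ _ => mem_univ _, univ_nonempty, hvc, hpc, hvm, hlt,
    fun _ => mem_univ _, fun _ => mem_univ _, hplt, fun q _ => hp q, fun q _ => hpv q,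
    fun s => (hpv s).le, ?_, ?_, ?_, ?_, ?_, ?_, Or.inl fun _ => mem_univ _⟩⟩
  · intro q _ w hw1 hw2 m ε hε
    have hcon : Con Γ w q := by
      rcases hw2.eq_or_lt with rfl | hlt'
      · intro z ε hε
        obtain ⟨g, hg, h1, h2⟩ := M w (z - ε) (z + ε) (by linarith)
        have : |g w - z| < ε := by rw [abs_lt]; constructor <;> linarith
        exact ⟨g, hg, this, this⟩
      · have h1 : q < v w := by
          have := hvs hw1
          rwa [hp] at this
        obtain ⟨y, hy, hqy⟩ := exists_lt_of_lt_csSup (hSne w) h1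
        exact con_mono hy.2 le_rfl hlt'.le hqy.le
    obtain ⟨δ, hδ, h⟩ := hclose p hpic q m ε hε
    obtain ⟨δ', hδ', h'⟩ := hclose v hvic q m ε hε
    obtain ⟨g, hg, h1, h2⟩ := hcon q (min δ (min δ' ε)) (lt_min hδ (lt_min hδ' hε))
    refine ⟨g, hg, h1.trans_le ((min_le_right _ _).trans (min_le_right _ _)), fun i hi => ?_,
      fun i hi => ?_⟩
    · rw [← hpcn g hg]
      exact h _ (h2.trans_le (min_le_left _ _)) i hi
    · rw [← hvcn g hg]
      exact h' _ (h2.trans_le ((min_le_right _ _).trans (min_le_left _ _))) i hi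
  · exact fun s => (hp s).ge
  · intro q _ Q _ m ε hε
    obtain ⟨δ, hδ, h⟩ := hclose p hpic Q m ε hε
    obtain ⟨g, hg, h1, h2⟩ := M q (Q - δ) (Q + δ) (by linarith)
    refine ⟨g, hg, fun i hi => ?_⟩
    rw [← hpcn g hg]
    exact h _ (by rw [abs_lt]; constructor <;> linarith) i hi
  · intro s
    have h1 : ∀ᶠ r in 𝓝 s, v s < v (v r) :=
      ((hvcont.comp hvcont).tendsto s).eventually (lt_mem_nhds (hvs (hlt s)))
    obtain ⟨δ, hδ, h⟩ := Metric.eventually_nhds_iff.1 h1
    exact ⟨δ, hδ, v s, hlt s, fun r hr => (h (by rwa [Real.dist_eq])).le⟩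
  · intro s
    have hmono : Monotone (fun n => v^[n] s) := monotone_nat_of_le_succ fun n => by
      rw [Function.iterate_succ_apply']; exact (hlt _).le
    rcases tendsto_of_monotone hmono with h | ⟨l, hl⟩
    · exact h
    · exfalso
      have h1 : Tendsto (fun n => v^[n + 1] s) atTop (𝓝 (v l)) := by
        have := (hvcont.tendsto l).comp hl
        refine this.congr fun n => ?_
        rw [Function.iterate_succ_apply']; rfl
      have := tendsto_nhds_unique h1 ((tendsto_add_atTop_iff_nat 1).2 hl)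
      linarith [hlt l]
  · intro R
    exact ⟨v R, fun s hs => by
      have := hpm hs
      rw [hpv] at this
      exact this.le⟩

end Run7.h149.Fan
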