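import Mathlib
import Pool.Agent.Run7.h149.Fan.Smooth
import Pool.Agent.Run7.h149.Fan.Line2

/-! From the dynamics on one leg to equivariant maps on the whole fan. -/

set_option autoImplicit false
set_option linter.unusedSectionVars false
set_option linter.deprecated false

open Set Topology Filter Metric

namespace Run7.h149.Fan

variable {X : Type*} [MetricSpace X] [CompactSpace X] [Nonempty X]

/-- equivariant data on the fan -/
structure XLat (t : X) (O : Set X) (v p : X → X) : Prop where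
  innO : ∀ q ∈ O, Inn t q
  neO : O.Nonempty
  mapO : ∀ (h : X ≃ₜ X), ∀ q ∈ O, h q ∈ O
  vmap : ∀ (h : X ≃ₜ X) x, Inn t x → v (h x) = h (v x)
  pmap : ∀ (h : X ≃ₜ X) x, Inn t x → p (h x) = h (p x)
  vmono : ∀ x y, Inn t x → Inn t y → x ∈ Icon t y → v x ∈ Icon t (v y)
  vmem : ∀ x, Inn t x → v x ∈ O
  le_v : ∀ x, Inn t x → x ∈ Icon t (v x) ∧ x ≠ v x
  pmem : ∀ x, Inn t x → p x ∈ O
  p_le : ∀ x, Inn t x → p x ∈ Icon t x ∧ p x ≠ x
  vp : ∀ q ∈ O, v (p q) = q
  pv : ∀ q ∈ O, p (v q) = q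
  pv_le : ∀ x, Inn t x → p (v x) ∈ Icon t x
  push : ∀ q ∈ O, ∀ w, p q ∈ Icon t w → w ≠ p q → w ∈ Icon t q → ∀ m : ℕ, ∀ ε > 0,
    ∃ h : X ≃ₜ X, h (top t q) = top t q ∧ dist (h w) q < ε ∧
      (∀ i ≤ m, dist (h (p^[i] q)) (p^[i] q) < ε) ∧ ∀ i ≤ m, dist (h (v^[i] q)) (v^[i] q) < ε
  le_vp : ∀ x, Inn t x → x ∈ Icon t (v (p x))
  transfer : ∀ q ∈ O, ∀ Q ∈ O, ∀ m : ℕ, ∀ ε > 0,
    ∃ h : X ≃ₜ X, h (top t q) = top t Q ∧ ∀ i ≤ m, dist (h (p^[i] q)) (p^[i] Q) < ε
  lb : ∀ x, Inn t x → ∃ δ > 0, ∃ x', x ∈ Icon t x' ∧ x ≠ x' ∧ x' ∈ Icon t (top t x) ∧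
    ∀ y, Inn t y → top t y = top t x → dist y x < δ → x' ∈ Icon t (v (v y))
  tend : ∀ x, Inn t x → Tendsto (fun n => v^[n] x) atTop (𝓝 (top t x))
  ptend : ∀ e, IsEnd t e → ∀ ε > 0, ∃ δ > 0, ∀ x, Inn t x → top t x = e → dist x e < δ →
    ∀ y, p x ∈ Icon t y → y ∈ Icon t e → dist y e < ε
  gap : (∀ x, Inn t x → x ∈ O) ∨
    ∀ q ∈ O, ∀ x, p q ∈ Icon t x → x ≠ p q → x ∈ Icon t q → x ≠ q → x ∉ O

lemma LegParam.map {t e : X} {γ : ℝ → X} (L : LegParam t e γ) (F : IsFan X t) (h : X ≃ₜ X) :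
    LegParam t (h e) (fun s => h (γ s)) where
  cont := h.continuous.comp L.cont
  inn s := (F.map_inn h).2 (L.inn s)
  top_eq s := by rw [F.map_top, L.top_eq]
  surj x hx he := by
    obtain ⟨s, hs⟩ := L.surj (h.symm x) ((F.map_inn h.symm).2 hx) (by
      rw [F.map_top, he, Homeomorph.symm_apply_apply])
    exact ⟨s, by simp [hs]⟩
  le_iff s s' := by rw [F.map_le, L.le_iff]
  bot := by
    have := (h.continuous.tendsto t).comp L.bot
    rwa [F.map_t] at this
  topl := (h.continuous.tendsto e).comp L.topl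

/-- stabiliser of an end acts on its leg by order isomorphisms -/
lemma LegParam.iso {t e : X} {γ : ℝ → X} (L : LegParam t e γ) (F : IsFan X t) (h : X ≃ₜ X)
    (he : h e = e) : ∃ σ : ℝ ≃o ℝ, ∀ s, h (γ s) = γ (σ s) := by
  have hf : ∀ s, ∃ r, γ r = h (γ s) := fun s =>
    L.surj _ ((F.map_inn h).2 (L.inn s)) (by rw [F.map_top, L.top_eq, he])
  have he' : h.symm e = e := by rw [Homeomorph.symm_apply_eq, he]
  have hf' : ∀ s, ∃ r, γ r = h.symm (γ s) := fun s =>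
    L.surj _ ((F.map_inn h.symm).2 (L.inn s)) (by rw [F.map_top, L.top_eq, he'])
  choose f hf using hf
  choose f' hf' using hf'
  refine ⟨⟨⟨f, f', fun s => L.inj F ?_, fun s => L.inj F ?_⟩, ?_⟩, fun s => (hf s).symm⟩
  · rw [hf', hf]; simp
  · rw [hf, hf']; simp
  · intro a b
    show f a ≤ f b ↔ a ≤ b
    rw [← L.le_iff, ← L.le_iff, hf, hf, F.map_le]

/-- the group acting on the leg -/
def LGrp (t e : X) (γ : ℝ → X) : Subgroup (ℝ ≃o ℝ) where
  carrier := {σ | ∃ h : X ≃ₜ X, h e = e ∧ ∀ s, h (γ s) = γ (σ s)}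
  mul_mem' := by
    rintro σ τ ⟨h, he, hs⟩ ⟨k, ke, ks⟩
    exact ⟨k.trans h, by simp [ke, he], fun s => by
      simp only [Homeomorph.trans_apply, ks, hs]; rfl⟩
  one_mem' := ⟨Homeomorph.refl X, rfl, fun s => rfl⟩
  inv_mem' := by
    rintro σ ⟨h, he, hs⟩
    refine ⟨h.symm, by rw [Homeomorph.symm_apply_eq, he], fun s => ?_⟩
    rw [Homeomorph.symm_apply_eq, hs]
    exact congrArg γ (σ.apply_symm_apply s).symm

namespace Two

variable {t : X} {A B : Set X} (T : Two t A B) (F : IsFan X t)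
include T F

lemma twoOrb {e : X} {γ : ℝ → X} (L : LegParam t e γ) :
    TwoOrb (LGrp t e γ) {s | γ s ∈ A} {s | γ s ∈ B} := by
  have he := L.isEnd F
  have orb : ∀ {A B : Set X} (T : Two t A B), ∀ x ∈ {s | γ s ∈ A}, ∀ y, y ∈ {s | γ s ∈ A} ↔
      ∃ g ∈ LGrp t e γ, g x = y := by
    intro A B T x hx y
    constructor
    · intro hy
      obtain ⟨h, h1, h2⟩ := T.moveA F hx hy
      rw [L.top_eq, L.top_eq] at h2
      obtain ⟨σ, hσ⟩ := L.iso F h h2
      refine ⟨σ, ⟨h, h2, hσ⟩, L.inj F ?_⟩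
      rw [← hσ, h1]
    · rintro ⟨g, ⟨h, h1, h2⟩, rfl⟩
      show γ (g x) ∈ A
      rw [← h2]
      exact T.mapA F h hx
  refine ⟨fun s => (T.cover _).1 (L.inn s), fun s hs => T.disj _ hs, ?_, ?_, orb T, orb T.symm⟩
  · obtain ⟨x, hx, hxe⟩ := T.legA F he
    obtain ⟨s, rfl⟩ := L.surj x (T.innA F hx) hxe
    exact ⟨s, hx⟩
  · obtain ⟨x, hx, hxe⟩ := T.legB F he
    obtain ⟨s, rfl⟩ := L.surj x (T.innB F hx) hxe
    exact ⟨s, hx⟩

theorem xlat {e : X} {γ : ℝ → X} (L : LegParam t e γ) {O : Set ℝ} {v p : ℝ → ℝ}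
    (Λ : Lat (LGrp t e γ) O v p) : ∃ O' v' p', XLat t O' v' p' := by
  classical
  have he := L.isEnd F
  have hH : ∀ e', ∃ h : X ≃ₜ X, IsEnd t e' → h e = e' := by
    intro e'
    by_cases h : IsEnd t e'
    · obtain ⟨g, hg⟩ := T.ends e e' he h
      exact ⟨g, fun _ => hg⟩
    · exact ⟨Homeomorph.refl X, fun h' => absurd h' h⟩
  choose H hH using hH
  set P : X → ℝ → X := fun e' s => H e' (γ s) with hP
  have LP : ∀ e', IsEnd t e' → LegParam t e' (P e') := by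
    intro e' he'
    have := L.map F (H e')
    rwa [hH e' he'] at this
  -- homeomorphisms in coordinates
  have hcoord : ∀ (h : X ≃ₜ X) (e' : X), IsEnd t e' → ∃ σ ∈ LGrp t e γ, ∀ s, h (P e' s) = P (h e') (σ s) := by
    intro h e' he'
    set k : X ≃ₜ X := ((H e').trans h).trans (H (h e')).symm with hk
    have hke : k e = e := by
      simp only [hk, Homeomorph.trans_apply, hH e' he']
      rw [Homeomorph.symm_apply_eq, hH _ ((F.map_end h).2 he')]
    obtain ⟨σ, hσ⟩ := L.iso F k hke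
    refine ⟨σ, ⟨k, hke, hσ⟩, fun s => ?_⟩
    have := hσ s
    simp only [hk, Homeomorph.trans_apply, Homeomorph.symm_apply_eq] at this
    exact this
  have hreal : ∀ σ ∈ LGrp t e γ, ∀ e1 e2, IsEnd t e1 → IsEnd t e2 → ∃ h : X ≃ₜ X, h e1 = e2 ∧
      ∀ s, h (P e1 s) = P e2 (σ s) := by
    rintro σ ⟨k, hke, hk⟩ e1 e2 h1 h2
    refine ⟨((H e1).symm.trans k).trans (H e2), ?_, fun s => ?_⟩
    · simp only [Homeomorph.trans_apply]
      rw [show (H e1).symm e1 = e by rw [Homeomorph.symm_apply_eq, hH e1 h1], hke, hH e2 h2]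
    · simp only [hP, Homeomorph.trans_apply, Homeomorph.symm_apply_apply, hk]
  -- coordinates of inner points
  have hcrd : ∀ x, ∃ s, Inn t x → P (top t x) s = x := by
    intro x
    by_cases hx : Inn t x
    · obtain ⟨s, hs⟩ := (LP _ (F.isEnd_top hx.1)).surj x hx rfl
      exact ⟨s, fun _ => hs⟩
    · exact ⟨0, fun h => absurd h hx⟩
  choose crd hcrd using hcrd
  have hPinn : ∀ e', IsEnd t e' → ∀ s, Inn t (P e' s) := fun e' he' s => (LP e' he').inn s
  have hPtop : ∀ e', IsEnd t e' → ∀ s, top t (P e' s) = e' := fun e' he' s => (LP e' he').top_eq s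
  have hcrdP : ∀ e', IsEnd t e' → ∀ s, crd (P e' s) = s := by
    intro e' he' s
    have := hcrd (P e' s) (hPinn e' he' s)
    rw [hPtop e' he'] at this
    exact (LP e' he').inj F this
  let lift : (ℝ → ℝ) → X → X := fun f x => P (top t x) (f (crd x))
  have hlift : ∀ f e', IsEnd t e' → ∀ s, lift f (P e' s) = P e' (f s) := by
    intro f e' he' s
    simp only [lift, hPtop e' he', hcrdP e' he']
  have hliftn : ∀ f e', IsEnd t e' → ∀ (n : ℕ) s, (lift f)^[n] (P e' s) = P e' (f^[n] s) := by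
    intro f e' he' n
    induction n with
    | zero => intro s; rfl
    | succ n ih => intro s; rw [Function.iterate_succ_apply', Function.iterate_succ_apply', ih, hlift f e' he']
  have hmap : ∀ f : ℝ → ℝ, (∀ g ∈ LGrp t e γ, ∀ s, f (g s) = g (f s)) → ∀ (h : X ≃ₜ X) x, Inn t x →
      lift f (h x) = h (lift f x) := by
    intro f hf h x hx
    have hE := F.isEnd_top hx.1
    obtain ⟨σ, hσ, hσs⟩ := hcoord h _ hE
    have hE' := (F.map_end h).2 hE
    rw [← hcrd x hx, hlift f _ hE, hσs, hσs, hlift f _ hE', hf σ hσ]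
  -- induction principle for inner points
  have hrep : ∀ x, Inn t x → ∃ e', IsEnd t e' ∧ ∃ s, x = P e' s := fun x hx =>
    ⟨_, F.isEnd_top hx.1, crd x, (hcrd x hx).symm⟩
  have hle : ∀ e', IsEnd t e' → ∀ s r, P e' s ∈ Icon t (P e' r) ↔ s ≤ r := fun e' he' s r =>
    (LP e' he').le_iff s r
  -- points between inner points of a leg
  have hbetween : ∀ e', IsEnd t e' → ∀ s r w, P e' s ∈ Icon t w → w ∈ Icon t (P e' r) →
      ∃ a, w = P e' a ∧ s ≤ a ∧ a ≤ r := by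
    intro e' he' s r w h1 h2
    have h3 : w ∈ Icon t e' := F.trans h2 ((LP e' he').le_e F r)
    rcases (LP e' he').cases F h3 with rfl | rfl | ⟨a, rfl⟩
    · exact absurd (F.le_t h1) (hPinn e' he' s).1
    · exact absurd he' (by
        have := he'.2 _ h2
        rw [← this]; exact (hPinn w he' r).2)
    · exact ⟨a, rfl, (hle e' he' _ _).1 h1, (hle e' he' _ _).1 h2⟩
  refine ⟨{x | Inn t x ∧ crd x ∈ O}, lift v, lift p, ?_⟩
  have hmemO : ∀ e', IsEnd t e' → ∀ s, P e' s ∈ {x | Inn t x ∧ crd x ∈ O} ↔ s ∈ O := by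
    intro e' he' s
    simp only [mem_setOf_eq, hcrdP e' he' s, hPinn e' he' s, true_and]
  have hcontfin : ∀ e', IsEnd t e' → ∀ (a : ℕ → ℝ) (m : ℕ) (ε : ℝ), 0 < ε → ∃ δ > 0, ∀ i ≤ m, ∀ r,
      |r - a i| < δ → dist (P e' r) (P e' (a i)) < ε := by
    intro e' he' a m ε hε
    induction m with
    | zero =>
      obtain ⟨δ, hδ, h⟩ := Metric.continuousAt_iff.1 ((LP e' he').cont.continuousAt (x := a 0)) ε hε
      refine ⟨δ, hδ, fun i hi r hr => ?_⟩
      obtain rfl : i = 0 := by omega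
      exact h (by rwa [Real.dist_eq])
    | succ m ih =>
      obtain ⟨δ1, hδ1, h1⟩ := ih
      obtain ⟨δ, hδ, h⟩ := Metric.continuousAt_iff.1 ((LP e' he').cont.continuousAt (x := a (m + 1))) ε hε
      refine ⟨min δ1 δ, lt_min hδ1 hδ, fun i hi r hr => ?_⟩
      rcases Nat.lt_or_ge m i with hlt | hle'
      · obtain rfl : i = m + 1 := by omega
        exact h (by rw [Real.dist_eq]; exact hr.trans_le (min_le_right _ _))
      · exact h1 i hle' r (hr.trans_le (min_le_left _ _))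
  constructor
  · exact fun q hq => hq.1
  · obtain ⟨s, hs⟩ := Λ.ne
    exact ⟨P e s, (hmemO e he s).2 hs⟩
  · rintro h q ⟨hq, hqO⟩
    obtain ⟨e', he', s, rfl⟩ := hrep q hq
    rw [hcrdP e' he'] at hqO
    obtain ⟨σ, hσ, hσs⟩ := hcoord h _ he'
    rw [hσs, hmemO _ ((F.map_end h).2 he')]
    exact Λ.inv σ hσ s hqO
  · exact hmap v Λ.vcomm
  · exact hmap p Λ.pcomm
  · intro x y hx hy hxy
    obtain ⟨e', he', r, rfl⟩ := hrep y hy
    have h1 : top t x = e' := by rw [F.top_of_le hx.1 hxy, hPtop e' he']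
    have h2 := hcrd x hx
    rw [h1] at h2
    rw [← h2] at hxy ⊢
    rw [hlift v e' he', hlift v e' he', hle e' he']
    exact Λ.vmono ((hle e' he' _ _).1 hxy)
  · intro x hx
    obtain ⟨e', he', s, rfl⟩ := hrep x hx
    rw [hlift v e' he', hmemO e' he']
    exact Λ.v_mem s
  · intro x hx
    obtain ⟨e', he', s, rfl⟩ := hrep x hx
    rw [hlift v e' he', hle e' he']
    exact ⟨(Λ.lt_v s).le, fun h => (Λ.lt_v s).ne ((LP e' he').inj F h)⟩
  · intro x hx
    obtain ⟨e', he', s, rfl⟩ := hrep x hx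
    rw [hlift p e' he', hmemO e' he']
    exact Λ.p_mem s
  · intro x hx
    obtain ⟨e', he', s, rfl⟩ := hrep x hx
    rw [hlift p e' he', hle e' he']
    exact ⟨(Λ.p_lt s).le, fun h => (Λ.p_lt s).ne ((LP e' he').inj F h)⟩
  · rintro q hq
    obtain ⟨e', he', s, rfl⟩ := hrep q hq.1
    rw [hmemO e' he'] at hq
    rw [hlift p e' he', hlift v e' he', Λ.vp s hq]
  · rintro q hq
    obtain ⟨e', he', s, rfl⟩ := hrep q hq.1
    rw [hmemO e' he'] at hq
    rw [hlift v e' he', hlift p e' he', Λ.pv s hq]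
  · intro x hx
    obtain ⟨e', he', s, rfl⟩ := hrep x hx
    rw [hlift v e' he', hlift p e' he', hle e' he']
    exact Λ.pv_le s
  · -- push
    rintro q hq w h1 h2 h3 m ε hε
    obtain ⟨e', he', s, rfl⟩ := hrep q hq.1
    rw [hmemO e' he'] at hq
    rw [hlift p e' he'] at h1 h2
    obtain ⟨a, rfl, ha1, ha2⟩ := hbetween e' he' _ _ w h1 h3
    have ha1' : p s < a := lt_of_le_of_ne ha1 (fun h => h2 (by rw [h]))
    obtain ⟨δ, hδ, hd⟩ := hcontfin e' he' (fun i => p^[i] s) m ε hε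
    obtain ⟨δ', hδ', hd'⟩ := hcontfin e' he' (fun i => v^[i] s) m ε hε
    obtain ⟨σ, hσ, h4, h5, h6⟩ := Λ.push s hq a ha1' ha2 m (min δ δ') (lt_min hδ hδ')
    obtain ⟨h, hh, hhs⟩ := hreal σ hσ e' e' he' he'
    rw [hPtop e' he']
    refine ⟨h, hh, ?_, fun i hi => ?_, fun i hi => ?_⟩
    · rw [hhs]
      exact hd 0 (Nat.zero_le _) _ (h4.trans_le (min_le_left _ _))
    · rw [hliftn p e' he', hhs]
      exact hd i hi _ ((h5 i hi).trans_le (min_le_left _ _))
    · rw [hliftn v e' he', hhs]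
      exact hd' i hi _ ((h6 i hi).trans_le (min_le_right _ _))
  · intro x hx
    obtain ⟨e', he', s, rfl⟩ := hrep x hx
    rw [hlift p e' he', hlift v e' he', hle e' he']
    exact Λ.le_vp s
  · -- transfer
    rintro q hq Q hQ m ε hε
    obtain ⟨e1, he1, s, rfl⟩ := hrep q hq.1
    obtain ⟨e2, he2, r, rfl⟩ := hrep Q hQ.1
    rw [hmemO e1 he1] at hq
    rw [hmemO e2 he2] at hQ
    obtain ⟨δ, hδ, hd⟩ := hcontfin e2 he2 (fun i => p^[i] r) m ε hε
    obtain ⟨σ, hσ, h5⟩ := Λ.transfer s hq r hQ m δ hδ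
    obtain ⟨h, hh, hhs⟩ := hreal σ hσ e1 e2 he1 he2
    rw [hPtop e1 he1, hPtop e2 he2]
    refine ⟨h, hh, fun i hi => ?_⟩
    rw [hliftn p e1 he1, hliftn p e2 he2, hhs]
    exact hd i hi _ (h5 i hi)
  · -- lower bound
    intro x hx
    obtain ⟨e', he', s, rfl⟩ := hrep x hx
    obtain ⟨δ0, hδ0, s', hs', hb⟩ := Λ.lb s
    have hinv : ∃ δ > 0, ∀ r, dist (P e' r) (P e' s) < δ → |r - s| < δ0 := by
      by_contra hcon
      push Not at hcon
      choose r hr hr' using fun n : ℕ => hcon (1 / ((n : ℝ) + 1)) Nat.one_div_pos_of_nat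
      have h1 := (LP e' he').inv_cont F (tendsto_hyp hr)
      obtain ⟨n, hn⟩ := (Metric.tendsto_nhds.1 h1 δ0 hδ0).exists
      rw [Real.dist_eq] at hn
      exact absurd hn (not_lt.2 (hr' n))
    obtain ⟨δ, hδ, hd⟩ := hinv
    refine ⟨δ, hδ, P e' s', (hle e' he' _ _).2 hs'.le, fun h => hs'.ne ((LP e' he').inj F h), ?_, ?_⟩
    · rw [hPtop e' he']; exact (LP e' he').le_e F _
    · intro y hy hyt hyd
      rw [hPtop e' he'] at hyt
      have h2 := hcrd y hy
      rw [hyt] at h2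
      rw [← h2] at hyd ⊢
      rw [hlift v e' he', hlift v e' he', hle e' he']
      exact hb _ (hd _ hyd)
  · intro x hx
    obtain ⟨e', he', s, rfl⟩ := hrep x hx
    simp only [hliftn v e' he', hPtop e' he']
    exact (LP e' he').topl.comp (Λ.tend s)
  · intro e' he' ε hε
    obtain ⟨R, hR⟩ := (Filter.eventually_atTop).1 (Metric.tendsto_nhds.1 (LP e' he').topl ε hε)
    obtain ⟨S, hS⟩ := Λ.ptend R
    have hinv : ∃ δ > 0, ∀ r, dist (P e' r) e' < δ → S < r := by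
      by_contra hcon
      push Not at hcon
      choose r hr hr' using fun n : ℕ => hcon (1 / ((n : ℝ) + 1)) Nat.one_div_pos_of_nat
      have h1 := (LP e' he').to_top F (tendsto_hyp hr)
      obtain ⟨n, hn⟩ := (h1.eventually (eventually_gt_atTop S)).exists
      exact absurd hn (not_lt.2 (hr' n))
    obtain ⟨δ, hδ, hd⟩ := hinv
    refine ⟨δ, hδ, fun x hx hxe hxd y hy1 hy2 => ?_⟩
    have h2 := hcrd x hx
    rw [hxe] at h2
    rw [← h2] at hxd hy1
    rw [hlift p e' he'] at hy1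
    rcases (LP e' he').cases F hy2 with rfl | rfl | ⟨a, rfl⟩
    · exact absurd (F.le_t hy1) (hPinn e' he' _).1
    · simpa using hε
    · exact hR a ((hS _ (hd _ hxd)).trans ((hle e' he' _ _).1 hy1))
  · rcases Λ.gap with h | h
    · exact Or.inl fun x hx => ⟨hx, h _⟩
    · right
      rintro q hq x h1 h2 h3 h4 hx
      obtain ⟨e', he', s, rfl⟩ := hrep q hq.1
      rw [hmemO e' he'] at hq
      rw [hlift p e' he'] at h1 h2
      obtain ⟨a, rfl, ha1, ha2⟩ := hbetween e' he' _ _ x h1 h3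
      rw [hmemO e' he'] at hx
      exact h s hq a (lt_of_le_of_ne ha1 (fun h => h2 (by rw [h])))
        (lt_of_le_of_ne ha2 (fun h => h4 (by rw [h]))) hx

/-- the maximum of `K_x` -/
lemma exists_u {x : X} (hx : Inn t x) : ∃ z, K t x = Icon t z ∧ z ∈ Icon t (top t x) ∧
    x ∈ Icon t z ∧ Inn t z ∧ top t z = top t x := by
  have hconn : IsConnected (K t x) := by
    have ht : t ∈ K t x := subset_K t x (left_mem_Icon _ _)
    refine ⟨⟨t, ht⟩, isPreconnected_of_forall t fun y hy => ⟨Icon t y, fun w hw => F.K2 hy hw,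
      left_mem_Icon _ _, right_mem_Icon _ _, (F.conn_Icon _ _).isPreconnected⟩⟩
  obtain ⟨z, hz, hKz⟩ := F.exists_max_of_subset (isClosed_K t x) hconn
    (subset_K t x (left_mem_Icon _ _)) (T.K_sub F hx.1)
  have h1 := T.K_sub F hx.1 hz
  have h2 : x ∈ Icon t z := hKz ▸ subset_K t x (right_mem_Icon _ _)
  have h3 : z ≠ t := fun h => hx.1 (F.le_t (h ▸ h2))
  refine ⟨z, hKz, h1, h2, ⟨h3, fun hE => ?_⟩, (F.top_of_le hx.1 h2).symm⟩
  have := hE.2 _ h1
  exact T.end_notMem_K F hx (this ▸ hz)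

/-- in the minimal nonsmooth case there is a commuting displacement -/
theorem lat_of_nonsmooth {e : X} {γ : ℝ → X} (L : LegParam t e γ) (M : Minl (LGrp t e γ))
    (hns : ∃ x, ¬ K t x ⊆ Icon t x) : ∃ O v p, Lat (LGrp t e γ) O v p := by
  have hu : ∀ s, ∃ r, K t (γ s) = Icon t (γ r) ∧ s ≤ r := by
    intro s
    obtain ⟨z, h1, h2, h3, h4, h5⟩ := T.exists_u F (L.inn s)
    obtain ⟨r, rfl⟩ := L.surj z h4 (h5.trans (L.top_eq s))
    exact ⟨r, h1, (L.le_iff _ _).1 h3⟩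
  choose u hu1 hu2 using hu
  have hum : Monotone u := by
    intro a b hab
    rcases le_total b (u a) with h | h
    · have h1 : γ (u a) ∈ K t (γ b) := by
        refine F.K1 (x := γ a) (by rw [hu1]; exact right_mem_Icon _ _) ?_
        rw [F.seg_eq ((L.le_iff _ _).2 (hu2 a))]
        exact ⟨(L.le_iff _ _).2 h, (L.le_iff _ _).2 hab⟩
      rw [hu1, L.le_iff] at h1
      exact h1
    · exact h.trans (hu2 b)
  have huc1 : ∀ g ∈ LGrp t e γ, ∀ s, g (u s) ≤ u (g s) := by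
    rintro g ⟨h, he, hs⟩ s
    have h1 : h (γ (u s)) ∈ K t (h (γ s)) := F.map_K h (by rw [hu1]; exact right_mem_Icon _ _)
    rw [hs, hs, hu1, L.le_iff] at h1
    exact h1
  have huc : ∀ g ∈ LGrp t e γ, ∀ s, u (g s) = g (u s) := by
    intro g hg s
    refine le_antisymm ?_ (huc1 g hg s)
    have h1 := huc1 g⁻¹ ((LGrp t e γ).inv_mem hg) (g s)
    rw [ginv'] at h1
    have := g.monotone h1
    rwa [ginv] at this
  -- a point moved by `u`
  obtain ⟨s1, hs1⟩ : ∃ s, s < u s := by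
    obtain ⟨x, hx⟩ := hns
    have hxt : x ≠ t := by
      rintro rfl
      rw [T.Kt F, F.Icon_self] at hx
      exact hx subset_rfl
    have hxE : ¬ IsEnd t x := fun h => hx (T.K_end F h).subset
    obtain ⟨h, hh⟩ := T.ends _ _ (F.isEnd_top hxt) (L.isEnd F)
    obtain ⟨s, hs⟩ := L.surj (h x) ((F.map_inn h).2 ⟨hxt, hxE⟩) (by rw [F.map_top, hh])
    refine ⟨s, lt_of_le_of_ne (hu2 s) fun heq => hx ?_⟩
    intro y hy
    have h1 := F.map_K h hy
    rw [← hs, hu1, ← heq, hs, F.map_le] at h1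
    exact h1
  have hlt : ∀ s, s < u s := by
    intro s
    obtain ⟨g, hg, h1, h2⟩ := M s s1 (u s1) hs1
    have hg' := (LGrp t e γ).inv_mem hg
    have h3 : g⁻¹ s1 < s := by
      have := g⁻¹.strictMono h1
      rwa [ginv'] at this
    have h4 : s < g⁻¹ (u s1) := by
      have := g⁻¹.strictMono h2
      rwa [ginv'] at this
    rw [← huc _ hg'] at h4
    exact h4.trans_le (hum h3.le)
  exact (T.twoOrb F L).dense M hum huc hlt

end Two

end Run7.h149.Fan
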