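import Mathlib
import Pool.Agent.Run7.h149.Fan.Transport

/-! The lattice argument, first part: accessibility. -/

set_option autoImplicit false
set_option linter.unusedSectionVars false
set_option linter.deprecated false

open Set Topology Filter Metric

namespace Run7.h149.Fan

variable {X : Type*} [MetricSpace X] [CompactSpace X] [Nonempty X]

/-- `r` can be reached in one `v`-step from below `a` on legs close to `[t,q]` -/
def App (t : X) (v : X → X) (a r q : X) : Prop :=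
  ∀ ε > 0, ∃ x', Inn t x' ∧ Icon t (top t x') ⊆ thickening ε (Icon t q) ∧
    Icon t x' ⊆ thickening ε (Icon t a) ∧ ∃ z' ∈ Icon t (v x'), dist z' r < ε

/-- `[t,q]` is a limit of legs -/
def Rch (t q : X) : Prop := ∀ ε > 0, ∃ e', IsEnd t e' ∧ Icon t e' ⊆ thickening ε (Icon t q) ∧
  ∃ z' ∈ Icon t e', dist z' q < ε

lemma img_thick {h : X ≃ₜ X} {δ ε : ℝ} (hd : ∀ x y, dist x y < δ → dist (h x) (h y) < ε)
    {C D : Set X} (hCD : C ⊆ thickening δ D) : h '' C ⊆ thickening ε (h '' D) := by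
  rintro _ ⟨x, hx, rfl⟩
  obtain ⟨y, hy, hxy⟩ := mem_thickening_iff.1 (hCD hx)
  exact mem_thickening_iff.2 ⟨h y, ⟨y, hy, rfl⟩, hd _ _ hxy⟩

lemma homeo_unif (h : X ≃ₜ X) {ε : ℝ} (hε : 0 < ε) :
    ∃ δ > 0, δ ≤ ε ∧ ∀ x y, dist x y < δ → dist (h x) (h y) < ε := by
  obtain ⟨δ, hδ, h1⟩ := Metric.uniformContinuous_iff.1
    (CompactSpace.uniformContinuous_of_continuous h.continuous) ε hε
  exact ⟨min δ ε, lt_min hδ hε, min_le_right _ _, fun x y hxy => h1 (hxy.trans_le (min_le_left _ _))⟩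

lemma tendsto_of_sub {ι : Type*} {l : Filter ι} {C : ι → Set X} {D : Set X} (hD : IsClosed D)
    {w : ι → X} {y : X} [l.NeBot] (hw : Tendsto w l (𝓝 y)) (hwC : ∀ᶠ n in l, w n ∈ C n)
    (h : ∀ ε > 0, ∀ᶠ n in l, C n ⊆ thickening ε D) : y ∈ D := by
  rw [← hD.closure_eq, Metric.mem_closure_iff]
  intro ε hε
  obtain ⟨n, h1, h2, h3⟩ := ((Metric.tendsto_nhds.1 hw _ (half_pos hε)).and
    (hwC.and (h _ (half_pos hε)))).exists
  obtain ⟨z, hz, hd⟩ := mem_thickening_iff.1 (h3 h2)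
  refine ⟨z, hz, ?_⟩
  have := dist_triangle y (w n) z
  rw [dist_comm y (w n)] at this
  linarith

namespace IsFan

variable {t : X} (F : IsFan X t)
include F

/-- a nonempty closed part of a leg has a least element -/
lemma exists_min {e : X} {S : Set X} (hS : IsClosed S) (hSe : S ⊆ Icon t e) (hne : S.Nonempty) :
    ∃ x ∈ S, ∀ y ∈ S, x ∈ Icon t y := by
  rcases eq_or_ne e t with rfl | he
  · obtain ⟨x, hx⟩ := hne
    refine ⟨x, hx, fun y hy => ?_⟩
    rw [F.le_t (hSe hx)]; exact left_mem_Icon _ _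
  · obtain ⟨η, hc, hi, h0, h1, hI, hI'⟩ := F.param he
    have hcomp : IsCompact (Icc (0:ℝ) 1 ∩ η ⁻¹' S) := isCompact_Icc.inter_right (hS.preimage hc)
    have hne' : (Icc (0:ℝ) 1 ∩ η ⁻¹' S).Nonempty := by
      obtain ⟨x, hx⟩ := hne
      obtain ⟨s, hs, rfl⟩ := (hI ▸ hSe) hx
      exact ⟨s, hs, hx⟩
    obtain ⟨s, hs, hmin⟩ := hcomp.exists_isLeast hne'
    refine ⟨η s, hs.2, fun y hy => ?_⟩
    obtain ⟨r, hr, rfl⟩ := (hI ▸ hSe) hy
    exact (le_iff_param hi hI' hs.1 hr).2 (hmin ⟨hr, hy⟩)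

lemma app_map {v : X → X} (hv : ∀ (h : X ≃ₜ X) x, Inn t x → v (h x) = h (v x)) (h : X ≃ₜ X)
    {a r q : X} (H : App t v a r q) : App t v (h a) (h r) (h q) := by
  intro ε hε
  obtain ⟨δ, hδ, -, hd⟩ := homeo_unif h hε
  obtain ⟨x', h1, h2, h3, z', hz', hzd⟩ := H δ hδ
  refine ⟨h x', (F.map_inn h).2 h1, ?_, ?_, h z', ?_, hd _ _ hzd⟩
  · rw [F.map_top, ← F.image_le, ← F.image_le]; exact img_thick hd h2
  · rw [← F.image_le, ← F.image_le]; exact img_thick hd h3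
  · rw [hv h x' h1, F.map_le]; exact hz'

lemma rch_map (h : X ≃ₜ X) {q : X} (H : Rch t q) : Rch t (h q) := by
  intro ε hε
  obtain ⟨δ, hδ, -, hd⟩ := homeo_unif h hε
  obtain ⟨e', h1, h2, z', hz', hzd⟩ := H δ hδ
  refine ⟨h e', (F.map_end h).2 h1, ?_, h z', (F.map_le h).2 hz', hd _ _ hzd⟩
  rw [← F.image_le, ← F.image_le]; exact img_thick hd h2

omit F in
lemma app_lim {v : X → X} {a r q : X} (H : ∀ η > 0, ∃ a' r' q', App t v a' r' q' ∧
    Icon t q' ⊆ thickening η (Icon t q) ∧ Icon t a' ⊆ thickening η (Icon t a) ∧ dist r' r < η) :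
    App t v a r q := by
  intro ε hε
  obtain ⟨a', r', q', h1, h2, h3, h4⟩ := H (ε / 2) (half_pos hε)
  obtain ⟨x', k1, k2, k3, z', hz', hzd⟩ := h1 (ε / 2) (half_pos hε)
  refine ⟨x', k1, ?_, ?_, z', hz', ?_⟩
  · have := thickening_trans k2 h2; rwa [add_halves] at this
  · have := thickening_trans k3 h3; rwa [add_halves] at this
  · linarith [dist_triangle z' r' r]

omit F in
lemma rch_lim {q : X} (H : ∀ η > 0, ∃ q', Rch t q' ∧
    Icon t q' ⊆ thickening η (Icon t q) ∧ dist q' q < η) : Rch t q := by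
  intro ε hε
  obtain ⟨q', h1, h2, h4⟩ := H (ε / 2) (half_pos hε)
  obtain ⟨e', k1, k2, z', hz', hzd⟩ := h1 (ε / 2) (half_pos hε)
  refine ⟨e', k1, ?_, z', hz', ?_⟩
  · have := thickening_trans k2 h2; rwa [add_halves] at this
  · linarith [dist_triangle z' q' q]

omit F in
lemma app_mono {v : X → X} {a a' r q : X} (h : Icon t a ⊆ Icon t a') (H : App t v a r q) :
    App t v a' r q := by
  intro ε hε
  obtain ⟨x', h1, h2, h3, h4⟩ := H ε hε
  exact ⟨x', h1, h2, thickening_trans' h3 h, h4⟩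

end IsFan

namespace XLat

variable {t : X} {O : Set X} {v p : X → X} (Λ : XLat t O v p) (F : IsFan X t)
include Λ F

lemma vin {x : X} (hx : Inn t x) : Inn t (v x) := Λ.innO _ (Λ.vmem x hx)
lemma pin {x : X} (hx : Inn t x) : Inn t (p x) := Λ.innO _ (Λ.pmem x hx)
lemma vtop {x : X} (hx : Inn t x) : top t (v x) = top t x :=
  (F.top_of_le hx.1 (Λ.le_v x hx).1).symm
lemma ptop {x : X} (hx : Inn t x) : top t (p x) = top t x :=
  F.top_of_le (Λ.pin F hx).1 (Λ.p_le x hx).1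

lemma pit {x : X} (hx : Inn t x) (i : ℕ) : Inn t (p^[i] x) ∧ top t (p^[i] x) = top t x ∧
    (x ∈ O → p^[i] x ∈ O) := by
  induction i with
  | zero => exact ⟨hx, rfl, id⟩
  | succ i ih =>
    rw [Function.iterate_succ_apply']
    exact ⟨Λ.pin F ih.1, (Λ.ptop F ih.1).trans ih.2.1, fun _ => Λ.pmem _ ih.1⟩

lemma vit {x : X} (hx : Inn t x) (i : ℕ) : Inn t (v^[i] x) ∧ top t (v^[i] x) = top t x ∧
    v^[i + 1] x ∈ O := by
  induction i with
  | zero => exact ⟨hx, rfl, Λ.vmem _ hx⟩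
  | succ i ih =>
    have h1 : Inn t (v^[i + 1] x) := Λ.innO _ ih.2.2
    refine ⟨h1, ?_, ?_⟩
    · rw [Function.iterate_succ_apply', Λ.vtop F ih.1, ih.2.1]
    · rw [Function.iterate_succ_apply']; exact Λ.vmem _ h1

lemma p_anti {x : X} (hx : Inn t x) {i j : ℕ} (hij : i ≤ j) : p^[j] x ∈ Icon t (p^[i] x) := by
  induction j, hij using Nat.le_induction with
  | base => exact right_mem_Icon _ _
  | succ j _ ih =>
    rw [Function.iterate_succ_apply']
    exact F.trans (Λ.p_le _ (Λ.pit F hx j).1).1 ih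

lemma v_mono {x : X} (hx : Inn t x) {i j : ℕ} (hij : i ≤ j) : v^[i] x ∈ Icon t (v^[j] x) := by
  induction j, hij using Nat.le_induction with
  | base => exact right_mem_Icon _ _
  | succ j _ ih =>
    rw [Function.iterate_succ_apply']
    exact F.trans ih (Λ.le_v _ (Λ.vit F hx j).1).1

lemma pvn {x : X} (hx : Inn t x) (k i : ℕ) : p^[i] (v^[i + (k + 1)] x) = v^[k + 1] x := by
  induction i with
  | zero => simp
  | succ i ih =>
    rw [Function.iterate_succ_apply, show i + 1 + (k + 1) = (i + (k + 1)) + 1 by ring,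
      Function.iterate_succ_apply', Λ.pv _ (by
        have := (Λ.vit F hx (i + k)).2.2
        rwa [show i + k + 1 = i + (k + 1) by ring] at this)]
    exact ih

lemma pvm {x : X} (hx : Inn t x) (m : ℕ) : p^[m] (v^[m] x) ∈ Icon t x := by
  cases m with
  | zero => exact right_mem_Icon _ _
  | succ i =>
    rw [Function.iterate_succ_apply', Λ.pvn F hx 0 i]
    exact Λ.pv_le x hx

lemma vpn {q : X} (hq : q ∈ O) (j : ℕ) : v^[j] (p^[j] q) = q := by
  induction j with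
  | zero => rfl
  | succ j ih =>
    rw [Function.iterate_succ_apply' p, Function.iterate_succ_apply,
      Λ.vp _ ((Λ.pit F (Λ.innO q hq) j).2.2 hq), ih]

lemma pmapn (h : X ≃ₜ X) {x : X} (hx : Inn t x) (i : ℕ) : p^[i] (h x) = h (p^[i] x) := by
  induction i with
  | zero => rfl
  | succ i ih =>
    rw [Function.iterate_succ_apply', Function.iterate_succ_apply', ih,
      Λ.pmap h _ (Λ.pit F hx i).1]

/-- pushing accessibility up to the next lattice point -/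
lemma app_push {q w : X} (hq : q ∈ O) {m j : ℕ} (hjm : j < m) (h1 : p^[j + 1] q ∈ Icon t w)
    (h2 : w ≠ p^[j + 1] q) (h3 : w ∈ Icon t (p^[j] q)) (H : App t v (p^[m] q) w q) :
    App t v (p^[m] q) (p^[j] q) q := by
  have hqi := Λ.innO q hq
  have hq0 := Λ.pit F hqi j
  refine IsFan.app_lim fun η hη => ?_
  have hqe : q ∈ Icon t (top t q) := F.le_top hqi.1
  have hpe : p^[m] q ∈ Icon t (top t q) := F.trans (Λ.p_anti F hqi (Nat.zero_le m)) hqe
  obtain ⟨δ1, hδ1, hc1⟩ := F.legcont hqe hη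
  obtain ⟨δ2, hδ2, hc2⟩ := F.legcont hpe hη
  obtain ⟨h, hh, hw, hp, hv⟩ := Λ.push _ (hq0.2.2 hq) w (by
    rwa [Function.iterate_succ_apply'] at h1) (by rwa [Function.iterate_succ_apply'] at h2) h3 m
    (min η (min δ1 δ2)) (lt_min hη (lt_min hδ1 hδ2))
  rw [hq0.2.1] at hh
  have e1 : p^[m - j] (p^[j] q) = p^[m] q := by
    rw [← Function.iterate_add_apply]; congr 2; omega
  have k1 := hp (m - j) (by omega)
  have k2 := hv j hjm.le
  rw [e1] at k1
  rw [Λ.vpn F hq] at k2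
  refine ⟨_, _, _, F.app_map Λ.vmap h H, ?_, ?_, hw.trans_le (min_le_left _ _)⟩
  · refine hc1 _ ?_ (k2.trans_le ((min_le_right _ _).trans (min_le_left _ _)))
    rw [← hh, F.map_le]; exact hqe
  · refine hc2 _ ?_ (k1.trans_le ((min_le_right _ _).trans (min_le_right _ _)))
    rw [← hh, F.map_le]; exact hpe

lemma app_transfer {q Q : X} (hq : q ∈ O) (hQ : Q ∈ O) {m i : ℕ} (him : i ≤ m)
    (H : App t v (p^[m] q) (p^[i] q) q) : App t v (p^[m] Q) (p^[i] Q) Q := by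
  have hqi := Λ.innO q hq
  have hQi := Λ.innO Q hQ
  refine IsFan.app_lim fun η hη => ?_
  have hQe : Q ∈ Icon t (top t Q) := F.le_top hQi.1
  have hpe : p^[m] Q ∈ Icon t (top t Q) := F.trans (Λ.p_anti F hQi (Nat.zero_le m)) hQe
  obtain ⟨δ1, hδ1, hc1⟩ := F.legcont hQe hη
  obtain ⟨δ2, hδ2, hc2⟩ := F.legcont hpe hη
  obtain ⟨h, hh, hp⟩ := Λ.transfer q hq Q hQ m (min η (min δ1 δ2)) (lt_min hη (lt_min hδ1 hδ2))
  have hqe : q ∈ Icon t (top t q) := F.le_top hqi.1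
  refine ⟨_, _, _, F.app_map Λ.vmap h H, ?_, ?_, (hp i him).trans_le (min_le_left _ _)⟩
  · refine hc1 _ ?_ ((hp 0 (Nat.zero_le _)).trans_le ((min_le_right _ _).trans (min_le_left _ _)))
    rw [← hh, F.map_le]; exact hqe
  · refine hc2 _ ?_ ((hp m le_rfl).trans_le ((min_le_right _ _).trans (min_le_right _ _)))
    rw [← hh, F.map_le]; exact F.trans (Λ.p_anti F hqi (Nat.zero_le m)) hqe

lemma locate {q r : X} (hq : q ∈ O) (hr : r ∈ Icon t q) {m : ℕ} (hm : r ∉ Icon t (p^[m] q)) :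
    ∃ j < m, r ∈ Icon t (p^[j] q) ∧ r ∉ Icon t (p^[j + 1] q) := by
  classical
  have hex : ∃ k, r ∉ Icon t (p^[k] q) := ⟨m, hm⟩
  have h1 := Nat.find_spec hex
  have h2 : Nat.find hex ≠ 0 := by
    intro h0
    rw [h0] at h1
    exact h1 hr
  obtain ⟨j, hj⟩ := Nat.exists_eq_succ_of_ne_zero h2
  rw [hj] at h1
  refine ⟨j, ?_, ?_, h1⟩
  · have := Nat.find_min' hex hm
    omega
  · by_contra h3
    exact Nat.find_min hex (by omega : j < Nat.find hex) h3

lemma app_up {q r : X} (hq : q ∈ O) (hr : r ∈ Icon t q) {m : ℕ} (hm : r ∉ Icon t (p^[m] q))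
    (H : App t v (p^[m] q) r q) : ∃ j < m, r ∈ Icon t (p^[j] q) ∧ App t v (p^[m] q) (p^[j] q) q := by
  obtain ⟨j, hj, h1, h2⟩ := Λ.locate F hq hr hm
  refine ⟨j, hj, h1, Λ.app_push F hq hj ?_ (fun h => h2 (h ▸ right_mem_Icon _ _)) h1 H⟩
  rcases F.total hr (Λ.p_anti F (Λ.innO q hq) (Nat.zero_le (j + 1))) with h | h
  · exact absurd h h2
  · exact h

/-- compactness form of the absence of jumps -/
lemma jump {a b q : X} (hno : ∀ r ∈ Icon t q, r ∉ Icon t b → ¬ App t v a r q) {ε : ℝ}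
    (hε : 0 < ε) : ∃ η > 0, ∀ x', Inn t x' → Icon t (top t x') ⊆ thickening η (Icon t q) →
      Icon t x' ⊆ thickening η (Icon t a) → Icon t (v x') ⊆ thickening ε (Icon t b) := by
  by_contra hcon
  push Not at hcon
  choose x hx h1 h2 h3 using fun n : ℕ => hcon (1 / ((n : ℝ) + 1)) Nat.one_div_pos_of_nat
  simp only [not_subset] at h3
  choose z hz hz' using h3
  obtain ⟨r, hr⟩ := exists_lim (hyperfilter ℕ) z
  have hle : ∀ n, z n ∈ Icon t (top t (x n)) := fun n => by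
    have := F.trans (hz n) (F.le_top (Λ.vin F (hx n)).1)
    rwa [Λ.vtop F (hx n)] at this
  have hrq : r ∈ Icon t q := by
    refine tendsto_of_sub (isClosed_Icon t q) hr (Eventually.of_forall hle) fun δ hδ => ?_
    exact (hyp_small hδ).mono fun n hn => thick_mono (h1 n) hn.le
  have hrb : r ∉ Icon t b := by
    intro hrb
    obtain ⟨n, hn⟩ := (Metric.tendsto_nhds.1 hr ε hε).exists
    exact hz' n (mem_thickening_iff.2 ⟨r, hrb, hn⟩)
  refine hno r hrq hrb fun δ hδ => ?_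
  obtain ⟨n, hn1, hn2⟩ := ((Metric.tendsto_nhds.1 hr δ hδ).and (hyp_small hδ)).exists
  exact ⟨x n, hx n, thick_mono (h1 n) hn2.le, thick_mono (h2 n) hn2.le, z n, hz n, hn1⟩

/-- the composition argument -/
theorem exists_R2 (hex : ∃ m, ∃ q ∈ O, ∃ r ∈ Icon t q, r ∉ Icon t (p^[m] q) ∧
    App t v (p^[m] q) r q) : ∃ Q ∈ O, App t v (p Q) Q Q := by
  classical
  obtain ⟨m, hmdef⟩ : ∃ m, m = Nat.find hex := ⟨_, rfl⟩
  have hmin : ∀ i < m, ∀ q ∈ O, ∀ r ∈ Icon t q, r ∉ Icon t (p^[i] q) → ¬ App t v (p^[i] q) r q := by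
    intro i hi q hq r hr hri H
    exact Nat.find_min hex (hmdef ▸ hi) ⟨q, hq, r, hr, hri, H⟩
  obtain ⟨q, hq, r, hr, hrm, H⟩ := Nat.find_spec hex
  rw [← hmdef] at hrm H
  have hqi := Λ.innO q hq
  have hexj : ∃ j, j < m ∧ App t v (p^[m] q) (p^[j] q) q := by
    obtain ⟨j, hj, -, h⟩ := Λ.app_up F hq hr hrm H
    exact ⟨j, hj, h⟩
  obtain ⟨i, hidef⟩ : ∃ i, i = Nat.find hexj := ⟨_, rfl⟩
  obtain ⟨him, Hi⟩ := Nat.find_spec hexj
  rw [← hidef] at him Hi
  have hmini : ∀ j < i, ¬ App t v (p^[m] q) (p^[j] q) q := by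
    intro j hj H
    exact Nat.find_min hexj (hidef ▸ hj) ⟨hj.trans him, H⟩
  -- reduce to the accessibility of `b` inside `[t,b]`
  suffices hb : App t v (p^[m] q) (p^[i] q) (p^[i] q) by
    refine ⟨p^[i] q, (Λ.pit F hqi i).2.2 hq, IsFan.app_mono ?_ hb⟩
    rw [← Function.iterate_succ_apply' p]
    exact F.mono (Λ.p_anti F hqi (by omega))
  rcases Nat.eq_zero_or_pos i with rfl | hi0
  · exact Hi
  -- iterate: no jump beyond `b`
  have hα : ∀ r ∈ Icon t q, r ∉ Icon t (p^[i] q) → ¬ App t v (p^[m] q) r q := by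
    intro r hr hri H
    obtain ⟨j, hj, h1, h2⟩ := Λ.app_up F hq hr (fun h => hri (F.trans h (Λ.p_anti F hqi him.le))) H
    have hji : j < i := by
      by_contra hcon
      exact hri (F.trans h1 (Λ.p_anti F hqi (not_lt.1 hcon)))
    exact hmini j hji h2
  have hiter : ∀ k : ℕ, ∀ ε > 0, ∃ η > 0, ∀ x', Inn t x' →
      Icon t (top t x') ⊆ thickening η (Icon t q) → Icon t x' ⊆ thickening η (Icon t (p^[m] q)) →
      Icon t (v^[k + 1] x') ⊆ thickening ε (Icon t (p^[i] q)) := by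
    intro k
    induction k with
    | zero => intro ε hε; exact Λ.jump F hα hε
    | succ k ih =>
      intro ε hε
      obtain ⟨η1, hη1, h1⟩ := Λ.jump F (hmin i him q hq) hε
      obtain ⟨η2, hη2, h2⟩ := ih η1 hη1
      refine ⟨min η1 η2, lt_min hη1 hη2, fun x' hx' ha hb => ?_⟩
      rw [Function.iterate_succ_apply']
      have hv := Λ.vit F hx' (k + 1)
      refine h1 _ hv.1 ?_ (h2 x' hx' (thick_mono ha (min_le_right _ _)) (thick_mono hb (min_le_right _ _)))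
      rw [hv.2.1]
      exact thick_mono ha (min_le_left _ _)
  obtain ⟨m', rfl⟩ : ∃ m', m = m' + 1 := ⟨m - 1, by omega⟩
  intro ε hε
  obtain ⟨η, hη, hη'⟩ := hiter m' (ε / 2) (half_pos hε)
  obtain ⟨x', hx', h1, h2, z', hz', hzd⟩ := Hi (min η (ε / 2)) (lt_min hη (half_pos hε))
  set Q := v^[m' + 1] x' with hQ
  have hQO : Q ∈ O := (Λ.vit F hx' m').2.2
  have hQI : Icon t Q ⊆ thickening (ε / 2) (Icon t (p^[i] q)) :=
    hη' x' hx' (thick_mono h1 (min_le_left _ _)) (thick_mono h2 (min_le_left _ _))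
  have hAQ := Λ.app_transfer F hq hQO him.le Hi
  -- position of the iterates
  have e1 : p^[m' + 1] Q ∈ Icon t x' := Λ.pvm F hx' (m' + 1)
  obtain ⟨k, hk⟩ : ∃ k, m' + 1 = i + (k + 1) := ⟨m' - i, by omega⟩
  have e2 : p^[i] Q = v^[k + 1] x' := by rw [hQ, hk, Λ.pvn F hx']
  have e3 : z' ∈ Icon t (p^[i] Q) := by
    rw [e2]
    exact F.trans hz' (Λ.v_mono F hx' (by omega : 1 ≤ k + 1))
  obtain ⟨δ, hδ, hl⟩ := F.lsc1 e3 (half_pos hε)
  obtain ⟨x'', hx'', k1, k2, z'', hz'', hzd''⟩ := hAQ (min (ε / 2) δ) (lt_min (half_pos hε) hδ)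
  obtain ⟨w, hw, hwd⟩ := hl z'' (hzd''.trans_le (min_le_right _ _))
  refine ⟨x'', hx'', ?_, ?_, w, F.trans hw hz'', ?_⟩
  · have := thickening_trans (thick_mono k1 (min_le_left _ _)) hQI
    rwa [add_halves] at this
  · have := thickening_trans (thickening_trans' (thick_mono k2 (min_le_left _ _)) (F.mono e1))
      (thick_mono h2 (min_le_right _ _))
    rwa [add_halves] at this
  · have := hzd.trans_le (min_le_right _ _)
    linarith [dist_triangle w z' (p^[i] q)]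

end XLat

end Run7.h149.Fan
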