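import Mathlib
import Pool.Agent.Run7.h149.Fan.Lattice

/-! The lattice argument, second part. -/

set_option autoImplicit false
set_option linter.unusedSectionVars false
set_option linter.deprecated false

open Set Topology Filter Metric

namespace Run7.h149.Fan

variable {X : Type*} [MetricSpace X] [CompactSpace X] [Nonempty X]

lemma IsFan.exists_first {t : X} (F : IsFan X t) {q a : X} (hR : Rch t q) (ha : a ∈ Icon t q)
    (hat : a ≠ t) (hqa : q ∉ Icon t a) {η0 : ℝ} (hη0 : 0 < η0) :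
    ∃ x', Inn t x' ∧ Icon t (top t x') ⊆ thickening η0 (Icon t q) ∧
      Icon t x' ⊆ thickening η0 (Icon t a) ∧ dist x' a < η0 ∧
      ∃ z' ∈ Icon t (top t x'), dist z' q < η0 := by
  have hc1 : 0 < infDist q (Icon t a) :=
    ((isClosed_Icon t a).notMem_iff_infDist_pos ⟨t, left_mem_Icon _ _⟩).1 hqa
  have hd0 : 0 < dist a t := dist_pos.2 hat
  obtain ⟨η, hη, hηη0, hηc, hηd⟩ : ∃ η > 0, η ≤ η0 ∧ 3 * η ≤ infDist q (Icon t a) ∧ η ≤ dist a t :=
    ⟨min η0 (min (infDist q (Icon t a) / 3) (dist a t)), lt_min hη0 (lt_min (by linarith) hd0),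
      min_le_left _ _, by
        have := (min_le_right η0 (min (infDist q (Icon t a) / 3) (dist a t))).trans (min_le_left _ _)
        linarith, (min_le_right _ _).trans (min_le_right _ _)⟩
  obtain ⟨δ, hδ, hl⟩ := F.lsc1 ha (half_pos hη)
  by_contra hcon
  have hstep : ∀ n : ℕ, ∃ e' x' w', IsEnd t e' ∧ Icon t e' ⊆ thickening (1 / ((n : ℝ) + 1)) (Icon t q) ∧
      x' ∈ Icon t e' ∧ dist x' a ≤ η / 2 ∧ (∀ y ∈ Icon t e', dist y a ≤ η / 2 → x' ∈ Icon t y) ∧
      w' ∈ Icon t x' ∧ w' ∉ thickening η (Icon t a) := by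
    intro n
    have hn : (0:ℝ) < 1 / ((n : ℝ) + 1) := by positivity
    obtain ⟨e', he', h1, z', hz', hzd⟩ := hR (min (1 / ((n : ℝ) + 1)) (min δ η))
      (lt_min hn (lt_min hδ hη))
    obtain ⟨a', ha', had⟩ := hl z' (hzd.trans_le ((min_le_right _ _).trans (min_le_left _ _)))
    obtain ⟨x', hx', hmin⟩ := F.exists_min (e := e') (S := Icon t e' ∩ closedBall a (η / 2))
      ((isClosed_Icon _ _).inter isClosed_closedBall) inter_subset_left
      ⟨a', F.trans ha' hz', mem_closedBall.2 had.le⟩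
    have hx't : x' ≠ t := by
      rintro rfl
      have := mem_closedBall.1 hx'.2
      rw [dist_comm] at this
      linarith
    have htop : top t x' = e' := F.top_unique hx't he' hx'.1
    have hsub : ¬ Icon t x' ⊆ thickening η (Icon t a) := by
      intro hsub
      refine hcon ⟨x', ⟨hx't, fun hE => ?_⟩, ?_, thick_mono hsub hηη0, ?_, z', ?_, ?_⟩
      · have he : e' = x' := hE.2 _ hx'.1
        obtain ⟨w, hw, hwd⟩ := mem_thickening_iff.1 (hsub (he ▸ hz'))
        have h3 : infDist q (Icon t a) ≤ dist q w := infDist_le_dist_of_mem hw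
        have h4 := dist_triangle q z' w
        have h5 : dist z' q < η := hzd.trans_le ((min_le_right _ _).trans (min_le_right _ _))
        rw [dist_comm q z'] at h4
        linarith
      · rw [htop]
        exact thick_mono h1 (((min_le_right _ _).trans (min_le_right _ _)).trans hηη0)
      · have := mem_closedBall.1 hx'.2
        linarith
      · rw [htop]; exact hz'
      · exact hzd.trans_le (((min_le_right _ _).trans (min_le_right _ _)).trans hηη0)
    obtain ⟨w', hw', hw''⟩ := not_subset.1 hsub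
    exact ⟨e', x', w', he', thick_mono h1 (min_le_left _ _), hx'.1, mem_closedBall.1 hx'.2,
      fun y hy hyd => hmin y ⟨hy, mem_closedBall.2 hyd⟩, hw', hw''⟩
  choose e' x' w' he' h1 h2 h3 h4 h5 h6 using hstep
  obtain ⟨w, hw⟩ := exists_lim (hyperfilter ℕ) w'
  have hwq : w ∈ Icon t q := by
    refine tendsto_of_sub (isClosed_Icon t q) hw (Eventually.of_forall fun n => F.trans (h5 n) (h2 n))
      fun δ hδ => ?_
    exact (hyp_small hδ).mono fun n hn => thick_mono (h1 n) hn.le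
  have hwa : w ∉ Icon t a := by
    intro h
    obtain ⟨n, hn⟩ := (Metric.tendsto_nhds.1 hw η hη).exists
    exact h6 n (mem_thickening_iff.2 ⟨w, h, hn⟩)
  have haw : a ∈ Icon t w := (F.total hwq ha).resolve_left hwa
  obtain ⟨δ', hδ', hl'⟩ := F.lsc1 haw (half_pos hη)
  obtain ⟨n, hn⟩ := (Metric.tendsto_nhds.1 hw δ' hδ').exists
  obtain ⟨a', ha', had⟩ := hl' (w' n) hn
  have h7 := h4 n a' (F.trans ha' (F.trans (h5 n) (h2 n))) had.le
  have h8 : w' n = a' := F.antisymm (F.trans (h5 n) h7) ha'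
  exact h6 n (mem_thickening_iff.2 ⟨a, right_mem_Icon _ _, by rw [h8]; linarith⟩)

namespace XLat

variable {t : X} {O : Set X} {v p : X → X} (Λ : XLat t O v p) {A B : Set X} (T : Two t A B)
  (F : IsFan X t)
include Λ T F

/-- all lattice points are ends of limits of legs -/
theorem rch_all {x0 : X} (hx0 : Inn t x0) (hcl : x0 ∈ closure {e | IsEnd t e}) :
    ∀ Q ∈ O, Rch t Q := by
  obtain ⟨e, he, hlim⟩ := mem_closure_iff_seq_limit.1 hcl
  set C := LimS (hyperfilter ℕ) (fun n => Icon t (e n)) with hC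
  have hlim' : Tendsto e (hyperfilter ℕ : Filter ℕ) (𝓝 x0) := hlim.mono_left hyp_le
  have htC : t ∈ C := mem_LimS_of_tendsto (s := fun _ => t)
    (Eventually.of_forall fun n => left_mem_Icon _ _) tendsto_const_nhds
  have hxC : x0 ∈ C := mem_LimS_of_tendsto (Eventually.of_forall fun n => right_mem_Icon _ _) hlim'
  obtain ⟨u, hu1, hu2, hu3, hu4, hu5⟩ := T.exists_u F hx0
  have hCu : C ⊆ Icon t u := by
    intro y hy
    obtain ⟨w, hw, hwy⟩ := exists_seq_of_mem_LimS (Eventually.of_forall fun n => isClosed_Icon _ _) hy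
    rw [← hu1]
    exact mem_K_of_tendsto hlim' hwy hw
  obtain ⟨q0, hq0C, hCq0⟩ := F.exists_max_of_subset (isClosed_LimS _ _)
    ⟨⟨t, htC⟩, isPreconnected_LimS (Eventually.of_forall fun n => (F.conn_Icon _ _).isPreconnected)⟩
    htC hCu
  have hx0q : x0 ∈ Icon t q0 := hCq0 ▸ hxC
  have hq0t : q0 ≠ t := fun h => hx0.1 (F.le_t (h ▸ hx0q))
  have hq0i : Inn t q0 := ⟨hq0t, fun hE => by
    have := hE.2 _ (hCu hq0C)
    exact hu4.2 (this ▸ hE)⟩
  have hR0 : Rch t q0 := by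
    intro ε hε
    have hev : ∀ᶠ n in (hyperfilter ℕ : Filter ℕ), Icon t (e n) ⊆ thickening ε (Icon t q0) := by
      by_contra hcon
      have hcon' : ∀ᶠ n in (hyperfilter ℕ : Filter ℕ), ¬ Icon t (e n) ⊆ thickening ε (Icon t q0) :=
        Ultrafilter.eventually_not.2 hcon
      have hy : ∀ n, ∃ y, ¬ Icon t (e n) ⊆ thickening ε (Icon t q0) →
          y ∈ Icon t (e n) ∧ y ∉ thickening ε (Icon t q0) := by
        intro n
        by_cases h : Icon t (e n) ⊆ thickening ε (Icon t q0)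
        · exact ⟨t, fun h' => absurd h h'⟩
        · obtain ⟨y, hy1, hy2⟩ := not_subset.1 h
          exact ⟨y, fun _ => ⟨hy1, hy2⟩⟩
      choose y hy using hy
      obtain ⟨z, hz⟩ := exists_lim (hyperfilter ℕ) y
      have hzC : z ∈ C := mem_LimS_of_tendsto (hcon'.mono fun n hn => (hy n hn).1) hz
      obtain ⟨n, hn1, hn2⟩ := ((Metric.tendsto_nhds.1 hz ε hε).and hcon').exists
      exact (hy n hn2).2 (mem_thickening_iff.2 ⟨z, hCq0 ▸ hzC, hn1⟩)
    obtain ⟨w, hw, hwy⟩ := exists_seq_of_mem_LimS (Eventually.of_forall fun n => isClosed_Icon _ _) hq0C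
    obtain ⟨n, h1, h2, h3⟩ := (hev.and (hw.and (Metric.tendsto_nhds.1 hwy ε hε))).exists
    exact ⟨e n, he n, h1, w n, h2, h3⟩
  -- push to a lattice point
  have hpq := Λ.pmem q0 hq0i
  have hpqi := Λ.innO _ hpq
  set q1 := v (p q0) with hq1
  have hq1O : q1 ∈ O := Λ.vmem _ hpqi
  have hq1i := Λ.innO _ hq1O
  have hpq1 : p q1 = p q0 := Λ.pv _ hpq
  have hR1 : Rch t q1 := by
    refine IsFan.rch_lim fun η hη => ?_
    have hqe : q1 ∈ Icon t (top t q1) := F.le_top hq1i.1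
    obtain ⟨δ, hδ, hc⟩ := F.legcont hqe hη
    obtain ⟨h, hh, hw, -, -⟩ := Λ.push q1 hq1O q0 (by rw [hpq1]; exact (Λ.p_le _ hq0i).1)
      (by rw [hpq1]; exact (Λ.p_le _ hq0i).2.symm) (Λ.le_vp _ hq0i) 0 (min δ η) (lt_min hδ hη)
    refine ⟨h q0, F.rch_map h hR0, hc _ ?_ (hw.trans_le (min_le_left _ _)),
      hw.trans_le (min_le_right _ _)⟩
    rw [← hh, F.map_le]
    exact F.trans (Λ.le_vp _ hq0i) hqe
  intro Q hQ
  have hQi := Λ.innO _ hQ
  refine IsFan.rch_lim fun η hη => ?_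
  have hqe : Q ∈ Icon t (top t Q) := F.le_top hQi.1
  obtain ⟨δ, hδ, hc⟩ := F.legcont hqe hη
  obtain ⟨h, hh, hw⟩ := Λ.transfer q1 hq1O Q hQ 0 (min δ η) (lt_min hδ hη)
  have hw0 := hw 0 le_rfl
  refine ⟨h q1, F.rch_map h hR1, hc _ ?_ (hw0.trans_le (min_le_left _ _)),
    hw0.trans_le (min_le_right _ _)⟩
  rw [← hh, F.map_le]
  exact F.le_top hq1i.1

/-- some jump exists -/
theorem exists_jump (hR : ∀ Q ∈ O, Rch t Q) : ∃ m, ∃ q ∈ O, ∃ r ∈ Icon t q,
    r ∉ Icon t (p^[m] q) ∧ App t v (p^[m] q) r q := by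
  by_contra hcon
  push Not at hcon
  obtain ⟨p0, hp0⟩ := Λ.neO
  have hp0i := Λ.innO _ hp0
  set e := top t p0 with he
  have heE : IsEnd t e := F.isEnd_top hp0i.1
  obtain ⟨δ0, hδ0, s', hs1, hs2, hs3, hb⟩ := Λ.lb p0 hp0i
  have hs'0 : s' ∉ Icon t p0 := fun h => hs2 (F.antisymm hs1 h)
  have hc0 : 0 < infDist s' (Icon t p0) :=
    ((isClosed_Icon t p0).notMem_iff_infDist_pos ⟨t, left_mem_Icon _ _⟩).1 hs'0
  set c0 := infDist s' (Icon t p0) with hc0d
  set δ := min (δ0 / 2) (c0 / 4) with hδd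
  have hδ : 0 < δ := lt_min (by linarith) (by linarith)
  obtain ⟨ρ, hρ, hreg⟩ := T.reg F heE hδ
  obtain ⟨n, hn1, hn2⟩ := ((Metric.tendsto_nhds.1 (Λ.tend p0 hp0i) (ρ / 2) (half_pos hρ)).and
    (eventually_ge_atTop 1)).exists
  obtain ⟨n', rfl⟩ : ∃ n', n = n' + 1 := ⟨n - 1, by omega⟩
  set q := v^[n' + 1] p0 with hq
  have hqO : q ∈ O := (Λ.vit F hp0i n').2.2
  have hpq : p^[n' + 1] q = p0 := by
    have h1 := Λ.pvn F (Λ.pin F hp0i) 0 (n' + 1)
    have h2 : v^[n' + 1 + (0 + 1)] (p p0) = q := by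
      rw [show n' + 1 + (0 + 1) = (n' + 1) + 1 by ring, Function.iterate_succ_apply, Λ.vp _ hp0]
    have h3 : v^[0 + 1] (p p0) = p0 := Λ.vp _ hp0
    rw [h2, h3] at h1
    exact h1
  have hno : ∀ r ∈ Icon t q, r ∉ Icon t p0 → ¬ App t v p0 r q := by
    intro r hr hr'
    have := hcon (n' + 1) q hqO r hr
    rw [hpq] at this
    exact this hr'
  obtain ⟨η1, hη1, hj1⟩ := Λ.jump F hno (show 0 < c0 / 4 by linarith)
  obtain ⟨η2, hη2, hj2⟩ := Λ.jump F hno hη1
  have hp0q : p0 ∈ Icon t q := Λ.v_mono F hp0i (Nat.zero_le (n' + 1))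
  have hqp0 : q ∉ Icon t p0 := by
    intro h
    have h1 : v p0 ∈ Icon t q := Λ.v_mono F hp0i (show 1 ≤ n' + 1 by omega)
    have h2 := Λ.le_v p0 hp0i
    exact h2.2 (F.antisymm h2.1 (F.trans h1 h))
  obtain ⟨x', hx', k1, k2, k3, z', hz', hzd⟩ := F.exists_first (hR q hqO) hp0q hp0i.1 hqp0
    (η0 := min (min η1 η2) (min (δ0 / 2) (ρ / 2)))
    (lt_min (lt_min hη1 hη2) (lt_min (by linarith) (by linarith)))
  have hz'e : dist z' e < ρ := by
    have h1 : dist z' q < ρ / 2 := hzd.trans_le ((min_le_right _ _).trans (min_le_right _ _))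
    linarith [dist_triangle z' q e]
  obtain ⟨hz't, h, hh, hhe⟩ := hreg z' hz'e
  have htz : top t z' = top t x' := by
    have := F.top_of_le hz't hz'
    rw [F.top_end (F.isEnd_top hx'.1)] at this
    exact this
  rw [htz] at hhe
  set y := h.symm x' with hy
  have hyi : Inn t y := (F.map_inn h.symm).2 hx'
  have hyt : top t y = e := by
    rw [hy, F.map_top, Homeomorph.symm_apply_eq, hhe]
  have hyd : dist y p0 < δ0 := by
    have h1 := Wn_symm hh x'
    have h2 : dist x' p0 < δ0 / 2 := k3.trans_le ((min_le_right _ _).trans (min_le_left _ _))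
    have h3 : δ ≤ δ0 / 2 := min_le_left _ _
    linarith [dist_triangle y x' p0]
  have h4 := hb y hyi hyt hyd
  have h5 : h s' ∈ Icon t (v (v x')) := by
    have e1 : v (v x') = h (v (v y)) := by
      rw [← Λ.vmap h _ (Λ.vin F hyi), ← Λ.vmap h _ hyi, hy, Homeomorph.apply_symm_apply]
    rw [e1, F.map_le]; exact h4
  have h6 : Icon t (v x') ⊆ thickening η1 (Icon t p0) :=
    hj2 x' hx' (thick_mono k1 ((min_le_left _ _).trans (min_le_right _ _)))
      (thick_mono k2 ((min_le_left _ _).trans (min_le_right _ _)))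
  have h7 : Icon t (v (v x')) ⊆ thickening (c0 / 4) (Icon t p0) :=
    hj1 (v x') (Λ.vin F hx') (by
      rw [Λ.vtop F hx']; exact thick_mono k1 ((min_le_left _ _).trans (min_le_left _ _))) h6
  obtain ⟨w, hw, hwd⟩ := mem_thickening_iff.1 (h7 h5)
  have h8 : c0 ≤ dist s' w := infDist_le_dist_of_mem hw
  have h9 := hh s'
  have h10 : δ ≤ c0 / 4 := min_le_right _ _
  have h11 := dist_triangle s' (h s') w
  rw [dist_comm s' (h s')] at h11
  linarith

omit Λ in
/-- Baire category: a set with good approximations accumulates at an end -/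
lemma baireC {Z : Set X} (hne : Z.Nonempty)
    (h1 : ∀ z ∈ Z, ∀ ε > 0, ∃ z' ∈ Z, dist z' z < ε ∧ z' ∈ T.U ε)
    (h2 : ∀ e, IsEnd t e → e ∉ closure Z) : False := by
  obtain ⟨z0, hz0⟩ := hne
  obtain ⟨x, ⟨-, hx⟩, hxU⟩ := baire_inter (Y := closure Z) isClosed_closure
    (fun n => T.U (1 / ((n : ℝ) + 1))) (fun n => T.isOpen_U F _) (O := univ) isOpen_univ
    ⟨z0, mem_univ _, subset_closure hz0⟩ (by
      rintro n O' hO' - ⟨y, hyO, hyZ⟩
      obtain ⟨z, hzO, hz⟩ := mem_closure_iff.1 hyZ O' hO' hyO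
      obtain ⟨r, hr, hrO⟩ := Metric.isOpen_iff.1 hO' z hzO
      obtain ⟨z', hz', hd, hU⟩ := h1 z hz (min r (1 / ((n : ℝ) + 1)))
        (lt_min hr Nat.one_div_pos_of_nat)
      exact ⟨z', ⟨hrO (mem_ball.2 (hd.trans_le (min_le_left _ _))), subset_closure hz'⟩,
        ⟨hU.1, thick_mono hU.2 (min_le_right _ _)⟩⟩)
  exact h2 x (T.end_of_mem_U F hxU) hx

/-- near an end the lattice steps are small -/
lemma pt_small {e : X} (he : IsEnd t e) {c : ℝ} (hc : 0 < c) :
    ∃ ρ > 0, ∀ z, dist z e < ρ → Inn t z → dist z (p z) < c ∧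
      ∀ y, p (v z) ∈ Icon t y → y ∈ Icon t (v z) → dist y (p (v z)) < c := by
  obtain ⟨δ1, hδ1, h1⟩ := Λ.ptend e he (c / 4) (by linarith)
  obtain ⟨δ2, hδ2, h2⟩ := Λ.ptend e he δ1 hδ1
  set δ := min (c / 8) (min (δ1 / 2) (δ2 / 2)) with hδd
  have hδ : 0 < δ := lt_min (by linarith) (lt_min (by linarith) (by linarith))
  have b1 : δ ≤ c / 8 := min_le_left _ _
  have b2 : δ ≤ δ1 / 2 := (min_le_right _ _).trans (min_le_left _ _)
  have b3 : δ ≤ δ2 / 2 := (min_le_right _ _).trans (min_le_right _ _)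
  obtain ⟨ρ, hρ, hreg⟩ := T.reg F he hδ
  refine ⟨min ρ δ, lt_min hρ hδ, fun z hz hzi => ?_⟩
  obtain ⟨-, h, hh, hhe⟩ := hreg z (hz.trans_le (min_le_left _ _))
  set s := h.symm z with hs
  have hhs : h s = z := h.apply_symm_apply z
  have hsi : Inn t s := (F.map_inn h.symm).2 hzi
  have hst : top t s = e := by rw [hs, F.map_top, Homeomorph.symm_apply_eq, hhe]
  have hsd : dist s e < 2 * δ := by
    have a1 := Wn_symm hh z
    have a2 := hz.trans_le (min_le_right _ _)
    linarith [dist_triangle s z e]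
  have hse : s ∈ Icon t e := hst ▸ F.le_top hsi.1
  have hpz : p z = h (p s) := by rw [← hhs, Λ.pmap h _ hsi]
  have hpvz : p (v z) = h (p (v s)) := by
    rw [← hhs, Λ.vmap h _ hsi, Λ.pmap h _ (Λ.vin F hsi)]
  have hvz : v z = h (v s) := by rw [← hhs, Λ.vmap h _ hsi]
  have hps := Λ.p_le s hsi
  constructor
  · have c1 := h1 s hsi hst (by linarith) s hps.1 hse
    have c2 := h1 s hsi hst (by linarith) (p s) (right_mem_Icon _ _) (F.trans hps.1 hse)
    rw [hpz, ← hhs]
    have c3 := hh s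
    have c4 := hh (p s)
    have c5 := dist_triangle4 (h s) s (p s) (h (p s))
    have c6 := dist_triangle_right s (p s) e
    rw [dist_comm (p s) (h (p s))] at c5
    linarith
  · intro y hy1 hy2
    have hvs := Λ.le_v s hsi
    have hvi := Λ.vin F hsi
    have hvt : top t (v s) = e := (Λ.vtop F hsi).trans hst
    have hvse : v s ∈ Icon t e := hvt ▸ F.le_top hvi.1
    have c1 := h2 s hsi hst (by linarith) (v s) (F.trans hps.1 hvs.1) hvse
    have hpvs := Λ.p_le (v s) hvi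
    set y' := h.symm y with hy'
    have hhy : h y' = y := h.apply_symm_apply y
    have c2 : p (v s) ∈ Icon t y' := by rw [← F.map_le h, hhy, ← hpvz]; exact hy1
    have c3 : y' ∈ Icon t (v s) := by rw [← F.map_le h, hhy, ← hvz]; exact hy2
    have c4 := h1 (v s) hvi hvt c1 y' c2 (F.trans c3 hvse)
    have c5 := h1 (v s) hvi hvt c1 (p (v s)) (right_mem_Icon _ _) (F.trans hpvs.1 hvse)
    rw [hpvz, ← hhy]
    have c6 := hh y'
    have c7 := hh (p (v s))
    have c8 := dist_triangle4 (h y') y' (p (v s)) (h (p (v s)))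
    have c9 := dist_triangle_right y' (p (v s)) e
    rw [dist_comm (p (v s)) (h (p (v s)))] at c8
    linarith

/-- good approximation of lattice points by lattice points -/
def T1 (_ : XLat t O v p) (q : X) : Prop := ∀ ε > 0, ∃ q' ∈ O, Icon t (top t q') ⊆ thickening ε (Icon t q) ∧
  Icon t (p q') ⊆ thickening ε (Icon t (p q)) ∧ dist q' q < ε

omit T in
lemma T1_transfer {q Q : X} (hq : q ∈ O) (hQ : Q ∈ O) (H : Λ.T1 q) : Λ.T1 Q := by
  intro ε hε
  have hqi := Λ.innO q hq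
  have hQi := Λ.innO Q hQ
  have hQe : Q ∈ Icon t (top t Q) := F.le_top hQi.1
  have hpe : p Q ∈ Icon t (top t Q) := F.trans (Λ.p_le _ hQi).1 hQe
  have hqe : q ∈ Icon t (top t q) := F.le_top hqi.1
  obtain ⟨δ1, hδ1, hc1⟩ := F.legcont hQe (half_pos hε)
  obtain ⟨δ2, hδ2, hc2⟩ := F.legcont hpe (half_pos hε)
  obtain ⟨h, hh, hp⟩ := Λ.transfer q hq Q hQ 1 (min (ε / 2) (min δ1 δ2))
    (lt_min (half_pos hε) (lt_min hδ1 hδ2))
  have hp0 := hp 0 (by omega)
  have hp1 := hp 1 le_rfl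
  simp only [Function.iterate_zero, id_eq, Function.iterate_one] at hp0 hp1
  have a1 : Icon t (h q) ⊆ thickening (ε / 2) (Icon t Q) :=
    hc1 _ (by rw [← hh, F.map_le]; exact hqe)
      (hp0.trans_le ((min_le_right _ _).trans (min_le_left _ _)))
  have a2 : Icon t (h (p q)) ⊆ thickening (ε / 2) (Icon t (p Q)) :=
    hc2 _ (by rw [← hh, F.map_le]; exact F.trans (Λ.p_le _ hqi).1 hqe)
      (hp1.trans_le ((min_le_right _ _).trans (min_le_right _ _)))
  obtain ⟨δ, hδ, -, hd⟩ := homeo_unif h (half_pos hε)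
  obtain ⟨q', hq', b1, b2, b3⟩ := H δ hδ
  refine ⟨h q', Λ.mapO h _ hq', ?_, ?_, ?_⟩
  · have := img_thick hd b1
    rw [F.image_le, F.image_le] at this
    rw [F.map_top]
    have := thickening_trans this a1
    rwa [add_halves] at this
  · have := img_thick hd b2
    rw [F.image_le, F.image_le] at this
    rw [Λ.pmap h _ (Λ.innO _ hq')]
    have := thickening_trans this a2
    rwa [add_halves] at this
  · have := hd _ _ b3
    have := dist_triangle (h q') (h q) Q
    have := hp0.trans_le (min_le_left _ _)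
    linarith

lemma T1_false (H : ∀ q ∈ O, Λ.T1 q) : False := by
  obtain ⟨q0, hq0⟩ := Λ.neO
  have pos : ∀ q ∈ O, 0 < infDist q (Icon t (p q)) := by
    intro q hq
    refine ((isClosed_Icon t _).notMem_iff_infDist_pos ⟨t, left_mem_Icon _ _⟩).1 fun h => ?_
    have := Λ.p_le q (Λ.innO q hq)
    exact this.2 (F.antisymm this.1 h)
  set c := infDist q0 (Icon t (p q0)) / 2 with hc
  have hc0 : 0 < c := half_pos (pos q0 hq0)
  refine baireC T F (Z := {q | q ∈ O ∧ c < infDist q (Icon t (p q))}) ⟨q0, hq0, by linarith⟩ ?_ ?_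
  · rintro q ⟨hq, hqc⟩ ε hε
    obtain ⟨δ, hδ, hl⟩ := F.lsc_set q (half_pos hε)
    set D := infDist q (Icon t (p q)) with hD
    set ε' := min (ε / 2) (min δ ((D - c) / 3)) with hε'
    have hε'0 : 0 < ε' := lt_min (half_pos hε) (lt_min hδ (by linarith))
    have b1 : ε' ≤ ε / 2 := min_le_left _ _
    have b2 : ε' ≤ δ := (min_le_right _ _).trans (min_le_left _ _)
    have b3 : ε' ≤ (D - c) / 3 := (min_le_right _ _).trans (min_le_right _ _)
    obtain ⟨q', hq', h1, h2, h3⟩ := H q hq ε' hε'0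
    refine ⟨q', ⟨hq', ?_⟩, by linarith, (Λ.innO _ hq').1, ?_⟩
    · have h4 : D - 2 * ε' ≤ infDist q' (Icon t (p q')) := by
        refine (le_infDist ⟨t, left_mem_Icon _ _⟩).2 fun y hy => ?_
        obtain ⟨y1, hy1, hyd⟩ := mem_thickening_iff.1 (h2 hy)
        have h5 : D ≤ dist q y1 := infDist_le_dist_of_mem hy1
        have h6 := dist_triangle4 q q' y y1
        rw [dist_comm q q'] at h6
        linarith
      linarith
    · have h4 := hl q' (h3.trans_le b2)
      have := thickening_trans (thick_mono h1 b1) h4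
      rwa [add_halves] at this
  · intro e he hcl
    obtain ⟨ρ, hρ, hs⟩ := Λ.pt_small T F he hc0
    obtain ⟨z, ⟨hzO, hzc⟩, hzd⟩ := Metric.mem_closure_iff.1 hcl ρ hρ
    rw [dist_comm] at hzd
    have h1 := (hs z hzd (Λ.innO _ hzO)).1
    have h2 : infDist z (Icon t (p z)) ≤ dist z (p z) := infDist_le_dist_of_mem (right_mem_Icon _ _)
    linarith

end XLat

end Run7.h149.Fan
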