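import Mathlib
import Pool.Agent.Run7.h149.Fan.Lattice2

/-! The lattice argument, conclusion. -/

set_option autoImplicit false
set_option linter.unusedSectionVars false
set_option linter.deprecated false

open Set Topology Filter Metric

namespace Run7.h149.Fan

variable {X : Type*} [MetricSpace X] [CompactSpace X] [Nonempty X]

lemma IsFan.between {t : X} (F : IsFan X t) {a b : X} (h : a ∈ Icon t b) (hne : a ≠ b) :
    ∃ x, a ∈ Icon t x ∧ x ∈ Icon t b ∧ x ≠ a ∧ x ≠ b := by
  have hb : b ≠ t := by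
    rintro rfl
    exact hne (F.le_t h)
  obtain ⟨η, hc, hi, h0, h1, hI, hI'⟩ := F.param hb
  rw [hI] at h
  obtain ⟨s, hs, rfl⟩ := h
  have hs1 : s ≠ 1 := fun h => hne (by rw [h, h1])
  have hs1' : s < 1 := lt_of_le_of_ne hs.2 hs1
  have hm : (s + 1) / 2 ∈ Icc (0:ℝ) 1 := ⟨by linarith [hs.1], by linarith⟩
  have h11 : (1:ℝ) ∈ Icc (0:ℝ) 1 := ⟨zero_le_one, le_rfl⟩
  refine ⟨η ((s + 1) / 2), (le_iff_param hi hI' hs hm).2 (by linarith), ?_, ?_, ?_⟩
  · rw [hI]; exact ⟨_, hm, rfl⟩
  · intro h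
    have := hi hm hs h
    linarith
  · intro h
    rw [← h1] at h
    have := hi hm h11 h
    linarith

namespace XLat

variable {t : X} {O : Set X} {v p : X → X} (Λ : XLat t O v p) {A B : Set X} (T : Two t A B)
  (F : IsFan X t)
include Λ T F

omit T in
lemma vgap (hgap : ∀ q ∈ O, ∀ x, p q ∈ Icon t x → x ≠ p q → x ∈ Icon t q → x ≠ q → x ∉ O)
    {q x : X} (hq : q ∈ O) (hx : Inn t x) (h1 : p q ∈ Icon t x) (h2 : x ≠ p q) (h3 : x ∈ Icon t q)
    (h4 : x ≠ q) : v x = q := by
  have hqi := Λ.innO q hq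
  have hv := Λ.le_v x hx
  have hvO := Λ.vmem x hx
  have hvi := Λ.vin F hx
  have htop : top t (v x) = top t q := by rw [Λ.vtop F hx, F.top_of_le hx.1 h3]
  rcases F.cmp_top hvi.1 hqi.1 htop with h | h
  · by_contra hne
    refine hgap q hq (v x) (F.trans h1 hv.1) ?_ h hne hvO
    intro he
    exact h2 (F.antisymm (he ▸ hv.1) h1)
  · by_contra hne
    refine hgap (v x) hvO q (F.trans (Λ.pv_le x hx) h3) ?_ h (Ne.symm hne) hq
    intro he
    have h5 : q ∈ Icon t x := he ▸ Λ.pv_le x hx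
    exact h4 (F.antisymm h3 h5)

theorem false_of_lat {x0 : X} (hx0 : Inn t x0) (hcl : x0 ∈ closure {e | IsEnd t e}) : False := by
  obtain ⟨Q, hQ, HQ⟩ := Λ.exists_R2 F (Λ.exists_jump T F (Λ.rch_all T F hx0 hcl))
  have R2 : ∀ q ∈ O, App t v (p q) q q := fun q hq =>
    Λ.app_transfer F hQ hq (m := 1) (i := 0) (by omega) HQ
  rcases Λ.gap with hall | hgap
  · refine Λ.T1_false T F fun q hq ε hε => ?_
    have hqi := Λ.innO q hq
    have hqt : 0 < dist q t := dist_pos.2 hqi.1
    obtain ⟨x', hx', h1, h2, z', hz', hzd⟩ := R2 q hq (min ε (dist q t)) (lt_min hε hqt)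
    have hz't : z' ≠ t := by
      rintro rfl
      have := hzd.trans_le (min_le_right _ _)
      rw [dist_comm] at this
      exact this.false
    have hvi := Λ.vin F hx'
    have hz'i : Inn t z' := ⟨hz't, fun hE => hvi.2 (by rw [hE.2 _ hz']; exact hE)⟩
    have hz'O := hall z' hz'i
    have htop : top t z' = top t x' := by rw [F.top_of_le hz't hz', Λ.vtop F hx']
    have hp : p z' ∈ Icon t x' := by
      rcases F.total (F.trans (Λ.p_le z' hz'i).1 hz') (Λ.le_v x' hx').1 with h | h
      · exact h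
      · have h3 := Λ.vmono _ _ hx' (Λ.pin F hz'i) h
        rw [Λ.vp _ hz'O] at h3
        rw [F.antisymm hz' h3]
        exact Λ.pv_le x' hx'
    refine ⟨z', hz'O, ?_, ?_, hzd.trans_le (min_le_left _ _)⟩
    · rw [htop]; exact thick_mono h1 (min_le_left _ _)
    · exact (F.mono hp).trans (thick_mono h2 (min_le_left _ _))
  -- the discrete case
  by_cases hT1 : ∃ q ∈ O, Λ.T1 q
  · obtain ⟨q, hq, H⟩ := hT1
    exact Λ.T1_false T F fun q' hq' => Λ.T1_transfer F hq hq' H
  push Not at hT1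
  obtain ⟨q0, hq0⟩ := Λ.neO
  have hq0i := Λ.innO _ hq0
  have pos : ∀ q ∈ O, 0 < infDist q (Icon t (p q)) := by
    intro q hq
    refine ((isClosed_Icon t _).notMem_iff_infDist_pos ⟨t, left_mem_Icon _ _⟩).1 fun h => ?_
    have := Λ.p_le q (Λ.innO q hq)
    exact this.2 (F.antisymm this.1 h)
  set c := infDist q0 (Icon t (p q0)) / 2 with hc
  have hc0 : 0 < c := half_pos (pos q0 hq0)
  set Z : Set X := {x | Inn t x ∧ x ∉ O ∧ ∃ y, p (v x) ∈ Icon t y ∧ y ∈ Icon t (v x) ∧
    c < infDist y (Icon t (p (v x)))} with hZ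
  refine baireC T F (Z := Z) ?_ ?_ ?_
  · -- nonempty
    have hple := Λ.p_le q0 hq0i
    obtain ⟨x, h1, h2, h3, h4⟩ := F.between hple.1 hple.2
    have hxt : x ≠ t := by
      rintro rfl
      exact (Λ.pin F hq0i).1 (F.le_t h1)
    have hxi : Inn t x := ⟨hxt, fun hE => h4 (hE.2 _ h2).symm⟩
    have hv := Λ.vgap F hgap hq0 hxi h1 h3 h2 h4
    exact ⟨x, hxi, hgap q0 hq0 x h1 h3 h2 h4, q0, by rw [hv]; exact hple.1,
      by rw [hv]; exact right_mem_Icon _ _, by rw [hv]; linarith⟩
  · rintro x ⟨hxi, hxO, y, hy1, hy2, hyc⟩ ε hε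
    set q := v x with hq
    have hqO : q ∈ O := Λ.vmem x hxi
    have hqi := Λ.innO q hqO
    have hpx : p q ∈ Icon t x := Λ.pv_le x hxi
    have hxpq : x ≠ p q := fun h => hxO (h ▸ Λ.pmem q hqi)
    have hxq := Λ.le_v x hxi
    choose x' hx' k1 k2 z' hz' hzd using fun n : ℕ => R2 q hqO (1 / ((n : ℝ) + 1)) Nat.one_div_pos_of_nat
    obtain ⟨γ, hγ⟩ := exists_lim (hyperfilter ℕ) (fun n => v (x' n))
    have hz'q : Tendsto z' (hyperfilter ℕ : Filter ℕ) (𝓝 q) := tendsto_hyp hzd
    have hcle : ∀ n, v (x' n) ∈ Icon t (top t (x' n)) := fun n => by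
      have := F.le_top (Λ.vin F (hx' n)).1
      rwa [Λ.vtop F (hx' n)] at this
    have hγq : γ ∈ Icon t q := tendsto_of_sub (isClosed_Icon t q) hγ (Eventually.of_forall hcle)
      fun δ hδ => (hyp_small hδ).mono fun n hn => thick_mono (k1 n) hn.le
    have hγp : γ ∈ Icon t (p q) := by
      by_contra hγp
      have h1 : p q ∈ Icon t γ := (F.total hγq (Λ.p_le q hqi).1).resolve_left hγp
      have h2 : γ ≠ p q := fun h => hγp (h ▸ right_mem_Icon _ _)
      refine hT1 q hqO fun ε2 hε2 => ?_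
      have hqe : q ∈ Icon t (top t q) := F.le_top hqi.1
      have hpe : p q ∈ Icon t (top t q) := F.trans (Λ.p_le q hqi).1 hqe
      obtain ⟨δ1, hδ1, hc1⟩ := F.legcont hqe (half_pos hε2)
      obtain ⟨δ2, hδ2, hc2⟩ := F.legcont hpe (half_pos hε2)
      obtain ⟨h, hh, hw, hp, -⟩ := Λ.push q hqO γ h1 h2 hγq 1 (min (ε2 / 2) (min δ1 δ2))
        (lt_min (half_pos hε2) (lt_min hδ1 hδ2))
      have hp0 := hp 0 (by omega)
      have hp1 := hp 1 le_rfl
      simp only [Function.iterate_zero, id_eq, Function.iterate_one] at hp0 hp1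
      have a1 : Icon t (h q) ⊆ thickening (ε2 / 2) (Icon t q) :=
        hc1 _ (by rw [← hh, F.map_le]; exact hqe)
          (hp0.trans_le ((min_le_right _ _).trans (min_le_left _ _)))
      have a2 : Icon t (h (p q)) ⊆ thickening (ε2 / 2) (Icon t (p q)) :=
        hc2 _ (by rw [← hh, F.map_le]; exact hpe)
          (hp1.trans_le ((min_le_right _ _).trans (min_le_right _ _)))
      obtain ⟨δ, hδ, -, hd⟩ := homeo_unif h (half_pos hε2)
      obtain ⟨n, hn1, hn2⟩ := ((Metric.tendsto_nhds.1 hγ δ hδ).and (hyp_small hδ)).exists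
      refine ⟨h (v (x' n)), Λ.mapO h _ (Λ.vmem _ (hx' n)), ?_, ?_, ?_⟩
      · have := img_thick hd (thick_mono (k1 n) hn2.le)
        rw [F.image_le, F.image_le] at this
        rw [F.map_top, Λ.vtop F (hx' n)]
        have := thickening_trans this a1
        rwa [add_halves] at this
      · have := img_thick hd (thick_mono ((F.mono (Λ.pv_le _ (hx' n))).trans (k2 n)) hn2.le)
        rw [F.image_le, F.image_le] at this
        rw [Λ.pmap h _ (Λ.vin F (hx' n))]
        have := thickening_trans this a2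
        rwa [add_halves] at this
      · have := hd _ _ hn1
        have := dist_triangle (h (v (x' n))) (h γ) q
        have := hw.trans_le (min_le_left _ _)
        linarith
    -- the returning arcs
    set C := LimS (hyperfilter ℕ) (fun n => Icon (z' n) (v (x' n))) with hC
    have hqC : q ∈ C := mem_LimS_of_tendsto (Eventually.of_forall fun n => left_mem_Icon _ _) hz'q
    have hγC : γ ∈ C := mem_LimS_of_tendsto (Eventually.of_forall fun n => right_mem_Icon _ _) hγ
    have hxI : x ∈ Icon γ q := by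
      rw [F.seg_eq hγq]
      exact ⟨hxq.1, F.trans hγp hpx⟩
    have hxC : x ∈ C := hxI C (isClosed_LimS _ _) ⟨⟨q, hqC⟩,
      isPreconnected_LimS (Eventually.of_forall fun n => (F.conn_Icon _ _).isPreconnected)⟩ hγC hqC
    obtain ⟨s, hs, hsx⟩ := exists_seq_of_mem_LimS (Eventually.of_forall fun n => isClosed_Icon _ _) hxC
    have hxγ : 0 < dist x γ := dist_pos.2 fun h => hxpq (F.antisymm (h ▸ hγp) hpx)
    set D := infDist q (Icon t (p q)) with hD
    have hD0 : 0 < D := pos q hqO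
    set κ := (infDist y (Icon t (p q)) - c) / 3 with hκ
    have hκ0 : 0 < κ := by linarith
    obtain ⟨δ, hδ, hl⟩ := F.lsc_set q (half_pos hε)
    have hyq : y ∈ Icon t q := hy2
    obtain ⟨δ', hδ', hl'⟩ := F.lsc1 hyq hκ0
    obtain ⟨n, e1, e2, e3, e4, e5, e6, e7, e8⟩ := (hs.and
      ((Metric.tendsto_nhds.1 hsx (min ε (dist x γ / 2)) (lt_min hε (half_pos hxγ))).and
      ((Metric.tendsto_nhds.1 hγ (dist x γ / 2) (half_pos hxγ)).and
      ((Metric.tendsto_nhds.1 hz'q (min (D / 2) (min δ δ')) (lt_min (half_pos hD0) (lt_min hδ hδ'))).and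
      ((hyp_small (half_pos hD0)).and ((hyp_small (half_pos hε)).and
      ((hyp_small hκ0).and (Eventually.of_forall fun n => trivial))))))) ).exists
    have hcO := Λ.vmem _ (hx' n)
    have hci := Λ.innO _ hcO
    rw [F.seg_eq (hz' n)] at e1
    obtain ⟨hsc, hzs⟩ := e1
    have hsne : s n ≠ v (x' n) := by
      intro h
      have a1 := e2.trans_le (min_le_right _ _)
      rw [h] at a1
      have := dist_triangle_left x γ (v (x' n))
      linarith
    have hznx : z' n ∉ Icon t (x' n) := by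
      intro h
      obtain ⟨w, hw, hwd⟩ := mem_thickening_iff.1 (k2 n h)
      have a1 : D ≤ dist q w := infDist_le_dist_of_mem hw
      have a2 := dist_triangle_left q w (z' n)
      have a3 := e4.trans_le (min_le_left _ _)
      linarith
    have hxz : x' n ∈ Icon t (z' n) := (F.total (hz' n) (Λ.le_v _ (hx' n)).1).resolve_left hznx
    have hpcx := Λ.pv_le _ (hx' n)
    have hpcs : p (v (x' n)) ∈ Icon t (s n) := F.trans hpcx (F.trans hxz hzs)
    have hspc : s n ≠ p (v (x' n)) := fun h => hznx (F.trans (h ▸ hzs) hpcx)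
    have hz't : z' n ≠ t := fun h => hznx (h ▸ left_mem_Icon _ _)
    have hst : s n ≠ t := fun h => hz't (F.le_t (h ▸ hzs))
    have hsi : Inn t (s n) := ⟨hst, fun hE => hsne (hE.2 _ hsc).symm⟩
    have hsO := hgap _ hcO _ hpcs hspc hsc hsne
    have hvs := Λ.vgap F hgap hcO hsi hpcs hspc hsc hsne
    have hstop : top t (s n) = top t (x' n) := by rw [F.top_of_le hst hsc, Λ.vtop F (hx' n)]
    obtain ⟨yn, hyn, hynd⟩ := hl' (z' n) (e4.trans_le ((min_le_right _ _).trans (min_le_right _ _)))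
    have hync : yn ∈ Icon t (v (x' n)) := F.trans hyn (hz' n)
    have hyninf : c < infDist yn (Icon t (p (v (x' n)))) := by
      have h4 : infDist y (Icon t (p q)) - 2 * κ ≤ infDist yn (Icon t (p (v (x' n)))) := by
        refine (le_infDist ⟨t, left_mem_Icon _ _⟩).2 fun w hw => ?_
        obtain ⟨w1, hw1, hwd⟩ := mem_thickening_iff.1 (k2 n (F.trans hw hpcx))
        have h5 : infDist y (Icon t (p q)) ≤ dist y w1 := infDist_le_dist_of_mem hw1
        have h6 := dist_triangle4 y yn w w1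
        rw [dist_comm y yn] at h6
        linarith
      linarith
    refine ⟨s n, ⟨hsi, hsO, yn, ?_, by rw [hvs]; exact hync, by rw [hvs]; exact hyninf⟩,
      e2.trans_le (min_le_left _ _), hst, ?_⟩
    · rw [hvs]
      refine (F.total hync (Λ.p_le _ hci).1).resolve_left fun h => ?_
      have : infDist yn (Icon t (p (v (x' n)))) = 0 := infDist_zero_of_mem h
      linarith
    · rw [hstop]
      have a1 := hl (z' n) (e4.trans_le ((min_le_right _ _).trans (min_le_left _ _)))
      have a2 := thickening_trans (thick_mono (k1 n) e6.le) a1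
      rw [add_halves] at a2
      exact thickening_trans' a2 (F.mono hzs)
  · intro e he hcl'
    obtain ⟨ρ, hρ, hs⟩ := Λ.pt_small T F he hc0
    obtain ⟨z, ⟨hzi, hzO, y, h1, h2, h3⟩, hzd⟩ := Metric.mem_closure_iff.1 hcl' ρ hρ
    rw [dist_comm] at hzd
    have h4 := (hs z hzd hzi).2 y h1 h2
    have h5 : infDist y (Icon t (p (v z))) ≤ dist y (p (v z)) :=
      infDist_le_dist_of_mem (right_mem_Icon _ _)
    linarith

end XLat

end Run7.h149.Fan
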