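import Mathlib
import Pool.Agent.Run7.h149.Fan.Clopen

/-! Back and forth in a smooth fan with dense set of ends. -/

set_option autoImplicit false
set_option linter.unusedSectionVars false
set_option linter.deprecated false

open Set Topology Filter Metric

namespace Run7.h149.Fan

variable {X : Type*} [MetricSpace X] [CompactSpace X] [Nonempty X]

/-- leg coordinates -/
structure Coord (t : X) (ν : X → ℝ) : Prop where
  cont : Continuous ν
  zero : ν t = 0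
  mono : ∀ x y, x ∈ Icon t y → x ≠ y → ν x < ν y

namespace Coord

variable {t : X} {ν : X → ℝ} (C : Coord t ν)
include C

lemma pos {x : X} (hx : x ≠ t) : 0 < ν x := by
  have := C.mono t x (left_mem_Icon _ _) hx.symm
  rwa [C.zero] at this

lemma le {x y : X} (h : x ∈ Icon t y) : ν x ≤ ν y := by
  rcases eq_or_ne x y with rfl | hne
  · exact le_rfl
  · exact (C.mono x y h hne).le

lemma nonneg (x : X) : 0 ≤ ν x := by
  have := C.le (left_mem_Icon t x)
  rwa [C.zero] at this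

variable (F : IsFan X t)
include F

lemma inj {e x y : X} (hx : x ∈ Icon t e) (hy : y ∈ Icon t e) (h : ν x = ν y) : x = y := by
  by_contra hne
  rcases F.total hx hy with h1 | h1
  · exact (C.mono _ _ h1 hne).ne h
  · exact (C.mono _ _ h1 (Ne.symm hne)).ne' h

lemma exists_pt {e : X} {r : ℝ} (h0 : 0 ≤ r) (h1 : r ≤ ν e) : ∃ w ∈ Icon t e, ν w = r := by
  have := (F.conn_Icon t e).isPreconnected.intermediate_value (left_mem_Icon t e) (right_mem_Icon t e)
    C.cont.continuousOn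
  obtain ⟨w, hw, hwr⟩ := this (show r ∈ Icc (ν t) (ν e) from ⟨by rw [C.zero]; exact h0, h1⟩)
  exact ⟨w, hw, hwr⟩

lemma exists_top {es : X} (hmax : ∀ x, ν x ≤ ν es) (hes : IsEnd t es) {U : Set X} (hU : Bc t U)
    (hne : U.Nonempty) : ∃ e ∈ U, IsEnd t e ∧ (∀ x ∈ U, ν x ≤ ν e) ∧ (es ∈ U → e = es) := by
  by_cases h : es ∈ U
  · exact ⟨es, h, hes, fun x _ => hmax x, fun _ => rfl⟩
  · obtain ⟨x, hx, hxm⟩ := hU.cl.isCompact.exists_isMaxOn (hne.mono subset_union_left)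
      C.cont.continuousOn
    obtain ⟨y, hy⟩ := hne
    have hyt : y ≠ t := fun h => hU.nt (h ▸ hy)
    have hxt : x ≠ t := by
      rintro rfl
      have := hxm (Or.inl hy)
      have h2 := C.pos hyt
      simp only [mem_setOf_eq, C.zero] at this
      linarith
    have hxU : x ∈ U := hx.resolve_right hxt
    have he := F.isEnd_top hxt
    have hU' : top t x ∈ U := hU.sat x hxU _ he.1 (F.top_end he)
    refine ⟨top t x, hU', he, fun z hz => ?_, fun h' => absurd h' h⟩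
    exact (hxm (Or.inl hz)).trans (C.le (F.le_top hxt))

end Coord

/-- maximum of a coordinate on a set -/
noncomputable def ms (ν : X → ℝ) (U : Set X) : ℝ := sSup (ν '' U)

lemma ms_eq {ν : X → ℝ} {U : Set X} {e : X} (he : e ∈ U) (h : ∀ x ∈ U, ν x ≤ ν e) : ms ν U = ν e :=
  IsGreatest.csSup_eq ⟨⟨e, he, rfl⟩, by rintro _ ⟨x, hx, rfl⟩; exact h x hx⟩

/-- closeness of ratios -/
def Close (ζ a b a1 b1 : ℝ) : Prop := b1 * a ≤ (1 + ζ) * (b * a1) ∧ b * a1 ≤ (1 + ζ) * (b1 * a)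

lemma Close.symm {ζ a b a1 b1 : ℝ} (h : Close ζ a b a1 b1) : Close ζ b a b1 a1 := by
  obtain ⟨h1, h2⟩ := h
  constructor
  · rw [mul_comm a1 b, mul_comm a b1]; exact h2
  · rw [mul_comm a b1, mul_comm a1 b]; exact h1

lemma Close.trans {ζ η θ a b a1 b1 a2 b2 : ℝ} (h : Close ζ a b a1 b1) (h' : Close η a1 b1 a2 b2)
    (ha1 : 0 < a1) (hb1 : 0 < b1) (ha : 0 ≤ a) (hb : 0 ≤ b) (ha2 : 0 ≤ a2) (hb2 : 0 ≤ b2)
    (hη : 0 ≤ η) (hζ : 0 ≤ ζ) (hθ : (1 + ζ) * (1 + η) ≤ 1 + θ) : Close θ a b a2 b2 := by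
  obtain ⟨h1, h2⟩ := h
  obtain ⟨h3, h4⟩ := h'
  have hp : 0 < a1 * b1 := mul_pos ha1 hb1
  constructor
  · have h5 : (b2 * a1) * (b1 * a) ≤ ((1 + η) * (b1 * a2)) * ((1 + ζ) * (b * a1)) :=
      mul_le_mul h3 h1 (by positivity) (by positivity)
    have h6 : a1 * b1 * (b2 * a) ≤ a1 * b1 * ((1 + ζ) * (1 + η) * (b * a2)) := by nlinarith
    have h7 := le_of_mul_le_mul_left h6 hp
    exact h7.trans (mul_le_mul_of_nonneg_right hθ (by positivity))
  · have h5 : (b * a1) * (b1 * a2) ≤ ((1 + ζ) * (b1 * a)) * ((1 + η) * (b2 * a1)) :=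
      mul_le_mul h2 h4 (by positivity) (by positivity)
    have h6 : a1 * b1 * (b * a2) ≤ a1 * b1 * ((1 + ζ) * (1 + η) * (b2 * a)) := by nlinarith
    have h7 := le_of_mul_le_mul_left h6 hp
    exact h7.trans (mul_le_mul_of_nonneg_right hθ (by positivity))

/-- cells of a labelling -/
def cell (t : X) (c : X → ℕ) (i : ℕ) : Set X := {x | x ≠ t ∧ c x = i}

/-- matched partitions -/
structure St (t es : X) (c c' : X → ℕ) : Prop where
  b : ∀ i, Bc t (cell t c i)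
  b' : ∀ i, Bc t (cell t c' i)
  ne : ∀ i, (cell t c i).Nonempty ↔ (cell t c' i).Nonempty
  es : c es = c' es

lemma St.symm {t es : X} {c c' : X → ℕ} (S : St t es c c') : St t es c' c :=
  ⟨S.b', S.b, fun i => (S.ne i).symm, S.es.symm⟩

/-- the hypotheses of the back and forth argument -/
structure Hyp (t es : X) (μ ν : X → ℝ) : Prop where
  fan : IsFan X t
  smooth : ∀ x, K t x ⊆ Icon t x
  dense : Dense {e : X | IsEnd t e}
  cμ : Coord t μ
  cν : Coord t ν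
  hes : IsEnd t es
  mμ : ∀ x, μ x ≤ μ es
  mν : ∀ x, ν x ≤ ν es

lemma Hyp.symm {t es : X} {μ ν : X → ℝ} (H : Hyp t es μ ν) : Hyp t es ν μ :=
  ⟨H.fan, H.smooth, H.dense, H.cν, H.cμ, H.hes, H.mν, H.mμ⟩

namespace Hyp

variable {t es : X} {μ ν : X → ℝ} (H : Hyp t es μ ν)
include H

lemma ms_pos {U : Set X} (hU : Bc t U) (hne : U.Nonempty) : 0 < ms μ U := by
  obtain ⟨e, he, hE, hm, -⟩ := H.cμ.exists_top H.fan H.mμ H.hes hU hne
  rw [ms_eq he hm]; exact H.cμ.pos hE.1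

lemma split {U U' : Set X} (hU : Bc t U) (hU' : Bc t U') (hne : U.Nonempty) (hne' : U'.Nonempty)
    (hiff : es ∈ U ↔ es ∈ U') {W : Set X} (hW : Bc t W) {ζ : ℝ} (hζ : 0 < ζ) :
    ∃ V V', Bc t V ∧ Bc t V' ∧ V ⊆ U ∧ V' ⊆ U' ∧ (V.Nonempty ↔ V'.Nonempty) ∧ (U \ V).Nonempty ∧
      (U' \ V').Nonempty ∧ es ∉ V ∧ es ∉ V' ∧ (∀ x ∈ V, ∀ y ∈ V, (x ∈ W ↔ y ∈ W)) ∧
      (∀ x ∈ U \ V, ∀ y ∈ U \ V, (x ∈ W ↔ y ∈ W)) ∧ ms μ (U \ V) = ms μ U ∧
      ms ν (U' \ V') = ms ν U' ∧ (V.Nonempty → Close ζ (ms μ U) (ms ν U') (ms μ V) (ms ν V')) := by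
  by_cases hcase : (U ∩ W).Nonempty ∧ (U \ W).Nonempty
  swap
  · refine ⟨∅, ∅, Bc.empty t, Bc.empty t, empty_subset _, empty_subset _, Iff.rfl, by simpa using hne,
      by simpa using hne', notMem_empty _, notMem_empty _, fun x hx => absurd hx (notMem_empty _), ?_,
      by rw [diff_empty], by rw [diff_empty], fun h => absurd h Set.not_nonempty_empty⟩
    rintro x ⟨hx, -⟩ y ⟨hy, -⟩
    constructor
    · intro hxW
      by_contra hyW
      exact hcase ⟨⟨x, hx, hxW⟩, ⟨y, hy, hyW⟩⟩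
    · intro hyW
      by_contra hxW
      exact hcase ⟨⟨y, hy, hyW⟩, ⟨x, hx, hxW⟩⟩
  obtain ⟨hc1, hc2⟩ := hcase
  obtain ⟨e, heU, heE, hem, hees⟩ := H.cμ.exists_top H.fan H.mμ H.hes hU hne
  -- the part not containing the top end
  obtain ⟨V, hVb, hVU, hVne, heV, hVW, hVW'⟩ : ∃ V, Bc t V ∧ V ⊆ U ∧ V.Nonempty ∧ e ∉ V ∧
      (∀ x ∈ V, ∀ y ∈ V, (x ∈ W ↔ y ∈ W)) ∧ (∀ x ∈ U \ V, ∀ y ∈ U \ V, (x ∈ W ↔ y ∈ W)) := by
    by_cases heW : e ∈ W
    · refine ⟨U \ W, hU.diff hW, diff_subset, hc2, fun h => h.2 heW, ?_, ?_⟩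
      · rintro x hx y hy; exact ⟨fun h => absurd h hx.2, fun h => absurd h hy.2⟩
      · rintro x hx y hy
        have h1 : ∀ z ∈ U \ (U \ W), z ∈ W := fun z hz => by
          by_contra h; exact hz.2 ⟨hz.1, h⟩
        exact ⟨fun _ => h1 y hy, fun _ => h1 x hx⟩
    · refine ⟨U ∩ W, hU.inter hW, inter_subset_left, hc1, fun h => heW h.2, ?_, ?_⟩
      · rintro x hx y hy; exact ⟨fun _ => hy.2, fun _ => hx.2⟩
      · rintro x hx y hy
        have h1 : ∀ z ∈ U \ (U ∩ W), z ∉ W := fun z hz h => hz.2 ⟨hz.1, h⟩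
        exact ⟨fun h => absurd h (h1 x hx), fun h => absurd h (h1 y hy)⟩
  have hmU : ms μ U = μ e := ms_eq heU hem
  obtain ⟨e2, he2V, he2E, he2m, -⟩ := H.cμ.exists_top H.fan H.mμ H.hes hVb hVne
  have hmV : ms μ V = μ e2 := ms_eq he2V he2m
  obtain ⟨e', he'U, he'E, he'm, he'es⟩ := H.cν.exists_top H.fan H.mν H.hes hU' hne'
  have hnU' : ms ν U' = ν e' := ms_eq he'U he'm
  have pμe := H.cμ.pos heE.1
  have pμe2 := H.cμ.pos he2E.1
  have pνe' := H.cν.pos he'E.1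
  have hle2 : μ e2 ≤ μ e := hem e2 (hVU he2V)
  set τ := ν e' * μ e2 / μ e with hτ
  have hτ0 : 0 < τ := by positivity
  have hτ1 : τ ≤ ν e' := by
    rw [hτ, div_le_iff₀ pμe]
    exact mul_le_mul_of_nonneg_left hle2 pνe'.le
  have hτe : τ * μ e = ν e' * μ e2 := by rw [hτ]; field_simp
  -- a point of the leg of `e'` below `τ`
  set τ' := τ / (1 + ζ / 2) with hτ'
  have hτ'0 : 0 < τ' := by positivity
  have hτ'lt : τ' < τ := by rw [hτ', div_lt_iff₀ (by positivity)]; nlinarith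
  have hτ'gt : τ / (1 + ζ) < τ' := by
    rw [hτ']
    exact div_lt_div_of_pos_left hτ0 (by positivity) (by linarith)
  obtain ⟨z, hz, hzν⟩ := H.cν.exists_pt H.fan (e := e') hτ'0.le (by linarith)
  have hzt : z ≠ t := by
    rintro rfl
    rw [H.cν.zero] at hzν
    linarith
  have hze' : z ≠ e' := by
    rintro rfl
    linarith
  have hzU' : z ∈ U' := hU'.sat e' he'U z hzt (by
    rw [H.fan.top_of_le hzt hz])
  have hopen : IsOpen (U' ∩ ({x | x ≠ e'} ∩ ({x | τ / (1 + ζ) < ν x} ∩ {x | ν x < τ}))) :=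
    hU'.op.inter (isOpen_ne.inter ((isOpen_lt continuous_const H.cν.cont).inter
      (isOpen_lt H.cν.cont continuous_const)))
  obtain ⟨e'', ⟨he''U, he''ne, he''1, he''2⟩, he''E⟩ := H.dense.inter_open_nonempty _ hopen
    ⟨z, hzU', hze', by simp only [mem_setOf_eq]; rw [hzν]; exact hτ'gt,
      by simp only [mem_setOf_eq]; rw [hzν]; exact hτ'lt⟩
  simp only [mem_setOf_eq] at he''1 he''2 he''ne
  obtain ⟨W', hW', hW'1, hW'2⟩ := H.fan.exists_Bc H.smooth (D1 := {e''})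
    (D2 := {x | (1 + ζ) * τ ≤ ν x} ∪ {e'}) isClosed_singleton
    ((isClosed_le continuous_const H.cν.cont).union isClosed_singleton)
    (by simpa using he''E.1.symm) (by
      rintro (h | h)
      · simp only [mem_setOf_eq, H.cν.zero] at h
        have : 0 < (1 + ζ) * τ := by positivity
        linarith
      · exact he'E.1 h.symm) (by
      rintro a rfl b hb hab
      rw [H.fan.top_end he''E] at hab
      rcases hb with h | rfl
      · have hbt : b ≠ t := by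
          rintro rfl
          simp only [mem_setOf_eq, H.cν.zero] at h
          have : 0 < (1 + ζ) * τ := by positivity
          linarith
        have h1 := H.cν.le (H.fan.le_top hbt)
        rw [← hab] at h1
        simp only [mem_setOf_eq] at h
        nlinarith
      · rw [H.fan.top_end he'E] at hab
        exact he''ne hab)
  set V' := U' ∩ W' with hV'
  have hV'b : Bc t V' := hU'.inter hW'
  have he''V : e'' ∈ V' := ⟨he''U, hW'1 rfl⟩
  have he'V : e' ∉ V' := fun h => Set.disjoint_left.1 hW'2 (Or.inr rfl) h.2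
  obtain ⟨e3, he3V, he3E, he3m, -⟩ := H.cν.exists_top H.fan H.mν H.hes hV'b ⟨e'', he''V⟩
  have hmV' : ms ν V' = ν e3 := ms_eq he3V he3m
  have h3a : ν e'' ≤ ν e3 := he3m e'' he''V
  have h3b : ν e3 < (1 + ζ) * τ := by
    by_contra h
    push Not at h
    exact Set.disjoint_left.1 hW'2 (Or.inl h) he3V.2
  refine ⟨V, V', hVb, hV'b, hVU, inter_subset_left, ⟨fun _ => ⟨e'', he''V⟩, fun _ => hVne⟩,
    ⟨e, heU, heV⟩, ⟨e', he'U, he'V⟩, ?_, ?_, hVW, hVW', ?_, ?_, fun _ => ?_⟩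
  · intro h
    exact heV (by rw [hees (hVU h)]; exact h)
  · intro h
    exact he'V (by rw [he'es h.1]; exact h)
  · rw [hmU]
    exact ms_eq ⟨heU, heV⟩ fun x hx => hem x hx.1
  · rw [hnU']
    exact ms_eq ⟨he'U, he'V⟩ fun x hx => he'm x hx.1
  · rw [hmU, hmV, hnU', hmV']
    constructor
    · rw [← hτe]
      nlinarith
    · rw [← hτe]
      have h5 : τ < (1 + ζ) * ν e3 := by
        rw [div_lt_iff₀ (by positivity)] at he''1
        nlinarith
      nlinarith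

lemma step {c c' : X → ℕ} (S : St t es c c') {W : Set X} (hW : Bc t W) {ζ : ℝ} (hζ : 0 < ζ) :
    ∃ c1 c1' : X → ℕ, St t es c1 c1' ∧ (∀ x, c1 x / 2 = c x) ∧ (∀ x, c1' x / 2 = c' x) ∧
      (∀ x y, x ≠ t → y ≠ t → c1 x = c1 y → (x ∈ W ↔ y ∈ W)) ∧
      ∀ j, (cell t c1 j).Nonempty → Close ζ (ms μ (cell t c (j / 2))) (ms ν (cell t c' (j / 2)))
        (ms μ (cell t c1 j)) (ms ν (cell t c1' j)) := by
  classical
  have hsp : ∀ i, ∃ V V', Bc t V ∧ Bc t V' ∧ V ⊆ cell t c i ∧ V' ⊆ cell t c' i ∧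
      (V.Nonempty ↔ V'.Nonempty) ∧ ((cell t c i \ V).Nonempty ↔ (cell t c' i \ V').Nonempty) ∧
      es ∉ V ∧ es ∉ V' ∧ (∀ x ∈ V, ∀ y ∈ V, (x ∈ W ↔ y ∈ W)) ∧
      (∀ x ∈ cell t c i \ V, ∀ y ∈ cell t c i \ V, (x ∈ W ↔ y ∈ W)) ∧
      ms μ (cell t c i \ V) = ms μ (cell t c i) ∧ ms ν (cell t c' i \ V') = ms ν (cell t c' i) ∧
      (V.Nonempty → Close ζ (ms μ (cell t c i)) (ms ν (cell t c' i)) (ms μ V) (ms ν V')) := by
    intro i
    by_cases hi : (cell t c i).Nonempty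
    · have hiff : es ∈ cell t c i ↔ es ∈ cell t c' i := by
        simp only [cell, mem_setOf_eq, S.es]
      obtain ⟨V, V', h1, h2, h3, h4, h5, h6, h7, h8, h9, h10, h11, h12, h13, h14⟩ :=
        H.split (S.b i) (S.b' i) hi ((S.ne i).1 hi) hiff hW hζ
      exact ⟨V, V', h1, h2, h3, h4, h5, ⟨fun _ => h7, fun _ => h6⟩, h8, h9, h10, h11, h12, h13, h14⟩
    · have hi' : ¬ (cell t c' i).Nonempty := fun h => hi ((S.ne i).2 h)
      rw [not_nonempty_iff_eq_empty] at hi hi'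
      refine ⟨∅, ∅, Bc.empty t, Bc.empty t, empty_subset _, empty_subset _, Iff.rfl, ?_,
        notMem_empty _, notMem_empty _, fun x hx => absurd hx (notMem_empty _), ?_, ?_, ?_,
        fun h => absurd h Set.not_nonempty_empty⟩
      · rw [hi, hi']
      · rw [hi]; rintro x ⟨hx, -⟩; exact absurd hx (notMem_empty _)
      · rw [diff_empty]
      · rw [diff_empty]
  choose V V' h1 h2 h3 h4 h5 h6 h7 h8 h9 h10 h11 h12 h13 using hsp
  have gen : ∀ (c : X → ℕ) (V : ℕ → Set X), (∀ i, V i ⊆ cell t c i) →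
      let c1 : X → ℕ := fun x => if x ∈ V (c x) then 2 * c x + 1 else 2 * c x
      (∀ i, cell t c1 (2 * i) = cell t c i \ V i) ∧ (∀ i, cell t c1 (2 * i + 1) = V i) ∧
      ∀ x, c1 x / 2 = c x := by
    intro c V hV c1
    refine ⟨fun i => ?_, fun i => ?_, fun x => ?_⟩
    · ext x
      simp only [cell, c1, mem_setOf_eq, mem_diff]
      constructor
      · rintro ⟨hx, he⟩
        split_ifs at he with hif
        · omega
        · have : c x = i := by omega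
          exact ⟨⟨hx, this⟩, this ▸ hif⟩
      · rintro ⟨⟨hx, rfl⟩, hn⟩
        exact ⟨hx, by rw [if_neg hn]⟩
    · ext x
      simp only [cell, c1, mem_setOf_eq]
      constructor
      · rintro ⟨hx, he⟩
        split_ifs at he with hif
        · have : c x = i := by omega
          exact this ▸ hif
        · omega
      · intro hx
        obtain ⟨hxt, rfl⟩ := hV i hx
        exact ⟨hxt, by rw [if_pos hx]⟩
    · simp only [c1]
      split_ifs <;> omega
  obtain ⟨g1, g2, g3⟩ := gen c V h3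
  obtain ⟨g1', g2', g3'⟩ := gen c' V' h4
  set c1 : X → ℕ := fun x => if x ∈ V (c x) then 2 * c x + 1 else 2 * c x with hc1
  set c1' : X → ℕ := fun x => if x ∈ V' (c' x) then 2 * c' x + 1 else 2 * c' x with hc1'
  refine ⟨c1, c1', ⟨?_, ?_, ?_, ?_⟩, g3, g3', ?_, ?_⟩
  · intro j
    rcases Nat.even_or_odd' j with ⟨i, rfl | rfl⟩
    · rw [g1]; exact (S.b i).diff (h1 i)
    · rw [g2]; exact h1 i
  · intro j
    rcases Nat.even_or_odd' j with ⟨i, rfl | rfl⟩
    · rw [g1']; exact (S.b' i).diff (h2 i)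
    · rw [g2']; exact h2 i
  · intro j
    rcases Nat.even_or_odd' j with ⟨i, rfl | rfl⟩
    · rw [g1, g1']; exact h6 i
    · rw [g2, g2']; exact h5 i
  · simp only [hc1, hc1']
    rw [if_neg (h7 _), if_neg (h8 _), S.es]
  · intro x y hx hy he
    rcases Nat.even_or_odd' (c1 x) with ⟨i, hi | hi⟩
    · have a1 : x ∈ cell t c1 (2 * i) := ⟨hx, hi⟩
      have a2 : y ∈ cell t c1 (2 * i) := ⟨hy, he ▸ hi⟩
      rw [g1] at a1 a2
      exact h10 i x a1 y a2
    · have a1 : x ∈ cell t c1 (2 * i + 1) := ⟨hx, hi⟩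
      have a2 : y ∈ cell t c1 (2 * i + 1) := ⟨hy, he ▸ hi⟩
      rw [g2] at a1 a2
      exact h9 i x a1 y a2
  · intro j hj
    rcases Nat.even_or_odd' j with ⟨i, rfl | rfl⟩
    · have e1 : 2 * i / 2 = i := by omega
      rw [e1, g1, g1', h11, h12]
      rw [g1] at hj
      have hi : (cell t c i).Nonempty := hj.mono diff_subset
      have p1 := H.ms_pos (S.b i) hi
      have p2 := H.symm.ms_pos (S.b' i) ((S.ne i).1 hi)
      constructor <;> nlinarith [mul_pos p1 p2]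
    · have e1 : (2 * i + 1) / 2 = i := by omega
      rw [e1, g2, g2']
      rw [g2] at hj
      exact h13 i hj

lemma dstep {c c' : X → ℕ} (S : St t es c c') {W : Set X} (hW : Bc t W) {ζ : ℝ} (hζ : 0 < ζ)
    (hζ1 : ζ ≤ 1) :
    ∃ c2 c2' : X → ℕ, St t es c2 c2' ∧ (∀ x, c2 x / 4 = c x) ∧ (∀ x, c2' x / 4 = c' x) ∧
      (∀ x y, x ≠ t → y ≠ t → c2 x = c2 y → (x ∈ W ↔ y ∈ W)) ∧
      (∀ x y, x ≠ t → y ≠ t → c2' x = c2' y → (x ∈ W ↔ y ∈ W)) ∧
      ∀ j, (cell t c2 j).Nonempty → Close ζ (ms μ (cell t c (j / 4))) (ms ν (cell t c' (j / 4)))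
        (ms μ (cell t c2 j)) (ms ν (cell t c2' j)) := by
  obtain ⟨c1, c1', S1, a1, a2, a3, a4⟩ := H.step S hW (show 0 < ζ / 3 by linarith)
  obtain ⟨c2', c2, S2, b1, b2, b3, b4⟩ := H.symm.step S1.symm hW (show 0 < ζ / 3 by linarith)
  refine ⟨c2, c2', S2.symm, fun x => ?_, fun x => ?_, ?_, b3, ?_⟩
  · rw [← a1, ← b2, Nat.div_div_eq_div_mul]
  · rw [← a2, ← b1, Nat.div_div_eq_div_mul]
  · intro x y hx hy he
    exact a3 x y hx hy (by rw [← b2, ← b2, he])
  · intro j hj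
    have hj' : (cell t c2' j).Nonempty := (S2.ne j).2 hj
    have k2 := (b4 j hj').symm
    have hj1 : (cell t c1 (j / 2)).Nonempty := by
      obtain ⟨x, hx, hxj⟩ := hj
      exact ⟨x, hx, by rw [← b2, hxj]⟩
    have k1 := a4 (j / 2) hj1
    rw [Nat.div_div_eq_div_mul] at k1
    have hj0 : (cell t c (j / 4)).Nonempty := by
      obtain ⟨x, hx, hxj⟩ := hj1
      exact ⟨x, hx, by rw [← a1, hxj, Nat.div_div_eq_div_mul]⟩
    refine k1.trans k2 (H.ms_pos (S1.b _) hj1) (H.symm.ms_pos (S1.b' _) ((S1.ne _).1 hj1))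
      (H.ms_pos (S.b _) hj0).le (H.symm.ms_pos (S.b' _) ((S.ne _).1 hj0)).le
      (H.ms_pos (S2.b' _) hj).le (H.symm.ms_pos (S2.b _) hj').le (by linarith) (by linarith) ?_
    nlinarith

end Hyp

end Run7.h149.Fan
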