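import Mathlib
import Pool.Agent.Run7.h149.Fan.Lelek

/-! The limit homeomorphism of the back and forth construction. -/

set_option autoImplicit false
set_option linter.unusedSectionVars false
set_option linter.deprecated false

open Set Topology Filter Metric

namespace Run7.h149.Fan

variable {X : Type*} [MetricSpace X] [CompactSpace X] [Nonempty X]

/-- the approximate graph -/
def Rel (t : X) (μ ν : X → ℝ) (c c' : X → ℕ) (η : ℝ) (z w : X) : Prop :=
  (z = t ∧ w = t) ∨ (z ≠ t ∧ w ≠ t ∧ c z = c' w ∧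
    Close η (ms μ (cell t c (c z))) (ms ν (cell t c' (c' w))) (μ z) (ν w))

lemma Rel.symm {t : X} {μ ν : X → ℝ} {c c' : X → ℕ} {η : ℝ} {z w : X} (h : Rel t μ ν c c' η z w) :
    Rel t ν μ c' c η w z := by
  rcases h with ⟨h1, h2⟩ | ⟨h1, h2, h3, h4⟩
  · exact Or.inl ⟨h2, h1⟩
  · exact Or.inr ⟨h2, h1, h3.symm, h4.symm⟩

lemma cell_self {t : X} {c : X → ℕ} {x : X} (hx : x ≠ t) : x ∈ cell t c (c x) := ⟨hx, rfl⟩

namespace Hyp

variable {t es : X} {μ ν : X → ℝ} (H : Hyp t es μ ν)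
include H

lemma rel_exists {c c' : X → ℕ} (S : St t es c c') {η : ℝ} (hη : 0 ≤ η) (z : X) :
    ∃ w, Rel t μ ν c c' η z w := by
  by_cases hz : z = t
  · exact ⟨t, Or.inl ⟨hz, rfl⟩⟩
  have hne : (cell t c (c z)).Nonempty := ⟨z, cell_self hz⟩
  have hne' := (S.ne _).1 hne
  obtain ⟨e, heU, heE, hem, -⟩ := H.cμ.exists_top H.fan H.mμ H.hes (S.b (c z)) hne
  obtain ⟨e', he'U, he'E, he'm, -⟩ := H.cν.exists_top H.fan H.mν H.hes (S.b' (c z)) hne'
  have e1 := ms_eq heU hem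
  have e2 := ms_eq he'U he'm
  have pe := H.cμ.pos heE.1
  have pe' := H.cν.pos he'E.1
  have pz := H.cμ.pos hz
  have hle : μ z ≤ μ e := hem z (cell_self hz)
  have hr : μ z * ν e' / μ e ≤ ν e' := by
    rw [div_le_iff₀ pe, mul_comm]
    exact mul_le_mul_of_nonneg_left hle pe'.le
  obtain ⟨w, hw, hwν⟩ := H.cν.exists_pt H.fan (e := e') (r := μ z * ν e' / μ e) (by positivity) hr
  have hwt : w ≠ t := by
    rintro rfl
    rw [H.cν.zero] at hwν
    have : 0 < μ z * ν e' / μ e := by positivity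
    linarith
  have hwc : w ∈ cell t c' (c z) := (S.b' _).sat e' he'U w hwt (by rw [H.fan.top_of_le hwt hw])
  refine ⟨w, Or.inr ⟨hz, hwt, hwc.2.symm, ?_⟩⟩
  rw [hwc.2, e1, e2, hwν]
  have e3 : μ z * ν e' / μ e * μ e = ν e' * μ z := by field_simp
  constructor
  · rw [e3]
    nlinarith [mul_pos pe' pz]
  · rw [e3]
    nlinarith [mul_pos pe' pz]

lemma rel_closed {c c' : X → ℕ} (S : St t es c c') {η : ℝ} (hη : 0 ≤ η) {ι : Type*}
    {l : Filter ι} [l.NeBot] {u v : ι → X} {z w : X} (hu : Tendsto u l (𝓝 z)) (hv : Tendsto v l (𝓝 w))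
    (h : ∀ᶠ i in l, Rel t μ ν c c' η (u i) (v i)) : Rel t μ ν c c' η z w := by
  have hμu : Tendsto (fun i => μ (u i)) l (𝓝 (μ z)) := (H.cμ.cont.tendsto z).comp hu
  have hνv : Tendsto (fun i => ν (v i)) l (𝓝 (ν w)) := (H.cν.cont.tendsto w).comp hv
  by_cases hz : z = t
  · by_cases hw : w = t
    · exact Or.inl ⟨hz, hw⟩
    · exfalso
      have h1 : ∀ᶠ i in l, v i ∈ cell t c' (c' w) := hv.eventually ((S.b' _).op.mem_nhds (cell_self hw))
      set a := ms μ (cell t c (c' w)) with ha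
      set b := ms ν (cell t c' (c' w)) with hb
      have hne' : (cell t c' (c' w)).Nonempty := ⟨w, cell_self hw⟩
      have pa : 0 < a := H.ms_pos (S.b _) ((S.ne _).2 hne')
      have h2 : ∀ᶠ i in l, ν (v i) * a ≤ (1 + η) * (b * μ (u i)) := by
        filter_upwards [h, h1] with i hi hi1
        rcases hi with ⟨-, h4⟩ | ⟨-, -, h5, h6⟩
        · exact absurd h4 hi1.1
        · rw [h5, hi1.2] at h6
          exact h6.1
      have h3 := le_of_tendsto_of_tendsto (hνv.mul_const a) ((hμu.const_mul b).const_mul (1 + η)) h2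
      rw [hz, H.cμ.zero, mul_zero, mul_zero] at h3
      have := mul_pos (H.cν.pos hw) pa
      linarith
  · have h1 : ∀ᶠ i in l, u i ∈ cell t c (c z) := hu.eventually ((S.b _).op.mem_nhds (cell_self hz))
    set a := ms μ (cell t c (c z)) with ha
    set b := ms ν (cell t c' (c z)) with hb
    have hne : (cell t c (c z)).Nonempty := ⟨z, cell_self hz⟩
    have pa : 0 < a := H.ms_pos (S.b _) hne
    have pb : 0 < b := H.symm.ms_pos (S.b' _) ((S.ne _).1 hne)
    have h2 : ∀ᶠ i in l, v i ∈ cell t c' (c z) ∧ Close η a b (μ (u i)) (ν (v i)) := by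
      filter_upwards [h, h1] with i hi hi1
      rcases hi with ⟨h4, -⟩ | ⟨-, h4, h5, h6⟩
      · exact absurd h4 hi1.1
      · rw [← h5, hi1.2] at h6
        exact ⟨⟨h4, by rw [← h5, hi1.2]⟩, h6⟩
    have h3 := le_of_tendsto_of_tendsto (hνv.mul_const a) ((hμu.const_mul b).const_mul (1 + η))
      (h2.mono fun i hi => hi.2.1)
    have h4 := le_of_tendsto_of_tendsto (hμu.const_mul b) ((hνv.mul_const a).const_mul (1 + η))
      (h2.mono fun i hi => hi.2.2)
    have hw : w ≠ t := by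
      rintro rfl
      rw [H.cν.zero, zero_mul, mul_zero] at h4
      have := mul_pos pb (H.cμ.pos hz)
      linarith
    have h5 : w ∈ cell t c' (c z) ∪ {t} := (S.b' _).cl.mem_of_tendsto hv
      (h2.mono fun i hi => Or.inl hi.1)
    have h6 := h5.resolve_right hw
    refine Or.inr ⟨hz, hw, h6.2.symm, ?_⟩
    rw [h6.2]
    exact ⟨h3, h4⟩

/-- the sequence of matched partitions -/
lemma exists_seq {𝒲 : ℕ → Set X} (h𝒲 : ∀ n, Bc t (𝒲 n)) : ∃ c c' : ℕ → X → ℕ,
    (∀ n, St t es (c n) (c' n)) ∧ (∀ n x, c (n + 1) x / 4 = c n x) ∧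
    (∀ n x, c' (n + 1) x / 4 = c' n x) ∧
    (∀ n x y, x ≠ t → y ≠ t → c (n + 1) x = c (n + 1) y → (x ∈ 𝒲 n ↔ y ∈ 𝒲 n)) ∧
    (∀ n x y, x ≠ t → y ≠ t → c' (n + 1) x = c' (n + 1) y → (x ∈ 𝒲 n ↔ y ∈ 𝒲 n)) ∧
    ∀ n j, (cell t (c (n + 1)) j).Nonempty → Close ((1 / 2) ^ (n + 2)) (ms μ (cell t (c n) (j / 4)))
      (ms ν (cell t (c' n) (j / 4))) (ms μ (cell t (c (n + 1)) j)) (ms ν (cell t (c' (n + 1)) j)) := by
  have h0 : St t es (fun _ => 0) (fun _ => 0) := by
    have hb : ∀ i, Bc t (cell t (fun _ : X => 0) i) := by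
      intro i
      rcases Nat.eq_zero_or_pos i with rfl | hi
      · have : cell t (fun _ : X => 0) 0 = {x | x ≠ t} := by ext x; simp [cell]
        rw [this]; exact Bc.univ t
      · have : cell t (fun _ : X => 0) i = ∅ := by
          ext x; simp only [cell, mem_setOf_eq, mem_empty_iff_false, iff_false]; omega
        rw [this]; exact Bc.empty t
    exact ⟨hb, hb, fun i => Iff.rfl, rfl⟩
  have hstep : ∀ (n : ℕ) (s : {s : (X → ℕ) × (X → ℕ) // St t es s.1 s.2}),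
      ∃ s' : {s : (X → ℕ) × (X → ℕ) // St t es s.1 s.2}, (∀ x, s'.1.1 x / 4 = s.1.1 x) ∧
      (∀ x, s'.1.2 x / 4 = s.1.2 x) ∧
      (∀ x y, x ≠ t → y ≠ t → s'.1.1 x = s'.1.1 y → (x ∈ 𝒲 n ↔ y ∈ 𝒲 n)) ∧
      (∀ x y, x ≠ t → y ≠ t → s'.1.2 x = s'.1.2 y → (x ∈ 𝒲 n ↔ y ∈ 𝒲 n)) ∧
      ∀ j, (cell t s'.1.1 j).Nonempty → Close ((1 / 2) ^ (n + 2)) (ms μ (cell t s.1.1 (j / 4)))
        (ms ν (cell t s.1.2 (j / 4))) (ms μ (cell t s'.1.1 j)) (ms ν (cell t s'.1.2 j)) := by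
    rintro n ⟨⟨c, c'⟩, hS⟩
    obtain ⟨c2, c2', h1, h2⟩ := H.dstep hS (h𝒲 n) (ζ := (1 / 2) ^ (n + 2)) (by positivity)
      (pow_le_one₀ (by norm_num) (by norm_num))
    exact ⟨⟨(c2, c2'), h1⟩, h2⟩
  choose stp k1 k2 k3 k4 k5 using hstep
  let sq : ℕ → {s : (X → ℕ) × (X → ℕ) // St t es s.1 s.2} := fun n =>
    Nat.rec ⟨(fun _ => 0, fun _ => 0), h0⟩ (fun n s => stp n s) n
  exact ⟨fun n => (sq n).1.1, fun n => (sq n).1.2, fun n => (sq n).2, fun n => k1 n (sq n),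
    fun n => k2 n (sq n), fun n => k3 n (sq n), fun n => k4 n (sq n), fun n => k5 n (sq n)⟩

end Hyp

/-- properties of the sequence used below (symmetric form) -/
structure Sq (t es : X) (μ ν : X → ℝ) (c c' : ℕ → X → ℕ) : Prop where
  st : ∀ n, St t es (c n) (c' n)
  rc : ∀ n x, c (n + 1) x / 4 = c n x
  rc' : ∀ n x, c' (n + 1) x / 4 = c' n x
  sp : ∀ x y, x ≠ t → y ≠ t → (∀ n, c n x = c n y) → top t x = top t y
  sp' : ∀ x y, x ≠ t → y ≠ t → (∀ n, c' n x = c' n y) → top t x = top t y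
  cl : ∀ n j, (cell t (c (n + 1)) j).Nonempty → Close ((1 / 2) ^ (n + 2)) (ms μ (cell t (c n) (j / 4)))
      (ms ν (cell t (c' n) (j / 4))) (ms μ (cell t (c (n + 1)) j)) (ms ν (cell t (c' (n + 1)) j))

lemma Sq.symm {t es : X} {μ ν : X → ℝ} {c c' : ℕ → X → ℕ} (Q : Sq t es μ ν c c') :
    Sq t es ν μ c' c :=
  ⟨fun n => (Q.st n).symm, Q.rc', Q.rc, Q.sp', Q.sp, fun n j hj =>
    (Q.cl n j (((Q.st (n + 1)).ne j).2 hj)).symm⟩

namespace Hyp

variable {t es : X} {μ ν : X → ℝ} (H : Hyp t es μ ν)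
include H

lemma exists_Sq : ∃ c c', Sq t es μ ν c c' := by
  obtain ⟨𝒲, h𝒲, hsep⟩ := H.fan.exists_family H.smooth
  obtain ⟨c, c', h1, h2, h3, h4, h5, h6⟩ := H.exists_seq h𝒲
  have sp : ∀ (c : ℕ → X → ℕ), (∀ n x y, x ≠ t → y ≠ t → c (n + 1) x = c (n + 1) y →
      (x ∈ 𝒲 n ↔ y ∈ 𝒲 n)) → ∀ x y, x ≠ t → y ≠ t → (∀ n, c n x = c n y) → top t x = top t y := by
    intro c hc x y hx hy he
    by_contra hne
    obtain ⟨n, hxn, hyn⟩ := hsep x y hx hy hne
    exact hyn ((hc n x y hx hy (he (n + 1))).1 hxn)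
  exact ⟨c, c', h1, h2, h3, sp c h4, sp c' h5, h6⟩

variable {c c' : ℕ → X → ℕ} (Q : Sq t es μ ν c c')
include Q

lemma rel_nested (n : ℕ) {z w : X} (h : Rel t μ ν (c (n + 1)) (c' (n + 1)) ((1 / 2) ^ (n + 1)) z w) :
    Rel t μ ν (c n) (c' n) ((1 / 2) ^ n) z w := by
  rcases h with ⟨h1, h2⟩ | ⟨hz, hw, h3, h4⟩
  · exact Or.inl ⟨h1, h2⟩
  · refine Or.inr ⟨hz, hw, by rw [← Q.rc, ← Q.rc', h3], ?_⟩
    have hS := Q.st n
    have hS1 := Q.st (n + 1)
    have hne1 : (cell t (c (n + 1)) (c (n + 1) z)).Nonempty := ⟨z, cell_self hz⟩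
    have hne1' := (hS1.ne _).1 hne1
    have hne : (cell t (c n) (c n z)).Nonempty := ⟨z, cell_self hz⟩
    have hne' := (hS.ne _).1 hne
    have k := Q.cl n _ hne1
    rw [Q.rc] at k
    rw [← h3] at h4
    have e1 : c' n w = c n z := by rw [← Q.rc, ← Q.rc', h3]
    rw [e1]
    have hu0 : (0:ℝ) < (1 / 2) ^ n := by positivity
    have hu1 : ((1:ℝ) / 2) ^ n ≤ 1 := pow_le_one₀ (by norm_num) (by norm_num)
    refine k.trans h4 (H.ms_pos (hS1.b _) hne1) (H.symm.ms_pos (hS1.b' _) hne1')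
      (H.ms_pos (hS.b _) hne).le (H.symm.ms_pos (hS.b' _) hne').le (H.cμ.nonneg _) (H.cν.nonneg _)
      (by positivity) (by positivity) ?_
    rw [pow_succ, pow_succ]
    nlinarith

lemma lim_exists (z : X) : ∃ w, ∀ n, Rel t μ ν (c n) (c' n) ((1 / 2) ^ n) z w := by
  have hcl : ∀ n, IsClosed {w | Rel t μ ν (c n) (c' n) ((1 / 2) ^ n) z w} := by
    intro n
    rw [← isSeqClosed_iff_isClosed]
    intro u w hu hw
    exact H.rel_closed (Q.st n) (by positivity) (tendsto_const_nhds (x := z)) hw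
      (Eventually.of_forall hu)
  have := IsCompact.nonempty_iInter_of_sequence_nonempty_isCompact_isClosed
    (fun n => {w | Rel t μ ν (c n) (c' n) ((1 / 2) ^ n) z w})
    (fun n w hw => H.rel_nested Q n hw)
    (fun n => H.rel_exists (Q.st n) (by positivity) z) (hcl 0).isCompact hcl
  obtain ⟨w, hw⟩ := this
  exact ⟨w, fun n => mem_iInter.1 hw n⟩

lemma lim_le {z w : X} (hz : z ≠ t) (h : ∀ n, Rel t μ ν (c n) (c' n) ((1 / 2) ^ n) z w) {w' : X}
    (h' : ∀ n, Rel t μ ν (c n) (c' n) ((1 / 2) ^ n) z w') : ν w ≤ ν w' := by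
  have hb : ∀ n : ℕ, ν w ≤ (1 + (1 / 2) ^ n) * ((1 + (1 / 2) ^ n) * ν w') := by
    intro n
    rcases h n with ⟨h1, -⟩ | ⟨-, hw, h3, h4⟩
    · exact absurd h1 hz
    rcases h' n with ⟨h1, -⟩ | ⟨-, hw', h3', h4'⟩
    · exact absurd h1 hz
    have hS := Q.st n
    have hne : (cell t (c n) (c n z)).Nonempty := ⟨z, cell_self hz⟩
    have pa := H.ms_pos (hS.b _) hne
    rw [← h3] at h4
    rw [← h3'] at h4'
    have h5 := h4.1
    have h6 := h4'.2
    have hu0 : (0:ℝ) < 1 + (1 / 2) ^ n := by positivity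
    have h7 : ν w * ms μ (cell t (c n) (c n z)) ≤
        (1 + (1 / 2) ^ n) * ((1 + (1 / 2) ^ n) * (ν w' * ms μ (cell t (c n) (c n z)))) :=
      h5.trans (mul_le_mul_of_nonneg_left h6 hu0.le)
    have h8 : ν w * ms μ (cell t (c n) (c n z)) ≤
        ((1 + (1 / 2) ^ n) * ((1 + (1 / 2) ^ n) * ν w')) * ms μ (cell t (c n) (c n z)) := by
      linarith [h7, show (1 + (1 / 2 : ℝ) ^ n) * ((1 + (1 / 2) ^ n) * (ν w' * ms μ (cell t (c n) (c n z)))) =
        ((1 + (1 / 2) ^ n) * ((1 + (1 / 2) ^ n) * ν w')) * ms μ (cell t (c n) (c n z)) by ring]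
    exact le_of_mul_le_mul_right h8 pa
  have hlim : Tendsto (fun n : ℕ => (1 + (1 / 2 : ℝ) ^ n) * ((1 + (1 / 2) ^ n) * ν w')) atTop
      (𝓝 ((1 + 0) * ((1 + 0) * ν w'))) := by
    have h0 := tendsto_pow_atTop_nhds_zero_of_lt_one (show (0:ℝ) ≤ 1 / 2 by norm_num)
      (show (1:ℝ) / 2 < 1 by norm_num)
    exact (h0.const_add 1).mul ((h0.const_add 1).mul_const _)
  have := ge_of_tendsto hlim (Eventually.of_forall hb)
  linarith

lemma lim_unique {z w w' : X} (h : ∀ n, Rel t μ ν (c n) (c' n) ((1 / 2) ^ n) z w)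
    (h' : ∀ n, Rel t μ ν (c n) (c' n) ((1 / 2) ^ n) z w') : w = w' := by
  by_cases hz : z = t
  · rcases h 0 with ⟨-, h1⟩ | ⟨h1, -⟩
    · rcases h' 0 with ⟨-, h2⟩ | ⟨h2, -⟩
      · rw [h1, h2]
      · exact absurd hz h2
    · exact absurd hz h1
  · have hw : w ≠ t := by
      rcases h 0 with ⟨h1, -⟩ | ⟨-, h1, -⟩
      · exact absurd h1 hz
      · exact h1
    have hw' : w' ≠ t := by
      rcases h' 0 with ⟨h1, -⟩ | ⟨-, h1, -⟩
      · exact absurd h1 hz
      · exact h1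
    have he : ∀ n, c' n w = c' n w' := by
      intro n
      rcases h n with ⟨h1, -⟩ | ⟨-, -, h3, -⟩
      · exact absurd h1 hz
      rcases h' n with ⟨h1, -⟩ | ⟨-, -, h3', -⟩
      · exact absurd h1 hz
      rw [← h3, ← h3']
    have htop := Q.sp' w w' hw hw' he
    exact H.cν.inj H.fan (H.fan.le_top hw) (htop ▸ H.fan.le_top hw')
      (le_antisymm (H.lim_le Q hz h h') (H.lim_le Q hz h' h))

omit Q in
/-- the homeomorphism -/
theorem exists_homeo (hM : μ es = ν es) : ∃ h : X ≃ₜ X, ∀ x ∈ Icon t es,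
    h x ∈ Icon t es ∧ ν (h x) = μ x := by
  obtain ⟨c, c', Q⟩ := H.exists_Sq
  choose f hf using H.lim_exists Q
  choose g hg using H.symm.lim_exists Q.symm
  have hgf : ∀ z, g (f z) = z := fun z => H.symm.lim_unique Q.symm (hg (f z)) fun n => (hf z n).symm
  have hfg : ∀ w, f (g w) = w := fun w => H.lim_unique Q (hf (g w)) fun n => (hg w n).symm
  have cont : ∀ {μ ν : X → ℝ} (H : Hyp t es μ ν) {c c' : ℕ → X → ℕ} (Q : Sq t es μ ν c c')
      {f : X → X} (_ : ∀ z n, Rel t μ ν (c n) (c' n) ((1 / 2) ^ n) z (f z)), Continuous f := by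
    intro μ ν H c c' Q f hf
    rw [continuous_iff_continuousAt]
    intro z
    unfold ContinuousAt
    rw [tendsto_iff_ultrafilter]
    intro G hG
    obtain ⟨w, hw⟩ := exists_lim G f
    have : w = f z := H.lim_unique Q (fun n => H.rel_closed (Q.st n) (by positivity)
      (show Tendsto (fun x : X => x) G (𝓝 z) from hG) hw (Eventually.of_forall fun x => hf x n)) (hf z)
    rw [← this]; exact hw
  refine ⟨⟨⟨f, g, hgf, hfg⟩, cont H Q hf, cont H.symm Q.symm hg⟩, fun x hx => ?_⟩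
  show f x ∈ Icon t es ∧ ν (f x) = μ x
  by_cases hxt : x = t
  · rcases hf x 0 with ⟨-, h1⟩ | ⟨h1, -⟩
    · rw [h1, hxt, H.cν.zero, H.cμ.zero]
      exact ⟨left_mem_Icon _ _, rfl⟩
    · exact absurd hxt h1
  have hfx : f x ≠ t := by
    rcases hf x 0 with ⟨h1, -⟩ | ⟨-, h1, -⟩
    · exact absurd h1 hxt
    · exact h1
  have hces : ∀ n, c n x = c n es := by
    intro n
    have : x ∈ cell t (c n) (c n es) := ((Q.st n).b _).sat es (cell_self H.hes.1) x hxt
      (H.fan.top_of_le hxt hx)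
    exact this.2
  have hrel : ∀ n, c' n (f x) = c' n es ∧ Close ((1 / 2) ^ n) (μ es) (ν es) (μ x) (ν (f x)) := by
    intro n
    rcases hf x n with ⟨h1, -⟩ | ⟨-, -, h3, h4⟩
    · exact absurd h1 hxt
    have e1 : c' n (f x) = c' n es := by rw [← h3, hces, (Q.st n).es]
    refine ⟨e1, ?_⟩
    have e2 : ms μ (cell t (c n) (c n x)) = μ es := by
      rw [hces]; exact ms_eq (cell_self H.hes.1) fun y _ => H.mμ y
    have e3 : ms ν (cell t (c' n) (c' n (f x))) = ν es := by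
      rw [e1]; exact ms_eq (cell_self H.hes.1) fun y _ => H.mν y
    rwa [e2, e3] at h4
  have htop : top t (f x) = top t es := Q.sp' _ _ hfx H.hes.1 fun n => (hrel n).1
  rw [H.fan.top_end H.hes] at htop
  refine ⟨htop ▸ H.fan.le_top hfx, ?_⟩
  have pM := H.cμ.pos H.hes.1
  have h0 := tendsto_pow_atTop_nhds_zero_of_lt_one (show (0:ℝ) ≤ 1 / 2 by norm_num)
      (show (1:ℝ) / 2 < 1 by norm_num)
  have lim : ∀ r : ℝ, Tendsto (fun n : ℕ => (1 + (1 / 2 : ℝ) ^ n) * r) atTop (𝓝 r) := by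
    intro r
    have := (h0.const_add 1).mul_const r
    simpa using this
  have i1 := ge_of_tendsto (lim (ν es * μ x)) (Eventually.of_forall fun n => (hrel n).2.1)
  have i2 := ge_of_tendsto (lim (ν (f x) * μ es)) (Eventually.of_forall fun n => (hrel n).2.2)
  rw [← hM] at i1 i2
  have i3 : μ es * ν (f x) = μ es * μ x := by linarith
  exact mul_left_cancel₀ pM.ne' i3

end Hyp

namespace Two

variable {t : X} {A B : Set X} (T : Two t A B) (F : IsFan X t)
include T F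

/-- The smooth case with dense ends. -/
theorem not_lelek (hs : ∀ x, K t x ⊆ Icon t x) (hd : Dense {e : X | IsEnd t e}) : False := by
  obtain ⟨es, -, hmax⟩ := isCompact_univ.exists_isMaxOn (univ_nonempty (α := X))
    (F.mu_cont hs).continuousOn
  have hmax' : ∀ x, mu t x ≤ mu t es := fun x => hmax (mem_univ x)
  obtain ⟨e0, he0⟩ := T.exists_end' F
  have hest : es ≠ t := by
    rintro rfl
    have := hmax' e0
    rw [F.mu_t] at this
    exact absurd (F.mu_pos he0.1) (not_lt.2 this)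
  have hes : IsEnd t es := by
    have h1 := hmax' (top t es)
    have h2 : es = top t es := by
      by_contra hne
      exact absurd (F.mu_lt (F.le_top hest) hne) (not_lt.2 h1)
    rw [h2]; exact F.isEnd_top hest
  set M := mu t es with hMd
  have hM0 : 0 < M := F.mu_pos hest
  obtain ⟨x, hxA, hxe⟩ := T.legA F hes
  obtain ⟨y, hyB, hye⟩ := T.legB F hes
  have hxi := T.innA F hxA
  have hyi := T.innB F hyB
  have hx1 : x ∈ Icon t es := hxe ▸ F.le_top hxi.1
  have hy1 : y ∈ Icon t es := hye ▸ F.le_top hyi.1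
  have hm := F.mu_pos hyi.1
  have hn := F.mu_pos hxi.1
  have hmM : mu t y < M := F.mu_lt hy1 (fun h => hyi.2 (h ▸ hes))
  have hnM : mu t x < M := F.mu_lt hx1 (fun h => hxi.2 (h ▸ hes))
  -- `ν y = μ x`
  set k := mu t x * (M - mu t y) / (mu t y * (M - mu t x)) with hk
  have hk0 : 0 < k := by
    have h1 : 0 < M - mu t x := by linarith
    have h2 : 0 < M - mu t y := by linarith
    positivity
  set ν : X → ℝ := fun z => mob k (mu t z) M with hν
  have hden : ∀ z, 0 < M + (k - 1) * mu t z := fun z => mob_den hk0 (F.mu_nonneg z) (hmax' z) hM0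
  have hmobmono : ∀ a b : ℝ, 0 ≤ a → a < b → b ≤ M → mob k a M < mob k b M := by
    intro a b ha hab hbM
    have d1 := mob_den hk0 ha (hab.le.trans hbM) hM0
    have d2 := mob_den hk0 (ha.trans hab.le) hbM hM0
    unfold mob
    rw [div_lt_div_iff₀ d1 d2]
    have : 0 < k * M * M * (b - a) := by
      have : 0 < b - a := by linarith
      positivity
    nlinarith
  have cμ : Coord t (mu t : X → ℝ) := ⟨F.mu_cont hs, F.mu_t, fun a b => F.mu_lt⟩
  have cν : Coord t ν := by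
    refine ⟨?_, ?_, fun a b hab hne => ?_⟩
    · simp only [hν, mob]
      have := F.mu_cont hs
      exact ((continuous_const.mul this).mul continuous_const).div
        (continuous_const.add (continuous_const.mul this)) fun z => (hden z).ne'
    · simp [hν, mob, F.mu_t]
    · exact hmobmono _ _ (F.mu_nonneg a) (F.mu_lt hab hne) (hmax' b)
  have hνes : ν es = M := by
    simp only [hν, mob, ← hMd]
    have : M + (k - 1) * M = k * M := by ring
    rw [this]
    field_simp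
  have hH : Hyp t es (mu t : X → ℝ) ν := ⟨F, hs, hd, cμ, cν, hes, hmax', fun z => by
    rw [hνes]; exact mob_le hk0 (F.mu_nonneg z) (hmax' z)⟩
  obtain ⟨h, hh⟩ := hH.exists_homeo hνes.symm
  obtain ⟨h1, h2⟩ := hh x hx1
  have hy2 : ν y = mu t x := mob_hit hm hmM hnM
  have : h x = y := cν.inj F h1 hy1 (by rw [h2, hy2])
  exact T.disj y (this ▸ T.mapA F h hxA) hyB

end Two

end Run7.h149.Fan
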