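import Mathlib
import Pool.Agent.Run7.h149.Fan.Lattice3
import Pool.Agent.Run7.h149.Fan.Lelek2

/-! Assembly: no fan has exactly four orbits. -/

set_option autoImplicit false
set_option linter.unusedSectionVars false
set_option linter.deprecated false

open Set Topology Filter Metric

namespace Run7.h149.Fan

section

variable {X : Type*} [MetricSpace X] [CompactSpace X] [Nonempty X]

theorem Two.contra {t : X} {A B : Set X} (T : Two t A B) (F : IsFan X t) : False := by
  by_cases hcl : ∀ x, Inn t x → x ∉ closure {e : X | IsEnd t e}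
  · exact T.not_closed F hcl
  push Not at hcl
  obtain ⟨x0, hx0, hx0c⟩ := hcl
  obtain ⟨e, he⟩ := T.exists_end' F
  obtain ⟨γ, L⟩ := F.exists_legParam he
  have TO := T.twoOrb F L
  have fin : ∀ {O v p}, Lat (LGrp t e γ) O v p → False := by
    intro O v p Λ
    obtain ⟨O', v', p', Λ'⟩ := T.xlat F L Λ
    exact Λ'.false_of_lat T F hx0 hx0c
  by_cases hA : Dense {s | γ s ∈ A}
  swap
  · obtain ⟨O, v, p, Λ⟩ := TO.disc hA
    exact fin Λ
  by_cases hB : Dense {s | γ s ∈ B}
  swap
  · obtain ⟨O, v, p, Λ⟩ := TO.symm.disc hB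
    exact fin Λ
  have M := TO.minl hA hB
  by_cases hs : ∀ x, K t x ⊆ Icon t x
  swap
  · push Not at hs
    obtain ⟨O, v, p, Λ⟩ := T.lat_of_nonsmooth F L M hs
    exact fin Λ
  refine T.not_lelek F hs ?_
  -- ends are dense
  have hclinv : ∀ (h : X ≃ₜ X) x, x ∈ closure {e : X | IsEnd t e} → h x ∈ closure {e : X | IsEnd t e} := by
    intro h x hx
    have h1 : h x ∈ h '' closure {e : X | IsEnd t e} := ⟨x, hx, rfl⟩
    refine closure_mono ?_ (image_closure_subset_closure_image h.continuous h1)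
    rintro _ ⟨y, hy, rfl⟩
    exact (F.map_end h).2 hy
  obtain ⟨h0, hh0⟩ := T.ends _ e (F.isEnd_top hx0.1) he
  obtain ⟨s0, hs0⟩ := L.surj (h0 x0) ((F.map_inn h0).2 hx0) (by rw [F.map_top, hh0])
  have hs0c : γ s0 ∈ closure {e : X | IsEnd t e} := by rw [hs0]; exact hclinv h0 x0 hx0c
  have hleg : ∀ s, γ s ∈ closure {e : X | IsEnd t e} := by
    intro s
    have hcl : IsClosed {r | γ r ∈ closure {e : X | IsEnd t e}} := isClosed_closure.preimage L.cont
    have hd : Dense {r | γ r ∈ closure {e : X | IsEnd t e}} := by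
      rw [dense_iff_exists_between]
      intro a b hab
      obtain ⟨g, ⟨h, hhe, hhg⟩, h1, h2⟩ := M s0 a b hab
      refine ⟨g s0, ?_, h1, h2⟩
      simp only [mem_setOf_eq]
      rw [← hhg]
      exact hclinv h _ hs0c
    have := hd.closure_eq
    rw [hcl.closure_eq] at this
    have h5 : s ∈ {r | γ r ∈ closure {e : X | IsEnd t e}} := by rw [this]; exact mem_univ s
    exact h5
  intro x
  by_cases hxt : x = t
  · rw [hxt]
    exact isClosed_closure.mem_of_tendsto L.bot (Eventually.of_forall hleg)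
  by_cases hxE : IsEnd t x
  · exact subset_closure hxE
  obtain ⟨h, hh⟩ := T.ends e _ he (F.isEnd_top hxt)
  obtain ⟨s, hs⟩ := L.surj (h.symm x) ((F.map_inn h.symm).2 ⟨hxt, hxE⟩) (by
    rw [F.map_top, Homeomorph.symm_apply_eq, hh])
  have : x = h (γ s) := by rw [hs, Homeomorph.apply_symm_apply]
  rw [this]
  exact hclinv h _ (hleg s)

lemma exists_Two {t : X} (F : IsFan X t) (a : Fin 4 → X)
    (h1 : ∀ i j, (∃ h : X ≃ₜ X, h (a i) = a j) → i = j)
    (h2 : ∀ x : X, ∃ i, ∃ h : X ≃ₜ X, h (a i) = x) : ∃ A B, Two t A B := by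
  choose idx hidx using h2
  -- equivalence of points with the same index
  have hsame : ∀ x y, idx x = idx y → ∃ h : X ≃ₜ X, h x = y := by
    intro x y hxy
    obtain ⟨h, hh⟩ := hidx x
    obtain ⟨k, hk⟩ := hidx y
    refine ⟨h.symm.trans k, ?_⟩
    rw [Homeomorph.trans_apply, ← hh, Homeomorph.symm_apply_apply, hxy, hk]
  have hidxa : ∀ i, idx (a i) = i := fun i => h1 _ _ (hidx (a i))
  have hinv : ∀ (h : X ≃ₜ X) x, idx (h x) = idx x := by
    intro h x
    obtain ⟨k, hk⟩ := hidx x
    obtain ⟨l, hl⟩ := hidx (h x)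
    refine (h1 _ _ ⟨(k.trans h).trans l.symm, ?_⟩).symm
    rw [Homeomorph.trans_apply, Homeomorph.trans_apply, hk, Homeomorph.symm_apply_eq, hl]
  -- an end
  obtain ⟨γ, hγ, hγd⟩ := F.vert
  have hy : γ 0 1 ≠ t := by
    intro h
    have := (hγ 0).2.1 (show (1:ℝ) ∈ Icc (0:ℝ) 1 by simp) (show (0:ℝ) ∈ Icc (0:ℝ) 1 by simp)
      (by rw [h, (hγ 0).2.2])
    norm_num at this
  set e := top t (γ 0 1) with he
  have heE : IsEnd t e := F.isEnd_top hy
  have hleg : ∀ e, IsEnd t e → ∃ x, Inn t x ∧ top t x = e := by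
    intro e he
    obtain ⟨γ, L⟩ := F.exists_legParam he
    exact ⟨γ 0, L.inn 0, L.top_eq 0⟩
  -- ends form a single orbit
  have hends : ∀ e e', IsEnd t e → IsEnd t e' → ∃ h : X ≃ₜ X, h e = e' := by
    intro e e' he he'
    by_contra hno
    obtain ⟨x, hx, hxe⟩ := hleg e he
    obtain ⟨x', hx', hxe'⟩ := hleg e' he'
    set q : Fin 5 → X := ![t, e, e', x, x'] with hq
    have hinj : Function.Injective (fun i => idx (q i)) := by
      have n1 : ∀ z, z ≠ t → idx t ≠ idx z := by
        intro z hz h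
        obtain ⟨k, hk⟩ := hsame _ _ h
        rw [F.map_t] at hk
        exact hz hk.symm
      have n2 : ∀ z w, IsEnd t z → Inn t w → idx z ≠ idx w := by
        intro z w hz hw h
        obtain ⟨k, hk⟩ := hsame _ _ h
        exact hw.2 (hk ▸ (F.map_end k).2 hz)
      have n3 : idx e ≠ idx e' := fun h => hno (hsame _ _ h)
      have n4 : idx x ≠ idx x' := by
        intro h
        obtain ⟨k, hk⟩ := hsame _ _ h
        refine hno ⟨k, ?_⟩
        rw [← hxe, ← hxe', ← F.map_top, hk]
      have m1 := n1 e he.1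
      have m2 := n1 e' he'.1
      have m3 := n1 x hx.1
      have m4 := n1 x' hx'.1
      have m5 := n2 e x he hx
      have m6 := n2 e x' he hx'
      have m7 := n2 e' x he' hx
      have m8 := n2 e' x' he' hx'
      intro i j hij
      fin_cases i <;> fin_cases j <;> first
        | rfl
        | exact (m1 hij).elim
        | exact (m1 hij.symm).elim
        | exact (m2 hij).elim
        | exact (m2 hij.symm).elim
        | exact (m3 hij).elim
        | exact (m3 hij.symm).elim
        | exact (m4 hij).elim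
        | exact (m4 hij.symm).elim
        | exact (m5 hij).elim
        | exact (m5 hij.symm).elim
        | exact (m6 hij).elim
        | exact (m6 hij.symm).elim
        | exact (m7 hij).elim
        | exact (m7 hij.symm).elim
        | exact (m8 hij).elim
        | exact (m8 hij.symm).elim
        | exact (n3 hij).elim
        | exact (n3 hij.symm).elim
        | exact (n4 hij).elim
        | exact (n4 hij.symm).elim
    have := Fintype.card_le_of_injective _ hinj
    simp at this
  have hte : idx t ≠ idx e := by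
    intro h
    obtain ⟨k, hk⟩ := hsame _ _ h
    rw [F.map_t] at hk
    exact heE.1 hk.symm
  obtain ⟨i, j, hij, hi1, hi2, hj1, hj2, hall⟩ : ∃ i j : Fin 4, i ≠ j ∧ i ≠ idx t ∧ i ≠ idx e ∧
      j ≠ idx t ∧ j ≠ idx e ∧ ∀ k, k ≠ idx t → k ≠ idx e → k = i ∨ k = j := by
    generalize idx t = p at hte ⊢
    generalize idx e = q at hte ⊢
    revert p q
    decide
  have hidxend : ∀ x, IsEnd t x → idx x = idx e := by
    intro x hx
    obtain ⟨h, hh⟩ := hends e x heE hx
    rw [← hh, hinv]
  have hinn : ∀ x, Inn t x ↔ idx x ≠ idx t ∧ idx x ≠ idx e := by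
    intro x
    constructor
    · intro hx
      refine ⟨fun h => ?_, fun h => ?_⟩
      · obtain ⟨k, hk⟩ := hsame _ _ h
        have := (F.map_ne k).2 hx.1
        exact this hk
      · obtain ⟨k, hk⟩ := hsame _ _ h
        exact hx.2 ((F.map_end k).1 (hk ▸ heE))
    · rintro ⟨h3, h4⟩
      exact ⟨fun h => h3 (by rw [h]), fun h => h4 (hidxend x h)⟩
  have orb : ∀ i : Fin 4, ∀ x ∈ {x | idx x = i}, ∀ y, y ∈ {x | idx x = i} ↔ ∃ h : X ≃ₜ X, h x = y := by
    intro i x hx y
    constructor
    · intro hy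
      exact hsame _ _ (hx.trans hy.symm)
    · rintro ⟨h, rfl⟩
      exact (hinv h x).trans hx
  refine ⟨{x | idx x = i}, {x | idx x = j}, hends, ⟨a i, hidxa i⟩, ⟨a j, hidxa j⟩, fun x => ?_,
    fun x hx hx' => hij (hx.symm.trans hx'), orb i, orb j⟩
  rw [hinn]
  constructor
  · rintro ⟨h3, h4⟩
    exact hall _ h3 h4
  · rintro (h | h)
    · have h : idx x = i := h
      rw [h]; exact ⟨hi1, hi2⟩
    · have h : idx x = j := h
      rw [h]; exact ⟨hj1, hj2⟩

end

/-- No fan has exactly four orbits. -/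
theorem no_four : ¬ (∃ (X : Type) (_ : TopologicalSpace X),
      TopologicalSpace.MetrizableSpace X ∧ CompactSpace X ∧ PathConnectedSpace X ∧
      (∀ A B : Set X, IsClosed A → IsConnected A → IsClosed B → IsConnected B →
          IsPreconnected (A ∩ B)) ∧
      (∃! t : X, ∃ γ : Fin 3 → unitInterval → X,
          (∀ i, Continuous (γ i) ∧ Function.Injective (γ i) ∧ γ i 0 = t) ∧
          ∀ i j, i ≠ j → Set.range (γ i) ∩ Set.range (γ j) = {t}) ∧
      ∃ a : Fin 4 → X,
        (∀ i j, (∃ h : X ≃ₜ X, h (a i) = a j) → i = j) ∧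
        ∀ x : X, ∃ i, ∃ h : X ≃ₜ X, h (a i) = x) := by
  rintro ⟨X, τ, hmet, hcomp, hpath, huni, ⟨t, ⟨γ, hγ, hγd⟩, huniq⟩, a, ha1, ha2⟩
  letI : MetricSpace X := TopologicalSpace.metrizableSpaceMetric X
  haveI : Nonempty X := ⟨t⟩
  have F : IsFan X t := by
    refine ⟨fun x y => ?_, huni, ?_, ?_⟩
    · let P := PathConnectedSpace.somePath x y
      exact ⟨P.extend, P.continuous_extend, P.extend_zero, P.extend_one⟩
    · refine ⟨fun i s => γ i (projIcc 0 1 zero_le_one s), fun i => ⟨(hγ i).1.comp continuous_projIcc,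
        ?_, ?_⟩, ?_⟩
      · intro s hs r hr h
        have h3 := (hγ i).2.1 h
        rw [projIcc_of_mem zero_le_one hs, projIcc_of_mem zero_le_one hr] at h3
        exact congrArg Subtype.val h3
      · have : projIcc (0:ℝ) 1 zero_le_one 0 = 0 := projIcc_left zero_le_one
        simp only [this]
        exact (hγ i).2.2
      · intro i j hij
        have e : ∀ i, (fun s => γ i (projIcc 0 1 zero_le_one s)) '' Icc (0:ℝ) 1 = range (γ i) := by
          intro i
          ext z
          constructor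
          · rintro ⟨s, -, rfl⟩; exact ⟨_, rfl⟩
          · rintro ⟨s, rfl⟩
            exact ⟨s, s.2, by simp only [projIcc_val]⟩
        rw [e, e]
        exact hγd i j hij
    · rintro t' ⟨δ, hδ, hδd⟩
      refine huniq t' ⟨fun i s => δ i s, fun i => ⟨(hδ i).1.comp continuous_subtype_val, ?_, ?_⟩, ?_⟩
      · intro s r h
        exact Subtype.ext ((hδ i).2.1 s.2 r.2 h)
      · exact (hδ i).2.2
      · intro i j hij
        have e : ∀ i, range (fun s : unitInterval => δ i s) = δ i '' Icc (0:ℝ) 1 := by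
          intro i
          ext z
          constructor
          · rintro ⟨s, rfl⟩; exact ⟨s, s.2, rfl⟩
          · rintro ⟨s, hs, rfl⟩; exact ⟨⟨s, hs⟩, rfl⟩
        rw [e, e]
        exact hδd i j hij
  obtain ⟨A, B, T⟩ := exists_Two F a ha1 ha2
  exact T.contra F

end Run7.h149.Fan
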